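import Pool.Agent.Lib.MP_9e8697_nt.CW.Defs
import Pool.Agent.Lib.MP_81cdd9_nt.HZ.F4b
import Pool.Agent.Lib.MP_9e8697_nt.CW.F6

section

/-! The formula for the iterates. -/

set_option autoImplicit false

namespace Pool.Agent.MP9e8697.CW

open Finset

theorem cnt_succ (S : Finset ℕ) (k : ℕ) : cnt S (k + 1) = cnt S k + (if k ∈ S then 1 else 0) := by
  unfold cnt
  rw [Finset.card_filter, Finset.card_filter, ← Finset.sum_ite_eq' S k (fun _ => 1),
    ← Finset.sum_add_distrib]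
  refine Finset.sum_congr rfl fun i _ => ?_
  split_ifs <;> omega

theorem cnt_mono (S : Finset ℕ) {k k' : ℕ} (h : k ≤ k') : cnt S k ≤ cnt S k' := by
  unfold cnt
  refine Finset.card_le_card fun i hi => ?_
  rw [Finset.mem_filter] at hi ⊢
  exact ⟨hi.1, by omega⟩

theorem cnt_zero (S : Finset ℕ) : cnt S 0 = 0 := by
  unfold cnt
  simp

theorem cnt_le (S : Finset ℕ) {k k' : ℕ} (h : k ≤ k') : cnt S k' ≤ cnt S k + (k' - k) := by
  obtain ⟨d, rfl⟩ := Nat.exists_eq_add_of_le h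
  induction d with
  | zero => simp
  | succ d ih =>
    have h1 := ih (by omega)
    have h2 := cnt_succ S (k + d)
    rw [← Nat.add_assoc]
    split_ifs at h2 <;> omega

theorem ee_succ (S : Finset ℕ) (k : ℕ) : ee S (k + 1) = ee S k + (if k ∈ S then 2 else 1) := by
  unfold ee
  rw [cnt_succ]
  split_ifs <;> omega

theorem ee_mono (S : Finset ℕ) {k k' : ℕ} (h : k ≤ k') : ee S k ≤ ee S k' := by
  unfold ee
  have := cnt_mono S h
  omega

theorem ee_zero (S : Finset ℕ) : ee S 0 = 0 := by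
  unfold ee
  rw [cnt_zero]

theorem T_even {x : ℤ} (h : x % 2 = 0) : 2 * T x = 3 * x := by
  unfold T
  rw [if_pos h]
  omega

theorem T_odd {x : ℤ} (h : x % 2 = 1) : 4 * T x = 3 * x + (if x % 4 = 3 then -1 else 1) := by
  unfold T
  rw [if_neg (by omega)]
  split_ifs <;> omega

/-- The formula for the iterates. -/
theorem iter_formula (L : ℕ) (n : ℤ) (k : ℕ) (hk : k ≤ L) :
    2 ^ ee (od L n) k * T^[k] n = 3 ^ k * n +
      ∑ i ∈ (od L n).filter (fun i => i < k),
        (if i ∈ up L n then (-1 : ℤ) else 1) * (2 ^ ee (od L n) i * 3 ^ (k - (i + 1))) := by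
  induction k with
  | zero => simp [ee_zero]
  | succ k ih =>
    have ih' := ih (by omega)
    have hsum : ∑ i ∈ (od L n).filter (fun i => i < k),
          (if i ∈ up L n then (-1 : ℤ) else 1) * (2 ^ ee (od L n) i * 3 ^ (k + 1 - (i + 1))) =
        3 * ∑ i ∈ (od L n).filter (fun i => i < k),
          (if i ∈ up L n then (-1 : ℤ) else 1) * (2 ^ ee (od L n) i * 3 ^ (k - (i + 1))) := by
      rw [Finset.mul_sum]
      refine Finset.sum_congr rfl fun i hi => ?_
      rw [Finset.mem_filter] at hi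
      have h4 : k + 1 - (i + 1) = (k - (i + 1)) + 1 := by omega
      rw [h4, pow_succ]
      ring
    rw [Function.iterate_succ_apply']
    by_cases hx : (T^[k] n) % 2 = 1
    · have hk' : k ∈ od L n := by
        rw [od, Finset.mem_filter, Finset.mem_range]
        exact ⟨by omega, hx⟩
      have hu : (if k ∈ up L n then (-1 : ℤ) else 1) = (if (T^[k] n) % 4 = 3 then -1 else 1) := by
        by_cases h3 : (T^[k] n) % 4 = 3
        · rw [if_pos h3, if_pos]
          rw [up, Finset.mem_filter, Finset.mem_range]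
          exact ⟨by omega, h3⟩
        · rw [if_neg h3, if_neg]
          rw [up, Finset.mem_filter]
          exact fun h => h3 h.2
      have hc : ee (od L n) (k + 1) = ee (od L n) k + 2 := by
        rw [ee_succ, if_pos hk']
      have hf : (od L n).filter (fun i => i < k + 1) =
          insert k ((od L n).filter (fun i => i < k)) := by
        ext i
        rw [Finset.mem_insert, Finset.mem_filter, Finset.mem_filter]
        constructor
        · rintro ⟨h1, h2⟩
          rcases Nat.lt_or_ge i k with h3 | h3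
          · exact Or.inr ⟨h1, h3⟩
          · exact Or.inl (by omega)
        · rintro (h1 | h1)
          · rw [h1]
            exact ⟨hk', by omega⟩
          · exact ⟨h1.1, by omega⟩
      have hnm : k ∉ (od L n).filter (fun i => i < k) := by
        rw [Finset.mem_filter]
        omega
      rw [hf, Finset.sum_insert hnm, hsum, hc, Nat.sub_self, pow_zero, mul_one, hu, pow_add,
        pow_succ 3 k]
      have h4 := T_odd hx
      linear_combination (2 ^ ee (od L n) k) * h4 + 3 * ih'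
    · have hk' : k ∉ od L n := by
        rw [od, Finset.mem_filter]
        exact fun h => hx h.2
      have hc : ee (od L n) (k + 1) = ee (od L n) k + 1 := by
        rw [ee_succ, if_neg hk']
      have hf : (od L n).filter (fun i => i < k + 1) =
          (od L n).filter (fun i => i < k) := by
        ext i
        rw [Finset.mem_filter, Finset.mem_filter]
        constructor
        · rintro ⟨h1, h2⟩
          refine ⟨h1, ?_⟩
          rcases Nat.lt_or_ge i k with h3 | h3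
          · exact h3
          · have h4 : i = k := by omega
            rw [h4] at h1
            exact absurd h1 hk'
        · rintro h1
          exact ⟨h1.1, by omega⟩
      rw [hf, hsum, hc, pow_succ 2, pow_succ 3 k]
      have h4 := T_even (x := T^[k] n) (by omega)
      linear_combination (2 ^ ee (od L n) k) * h4 + 3 * ih'

theorem cnt_od (k : ℕ) (n : ℤ) : cnt (od k n) k = (od k n).card := by
  unfold cnt
  congr 1
  rw [Finset.filter_eq_self]
  intro i hi
  rw [od, Finset.mem_filter, Finset.mem_range] at hi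
  exact hi.1

theorem up_subset (k : ℕ) (n : ℤ) : up k n ⊆ od k n := by
  intro i hi
  rw [up, Finset.mem_filter] at hi
  rw [od, Finset.mem_filter]
  exact ⟨hi.1, by omega⟩

/-- an inverse of 3 modulo `2^K` -/
theorem exists_inv (K : ℕ) : ∃ z : ℤ, (2 : ℤ) ^ K ∣ 3 * z - 1 := by
  have h : IsCoprime (3 : ℤ) (2 ^ K) := by
    apply IsCoprime.pow_right
    exact ⟨1, -1, by norm_num⟩
  obtain ⟨a, b, hab⟩ := h
  exact ⟨a, ⟨-b, by linear_combination hab⟩⟩

end Pool.Agent.MP9e8697.CW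
end

section

/-! The code of a trajectory. -/

set_option autoImplicit false

namespace Pool.Agent.MP9e8697.CW

open Finset

theorem NN_alt (z : ℤ) (k : ℕ) (n : ℤ) :
    NN z (od k n) (up k n) = -∑ i ∈ od k n, (if i ∈ up k n then (-1 : ℤ) else 1) * (2 ^ ee (od k n) i * z ^ (i + 1)) := by
  have h1 : ∑ i ∈ up k n, gam z (od k n) i =
      ∑ i ∈ od k n, if i ∈ up k n then (2 ^ (ee (od k n) i + 1) * z ^ (i + 1) : ℤ) else 0 := by
    rw [← Finset.sum_filter]
    have h2 : (od k n).filter (fun i => i ∈ up k n) = up k n := by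
      ext i
      rw [Finset.mem_filter]
      exact ⟨fun h => h.2, fun h => ⟨up_subset k n h, h⟩⟩
    rw [h2]
    refine Finset.sum_congr rfl fun i hi => ?_
    unfold gam
    rw [if_pos (up_subset k n hi)]
  unfold NN x0
  rw [h1, ← Finset.sum_neg_distrib, ← Finset.sum_neg_distrib, ← Finset.sum_add_distrib]
  refine Finset.sum_congr rfl fun i _ => ?_
  split_ifs
  · rw [pow_succ]
    ring
  · ring

/-- `N(od, up) = n - 2^(e_k) z^k T^[k] n` modulo `2^K`. -/
theorem NN_eq (K k : ℕ) (z n : ℤ) (hz : (2 : ℤ) ^ K ∣ 3 * z - 1) :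
    (2 : ℤ) ^ K ∣ NN z (od k n) (up k n) - (n - 2 ^ ee (od k n) k * (z ^ k * T^[k] n)) := by
  have hpow : ∀ a : ℕ, (2 : ℤ) ^ K ∣ (3 * z) ^ a - 1 := by
    intro a
    have h1 : 3 * z - 1 ∣ (3 * z) ^ a - 1 ^ a := sub_dvd_pow_sub_pow _ _ a
    rw [one_pow] at h1
    exact hz.trans h1
  have hlt : ∀ i ∈ od k n, i < k := by
    intro i hi
    rw [od, Finset.mem_filter, Finset.mem_range] at hi
    exact hi.1
  have hfil : (od k n).filter (fun i => i < k) = od k n := by
    rw [Finset.filter_eq_self]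
    exact hlt
  have hit := iter_formula k n k le_rfl
  rw [hfil] at hit
  have hEq : NN z (od k n) (up k n) - (n - 2 ^ ee (od k n) k * (z ^ k * T^[k] n)) =
      ((3 * z) ^ k - 1) * n + ∑ i ∈ od k n,
        ((if i ∈ up k n then (-1 : ℤ) else 1) * 2 ^ ee (od k n) i) *
          (z ^ k * 3 ^ (k - (i + 1)) - z ^ (i + 1)) := by
    have h1 : ∑ i ∈ od k n,
        ((if i ∈ up k n then (-1 : ℤ) else 1) * 2 ^ ee (od k n) i) *
          (z ^ k * 3 ^ (k - (i + 1)) - z ^ (i + 1)) =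
        z ^ k * ∑ i ∈ od k n,
          (if i ∈ up k n then (-1 : ℤ) else 1) * (2 ^ ee (od k n) i * 3 ^ (k - (i + 1))) -
        ∑ i ∈ od k n, (if i ∈ up k n then (-1 : ℤ) else 1) * (2 ^ ee (od k n) i * z ^ (i + 1)) := by
      rw [Finset.mul_sum, ← Finset.sum_sub_distrib]
      refine Finset.sum_congr rfl fun i _ => ?_
      ring
    rw [h1, NN_alt, mul_pow]
    linear_combination z ^ k * hit
  rw [hEq]
  refine dvd_add (Dvd.dvd.mul_right (hpow _) _) (Finset.dvd_sum fun i hi => ?_)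
  refine Dvd.dvd.mul_left ?_ _
  have h2 := hlt i hi
  have h3 : z ^ k * 3 ^ (k - (i + 1)) - z ^ (i + 1) =
      z ^ (i + 1) * ((3 * z) ^ (k - (i + 1)) - 1) := by
    have h4 : z ^ k = z ^ (i + 1) * z ^ (k - (i + 1)) := by
      rw [← pow_add]
      congr 1
      omega
    rw [h4, mul_pow]
    ring
  rw [h3]
  exact Dvd.dvd.mul_left (hpow _) _

/-- The code determines the residue modulo `2^(e_k)`. -/
theorem code_inj (k : ℕ) (n n' : ℤ) (h : od k n = od k n') (h' : up k n = up k n') :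
    (2 : ℤ) ^ ee (od k n) k ∣ n - n' := by
  have h1 := iter_formula k n k le_rfl
  have h2 := iter_formula k n' k le_rfl
  rw [← h, ← h'] at h2
  have h3 : (2 : ℤ) ^ ee (od k n) k ∣ 3 ^ k * (n - n') :=
    ⟨T^[k] n - T^[k] n', by linear_combination h2 - h1⟩
  have h4 : IsCoprime ((2 : ℤ) ^ ee (od k n) k) (3 ^ k) := by
    apply IsCoprime.pow
    exact ⟨-1, 1, by norm_num⟩
  exact h4.dvd_of_dvd_mul_left h3

/-- a time at which exactly `L` or `L - 1` digits have been used -/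
theorem aligned (L : ℕ) (n : ℤ) : ∃ k, ee (od k n) k = L ∨ ee (od k n) k + 1 = L := by
  induction L with
  | zero => exact ⟨0, Or.inl (ee_zero _)⟩
  | succ L ih =>
    obtain ⟨k, hk | hk⟩ := ih
    · exact ⟨k, Or.inr (by omega)⟩
    · refine ⟨k + 1, ?_⟩
      have h1 : ee (od (k + 1) n) (k + 1) = ee (od (k + 1) n) k + (if k ∈ od (k + 1) n then 2 else 1) :=
        ee_succ _ _
      have h2 : ee (od (k + 1) n) k = ee (od k n) k := by
        unfold ee cnt
        congr 2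
        ext i
        simp only [od, Finset.mem_filter, Finset.mem_range]
        constructor
        · rintro ⟨⟨h3, h4⟩, h5⟩
          exact ⟨⟨h5, h4⟩, h5⟩
        · rintro ⟨⟨h3, h4⟩, h5⟩
          exact ⟨⟨by omega, h4⟩, h5⟩
      split_ifs at h1
      · left; omega
      · right; omega

/-- one step -/
theorem T_congr (j : ℕ) (x y : ℤ) (h : (2 : ℤ) ^ (j + 2) ∣ x - y) : (2 : ℤ) ^ j ∣ T x - T y := by
  obtain ⟨c, hc⟩ := h
  rw [pow_add] at hc
  have h4 : x - y = 4 * (2 ^ j * c) := by rw [hc]; ring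
  by_cases hx : x % 2 = 0
  · have hy : y % 2 = 0 := by omega
    have h1 := T_even hx
    have h2 := T_even hy
    refine ⟨6 * c, ?_⟩
    have h3 : 2 * (T x - T y) = 2 * (2 ^ j * (6 * c)) := by
      have : 2 * (T x - T y) = 3 * (x - y) := by linarith
      rw [this, h4]
      ring
    exact mul_left_cancel₀ (by norm_num) h3
  · have hx1 : x % 2 = 1 := by omega
    have hy1 : y % 2 = 1 := by omega
    have h1 := T_odd hx1
    have h2 := T_odd hy1
    have hm : (x % 4 = 3) ↔ (y % 4 = 3) := by omega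
    refine ⟨3 * c, ?_⟩
    have h3 : 4 * (T x - T y) = 4 * (2 ^ j * (3 * c)) := by
      have : 4 * (T x - T y) = 3 * (x - y) := by
        by_cases h5 : x % 4 = 3
        · rw [if_pos h5] at h1
          rw [if_pos (hm.1 h5)] at h2
          linarith
        · rw [if_neg h5] at h1
          rw [if_neg (fun h => h5 (hm.2 h))] at h2
          linarith
      rw [this, h4]
      ring
    exact mul_left_cancel₀ (by norm_num) h3

theorem iter_congr (J k : ℕ) (hk : 2 * k ≤ J) (x y : ℤ) (h : (2 : ℤ) ^ J ∣ x - y) :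
    (2 : ℤ) ^ (J - 2 * k) ∣ T^[k] x - T^[k] y := by
  induction k with
  | zero => simpa using h
  | succ k ih =>
    have h1 := ih (by omega)
    rw [Function.iterate_succ_apply', Function.iterate_succ_apply']
    apply T_congr
    rw [show J - 2 * (k + 1) + 2 = J - 2 * k by omega]
    exact h1

theorem od_congr (J k : ℕ) (hk : 2 * k ≤ J) (x y : ℤ) (h : (2 : ℤ) ^ J ∣ x - y) : od k x = od k y := by
  unfold od
  refine filter_congr fun i hi => ?_
  rw [mem_range] at hi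
  have h1 := iter_congr J i (by omega) x y h
  have h2 : (2 : ℤ) ∣ T^[i] x - T^[i] y := (dvd_pow_self 2 (by omega)).trans h1
  omega

theorem od_mod (J k : ℕ) (hk : 2 * k ≤ J) (x : ℤ) : od k (x % 2 ^ J) = od k x := by
  refine od_congr J k hk _ _ ⟨-(x / 2 ^ J), ?_⟩
  have := Int.emod_add_mul_ediv x (2 ^ J)
  linarith

end Pool.Agent.MP9e8697.CW
end

section

/-! Counting by codes. -/

set_option autoImplicit false

namespace Pool.Agent.MP9e8697.CW

open Finset

theorem card_le_of_congr (e J : ℕ) (he : e ≤ J) (a : ℤ) (A : Finset ℤ) (hA : ∀ x ∈ A, a ≤ x ∧ x < a + 2 ^ J)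
    (h : ∀ x ∈ A, ∀ y ∈ A, (2 : ℤ) ^ e ∣ x - y) : A.card ≤ 2 ^ (J - e) := by
  classical
  have hP : (0 : ℤ) < 2 ^ e := by positivity
  have hcard : (Finset.Ico (0 : ℤ) (2 ^ (J - e))).card = 2 ^ (J - e) := by
    rw [Int.card_Ico, sub_zero]
    have : ((2 : ℤ) ^ (J - e)) = ((2 ^ (J - e) : ℕ) : ℤ) := by push_cast; rfl
    rw [this, Int.toNat_natCast]
  rw [← hcard]
  apply Finset.card_le_card_of_injOn (fun x => (x - a) / 2 ^ e)
  · intro x hx
    obtain ⟨h1, h2⟩ := hA x (Finset.mem_coe.1 hx)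
    rw [Finset.mem_coe, Finset.mem_Ico]
    constructor
    · exact Int.ediv_nonneg (by linarith) hP.le
    · apply Int.ediv_lt_of_lt_mul hP
      rw [← pow_add, Nat.sub_add_cancel he]
      linarith
  · intro x hx y hy hxy
    have h1 := h x (Finset.mem_coe.1 hx) y (Finset.mem_coe.1 hy)
    have hxy' : (x - a) / 2 ^ e = (y - a) / 2 ^ e := hxy
    have h2 := Int.mul_ediv_add_emod (x - a) (2 ^ e)
    have h3 := Int.mul_ediv_add_emod (y - a) (2 ^ e)
    have h4 : (x - a) % 2 ^ e = (y - a) % 2 ^ e := by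
      have h5 : (2 : ℤ) ^ e ∣ (x - a) - (y - a) := by
        have h6 : x - a - (y - a) = x - y := by ring
        rw [h6]
        exact h1
      exact ((Int.modEq_iff_dvd (n := 2 ^ e) (a := y - a) (b := x - a)).2 h5).symm
    rw [hxy', h4] at h2
    linarith

/-- The residues with a given set of odd times. -/
theorem card_od (J k : ℕ) (hk : 2 * k ≤ J) (S : Finset ℕ) (hS : S ⊆ range k) :
    ((Ico (0 : ℤ) (2 ^ J)).filter (fun r => od k r = S)).card ≤ 2 ^ (J - k) := by
  classical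
  have hSk : S.card ≤ k := by
    have := card_le_card hS
    rwa [card_range] at this
  have hmaps : ∀ r ∈ (Ico (0 : ℤ) (2 ^ J)).filter (fun r => od k r = S), up k r ∈ S.powerset := by
    intro r hr
    rw [mem_filter] at hr
    rw [mem_powerset, ← hr.2]
    exact up_subset k r
  rw [card_eq_sum_card_fiberwise hmaps]
  have hone : ∀ U ∈ S.powerset, (((Ico (0 : ℤ) (2 ^ J)).filter (fun r => od k r = S)).filter
      (fun r => up k r = U)).card ≤ 2 ^ (J - (k + S.card)) := by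
    intro U _
    apply card_le_of_congr (k + S.card) J (by omega) 0
    · intro x hx
      rw [mem_filter, mem_filter, mem_Ico] at hx
      exact ⟨hx.1.1.1, by rw [zero_add]; exact hx.1.1.2⟩
    · intro x hx y hy
      rw [mem_filter, mem_filter] at hx hy
      have h1 := code_inj k x y (by rw [hx.1.2, hy.1.2]) (by rw [hx.2, hy.2])
      have h2 : ee (od k x) k = k + S.card := by
        unfold ee
        rw [cnt_od, hx.1.2]
      rw [h2] at h1
      exact h1
  refine (sum_le_card_nsmul _ _ _ hone).trans ?_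
  rw [card_powerset, smul_eq_mul, ← pow_add]
  exact Nat.pow_le_pow_right (by norm_num) (by omega)

/-- Transfer of counts in a block to codes. -/
theorem transfer (L k : ℕ) (k0 : ℤ) (G : Finset ℕ → Finset ℕ → Prop) [∀ S, DecidablePred (G S)] :
    ((Ico (k0 * 2 ^ L) ((k0 + 1) * 2 ^ L)).filter
      (fun n => ee (od k n) k = L ∧ G (od k n) (up k n))).card ≤
      ∑ S ∈ (range k).powerset.filter (fun S => k + S.card = L), (S.powerset.filter (G S)).card := by
  classical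
  rw [← card_sigma]
  refine Finset.card_le_card_of_injOn (fun n => (⟨od k n, up k n⟩ : (_ : Finset ℕ) × Finset ℕ)) ?_ ?_
  · intro n hn
    rw [mem_coe, mem_filter] at hn
    rw [mem_coe, mem_sigma, mem_filter, mem_filter, mem_powerset, mem_powerset]
    refine ⟨⟨Finset.filter_subset _ _, ?_⟩, up_subset k n, hn.2.2⟩
    have := hn.2.1
    unfold ee at this
    rw [cnt_od] at this
    exact this
  · intro n hn n' hn' h
    rw [mem_coe, mem_filter, mem_Ico] at hn hn'
    have h1 : od k n = od k n' := congrArg Sigma.fst h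
    have h2 : up k n = up k n' := by
      have h3 := h
      simp only [Sigma.mk.injEq, heq_eq_eq] at h3
      exact h3.2
    have h3 := code_inj k n n' h1 h2
    rw [hn.2.1] at h3
    obtain ⟨t, ht⟩ := h3
    have hp : (0 : ℤ) < 2 ^ L := by positivity
    have h4 : |n - n'| < 2 ^ L := by
      rw [abs_lt]
      constructor <;> nlinarith [hn.1.1, hn.1.2, hn'.1.1, hn'.1.2]
    have h5 : t = 0 := by
      by_contra hne
      have h6 : 1 ≤ |t| := Int.one_le_abs hne
      rw [ht, abs_mul, abs_of_pos hp] at h4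
      nlinarith
    rw [h5, mul_zero] at ht
    linarith

/-- The choices outside `S` do not matter. -/
theorem restrict (k : ℕ) (S : Finset ℕ) (hS : S ⊆ range k) (P : Finset ℕ → Prop) [DecidablePred P] :
    (S.powerset.filter P).card * 2 ^ (k - S.card) ≤
      ((range k).powerset.filter (fun U => P (U ∩ S))).card := by
  classical
  have h1 : ((range k) \ S).powerset.card = 2 ^ (k - S.card) := by
    rw [card_powerset, card_sdiff_of_subset hS, card_range]
  rw [← h1, ← card_product]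
  refine Finset.card_le_card_of_injOn (fun p => p.1 ∪ p.2) ?_ ?_
  · intro p hp
    rw [mem_coe, mem_product, mem_filter, mem_powerset, mem_powerset] at hp
    have h2 : (p.1 ∪ p.2) ∩ S = p.1 := by
      ext i
      rw [mem_inter, mem_union]
      constructor
      · rintro ⟨h3 | h3, h4⟩
        · exact h3
        · exact absurd h4 (mem_sdiff.1 (hp.2 h3)).2
      · intro h3
        exact ⟨Or.inl h3, hp.1.1 h3⟩
    rw [mem_coe, mem_filter, mem_powerset, h2]
    refine ⟨union_subset (hp.1.1.trans hS) (hp.2.trans sdiff_subset), hp.1.2⟩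
  · intro p hp q hq h
    rw [mem_coe, mem_product, mem_filter, mem_powerset, mem_powerset] at hp hq
    have h' : p.1 ∪ p.2 = q.1 ∪ q.2 := h
    have key : ∀ i, (i ∈ p.1 ∨ i ∈ p.2) ↔ (i ∈ q.1 ∨ i ∈ q.2) := by
      intro i
      rw [← mem_union, ← mem_union, h']
    refine Prod.ext ?_ ?_
    · ext i
      constructor
      · intro hi
        rcases (key i).1 (Or.inl hi) with h3 | h3
        · exact h3
        · exact absurd (hp.1.1 hi) (mem_sdiff.1 (hq.2 h3)).2
      · intro hi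
        rcases (key i).2 (Or.inl hi) with h3 | h3
        · exact h3
        · exact absurd (hq.1.1 hi) (mem_sdiff.1 (hp.2 h3)).2
    · ext i
      constructor
      · intro hi
        rcases (key i).1 (Or.inr hi) with h3 | h3
        · exact absurd (hq.1.1 h3) (mem_sdiff.1 (hp.2 hi)).2
        · exact h3
      · intro hi
        rcases (key i).2 (Or.inr hi) with h3 | h3
        · exact absurd (hp.1.1 h3) (mem_sdiff.1 (hq.2 hi)).2
        · exact h3

theorem NN_inter (z : ℤ) (S U : Finset ℕ) : NN z S (U ∩ S) = NN z S U := by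
  unfold NN
  congr 1
  refine Finset.sum_subset inter_subset_left ?_
  intro i hi hni
  unfold gam
  rw [if_neg]
  intro hS
  exact hni (mem_inter.2 ⟨hi, hS⟩)

end Pool.Agent.MP9e8697.CW
end

section

/-! Typical sets. -/

set_option autoImplicit false

namespace Pool.Agent.MP9e8697.CW

open Finset

/-- Many elements in `A`. -/
theorem many_ones (L : ℕ) (A : Finset ℕ) (hA : A ⊆ range L) (a b : ℕ) (hab : A.card ≤ a + b) (z : ℝ) (hz : 0 < z) (hz1 : z ≤ 1) :
    (((range L).powerset.filter (fun S => a ≤ (S ∩ A).card)).card : ℝ) * z ^ b ≤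
      (1 + z) ^ A.card * 2 ^ (L - A.card) := by
  classical
  have h1 := Pool.Agent.MP81cdd9.HZ.few_ones L A hA b z hz hz1
  refine le_trans (mul_le_mul_of_nonneg_right ?_ (by positivity)) h1
  have h2 : ((range L).powerset.filter (fun S => a ≤ (S ∩ A).card)).card ≤
      ((range L).powerset.filter (fun S => (S ∩ A).card ≤ b)).card := by
    apply Finset.card_le_card_of_injOn (fun S => range L \ S)
    · intro S hS
      rw [mem_coe, mem_filter, mem_powerset] at hS
      rw [mem_coe, mem_filter, mem_powerset]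
      refine ⟨sdiff_subset, ?_⟩
      have h3 : (range L \ S) ∩ A = A \ (S ∩ A) := by
        ext i
        rw [mem_inter, mem_sdiff, mem_sdiff, mem_inter]
        constructor
        · rintro ⟨⟨h4, h5⟩, h6⟩
          exact ⟨h6, fun h => h5 h.1⟩
        · rintro ⟨h4, h5⟩
          exact ⟨⟨hA h4, fun h => h5 ⟨h, h4⟩⟩, h4⟩
      rw [h3, card_sdiff_of_subset inter_subset_right]
      omega
    · intro S hS S' hS' h
      rw [mem_coe, mem_filter, mem_powerset] at hS hS'
      have h' : range L \ S = range L \ S' := h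
      rw [← Finset.sdiff_sdiff_eq_self hS.1, ← Finset.sdiff_sdiff_eq_self hS'.1, h']
  exact_mod_cast h2

theorem cnt_add_inter (S : Finset ℕ) (a b : ℕ) (h : a ≤ b) : cnt S b = cnt S a + (S ∩ Ico a b).card := by
  unfold cnt
  rw [← card_union_of_disjoint]
  · congr 1
    ext i
    rw [mem_union, mem_filter, mem_filter, mem_inter, mem_Ico]
    constructor
    · rintro ⟨h1, h2⟩
      rcases lt_or_ge i a with h3 | h3
      · exact Or.inl ⟨h1, h3⟩
      · exact Or.inr ⟨h1, h3, h2⟩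
    · rintro (⟨h1, h2⟩ | ⟨h1, h2, h3⟩)
      · exact ⟨h1, h2.trans_le h⟩
      · exact ⟨h1, h3⟩
  · rw [disjoint_left]
    intro i h1 h2
    have h3 := (mem_filter.1 h1).2
    have h4 := (mem_Ico.1 (mem_inter.1 h2).2).1
    omega

/-- the rate for (C1) -/
noncomputable def q1 : ℝ := (20 / 11) ^ 20 / (2 ^ 20 * (9 / 11) ^ 9)

theorem q1_lt : 0 < q1 ∧ q1 < 1 := by
  unfold q1
  constructor
  · positivity
  · rw [div_lt_one (by positivity)]
    norm_num

theorem q1_seven : q1 ^ 7 ≤ 1 / 2 := by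
  unfold q1
  norm_num

open Classical in
theorem card_notC1 (k m : ℕ) (hm : 1 ≤ m) :
    (((range k).powerset.filter (fun S => ¬ C1 S m k)).card : ℝ) ≤ k * (q1 ^ m * 2 ^ k) := by
  set I : Finset ℕ := (range k).filter fun c => (c + 1) * (20 * m) ≤ k with hI
  set A : ℕ → Finset ℕ := fun c => Ico (c * (20 * m)) ((c + 1) * (20 * m)) with hA
  have hAc : ∀ c, (A c).card = 20 * m := by
    intro c
    rw [hA]
    show (Ico (c * (20 * m)) ((c + 1) * (20 * m))).card = 20 * m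
    rw [Nat.card_Ico]
    have : (c + 1) * (20 * m) = c * (20 * m) + 20 * m := by ring
    omega
  have hAL : ∀ c ∈ I, A c ⊆ range k := by
    intro c hc i hi
    rw [hI, mem_filter] at hc
    have hi' : i ∈ Ico (c * (20 * m)) ((c + 1) * (20 * m)) := hi
    rw [mem_Ico] at hi'
    rw [mem_range]
    omega
  have hsub : (range k).powerset.filter (fun S => ¬ C1 S m k) ⊆
      I.biUnion fun c => (range k).powerset.filter fun S => 11 * m ≤ (S ∩ A c).card := by
    intro S hS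
    rw [mem_filter] at hS
    obtain ⟨hS1, hS2⟩ := hS
    unfold C1 at hS2
    push Not at hS2
    obtain ⟨c, hc, hlt⟩ := hS2
    rw [mem_biUnion]
    refine ⟨c, ?_, ?_⟩
    · rw [hI, mem_filter, mem_range]
      refine ⟨?_, hc⟩
      have h1 : (c + 1) * 1 ≤ (c + 1) * (20 * m) := Nat.mul_le_mul_left _ (by omega)
      omega
    · rw [mem_filter]
      refine ⟨hS1, ?_⟩
      have h1 := cnt_add_inter S (c * (20 * m)) ((c + 1) * (20 * m))
        (Nat.mul_le_mul_right _ (Nat.le_succ c))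
      show 11 * m ≤ (S ∩ Ico (c * (20 * m)) ((c + 1) * (20 * m))).card
      omega
  have hq := q1_lt
  have hbound : ∀ c ∈ I, (((range k).powerset.filter fun S => 11 * m ≤ (S ∩ A c).card).card : ℝ) ≤
      q1 ^ m * 2 ^ k := by
    intro c hc
    have h1 := many_ones k (A c) (hAL c hc) (11 * m) (9 * m) (by rw [hAc c]; omega) (9 / 11) (by norm_num) (by norm_num)
    rw [hAc c] at h1
    have h20 : 20 * m ≤ k := by
      have h2 := card_le_card (hAL c hc)
      rw [hAc c, card_range] at h2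
      exact h2
    have h2 : (0 : ℝ) < (9 / 11) ^ (9 * m) := by positivity
    rw [← le_div_iff₀ h2] at h1
    refine h1.trans (le_of_eq ?_)
    have h3 : (2 : ℝ) ^ (k - 20 * m) = 2 ^ k / 2 ^ (20 * m) := by
      rw [eq_div_iff (by positivity), ← pow_add, Nat.sub_add_cancel h20]
    have h4 : (1 + (9 : ℝ) / 11) = 20 / 11 := by norm_num
    have h7 : q1 ^ m = ((20 / 11 : ℝ) ^ 20) ^ m / (((2 : ℝ) ^ 20) ^ m * ((9 / 11 : ℝ) ^ 9) ^ m) := by
      rw [q1, div_pow, mul_pow]
    rw [h3, h4, h7, pow_mul, pow_mul, pow_mul]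
    have e1 : (0 : ℝ) < ((2 : ℝ) ^ 20) ^ m := by positivity
    have e2 : (0 : ℝ) < ((9 / 11 : ℝ) ^ 9) ^ m := by positivity
    generalize ((20 / 11 : ℝ) ^ 20) ^ m = a
    generalize ((2 : ℝ) ^ 20) ^ m = b at e1 ⊢
    generalize ((9 / 11 : ℝ) ^ 9) ^ m = c' at e2 ⊢
    generalize (2 : ℝ) ^ k = d
    field_simp
  have h1 : (((range k).powerset.filter (fun S => ¬ C1 S m k)).card : ℝ) ≤
      ∑ c ∈ I, (((range k).powerset.filter fun S => 11 * m ≤ (S ∩ A c).card).card : ℝ) := by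
    have h2 := (card_le_card hsub).trans card_biUnion_le
    exact_mod_cast h2
  refine h1.trans ((sum_le_sum hbound).trans ?_)
  rw [sum_const, nsmul_eq_mul]
  have hIc : (I.card : ℝ) ≤ k := by
    have h2 : I.card ≤ k := by
      rw [hI]
      refine (card_filter_le _ _).trans ?_
      rw [card_range]
    exact_mod_cast h2
  have hpos : (0 : ℝ) ≤ q1 ^ m * 2 ^ k := by
    have := hq.1
    positivity
  exact mul_le_mul_of_nonneg_right hIc hpos

theorem avoid_count (k : ℕ) (Y : Finset ℕ) (hY : Y ⊆ range k) :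
    ((range k).powerset.filter (fun S => ∀ j ∈ Y, j ∉ S)).card * 2 ^ Y.card ≤ 2 ^ k := by
  have h1 : ((range k).powerset.filter (fun S => ∀ j ∈ Y, j ∉ S)).card ≤
      ((range k) \ Y).powerset.card := by
    refine card_le_card ?_
    intro S hS
    rw [mem_filter, mem_powerset] at hS
    rw [mem_powerset]
    intro i hi
    rw [mem_sdiff]
    exact ⟨hS.1 hi, fun h => hS.2 i h hi⟩
  rw [card_powerset, card_sdiff_of_subset hY, card_range] at h1
  have h2 : Y.card ≤ k := by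
    have := card_le_card hY
    rwa [card_range] at this
  calc ((range k).powerset.filter (fun S => ∀ j ∈ Y, j ∉ S)).card * 2 ^ Y.card
      ≤ 2 ^ (k - Y.card) * 2 ^ Y.card := Nat.mul_le_mul_right _ h1
    _ = 2 ^ k := by rw [← pow_add, Nat.sub_add_cancel h2]

open Classical in
/-- Sets with prescribed void windows. -/
theorem void_count (k ρ r : ℕ) (U : Finset ℕ) (hU : ∀ x ∈ U, x < k ∧ x % ρ = r) :
    ((range k).powerset.filter (fun S => ∀ x ∈ U, voidAt S ρ x)).card * 2 ^ (ρ * U.card) ≤ 2 ^ k := by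
  by_cases hx : ∀ x ∈ U, ρ ≤ x + 1
  · set Y : Finset ℕ := U.biUnion fun x => (range ρ).image fun i => x - i with hYdef
    have hc1 : ∀ x ∈ U, ((range ρ).image fun i => x - i).card = ρ := by
      intro x hxU
      rw [card_image_of_injOn, card_range]
      intro i hi j hj hij
      rw [coe_range, Set.mem_Iio] at hi hj
      have h1 : x - i = x - j := hij
      have h2 := hx x hxU
      omega
    have hdis : ∀ x ∈ U, ∀ y ∈ U, x ≠ y →
        Disjoint ((range ρ).image fun i => x - i) ((range ρ).image fun i => y - i) := by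
      intro x hxU y hyU hxy
      rw [disjoint_left]
      intro v hv hv'
      rw [mem_image] at hv hv'
      obtain ⟨i, hi, rfl⟩ := hv
      obtain ⟨j, hj, hij⟩ := hv'
      rw [mem_range] at hi hj
      have h1 := hx x hxU
      have h2 := hx y hyU
      have h3 := (hU x hxU).2
      have h4 := (hU y hyU).2
      apply hxy
      have hmod : x % ρ = y % ρ := by rw [h3, h4]
      rcases Nat.le_total x y with h5 | h5
      · have h6 : ρ ∣ y - x := (Nat.modEq_iff_dvd' h5).mp hmod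
        have h7 : y - x < ρ := by omega
        have h8 := Nat.eq_zero_of_dvd_of_lt h6 h7
        omega
      · have h6 : ρ ∣ x - y := (Nat.modEq_iff_dvd' h5).mp hmod.symm
        have h7 : x - y < ρ := by omega
        have h8 := Nat.eq_zero_of_dvd_of_lt h6 h7
        omega
    have hYc : Y.card = ρ * U.card := by
      rw [hYdef, card_biUnion hdis, sum_congr rfl hc1, sum_const, smul_eq_mul, mul_comm]
    have hYL : Y ⊆ range k := by
      intro j hj
      rw [hYdef, mem_biUnion] at hj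
      obtain ⟨x, hxU, hj⟩ := hj
      rw [mem_image] at hj
      obtain ⟨i, _, rfl⟩ := hj
      have := (hU x hxU).1
      rw [mem_range]
      omega
    have h1 := avoid_count k Y hYL
    rw [hYc] at h1
    refine le_trans (Nat.mul_le_mul_right _ (card_le_card ?_)) h1
    intro S hS
    rw [mem_filter] at hS ⊢
    refine ⟨hS.1, fun j hj => ?_⟩
    rw [hYdef, mem_biUnion] at hj
    obtain ⟨x, hxU, hj⟩ := hj
    rw [mem_image] at hj
    obtain ⟨i, hi, rfl⟩ := hj
    exact (hS.2 x hxU).2 i (mem_range.mp hi)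
  · push Not at hx
    obtain ⟨x, hxU, hx⟩ := hx
    have h1 : ((range k).powerset.filter (fun S => ∀ x ∈ U, voidAt S ρ x)) = ∅ := by
      rw [filter_eq_empty_iff]
      intro S _ h
      have := (h x hxU).1
      omega
    rw [h1, card_empty, zero_mul]
    exact Nat.zero_le _

open Classical in
/-- Sets without (C2), `l = ρ a`. -/
theorem card_notC2 (k ρ a Kc : ℕ) (hρ : 1 ≤ ρ) (ha : 1 ≤ a) :
    (((range k).powerset.filter (fun S => ¬ C2 S ρ (ρ * a) Kc k)).card : ℝ) * 2 ^ (ρ * Kc) ≤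
      k * ρ * 2 ^ a * 2 ^ k := by
  set I : Finset ℕ := (range k).filter fun c => (c + 1) * (ρ * a) ≤ k with hI
  set X : ℕ → ℕ → Finset ℕ := fun c r =>
    (Ico (c * (ρ * a)) ((c + 1) * (ρ * a))).filter fun x => x % ρ = r with hX
  set W : Finset ℕ → Finset (Finset ℕ) := fun U =>
    (range k).powerset.filter fun S => ∀ x ∈ U, voidAt S ρ x with hW
  have hXc : ∀ c r, (X c r).card ≤ a := by
    intro c r
    have h1 : (X c r).card ≤ (Ico (a * c) (a * (c + 1))).card := by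
      refine card_le_card_of_injOn (fun x => x / ρ) ?_ ?_
      · intro x hx
        have hx' : x ∈ (Ico (c * (ρ * a)) ((c + 1) * (ρ * a))).filter fun x => x % ρ = r := hx
        rw [mem_filter, mem_Ico] at hx'
        obtain ⟨⟨h2, h3⟩, _⟩ := hx'
        rw [mem_coe, mem_Ico]
        constructor
        · show a * c ≤ x / ρ
          rw [Nat.le_div_iff_mul_le hρ]
          calc a * c * ρ = c * (ρ * a) := by ring
            _ ≤ x := h2
        · show x / ρ < a * (c + 1)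
          rw [Nat.div_lt_iff_lt_mul hρ]
          calc x < (c + 1) * (ρ * a) := h3
            _ = a * (c + 1) * ρ := by ring
      · intro x hx y hy hxy
        have hx' : x ∈ (Ico (c * (ρ * a)) ((c + 1) * (ρ * a))).filter fun x => x % ρ = r := hx
        have hy' : y ∈ (Ico (c * (ρ * a)) ((c + 1) * (ρ * a))).filter fun x => x % ρ = r := hy
        rw [mem_filter] at hx' hy'
        have h2 : x / ρ = y / ρ := hxy
        rw [← Nat.div_add_mod x ρ, ← Nat.div_add_mod y ρ, h2, hx'.2, hy'.2]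
    rw [Nat.card_Ico] at h1
    have h2 : a * (c + 1) = a * c + a := by ring
    omega
  have hsub : (range k).powerset.filter (fun S => ¬ C2 S ρ (ρ * a) Kc k) ⊆
      I.biUnion fun c => (range ρ).biUnion fun r =>
        ((X c r).powerset.filter fun U => U.card = Kc).biUnion W := by
    intro S hS
    rw [mem_filter] at hS
    obtain ⟨hS1, hS2⟩ := hS
    unfold C2 at hS2
    push Not at hS2
    obtain ⟨c, hc, r, hr, hle⟩ := hS2
    obtain ⟨U, hU, hUc⟩ := exists_subset_card_eq hle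
    rw [mem_biUnion]
    refine ⟨c, ?_, ?_⟩
    · rw [hI, mem_filter, mem_range]
      refine ⟨?_, hc⟩
      have h1 : (c + 1) * 1 ≤ (c + 1) * (ρ * a) :=
        Nat.mul_le_mul_left _ (Nat.mul_pos hρ ha)
      omega
    · rw [mem_biUnion]
      refine ⟨r, mem_range.mpr hr, ?_⟩
      rw [mem_biUnion]
      refine ⟨U, ?_, ?_⟩
      · rw [mem_filter, mem_powerset]
        refine ⟨fun x hx => ?_, hUc⟩
        have h1 := hU hx
        rw [mem_filter] at h1
        show x ∈ (Ico (c * (ρ * a)) ((c + 1) * (ρ * a))).filter fun x => x % ρ = r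
        rw [mem_filter]
        exact ⟨h1.1, h1.2.1⟩
      · show S ∈ (range k).powerset.filter fun S => ∀ x ∈ U, voidAt S ρ x
        rw [mem_filter]
        refine ⟨hS1, fun x hx => ?_⟩
        have h1 := hU hx
        rw [mem_filter] at h1
        exact h1.2.2
  have hbound : ∀ c ∈ I, ∀ r ∈ range ρ, ∀ U ∈ (X c r).powerset.filter (fun U => U.card = Kc),
      ((W U).card : ℝ) * 2 ^ (ρ * Kc) ≤ 2 ^ k := by
    intro c hc r _ U hU
    rw [hI, mem_filter] at hc
    rw [mem_filter, mem_powerset] at hU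
    have h1 := void_count k ρ r U (fun x hx => by
      have h2 : x ∈ (Ico (c * (ρ * a)) ((c + 1) * (ρ * a))).filter fun x => x % ρ = r := hU.1 hx
      rw [mem_filter, mem_Ico] at h2
      exact ⟨h2.1.2.trans_le hc.2, h2.2⟩)
    rw [hU.2] at h1
    exact_mod_cast h1
  have hsum : (((range k).powerset.filter (fun S => ¬ C2 S ρ (ρ * a) Kc k)).card : ℝ) ≤
      ∑ c ∈ I, ∑ r ∈ range ρ, ∑ U ∈ (X c r).powerset.filter (fun U => U.card = Kc),
        ((W U).card : ℝ) := by
    have h2 : ((range k).powerset.filter (fun S => ¬ C2 S ρ (ρ * a) Kc k)).card ≤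
        ∑ c ∈ I, ∑ r ∈ range ρ, ∑ U ∈ (X c r).powerset.filter (fun U => U.card = Kc),
          (W U).card := by
      refine (card_le_card hsub).trans (card_biUnion_le.trans (sum_le_sum fun c _ => ?_))
      refine card_biUnion_le.trans (sum_le_sum fun r _ => ?_)
      exact card_biUnion_le
    exact_mod_cast h2
  have hpow : (0 : ℝ) ≤ 2 ^ (ρ * Kc) := by positivity
  have hnum : ∀ c r, (((X c r).powerset.filter (fun U => U.card = Kc)).card : ℝ) ≤ 2 ^ a := by
    intro c r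
    have h1 : ((X c r).powerset.filter (fun U => U.card = Kc)).card ≤ 2 ^ a := by
      refine (card_filter_le _ _).trans ?_
      rw [card_powerset]
      exact Nat.pow_le_pow_right two_pos (hXc c r)
    exact_mod_cast h1
  have hIc : (I.card : ℝ) ≤ k := by
    have h2 : I.card ≤ k := by
      rw [hI]
      refine (card_filter_le _ _).trans ?_
      rw [card_range]
    exact_mod_cast h2
  calc (((range k).powerset.filter (fun S => ¬ C2 S ρ (ρ * a) Kc k)).card : ℝ) * 2 ^ (ρ * Kc)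
      ≤ (∑ c ∈ I, ∑ r ∈ range ρ, ∑ U ∈ (X c r).powerset.filter (fun U => U.card = Kc),
        ((W U).card : ℝ)) * 2 ^ (ρ * Kc) := mul_le_mul_of_nonneg_right hsum hpow
    _ = ∑ c ∈ I, ∑ r ∈ range ρ, ∑ U ∈ (X c r).powerset.filter (fun U => U.card = Kc),
        ((W U).card : ℝ) * 2 ^ (ρ * Kc) := by
        simp only [sum_mul]
    _ ≤ ∑ c ∈ I, ∑ r ∈ range ρ, (2 : ℝ) ^ a * 2 ^ k := by
        refine sum_le_sum fun c hc => sum_le_sum fun r hr => ?_
        refine (sum_le_sum fun U hU => hbound c hc r hr U hU).trans ?_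
        rw [sum_const, nsmul_eq_mul]
        exact mul_le_mul_of_nonneg_right (hnum c r) (by positivity)
    _ = I.card * (ρ * (2 ^ a * 2 ^ k)) := by
        rw [sum_const, sum_const, card_range, nsmul_eq_mul, nsmul_eq_mul]
    _ ≤ k * (ρ * (2 ^ a * 2 ^ k)) := mul_le_mul_of_nonneg_right hIc (by positivity)
    _ = k * ρ * 2 ^ a * 2 ^ k := by ring

open Classical in
/-- Typical sets are almost all sets. -/
theorem typical (ρ b k : ℕ) (hρ : 1 ≤ ρ) (hb : 1 ≤ b) :
    (((range k).powerset.filter (fun S =>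
      ¬ (C1 S (ρ ^ 2 * b) k ∧ C2 S ρ (20 * (ρ ^ 2 * b)) (40 * b) k))).card : ℝ) * 2 ^ (b / 7) ≤
      2 * ρ * k * 2 ^ k := by
  have hm : 1 ≤ ρ ^ 2 * b := Nat.mul_pos (Nat.pow_pos hρ) hb
  have ha : 1 ≤ 20 * ρ * b := Nat.mul_pos (Nat.mul_pos (by norm_num) hρ) hb
  have k1 := card_notC1 k (ρ ^ 2 * b) hm
  have k2 := card_notC2 k ρ (20 * ρ * b) (40 * b) hρ ha
  have e1 : ρ * (20 * ρ * b) = 20 * (ρ ^ 2 * b) := by ring
  rw [e1] at k2
  have e2 : ρ * (40 * b) = 20 * ρ * b + 20 * ρ * b := by ring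
  rw [e2, pow_add] at k2
  have hp : (0 : ℝ) < 2 ^ (20 * ρ * b) := by positivity
  set N1 : ℝ := (((range k).powerset.filter (fun S => ¬ C1 S (ρ ^ 2 * b) k)).card : ℝ) with hN1
  set N2 : ℝ := (((range k).powerset.filter (fun S => ¬ C2 S ρ (20 * (ρ ^ 2 * b)) (40 * b) k)).card : ℝ) with hN2
  have hN20 : 0 ≤ N2 := Nat.cast_nonneg _
  have k3 : N2 * 2 ^ (20 * ρ * b) ≤ k * ρ * 2 ^ k := by
    have h : (N2 * 2 ^ (20 * ρ * b)) * 2 ^ (20 * ρ * b) ≤ (k * ρ * 2 ^ k) * 2 ^ (20 * ρ * b) := by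
      calc (N2 * 2 ^ (20 * ρ * b)) * 2 ^ (20 * ρ * b) = N2 * (2 ^ (20 * ρ * b) * 2 ^ (20 * ρ * b)) := by ring
        _ ≤ k * ρ * 2 ^ (20 * ρ * b) * 2 ^ k := k2
        _ = (k * ρ * 2 ^ k) * 2 ^ (20 * ρ * b) := by ring
    exact le_of_mul_le_mul_right h hp
  have k4 : N2 * 2 ^ (b / 7) ≤ k * ρ * 2 ^ k := by
    refine le_trans (mul_le_mul_of_nonneg_left ?_ hN20) k3
    refine pow_le_pow_right₀ (by norm_num) ?_
    calc b / 7 ≤ 1 * b := by omega
      _ ≤ 20 * ρ * b := Nat.mul_le_mul_right b (by omega)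
  have k5 : N1 * 2 ^ (b / 7) ≤ k * ρ * 2 ^ k := by
    have h1 : q1 ^ (ρ ^ 2 * b) * 2 ^ (b / 7) ≤ 1 := by
      have h2 : q1 ^ (ρ ^ 2 * b) ≤ q1 ^ (7 * (b / 7)) := by
        refine pow_le_pow_of_le_one (le_of_lt q1_lt.1) (le_of_lt q1_lt.2) ?_
        calc 7 * (b / 7) ≤ 1 * b := by omega
          _ ≤ ρ ^ 2 * b := Nat.mul_le_mul_right b (Nat.pow_pos hρ)
      calc q1 ^ (ρ ^ 2 * b) * 2 ^ (b / 7) ≤ q1 ^ (7 * (b / 7)) * 2 ^ (b / 7) :=
            mul_le_mul_of_nonneg_right h2 (by positivity)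
        _ = (q1 ^ 7 * 2) ^ (b / 7) := by rw [pow_mul, ← mul_pow]
        _ ≤ 1 := by
            apply pow_le_one₀
            · have := q1_lt.1
              positivity
            · have := q1_seven
              linarith
    have hρ' : (1 : ℝ) ≤ ρ := by exact_mod_cast hρ
    calc N1 * 2 ^ (b / 7) ≤ (k * (q1 ^ (ρ ^ 2 * b) * 2 ^ k)) * 2 ^ (b / 7) :=
          mul_le_mul_of_nonneg_right k1 (by positivity)
      _ = (k * 2 ^ k) * (q1 ^ (ρ ^ 2 * b) * 2 ^ (b / 7)) := by ring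
      _ ≤ (k * 2 ^ k) * 1 := mul_le_mul_of_nonneg_left h1 (by positivity)
      _ ≤ (k * 2 ^ k) * ρ := mul_le_mul_of_nonneg_left hρ' (by positivity)
      _ = k * ρ * 2 ^ k := by ring
  have hsub : (range k).powerset.filter
      (fun S => ¬ (C1 S (ρ ^ 2 * b) k ∧ C2 S ρ (20 * (ρ ^ 2 * b)) (40 * b) k)) ⊆
      (range k).powerset.filter (fun S => ¬ C1 S (ρ ^ 2 * b) k) ∪
      (range k).powerset.filter (fun S => ¬ C2 S ρ (20 * (ρ ^ 2 * b)) (40 * b) k) := by
    intro S hS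
    rw [mem_filter] at hS
    rw [mem_union, mem_filter, mem_filter]
    by_cases hc : C1 S (ρ ^ 2 * b) k
    · exact Or.inr ⟨hS.1, fun h => hS.2 ⟨hc, h⟩⟩
    · exact Or.inl ⟨hS.1, hc⟩
  have hcard := le_trans (card_le_card hsub) (card_union_le _ _)
  have hcard' : (((range k).powerset.filter
      (fun S => ¬ (C1 S (ρ ^ 2 * b) k ∧ C2 S ρ (20 * (ρ ^ 2 * b)) (40 * b) k))).card : ℝ) ≤ N1 + N2 := by
    rw [hN1, hN2]
    exact_mod_cast hcard
  calc _ ≤ (N1 + N2) * 2 ^ (b / 7) := mul_le_mul_of_nonneg_right hcard' (by positivity)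
    _ = N1 * 2 ^ (b / 7) + N2 * 2 ^ (b / 7) := by ring
    _ ≤ k * ρ * 2 ^ k + k * ρ * 2 ^ k := add_le_add k5 k4
    _ = 2 * ρ * k * 2 ^ k := by ring

end Pool.Agent.MP9e8697.CW
end

section

/-! White places, generic. -/

set_option autoImplicit false

namespace Pool.Agent.MP9e8697.CW

open Finset

theorem prod_block_le (K : ℕ) (γ : ℕ → ℤ) (T0 : ℝ) (hT : 2 ≤ T0) (η : ℤ) (s B : ℕ) :
    ∏ x ∈ range B, Real.cos (Real.pi * (((η * γ (s + x) : ℤ) : ℝ) / 2 ^ K)) ^ 2 ≤
      (1 - 4 / T0 ^ 2) ^ wcnt K γ T0 η s B := by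
  classical
  have h0 : (0 : ℝ) ≤ 1 - 4 / T0 ^ 2 := by
    have : 4 / T0 ^ 2 ≤ 1 := by
      rw [div_le_one (by positivity)]
      nlinarith
    linarith
  have h1 : ∏ x ∈ range B, Real.cos (Real.pi * (((η * γ (s + x) : ℤ) : ℝ) / 2 ^ K)) ^ 2 ≤
      ∏ x ∈ range B, (if white K γ T0 η (s + x) then (1 - 4 / T0 ^ 2) else (1 : ℝ)) := by
    apply Finset.prod_le_prod
    · intro x _
      positivity
    · intro x _
      by_cases h : white K γ T0 η (s + x)
      · rw [if_pos h]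
        have h3 := Pool.Agent.MP81cdd9.HZ.cos_sq_le (((η * γ (s + x) : ℤ) : ℝ) / 2 ^ K)
        unfold white at h
        have h4 : (1 / T0) ^ 2 ≤
            |((η * γ (s + x) : ℤ) : ℝ) / 2 ^ K - round (((η * γ (s + x) : ℤ) : ℝ) / 2 ^ K)| ^ 2 :=
          pow_le_pow_left₀ (by positivity) h 2
        have h5 : (1 / T0) ^ 2 = 1 / T0 ^ 2 := by rw [div_pow, one_pow]
        rw [h5] at h4
        have h6 : 4 / T0 ^ 2 = 4 * (1 / T0 ^ 2) := by ring
        rw [h6]
        linarith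
      · rw [if_neg h]
        nlinarith [Real.sin_sq_add_cos_sq (Real.pi * (((η * γ (s + x) : ℤ) : ℝ) / 2 ^ K)),
          sq_nonneg (Real.sin (Real.pi * (((η * γ (s + x) : ℤ) : ℝ) / 2 ^ K)))]
  refine h1.trans (le_of_eq ?_)
  rw [Finset.prod_ite, Finset.prod_const, Finset.prod_const_one, mul_one]
  unfold wcnt
  congr 2

theorem blocks_sum (K H g B : ℕ) (γ : ℕ → ℤ) (T0 : ℝ) (hT : 2 ≤ T0) (hg : 1 ≤ g) (s : ℕ → ℕ)
    (hs : ∀ t, t + 1 < g → s t + B ≤ s (t + 1)) (hH : ∀ t < g, s t + B ≤ H) (A : Finset ℤ) :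
    ∑ η ∈ A, ∏ j ∈ range H, Real.cos (Real.pi * (((η * γ j : ℤ) : ℝ) / 2 ^ K)) ^ 2 ≤
      ∑ t ∈ range g, ∑ η ∈ A, ((1 - 4 / T0 ^ 2) ^ g) ^ wcnt K γ T0 η (s t) B := by
  rw [Finset.sum_comm]
  apply Finset.sum_le_sum
  intro η _
  have hT4 : (4 : ℝ) ≤ T0 ^ 2 := by nlinarith
  have hT2 : (0 : ℝ) < T0 ^ 2 := by positivity
  have ha0 : 0 ≤ 1 - 4 / T0 ^ 2 := by
    have : 4 / T0 ^ 2 ≤ 1 := by
      rw [div_le_one hT2]
      exact hT4
    linarith
  have ha1 : 1 - 4 / T0 ^ 2 ≤ 1 := by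
    have : 0 ≤ 4 / T0 ^ 2 := by positivity
    linarith
  have h1 := Pool.Agent.MP81cdd9.HZ.prod_blocks
    (fun j => Real.cos (Real.pi * (((η * γ j : ℤ) : ℝ) / 2 ^ K)) ^ 2)
    (fun j => sq_nonneg _) (fun j => Real.cos_sq_le_one _) B g H s hs hH
  refine h1.trans ?_
  refine le_trans ?_ (Pool.Agent.MP81cdd9.HZ.prod_le_sum (1 - 4 / T0 ^ 2) ha0 ha1 g hg
    (fun t => wcnt K γ T0 η (s t) B))
  apply Finset.prod_le_prod
  · intro t _
    exact Finset.prod_nonneg fun _ _ => sq_nonneg _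
  · intro t _
    exact prod_block_le K γ T0 hT η (s t) B

end Pool.Agent.MP9e8697.CW
end

section

/-! One good block. -/

set_option autoImplicit false

namespace Pool.Agent.MP9e8697.CW

open Finset

/-- `1` if the time `s + x` is odd -/
def oo (S : Finset ℕ) (s x : ℕ) : ℕ := if s + x ∈ S then 1 else 0

theorem oo_iff (S : Finset ℕ) (s x : ℕ) : s + x ∈ S ↔ oo S s x = 1 := by
  unfold oo
  split_ifs with h
  · exact ⟨fun _ => rfl, fun _ => h⟩
  · exact ⟨fun h' => absurd h' h, fun h' => absurd h' (by norm_num)⟩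

theorem Ys_oo (S : Finset ℕ) (s x : ℕ) : cnt S (s + x) = cnt S s + Ys (oo S s) x := by
  unfold Ys
  induction x with
  | zero => simp
  | succ x ih =>
    rw [Finset.sum_range_succ, ← Nat.add_assoc s x 1, cnt_succ, ih]
    unfold oo
    omega

theorem ee_add (S : Finset ℕ) (s x : ℕ) : ee S (s + x) = ee S s + (x + Ys (oo S s) x) := by
  unfold ee
  rw [Ys_oo]
  omega

/-- the residue `r_η = 2 η z^(s+B) mod 2^(K-e_s)` -/
def rr (K : ℕ) (z : ℤ) (S : Finset ℕ) (s B : ℕ) (η : ℤ) : ℤ := (2 * η * z ^ (s + B)) % 2 ^ (K - ee S s)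

/-- the index `k = ⌊3^B r_η / 2^(K-e_s)⌋` -/
def kk (K : ℕ) (z : ℤ) (S : Finset ℕ) (s B : ℕ) (η : ℤ) : ℤ :=
  (3 ^ B * rr K z S s B η) / 2 ^ (K - ee S s)

theorem kk_mem (K : ℕ) (z : ℤ) (S : Finset ℕ) (s B : ℕ) (η : ℤ) :
    0 ≤ kk K z S s B η ∧ kk K z S s B η < 3 ^ B := by
  have hM : (0 : ℤ) < 2 ^ (K - ee S s) := by positivity
  have h1 : 0 ≤ rr K z S s B η := Int.emod_nonneg _ hM.ne'
  have h2 : rr K z S s B η < 2 ^ (K - ee S s) := Int.emod_lt_of_pos _ hM
  have h5 : (0 : ℤ) < 3 ^ B := by positivity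
  unfold kk
  constructor
  · exact Int.ediv_nonneg (mul_nonneg h5.le h1) hM.le
  · apply Int.ediv_lt_of_lt_mul hM
    exact mul_lt_mul_of_pos_left h2 h5

/-- The phase in terms of `r_η`. -/
theorem phase (K : ℕ) (z : ℤ) (hz : (2 : ℤ) ^ K ∣ 3 * z - 1) (S : Finset ℕ) (s B x : ℕ) (hx : x < B)
    (hs : ee S s ≤ K) (hm : s + x ∈ S) (η : ℤ) :
    (2 : ℤ) ^ K ∣ η * gam z S (s + x) -
      2 ^ ee S s * (2 ^ (x + Ys (oo S s) x) * (3 ^ (B - (x + 1)) * rr K z S s B η)) := by
  obtain ⟨u, hu⟩ := Nat.exists_eq_add_of_le (show x + 1 ≤ B by omega)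
  have hD : B - (x + 1) = u := by omega
  rw [hD]
  unfold gam
  rw [if_pos hm, ee_add]
  have hA : s + B = (s + x + 1) + u := by omega
  -- the two congruences
  have h1 : (2 : ℤ) ^ K ∣ z ^ (s + x + 1) - z ^ (s + B) * 3 ^ u := by
    have h2 : (2 : ℤ) ^ K ∣ (3 * z) ^ u - 1 := by
      have := (hz.trans (sub_one_dvd_pow_sub_one (3 * z) u))
      exact this
    have h3 : z ^ (s + x + 1) - z ^ (s + B) * 3 ^ u = -(z ^ (s + x + 1)) * ((3 * z) ^ u - 1) := by
      rw [hA, mul_pow, pow_add z (s + x + 1) u]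
      ring
    rw [h3]
    exact Dvd.dvd.mul_left h2 _
  have h4 : (2 : ℤ) ^ (K - ee S s) ∣ 2 * η * z ^ (s + B) - rr K z S s B η := by
    unfold rr
    exact Int.dvd_self_sub_emod
  have h5 : (2 : ℤ) ^ K = 2 ^ ee S s * 2 ^ (K - ee S s) := by
    rw [← pow_add, Nat.add_sub_cancel' hs]
  have h7 : (2 : ℤ) ^ K ∣ 2 ^ ee S s * (2 * η * z ^ (s + B) - rr K z S s B η) := by
    rw [h5]
    exact mul_dvd_mul_left _ h4
  have h8 : η * (2 ^ (ee S s + (x + Ys (oo S s) x) + 1) * z ^ (s + x + 1)) -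
      2 ^ ee S s * (2 ^ (x + Ys (oo S s) x) * (3 ^ u * rr K z S s B η)) =
      2 * η * 2 ^ ee S s * 2 ^ (x + Ys (oo S s) x) * (z ^ (s + x + 1) - z ^ (s + B) * 3 ^ u) +
        2 ^ (x + Ys (oo S s) x) * 3 ^ u * (2 ^ ee S s * (2 * η * z ^ (s + B) - rr K z S s B η)) := by
    rw [pow_succ 2, pow_add 2 (ee S s)]
    ring
  rw [h8]
  exact dvd_add (Dvd.dvd.mul_left h1 _) (Dvd.dvd.mul_left h7 _)

/-- A place which is not white is black for `k`. -/
theorem black_of_not_white (K : ℕ) (z : ℤ) (hz : (2 : ℤ) ^ K ∣ 3 * z - 1) (S : Finset ℕ) (s B x R' : ℕ) (hx : x < B)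
    (hs : ee S s ≤ K) (hm : s + x ∈ S) (hact : 4 * 3 ^ R' * 2 ^ (x + Ys (oo S s) x) ≤ 3 ^ (x + 1)) (η : ℤ)
    (hw : ¬ white K (gam z S) (4 * 3 ^ R') η (s + x)) : black (oo S s) R' (kk K z S s B η) x := by
  obtain ⟨w, hw'⟩ := phase K z hz S s B x hx hs hm η
  unfold black
  generalize hP : x + Ys (oo S s) x = p at hw' hact ⊢
  set y := x + 1 with hy
  set r := rr K z S s B η with hr
  set M := K - ee S s with hM
  have hKM : (2 : ℤ) ^ K = 2 ^ (ee S s) * 2 ^ M := by
    rw [← pow_add]; congr 1; omega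
  -- the integer approximation
  unfold white at hw
  set b : ℤ := η * gam z S (s + x) with hb
  set q : ℤ := round (((b : ℤ) : ℝ) / 2 ^ K) with hq
  have h1 : |((b : ℤ) : ℝ) / 2 ^ K - (q : ℝ)| < 1 / (4 * 3 ^ R') := not_le.1 hw
  have hT : (0 : ℝ) < 4 * 3 ^ R' := by positivity
  have hK : (0 : ℝ) < 2 ^ K := by positivity
  have h2 : |((b : ℤ) : ℝ) - (q : ℝ) * 2 ^ K| * (4 * 3 ^ R') < 2 ^ K := by
    have e : ((b : ℤ) : ℝ) - (q : ℝ) * 2 ^ K = (((b : ℤ) : ℝ) / 2 ^ K - (q : ℝ)) * 2 ^ K := by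
      field_simp
    rw [e, abs_mul, abs_of_pos hK]
    have h3 : |((b : ℤ) : ℝ) / 2 ^ K - (q : ℝ)| * (4 * 3 ^ R') < 1 := by
      rw [lt_div_iff₀ hT] at h1
      exact h1
    calc |((b : ℤ) : ℝ) / 2 ^ K - (q : ℝ)| * 2 ^ K * (4 * 3 ^ R')
        = (|((b : ℤ) : ℝ) / 2 ^ K - (q : ℝ)| * (4 * 3 ^ R')) * 2 ^ K := by ring
      _ < 1 * 2 ^ K := by exact mul_lt_mul_of_pos_right h3 hK
      _ = 2 ^ K := one_mul _
  have h3 : |b - q * 2 ^ K| * (4 * 3 ^ R') < 2 ^ K := by exact_mod_cast h2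
  -- the phase
  have h4 : b - q * 2 ^ K = 2 ^ (ee S s) * (2 ^ p * (3 ^ (B - y) * r) - (q - w) * 2 ^ M) := by
    have h5 : b = 2 ^ (ee S s) * (2 ^ p * (3 ^ (B - y) * r)) + 2 ^ K * w := by linarith
    rw [h5, hKM]; ring
  have h2s : (0 : ℤ) < 2 ^ (ee S s) := by positivity
  have h5 : |2 ^ p * (3 ^ (B - y) * r) - (q - w) * 2 ^ M| * (4 * 3 ^ R') < 2 ^ M := by
    rw [h4, abs_mul, abs_of_pos h2s, hKM, mul_assoc] at h3
    exact lt_of_mul_lt_mul_left h3 h2s.le
  -- the division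
  set k := kk K z S s B η with hk
  have hk1 : k = (3 ^ B * r) / 2 ^ M := rfl
  have hMp : (0 : ℤ) < 2 ^ M := by positivity
  have hdiv : 2 ^ M * k + (3 ^ B * r) % 2 ^ M = 3 ^ B * r := by
    rw [hk1]; exact Int.mul_ediv_add_emod _ _
  have hf0 : 0 ≤ (3 ^ B * r) % (2 : ℤ) ^ M := Int.emod_nonneg _ hMp.ne'
  have hf1 : (3 ^ B * r) % (2 : ℤ) ^ M < 2 ^ M := Int.emod_lt_of_pos _ hMp
  set f := (3 ^ B * r) % (2 : ℤ) ^ M with hf
  refine ⟨q - w, ?_⟩
  have h5D : (3 : ℤ) ^ B = 3 ^ y * 3 ^ (B - y) := by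
    rw [← pow_add]; congr 1; omega
  have h6 : 2 ^ M * (2 ^ p * k - (q - w) * 3 ^ y)
      = 3 ^ y * (2 ^ p * (3 ^ (B - y) * r) - (q - w) * 2 ^ M) - 2 ^ p * f := by
    have h7 : 2 ^ M * k = 3 ^ y * 3 ^ (B - y) * r - f := by
      rw [← h5D]; linarith
    calc 2 ^ M * (2 ^ p * k - (q - w) * 3 ^ y) = 2 ^ p * (2 ^ M * k) - 2 ^ M * (q - w) * 3 ^ y := by ring
      _ = _ := by rw [h7]; ring
  have h5y : (0 : ℤ) < 3 ^ y := by positivity
  have h4x : (0 : ℤ) < 2 ^ p := by positivity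
  have hTz : (0 : ℤ) < 4 * 3 ^ R' := by positivity
  have h8 : 2 ^ M * |2 ^ p * k - (q - w) * 3 ^ y|
      ≤ 3 ^ y * |2 ^ p * (3 ^ (B - y) * r) - (q - w) * 2 ^ M| + 2 ^ p * f := by
    have e1 : 2 ^ M * |2 ^ p * k - (q - w) * 3 ^ y| = |2 ^ M * (2 ^ p * k - (q - w) * 3 ^ y)| := by
      rw [abs_mul, abs_of_pos hMp]
    have e2 : 3 ^ y * |2 ^ p * (3 ^ (B - y) * r) - (q - w) * 2 ^ M|
        = |3 ^ y * (2 ^ p * (3 ^ (B - y) * r) - (q - w) * 2 ^ M)| := by
      rw [abs_mul, abs_of_pos h5y]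
    have e3 : 2 ^ p * f = |2 ^ p * f| := (abs_of_nonneg (mul_nonneg h4x.le hf0)).symm
    rw [e1, h6, e2, e3]
    rw [sub_eq_add_neg]
    refine (abs_add_le _ _).trans_eq ?_
    rw [abs_neg, abs_abs]
  have hact' : (4 * 3 ^ R' * 2 ^ p : ℤ) ≤ 3 ^ y := by exact_mod_cast hact
  have h9 : 2 ^ M * (|2 ^ p * k - (q - w) * 3 ^ y| * (4 * 3 ^ R')) < 2 ^ M * (2 * 3 ^ y) := by
    calc 2 ^ M * (|2 ^ p * k - (q - w) * 3 ^ y| * (4 * 3 ^ R'))
        = (2 ^ M * |2 ^ p * k - (q - w) * 3 ^ y|) * (4 * 3 ^ R') := by ring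
      _ ≤ (3 ^ y * |2 ^ p * (3 ^ (B - y) * r) - (q - w) * 2 ^ M| + 2 ^ p * f) * (4 * 3 ^ R') :=
          mul_le_mul_of_nonneg_right h8 hTz.le
      _ = 3 ^ y * (|2 ^ p * (3 ^ (B - y) * r) - (q - w) * 2 ^ M| * (4 * 3 ^ R')) + (4 * 3 ^ R' * 2 ^ p) * f := by ring
      _ < 3 ^ y * 2 ^ M + 3 ^ y * 2 ^ M := by
          have a1 := mul_lt_mul_of_pos_left h5 h5y
          have a2 : (4 * 3 ^ R' * 2 ^ p) * f ≤ 3 ^ y * 2 ^ M :=
            mul_le_mul hact' hf1.le hf0 h5y.le
          linarith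
      _ = 2 ^ M * (2 * 3 ^ y) := by ring
  exact lt_of_mul_lt_mul_left h9 hMp.le

theorem wc_le_wcnt (K : ℕ) (z : ℤ) (hz : (2 : ℤ) ^ K ∣ 3 * z - 1) (S : Finset ℕ) (s B R' X0 : ℕ) (hs : ee S s ≤ K)
    (hact : ∀ x < B, X0 ≤ x → 4 * 3 ^ R' * 2 ^ (x + Ys (oo S s) x) ≤ 3 ^ (x + 1)) (η : ℤ) :
    wc (oo S s) R' X0 B (kk K z S s B η) ≤ wcnt K (gam z S) (4 * 3 ^ R') η s B := by
  classical
  unfold wc wcnt
  apply Finset.card_le_card
  intro x hx
  rw [Finset.mem_filter] at hx ⊢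
  obtain ⟨hxB, h1, hX0, hb⟩ := hx
  have hm : s + x ∈ S := (oo_iff S s x).2 h1
  refine ⟨hxB, ?_⟩
  by_contra hw
  exact hb (black_of_not_white K z hz S s B x R' (Finset.mem_range.1 hxB) hs hm (hact x (Finset.mem_range.1 hxB) hX0) η hw)

private theorem F5c_pow (n : ℕ) (a b N : ℤ) (h : N ∣ a * b - 1) : N ∣ a ^ n * b ^ n - 1 := by
  rw [← mul_pow]
  have := sub_dvd_pow_sub_pow (a * b) 1 n
  rw [one_pow] at this
  exact h.trans this

/-- Two `η` with the same `k` are far apart if the block is good. -/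
theorem kk_far (K J j1 B : ℕ) (z : ℤ) (hz : (2 : ℤ) ^ K ∣ 3 * z - 1) (S : Finset ℕ) (s : ℕ) (hs : J + ee S s ≤ K)
    (hD : 2 ^ J ≤ 3 ^ B) (hg : goodP K J j1 B S s) (η η' : ℤ) (h : η < η')
    (hk : kk K z S s B η = kk K z S s B η') : 2 ^ (J - j1) ≤ η' - η := by
  by_contra hlt
  rw [not_le] at hlt
  unfold goodP at hg
  set M := K - ee S s with hM
  set A := s + B with hA
  have hMp : (0 : ℤ) < 2 ^ M := by positivity
  set r1 := rr K z S s B η with hr1
  set r2 := rr K z S s B η' with hr2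
  have e1 : r1 = (2 * η * z ^ A) % 2 ^ M := rfl
  have e2 : r2 = (2 * η' * z ^ A) % 2 ^ M := rfl
  have k1 : kk K z S s B η = (3 ^ B * r1) / 2 ^ M := rfl
  have k2 : kk K z S s B η' = (3 ^ B * r2) / 2 ^ M := rfl
  rw [k1, k2] at hk
  have d1 := Int.mul_ediv_add_emod (3 ^ B * r1) (2 ^ M)
  have d2 := Int.mul_ediv_add_emod (3 ^ B * r2) (2 ^ M)
  have f1 := Int.emod_nonneg (3 ^ B * r1) hMp.ne'
  have f2 := Int.emod_lt_of_pos (3 ^ B * r1) hMp
  have g1 := Int.emod_nonneg (3 ^ B * r2) hMp.ne'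
  have g2 := Int.emod_lt_of_pos (3 ^ B * r2) hMp
  rw [hk] at d1
  have h5 : |3 ^ B * (r2 - r1)| < 2 ^ M := by
    rw [abs_lt]
    constructor <;> nlinarith
  have h5D : (0 : ℤ) < 3 ^ B := by positivity
  rw [abs_mul, abs_of_pos h5D] at h5
  have hD' : (2 : ℤ) ^ J ≤ 3 ^ B := by exact_mod_cast hD
  have h6 : 2 ^ J * |r2 - r1| < 2 ^ M :=
    lt_of_le_of_lt (mul_le_mul_of_nonneg_right hD' (abs_nonneg _)) h5
  have hMJ : (2 : ℤ) ^ M = 2 ^ J * 2 ^ (M - J) := by
    rw [← pow_add]; congr 1; omega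
  rw [hMJ] at h6
  have h7 : |r2 - r1| < 2 ^ (M - J) := lt_of_mul_lt_mul_left h6 (by positivity)
  refine hg (η' - η) (r2 - r1) (by omega) hlt h7 ?_
  -- the congruence
  have hzM : (2 : ℤ) ^ M ∣ 3 * z - 1 := (pow_dvd_pow 2 (by omega)).trans hz
  have hA' := F5c_pow A 3 z (2 ^ M) hzM
  have m1 : (2 : ℤ) ^ M ∣ 2 * η * z ^ A - r1 := by rw [e1]; exact Int.dvd_self_sub_emod
  have m2 : (2 : ℤ) ^ M ∣ 2 * η' * z ^ A - r2 := by rw [e2]; exact Int.dvd_self_sub_emod
  obtain ⟨a, ha⟩ := hA'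
  obtain ⟨b, hb⟩ := m1
  obtain ⟨c, hc⟩ := m2
  refine ⟨- (2 * (η' - η)) * a + 3 ^ A * (c - b), ?_⟩
  have q1 : r1 = 2 * η * z ^ A - 2 ^ M * b := by linarith
  have q2 : r2 = 2 * η' * z ^ A - 2 ^ M * c := by linarith
  rw [q1, q2]
  linear_combination (-(2 * (η' - η))) * ha

theorem card_class (K J j1 B : ℕ) (z : ℤ) (hz : (2 : ℤ) ^ K ∣ 3 * z - 1) (S : Finset ℕ) (s : ℕ) (hs : J + ee S s ≤ K)
    (hJ : 3 ≤ J) (hj1 : j1 ≤ J) (hD : 2 ^ J ≤ 3 ^ B) (hg : goodP K J j1 B S s) (k : ℤ) :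
    ((etas J).filter (fun η => kk K z S s B η = k)).card ≤ 2 ^ j1 := by
  classical
  have hP : (0 : ℤ) < 2 ^ (J - j1) := by positivity
  have hcard : (Finset.Ico (0 : ℤ) (2 ^ j1)).card = 2 ^ j1 := by
    rw [Int.card_Ico, sub_zero]
    have : ((2 : ℤ) ^ j1) = ((2 ^ j1 : ℕ) : ℤ) := by push_cast; rfl
    rw [this, Int.toNat_natCast]
  rw [← hcard]
  apply Finset.card_le_card_of_injOn (fun η => (η + 2 ^ (J - 3)) / 2 ^ (J - j1))
  · intro η hη
    have hη' := hη
    rw [Finset.mem_coe, Finset.mem_filter] at hη'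
    obtain ⟨h1, -⟩ := hη'
    unfold etas at h1
    rw [Finset.mem_Ioo] at h1
    rw [Finset.mem_coe, Finset.mem_Ico]
    have hJ3 : (2 : ℤ) ^ J = 2 ^ (J - 3) * 8 := by
      have : (8 : ℤ) = 2 ^ 3 := by norm_num
      rw [this, ← pow_add]; congr 1; omega
    have hJ1 : (2 : ℤ) ^ J = 2 ^ j1 * 2 ^ (J - j1) := by
      rw [← pow_add]; congr 1; omega
    have hp : (0 : ℤ) < 2 ^ (J - 3) := by positivity
    constructor
    · apply Int.ediv_nonneg _ hP.le
      linarith [h1.1]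
    · apply Int.ediv_lt_of_lt_mul hP
      rw [← hJ1, hJ3]
      linarith [h1.2]
  · intro a ha b hb hab
    rw [Finset.mem_coe, Finset.mem_filter] at ha hb
    have key : ∀ x y : ℤ, x < y → kk K z S s B x = kk K z S s B y →
        (x + 2 ^ (J - 3)) / 2 ^ (J - j1) ≠ (y + 2 ^ (J - 3)) / 2 ^ (J - j1) := by
      intro x y hxy hk he
      have hf := kk_far K J j1 B z hz S s hs hD hg x y hxy hk
      have h1 := Int.mul_ediv_add_emod (x + 2 ^ (J - 3)) (2 ^ (J - j1))
      have h2 := Int.mul_ediv_add_emod (y + 2 ^ (J - 3)) (2 ^ (J - j1))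
      have h3 := Int.emod_nonneg (x + 2 ^ (J - 3)) hP.ne'
      have h4 := Int.emod_lt_of_pos (y + 2 ^ (J - 3)) hP
      rw [he] at h1
      linarith
    rcases lt_trichotomy a b with h | h | h
    · exact absurd hab (key a b h (by rw [ha.2, hb.2]))
    · exact h
    · exact absurd hab.symm (key b a h (by rw [ha.2, hb.2]))

/-- One good block. -/
theorem block_sum (K J j1 B ρ X0 : ℕ) (z : ℤ) (hz : (2 : ℤ) ^ K ∣ 3 * z - 1) (S : Finset ℕ) (s : ℕ)
    (hs : J + ee S s ≤ K) (hJ : 3 ≤ J) (hj1 : j1 ≤ J) (hρ : 1 ≤ ρ) (hD : 2 ^ J ≤ 3 ^ B)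
    (hg : goodP K J j1 B S s)
    (hact : ∀ x < B, X0 ≤ x → 4 * 3 ^ (2 * ρ) * 2 ^ (x + Ys (oo S s) x) ≤ 3 ^ (x + 1))
    (lam : ℝ) (h0 : 0 ≤ lam) (h1 : lam ≤ 1) :
    ∑ η ∈ etas J, lam ^ wcnt K (gam z S) (4 * 3 ^ (2 * ρ)) η s B ≤
      2 ^ j1 * ((1 + lam * 3 ^ (2 * ρ)) ^ B * 3 ^ (X0 + 2 * vc (oo S s) ρ B + 2 * ρ)) := by
  have hs2 : ee S s ≤ K := by omega
  have hcount := block_count (oo S s) ρ X0 B hρ lam h0 h1
  have hterm : ∀ η ∈ etas J, lam ^ wcnt K (gam z S) (4 * 3 ^ (2 * ρ)) η s B ≤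
      lam ^ wc (oo S s) (2 * ρ) X0 B (kk K z S s B η) := by
    intro η _
    exact pow_le_pow_of_le_one h0 h1 (wc_le_wcnt K z hz S s B (2 * ρ) X0 hs2 hact η)
  refine (Finset.sum_le_sum hterm).trans ?_
  have hmaps : ∀ η ∈ etas J, (kk K z S s B η).toNat ∈ range (3 ^ B) := by
    intro η _
    obtain ⟨h1', h2'⟩ := kk_mem K z S s B η
    rw [Finset.mem_range]
    have h3 : ((kk K z S s B η).toNat : ℤ) < ((3 ^ B : ℕ) : ℤ) := by
      rw [Int.toNat_of_nonneg h1']
      push_cast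
      exact h2'
    exact_mod_cast h3
  rw [← Finset.sum_fiberwise_of_maps_to hmaps]
  have hfib : ∀ k ∈ range (3 ^ B),
      ∑ η ∈ (etas J).filter (fun η => (kk K z S s B η).toNat = k),
        lam ^ wc (oo S s) (2 * ρ) X0 B (kk K z S s B η) ≤
      2 ^ j1 * lam ^ wc (oo S s) (2 * ρ) X0 B (k : ℤ) := by
    intro k _
    have heq : ∀ η ∈ (etas J).filter (fun η => (kk K z S s B η).toNat = k),
        lam ^ wc (oo S s) (2 * ρ) X0 B (kk K z S s B η) =
          lam ^ wc (oo S s) (2 * ρ) X0 B (k : ℤ) := by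
      intro η hη
      have h2 := (Finset.mem_filter.1 hη).2
      have h3 := Int.toNat_of_nonneg (kk_mem K z S s B η).1
      rw [h2] at h3
      rw [← h3]
    rw [Finset.sum_congr rfl heq, Finset.sum_const, nsmul_eq_mul]
    refine mul_le_mul_of_nonneg_right ?_ (pow_nonneg h0 _)
    have hsub : (etas J).filter (fun η => (kk K z S s B η).toNat = k) ⊆
        (etas J).filter (fun η => kk K z S s B η = (k : ℤ)) := by
      intro η hη
      rw [Finset.mem_filter] at hη ⊢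
      refine ⟨hη.1, ?_⟩
      have h3 := Int.toNat_of_nonneg (kk_mem K z S s B η).1
      rw [hη.2] at h3
      exact h3.symm
    have hc := (Finset.card_le_card hsub).trans
      (card_class K J j1 B z hz S s hs hJ hj1 hD hg (k : ℤ))
    have hc' : (((etas J).filter (fun η => (kk K z S s B η).toNat = k)).card : ℝ) ≤
        ((2 ^ j1 : ℕ) : ℝ) := by exact_mod_cast hc
    rw [Nat.cast_pow, Nat.cast_ofNat] at hc'
    exact hc'
  refine (Finset.sum_le_sum hfib).trans ?_
  rw [← Finset.mul_sum]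
  exact mul_le_mul_of_nonneg_left hcount (by positivity)

end Pool.Agent.MP9e8697.CW
end
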