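import Pool.Agent.Lib.MP_9e8697_nt.Mg.G004

section

/-! Good blocks exist. -/

set_option autoImplicit false

namespace Pool.Agent.MP9e8697.CW

open Finset

/-- Odd times of an interval. -/
theorem ones_le (S : Finset ℕ) (m k u v : ℕ) (hm : 1 ≤ m) (hC : C1 S m k) (huv : u ≤ v) (hv : v + 20 * m ≤ k) :
    20 * cnt S v ≤ 20 * cnt S u + 11 * (v - u) + 440 * m := by
  have hl : 0 < 20 * m := by omega
  -- sum over cells
  have hsum : ∀ c0 j : ℕ, (c0 + j) * (20 * m) ≤ k →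
      cnt S ((c0 + j) * (20 * m)) ≤ cnt S (c0 * (20 * m)) + 11 * m * j := by
    intro c0 j
    induction j with
    | zero => intro _; simp
    | succ j ih =>
      intro hk
      have h1 := ih (le_trans (Nat.mul_le_mul_right _ (by omega)) hk)
      have h2 := hC (c0 + j) (by rw [show c0 + j + 1 = c0 + (j + 1) by omega]; exact hk)
      have h3 : 11 * m * (j + 1) = 11 * m * j + 11 * m := by ring
      rw [show c0 + (j + 1) = c0 + j + 1 by omega]
      omega
  set l := 20 * m with hldef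
  set c0 := u / l with hc0
  set c1 := v / l with hc1
  have h1 : c0 * l ≤ u := Nat.div_mul_le_self u l
  have h2 : c1 * l ≤ v := Nat.div_mul_le_self v l
  have h3 : v < (c1 + 1) * l := by
    have := Nat.lt_div_mul_add (a := v) hl
    rw [← hc1] at this
    have e : (c1 + 1) * l = c1 * l + l := by ring
    omega
  have hu3 : u < (c0 + 1) * l := by
    have := Nat.lt_div_mul_add (a := u) hl
    rw [← hc0] at this
    have e : (c0 + 1) * l = c0 * l + l := by ring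
    omega
  have h4 : c0 ≤ c1 := Nat.div_le_div_right huv
  obtain ⟨j, hj⟩ := Nat.exists_eq_add_of_le h4
  have h5 : (c0 + (j + 1)) * l ≤ k := by
    have e : (c0 + (j + 1)) * l = c1 * l + l := by rw [hj]; ring
    omega
  have h6 := hsum c0 (j + 1) h5
  have h7 : cnt S v ≤ cnt S ((c0 + (j + 1)) * l) := cnt_mono S (by
    have e : (c0 + (j + 1)) * l = (c1 + 1) * l := by rw [hj]; ring
    omega)
  have h8 : cnt S (c0 * l) ≤ cnt S u := cnt_mono S h1
  -- j l ≤ v - u + l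
  have h9 : j * l ≤ (v - u) + l := by
    have e : c1 * l = c0 * l + j * l := by rw [hj]; ring
    have e2 : (c0 + 1) * l = c0 * l + l := by ring
    omega
  have h10 : 20 * (11 * m * (j + 1)) = 11 * (j * l) + 11 * l := by rw [hldef]; ring
  have h11 : 11 * (j * l) ≤ 11 * ((v - u) + l) := Nat.mul_le_mul_left _ h9
  omega

/-- The determinant. -/
theorem det_step (M J j1 A δ : ℕ) (hj : 4 ≤ j1) (hj2 : j1 ≤ J) (hδ1 : 1 ≤ δ) (hδ : δ ≤ 2) (hM : J + δ ≤ M)
    (d r d' r' : ℤ)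
    (hd : 1 ≤ d) (hd2 : d < 2 ^ (J - j1)) (hr : |r| < 2 ^ (M - J)) (h : (2 : ℤ) ^ M ∣ 2 * d - 3 ^ A * r)
    (hd' : 1 ≤ d') (hd2' : d' < 2 ^ (J - j1)) (hr' : |r'| < 2 ^ (M - δ - J))
    (h' : (2 : ℤ) ^ (M - δ) ∣ 2 * d' - 3 ^ (A + 1) * r') : d * (3 * r') = d' * r := by
  have key : (2 : ℤ) ^ (M - δ) ∣ 2 * (d * (3 * r') - d' * r) := by
    have h1 : (2 : ℤ) ^ (M - δ) ∣ 2 * d - 3 ^ A * r := (pow_dvd_pow 2 (by omega)).trans h
    have e : 2 * (d * (3 * r') - d' * r) =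
        (2 * d - 3 ^ A * r) * (3 * r') - (2 * d' - 3 ^ (A + 1) * r') * r := by
      rw [pow_succ]; ring
    rw [e]
    exact dvd_sub (h1.mul_right _) (h'.mul_right _)
  have hpJ : (0 : ℤ) < 2 ^ (J - j1) := by positivity
  have hb1 : |d * (3 * r')| ≤ 2 ^ (J - j1) * (3 * 2 ^ (M - δ - J)) := by
    rw [abs_mul, abs_mul, abs_of_pos (show (0 : ℤ) < d by linarith), abs_of_pos (show (0 : ℤ) < 3 by norm_num)]
    exact mul_le_mul hd2.le (mul_le_mul_of_nonneg_left hr'.le (by norm_num))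
      (mul_nonneg (by norm_num) (abs_nonneg _)) hpJ.le
  have hb2 : |d' * r| ≤ 2 ^ (J - j1) * 2 ^ (M - J) := by
    rw [abs_mul, abs_of_pos (show (0 : ℤ) < d' by linarith)]
    exact mul_le_mul hd2'.le hr.le (abs_nonneg _) hpJ.le
  have e1 : (2 : ℤ) ^ (M - J) ≤ 4 * 2 ^ (M - δ - J) := by
    calc (2 : ℤ) ^ (M - J) ≤ 2 ^ (M - δ - J + 2) := pow_le_pow_right₀ (by norm_num) (by omega)
      _ = 4 * 2 ^ (M - δ - J) := by rw [pow_add]; ring
  have e2 : (2 : ℤ) ^ (M - δ) = 2 ^ j1 * (2 ^ (J - j1) * 2 ^ (M - δ - J)) := by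
    rw [← pow_add, ← pow_add]
    congr 1
    omega
  have h16 : (16 : ℤ) ≤ 2 ^ j1 := by
    calc (16 : ℤ) = 2 ^ 4 := by norm_num
      _ ≤ 2 ^ j1 := pow_le_pow_right₀ (by norm_num) hj
  have hpp : (0 : ℤ) < 2 ^ (J - j1) * 2 ^ (M - δ - J) := by positivity
  have hlt : |2 * (d * (3 * r') - d' * r)| < 2 ^ (M - δ) := by
    calc |2 * (d * (3 * r') - d' * r)| = 2 * |d * (3 * r') - d' * r| := by
          rw [abs_mul, abs_of_pos (show (0 : ℤ) < 2 by norm_num)]
      _ ≤ 2 * (|d * (3 * r')| + |d' * r|) := mul_le_mul_of_nonneg_left (abs_sub _ _) (by norm_num)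
      _ ≤ 2 * (2 ^ (J - j1) * (3 * 2 ^ (M - δ - J)) + 2 ^ (J - j1) * (4 * 2 ^ (M - δ - J))) := by
          refine mul_le_mul_of_nonneg_left (add_le_add hb1 (hb2.trans ?_)) (by norm_num)
          exact mul_le_mul_of_nonneg_left e1 hpJ.le
      _ = 14 * (2 ^ (J - j1) * 2 ^ (M - δ - J)) := by ring
      _ < 16 * (2 ^ (J - j1) * 2 ^ (M - δ - J)) := by
          exact mul_lt_mul_of_pos_right (by norm_num) hpp
      _ ≤ 2 ^ (M - δ) := by
          rw [e2]
          exact mul_le_mul_of_nonneg_right h16 hpp.le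
  have h0 := Int.eq_zero_of_abs_lt_dvd key hlt
  linarith

/-- A run of bad positions. -/
theorem bad_run (K J j1 B : ℕ) (S : Finset ℕ) (hj : 4 ≤ j1) (hj2 : j1 ≤ J) (s1 s2 : ℕ) (h12 : s1 ≤ s2)
    (hK : J + 2 + ee S s2 ≤ K) (hb : ∀ s, s1 ≤ s → s ≤ s2 → ¬ goodP K J j1 B S s) :
    3 ^ (s2 - s1) < 2 ^ (K - ee S s1) := by
  have hex : ∀ s, ∃ d r : ℤ, s1 ≤ s → s ≤ s2 → 1 ≤ d ∧ d < 2 ^ (J - j1) ∧
      |r| < 2 ^ (K - ee S s - J) ∧ (2 : ℤ) ^ (K - ee S s) ∣ 2 * d - 3 ^ (s + B) * r := by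
    intro s
    by_cases h : s1 ≤ s ∧ s ≤ s2
    · have h1 := hb s h.1 h.2
      unfold goodP at h1
      push Not at h1
      obtain ⟨d, r, h2, h3, h4, h5⟩ := h1
      exact ⟨d, r, fun _ _ => ⟨h2, h3, h4, h5⟩⟩
    · exact ⟨0, 0, fun ha hb => absurd ⟨ha, hb⟩ h⟩
  choose d r hdr using hex
  have hind : ∀ t, s1 + t ≤ s2 → d (s1 + t) * r s1 = 3 ^ t * d s1 * r (s1 + t) := by
    intro t
    induction t with
    | zero =>
      intro _
      simp
    | succ t ih =>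
      intro ht
      have ih' := ih (by omega)
      obtain ⟨h1, h2, h3, h4⟩ := hdr (s1 + t) (by omega) (by omega)
      obtain ⟨h1', h2', h3', h4'⟩ := hdr (s1 + (t + 1)) (by omega) ht
      have hee := ee_succ S (s1 + t)
      have hmono := ee_mono S (show s1 + t + 1 ≤ s2 by omega)
      obtain ⟨δ, hδ1, hδ2, hδ⟩ : ∃ δ, 1 ≤ δ ∧ δ ≤ 2 ∧ ee S (s1 + (t + 1)) = ee S (s1 + t) + δ := by
        refine ⟨if s1 + t ∈ S then 2 else 1, ?_, ?_, ?_⟩
        · split_ifs <;> omega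
        · split_ifs <;> omega
        · rw [← Nat.add_assoc]; exact hee
      have e2 : K - ee S (s1 + (t + 1)) = K - ee S (s1 + t) - δ := by omega
      have e3 : s1 + (t + 1) + B = (s1 + t + B) + 1 := by omega
      rw [e2] at h3' h4'
      rw [e3] at h4'
      have hee' : ee S (s1 + t) + δ ≤ ee S s2 := by rw [← hδ, ← Nat.add_assoc]; exact hmono
      have hdet := det_step (K - ee S (s1 + t)) J j1 (s1 + t + B) δ hj hj2 hδ1 hδ2
        (by omega) (d (s1 + t)) (r (s1 + t)) (d (s1 + (t + 1))) (r (s1 + (t + 1)))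
        h1 h2 h3 h4 h1' h2' h3' h4'
      have hne : d (s1 + t) ≠ 0 := by
        intro h
        rw [h] at h1
        norm_num at h1
      apply mul_left_cancel₀ hne
      rw [pow_succ]
      calc d (s1 + t) * (d (s1 + (t + 1)) * r s1)
          = d (s1 + (t + 1)) * (d (s1 + t) * r s1) := by ring
        _ = d (s1 + (t + 1)) * (3 ^ t * d s1 * r (s1 + t)) := by rw [ih']
        _ = 3 ^ t * d s1 * (d (s1 + (t + 1)) * r (s1 + t)) := by ring
        _ = 3 ^ t * d s1 * (d (s1 + t) * (3 * r (s1 + (t + 1)))) := by rw [hdet]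
        _ = _ := by ring
  have hfin := hind (s2 - s1) (by omega)
  have e4 : s1 + (s2 - s1) = s2 := by omega
  rw [e4] at hfin
  obtain ⟨h1, h2, h3, h4⟩ := hdr s2 h12 le_rfl
  obtain ⟨g1, g2, g3, g4⟩ := hdr s1 le_rfl h12
  have hmono := ee_mono S h12
  have hr2 : r s2 ≠ 0 := by
    intro h
    rw [h, mul_zero, sub_zero] at h4
    have h5 := Int.le_of_dvd (by omega) h4
    have h6 : (2 : ℤ) * 2 ^ (J - j1) ≤ 2 ^ (K - ee S s2) := by
      rw [← pow_succ']
      exact pow_le_pow_right₀ (by norm_num) (by omega)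
    omega
  have h5 : (3 : ℤ) ^ (s2 - s1) ≤ |d s2 * r s1| := by
    rw [hfin, abs_mul, abs_mul]
    have ha : (1 : ℤ) ≤ |d s1| := by
      rw [abs_of_pos (by omega)]
      exact g1
    have hb' : (1 : ℤ) ≤ |r s2| := Int.one_le_abs hr2
    have hc : |(3 : ℤ) ^ (s2 - s1)| = 3 ^ (s2 - s1) := abs_of_pos (by positivity)
    rw [hc]
    have hp : (0 : ℤ) < 3 ^ (s2 - s1) := by positivity
    calc (3 : ℤ) ^ (s2 - s1) = 3 ^ (s2 - s1) * 1 * 1 := by ring
      _ ≤ _ := by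
        refine mul_le_mul (mul_le_mul_of_nonneg_left ha hp.le) hb' (by norm_num) ?_
        positivity
  have h6 : |d s2 * r s1| < 2 ^ (K - ee S s1) := by
    rw [abs_mul]
    have ha : |d s2| < 2 ^ (J - j1) := by
      rw [abs_of_pos (by omega)]
      exact h2
    calc |d s2| * |r s1| < 2 ^ (J - j1) * 2 ^ (K - ee S s1 - J) :=
          mul_lt_mul'' ha g3 (abs_nonneg _) (abs_nonneg _)
      _ = 2 ^ (J - j1 + (K - ee S s1 - J)) := by rw [pow_add]
      _ ≤ 2 ^ (K - ee S s1) := pow_le_pow_right₀ (by norm_num) (by omega)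
  have h7 : (3 : ℤ) ^ (s2 - s1) < 2 ^ (K - ee S s1) :=
    lt_of_le_of_lt h5 h6
  exact_mod_cast h7

theorem ee_lin (S : Finset ℕ) (m k u v : ℕ) (hm : 1 ≤ m) (hC : C1 S m k) (huv : u ≤ v) (hv : v + 20 * m ≤ k) :
    20 * ee S v ≤ 20 * ee S u + 31 * (v - u) + 440 * m := by
  have h := ones_le S m k u v hm hC huv hv
  unfold ee
  omega

/-- A good block after `s1`. -/
theorem good_block (K L J j1 B m k : ℕ) (S : Finset ℕ) (hK : K = L + J) (hJ : J = B) (hk : ee S k = L)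
    (hj : 4 ≤ j1) (hj2 : j1 ≤ J) (hm : 1 ≤ m) (hC : C1 S m k) (s1 : ℕ) (hs1 : s1 ≤ k)
    (hs : 6000 * (B + m + 1) ≤ K - ee S s1) :
    ∃ s, s1 ≤ s ∧ goodP K J j1 B S s ∧ s + B + 20 * m ≤ k ∧ K - ee S s1 ≤ 60 * (K - ee S (s + B)) := by
  obtain ⟨M1, hM1⟩ : ∃ M1, M1 = K - ee S s1 := ⟨_, rfl⟩
  obtain ⟨q, hq⟩ : ∃ q, q = M1 / 19 + 1 := ⟨_, rfl⟩
  obtain ⟨s2, hs2⟩ : ∃ s2, s2 = s1 + 12 * q := ⟨_, rfl⟩
  have hq1 : M1 < 19 * q := by omega
  have hq2 : 19 * q ≤ M1 + 19 := by omega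
  rw [← hM1] at hs
  -- the end of the trajectory is far away
  have hfar : s2 + B + 20 * m ≤ k := by
    by_contra hcon
    rw [not_le] at hcon
    have hmono := ee_mono S hs1
    by_cases h20 : s1 + 20 * m ≤ k
    · have h1 := ee_lin S m k s1 (k - 20 * m) hm hC (by omega) (by omega)
      have h2 : ee S k ≤ ee S (k - 20 * m) + 40 * m := by
        have h3 := cnt_le S (show k - 20 * m ≤ k by omega)
        unfold ee
        omega
      omega
    · have h2 : ee S k ≤ ee S s1 + 40 * m := by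
        have h3 := cnt_le S hs1
        unfold ee
        omega
      omega
  have hend := ee_lin S m k s1 (s2 + B) hm hC (by omega) hfar
  have hmono2 := ee_mono S (show s2 ≤ s2 + B by omega)
  by_contra hcon
  push Not at hcon
  have hb : ∀ s, s1 ≤ s → s ≤ s2 → ¬ goodP K J j1 B S s := by
    intro s h1 h2 hg
    have h3 := hcon s h1 hg (by omega)
    have h4 := ee_mono S (show s + B ≤ s2 + B by omega)
    omega
  have h1 := bad_run K J j1 B S hj hj2 s1 s2 (by omega) (by omega) hb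
  rw [← hM1] at h1
  have h5 : 2 ^ M1 ≤ 3 ^ (s2 - s1) := by
    calc 2 ^ M1 ≤ 2 ^ (19 * q) := Nat.pow_le_pow_right (by norm_num) hq1.le
      _ = (2 ^ 19) ^ q := by rw [pow_mul]
      _ ≤ (3 ^ 12) ^ q := Nat.pow_le_pow_left (by norm_num) q
      _ = 3 ^ (12 * q) := by rw [pow_mul]
      _ = 3 ^ (s2 - s1) := by congr 1; omega
  omega

/-- `g` disjoint good blocks. -/
theorem good_blocks (K L J j1 B m k : ℕ) (S : Finset ℕ) (hK : K = L + J) (hJ : J = B) (hk : ee S k = L)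
    (hj : 4 ≤ j1) (hj2 : j1 ≤ J) (hm : 1 ≤ m) (hC : C1 S m k) (g : ℕ)
    (hs : 60 ^ g * (6000 * (B + m + 1)) ≤ K) :
    ∃ s : ℕ → ℕ, (∀ t < g, goodP K J j1 B S (s t) ∧ s t + B + 20 * m ≤ k) ∧
      ∀ t, t + 1 < g → s t + B ≤ s (t + 1) := by
  have key : ∀ g s1 : ℕ, s1 ≤ k → 60 ^ g * (6000 * (B + m + 1)) ≤ K - ee S s1 →
      ∃ s : ℕ → ℕ, (∀ t < g, goodP K J j1 B S (s t) ∧ s t + B + 20 * m ≤ k ∧ s1 ≤ s t) ∧
        ∀ t, t + 1 < g → s t + B ≤ s (t + 1) := by
    intro g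
    induction g with
    | zero => intro s1 _ _; exact ⟨fun _ => 0, fun t ht => by omega, fun t ht => by omega⟩
    | succ g ih =>
      intro s1 hs1k hs1
      have hone : 1 ≤ 60 ^ g := Nat.one_le_pow _ _ (by norm_num)
      have hpow : 60 ^ (g + 1) * (6000 * (B + m + 1)) =
          60 * (60 ^ g * (6000 * (B + m + 1))) := by ring
      have hge : 6000 * (B + m + 1) ≤ 60 ^ g * (6000 * (B + m + 1)) :=
        Nat.le_mul_of_pos_left _ hone
      rw [hpow] at hs1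
      generalize hX : 60 ^ g * (6000 * (B + m + 1)) = X at hge hs1 ih
      obtain ⟨s', h1, h2, h3, h4⟩ := good_block K L J j1 B m k S hK hJ hk hj hj2 hm hC s1 hs1k (by omega)
      obtain ⟨s'', h5, h6⟩ := ih (s' + B) (by omega) (by omega)
      refine ⟨fun t => if t = 0 then s' else s'' (t - 1), ?_, ?_⟩
      · intro t ht
        by_cases h0 : t = 0
        · simp only [h0, if_true]
          exact ⟨h2, h3, h1⟩
        · simp only [h0, if_false]
          obtain ⟨a1, a2, a3⟩ := h5 (t - 1) (by omega)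
          exact ⟨a1, a2, by omega⟩
      · intro t ht
        have e1 : t + 1 ≠ 0 := by omega
        by_cases h0 : t = 0
        · simp only [h0, if_true]
          rw [if_neg (by omega)]
          obtain ⟨a1, a2, a3⟩ := h5 (0 + 1 - 1) (by omega)
          exact a3
        · simp only [h0, e1, if_false]
          have := h6 (t - 1) (by omega)
          rw [show t - 1 + 1 = t + 1 - 1 by omega] at this
          exact this
  obtain ⟨s, h1, h2⟩ := key g 0 (Nat.zero_le _) (by rw [ee_zero, Nat.sub_zero]; exact hs)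
  exact ⟨s, fun t ht => ⟨(h1 t ht).1, (h1 t ht).2.1⟩, h2⟩

end Pool.Agent.MP9e8697.CW
end

section

/-! A block of a typical set. -/

set_option autoImplicit false

namespace Pool.Agent.MP9e8697.CW

open Finset

theorem block_act (S : Finset ℕ) (m k B ρ s : ℕ) (hm : 3 * ρ + 15 ≤ m) (hC : C1 S m k) (hs : s + B + 20 * m ≤ k) :
    ∀ x < B, 35 * (20 * m) ≤ x → 4 * 3 ^ (2 * ρ) * 2 ^ (x + Ys (oo S s) x) ≤ 3 ^ (x + 1) := by
  intro x hx hx2
  have h := ones_le S m k s (s + x) (by omega) hC (Nat.le_add_right s x) (by omega)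
  rw [Ys_oo] at h
  obtain ⟨p, hp⟩ : ∃ p, p = x + Ys (oo S s) x := ⟨_, rfl⟩
  rw [← hp]
  have h1 : 2 + 4 * ρ + p ≤ 19 * (x / 12) := by omega
  calc 4 * 3 ^ (2 * ρ) * 2 ^ p ≤ 2 ^ 2 * (2 ^ 2) ^ (2 * ρ) * 2 ^ p := by
        gcongr
        · norm_num
        · norm_num
    _ = 2 ^ (2 + 4 * ρ + p) := by
        rw [← pow_mul, ← pow_add, ← pow_add]
        congr 1
        ring
    _ ≤ 2 ^ (19 * (x / 12)) := Nat.pow_le_pow_right (by norm_num) h1
    _ = (2 ^ 19) ^ (x / 12) := by rw [pow_mul]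
    _ ≤ (3 ^ 12) ^ (x / 12) := Nat.pow_le_pow_left (by norm_num) _
    _ = 3 ^ (12 * (x / 12)) := by rw [pow_mul]
    _ ≤ 3 ^ (x + 1) := Nat.pow_le_pow_right (by norm_num) (by omega)

theorem block_vc (S : Finset ℕ) (ρ m k Kc N0 s : ℕ) (hρ : 1 ≤ ρ) (hm : 1 ≤ m) (hC : C2 S ρ (20 * m) Kc k)
    (hs : s + N0 * (20 * m) + 20 * m ≤ k) :
    vc (oo S s) ρ (N0 * (20 * m)) ≤ (N0 + 1) * (ρ * Kc) := by
  classical
  have hl0 : 0 < 20 * m := by omega
  generalize hlg : 20 * m = l at *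
  unfold vc
  have hcard : ∀ p ∈ (range (N0 + 1)) ×ˢ (range ρ),
      ((Ico ((s / l + p.1) * l) ((s / l + p.1 + 1) * l)).filter
        (fun x => x % ρ = p.2 ∧ voidAt S ρ x)).card ≤ Kc := by
    intro p hp
    rw [Finset.mem_product, mem_range, mem_range] at hp
    have hH : (s / l + p.1 + 1) * l ≤ k := by
      have h1 : s / l * l ≤ s := Nat.div_mul_le_self s l
      have h2 : p.1 * l ≤ N0 * l := Nat.mul_le_mul_right _ (by omega)
      have h3 : (s / l + p.1 + 1) * l = s / l * l + p.1 * l + l := by ring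
      omega
    have h4 := hC (s / l + p.1) hH p.2 hp.2
    refine le_trans (Finset.card_le_card ?_) h4.le
    intro x hx
    simp only [mem_filter] at hx ⊢
    exact hx
  have hsub : ((range (N0 * l)).filter (fun x => ρ ≤ x + 1 ∧ ∀ i < ρ, oo S s (x - i) ≠ 1)).image
      (fun x => s + x) ⊆
      ((range (N0 + 1)) ×ˢ (range ρ)).biUnion (fun p =>
        (Ico ((s / l + p.1) * l) ((s / l + p.1 + 1) * l)).filter
        (fun x => x % ρ = p.2 ∧ voidAt S ρ x)) := by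
    intro y hy
    rw [Finset.mem_image] at hy
    obtain ⟨x, hx, rfl⟩ := hy
    rw [mem_filter, mem_range] at hx
    obtain ⟨hxB, hx1, hx2⟩ := hx
    have hdiv1 : s / l ≤ (s + x) / l := Nat.div_le_div_right (by omega)
    have hdiv2 : (s + x) / l ≤ s / l + N0 := by
      have : (s + N0 * l) / l = s / l + N0 := Nat.add_mul_div_right s N0 hl0
      rw [← this]
      exact Nat.div_le_div_right (by omega)
    rw [Finset.mem_biUnion]
    refine ⟨((s + x) / l - s / l, (s + x) % ρ), ?_, ?_⟩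
    · rw [Finset.mem_product, mem_range, mem_range]
      exact ⟨by dsimp only; omega, Nat.mod_lt _ (by omega)⟩
    · rw [mem_filter, Finset.mem_Ico]
      have e1 : s / l + ((s + x) / l - s / l) = (s + x) / l := by omega
      dsimp only
      rw [e1]
      refine ⟨⟨Nat.div_mul_le_self _ _, ?_⟩, rfl, ?_, ?_⟩
      · have h6 := Nat.div_add_mod (s + x) l
        have h7 := Nat.mod_lt (s + x) hl0
        have h8 : ((s + x) / l + 1) * l = l * ((s + x) / l) + l := by ring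
        omega
      · omega
      · intro i hi hm
        have e2 : s + x - i = s + (x - i) := by omega
        rw [e2, oo_iff] at hm
        exact hx2 i hi hm
  have h5 : ((range (N0 * l)).filter (fun x => ρ ≤ x + 1 ∧ ∀ i < ρ, oo S s (x - i) ≠ 1)).card ≤
      (N0 + 1) * (ρ * Kc) := by
    rw [← Finset.card_image_of_injective _ (add_right_injective s)]
    refine le_trans (Finset.card_le_card hsub) ?_
    refine le_trans Finset.card_biUnion_le ?_
    refine le_trans (Finset.sum_le_card_nsmul _ _ Kc hcard) ?_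
    rw [Finset.card_product, card_range, card_range, smul_eq_mul, mul_assoc]
  refine le_trans (Finset.card_le_card ?_) h5
  intro x hx
  simp only [mem_filter] at hx ⊢
  exact hx

/-- The numerical inequality. -/
theorem numeric (N ρ m g V : ℕ) (hN1 : 70 ≤ N) (hm : 1 ≤ m) (lam : ℝ) (h0 : 0 ≤ lam)
    (hlam : lam * 3 ^ (2 * ρ) ≤ 1 / (N : ℝ)) (hV : 2 * V ≤ 20 * m) (w : ℝ) (_hw0 : 0 ≤ w)
    (hw : w ≤ 2 ^ (N * (20 * m) - 70 * (20 * m))) :
    w * (2 / 2 ^ (N * (20 * m) - 3)) *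
      (g * (2 ^ 4 * ((1 + lam * 3 ^ (2 * ρ)) ^ (N * (20 * m)) *
        3 ^ (35 * (20 * m) + 2 * V + 2 * ρ)))) ≤ 256 * g * 3 ^ (2 * ρ) / 2 ^ (11 * (20 * m)) := by
  generalize hlg : 20 * m = l at *
  have hNpos : (0 : ℝ) < N := by
    have : 0 < N := by omega
    exact_mod_cast this
  have hx0 : 0 ≤ lam * 3 ^ (2 * ρ) := by positivity
  have hA : (1 + lam * 3 ^ (2 * ρ)) ^ (N * l) ≤ 3 ^ l := by
    rw [pow_mul]
    apply pow_le_pow_left₀ (by positivity)
    calc (1 + lam * 3 ^ (2 * ρ)) ^ N ≤ (1 + 1 / (N : ℝ)) ^ N :=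
          pow_le_pow_left₀ (by positivity) (by linarith) _
      _ ≤ (Real.exp (1 / (N : ℝ))) ^ N :=
          pow_le_pow_left₀ (by positivity) (by have := Real.add_one_le_exp (1 / (N : ℝ)); linarith) _
      _ = Real.exp 1 := by
          rw [← Real.exp_nat_mul]
          congr 1
          field_simp
      _ ≤ 3 := by
          have := Real.exp_one_lt_d9
          linarith
  have hB : (3 : ℝ) ^ (35 * l + 2 * V + 2 * ρ) ≤ 3 ^ (36 * l) * 3 ^ (2 * ρ) := by
    rw [← pow_add]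
    exact pow_le_pow_right₀ (by norm_num) (by omega)
  have hC : (3 : ℝ) ^ l * 3 ^ (36 * l) ≤ 2 ^ (59 * l) := by
    rw [pow_mul, pow_mul, ← mul_pow]
    exact pow_le_pow_left₀ (by positivity) (by norm_num) _
  have hle : 70 * l ≤ N * l := Nat.mul_le_mul_right _ hN1
  obtain ⟨J', hJ'⟩ : ∃ J', N * l = 70 * l + J' := ⟨N * l - 70 * l, by omega⟩
  have hl1 : 20 ≤ l := by omega
  have hw' : w ≤ 2 ^ J' := by
    have : N * l - 70 * l = J' := by omega
    rwa [this] at hw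
  have hdiv : (2 : ℝ) / 2 ^ (N * l - 3) = 16 / (2 ^ (70 * l) * 2 ^ J') := by
    obtain ⟨J2, hJ2⟩ : ∃ J2, 70 * l + J' = J2 + 3 := ⟨70 * l + J' - 3, by omega⟩
    have h3 : N * l - 3 = J2 := by omega
    rw [h3, ← pow_add, hJ2, pow_add]
    have : (2 : ℝ) ^ J2 ≠ 0 := by positivity
    field_simp
    norm_num
  rw [hdiv]
  have hg0 : (0 : ℝ) ≤ g := Nat.cast_nonneg g
  have hAB : (1 + lam * 3 ^ (2 * ρ)) ^ (N * l) * 3 ^ (35 * l + 2 * V + 2 * ρ) ≤
      2 ^ (59 * l) * 3 ^ (2 * ρ) := by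
    calc (1 + lam * 3 ^ (2 * ρ)) ^ (N * l) * 3 ^ (35 * l + 2 * V + 2 * ρ)
        ≤ 3 ^ l * (3 ^ (36 * l) * 3 ^ (2 * ρ)) := mul_le_mul hA hB (by positivity) (by positivity)
      _ = (3 ^ l * 3 ^ (36 * l)) * 3 ^ (2 * ρ) := by ring
      _ ≤ 2 ^ (59 * l) * 3 ^ (2 * ρ) := mul_le_mul_of_nonneg_right hC (by positivity)
  calc w * (16 / (2 ^ (70 * l) * 2 ^ J')) *
      ((g : ℝ) * ((2 : ℝ) ^ 4 * ((1 + lam * 3 ^ (2 * ρ)) ^ (N * l) *
        3 ^ (35 * l + 2 * V + 2 * ρ))))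
      ≤ (2 : ℝ) ^ J' * (16 / (2 ^ (70 * l) * 2 ^ J')) *
      ((g : ℝ) * ((2 : ℝ) ^ 4 * (2 ^ (59 * l) * 3 ^ (2 * ρ)))) := by
        apply mul_le_mul
        · exact mul_le_mul_of_nonneg_right hw' (by positivity)
        · apply mul_le_mul_of_nonneg_left _ hg0
          exact mul_le_mul_of_nonneg_left hAB (by positivity)
        · positivity
        · positivity
    _ = 256 * (g : ℝ) * 3 ^ (2 * ρ) / 2 ^ (11 * l) := by
        have e1 : (2 : ℝ) ^ (70 * l) = 2 ^ (59 * l) * 2 ^ (11 * l) := by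
          rw [← pow_add]
          congr 1
          ring
        rw [e1]
        have h2 : (2 : ℝ) ^ (59 * l) ≠ 0 := by positivity
        have h3 : (2 : ℝ) ^ (11 * l) ≠ 0 := by positivity
        have h4 : (2 : ℝ) ^ J' ≠ 0 := by positivity
        field_simp
        ring

end Pool.Agent.MP9e8697.CW
end

section

/-! Growth. -/

set_option autoImplicit false

namespace Pool.Agent.MP9e8697.CW

open Finset

theorem weight_le (S : Finset ℕ) (m k i : ℕ) (hm : 1 ≤ m) (hC : C1 S m k) (hi : i < k) :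
    2 ^ ee S i ≤ 2 ^ (62 * m + 20) * 3 ^ (i + 1) := by
  have h1 : 20 * ee S i ≤ 31 * i + 1240 * m := by
    by_cases h2 : i + 20 * m ≤ k
    · have h3 := ee_lin S m k 0 i hm hC (Nat.zero_le _) h2
      rw [ee_zero] at h3
      omega
    · by_cases h4 : 20 * m ≤ k
      · have h3 := ee_lin S m k 0 (k - 20 * m) hm hC (Nat.zero_le _) (by omega)
        rw [ee_zero] at h3
        have h5 := cnt_le S (show k - 20 * m ≤ i by omega)
        unfold ee at h3 ⊢
        omega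
      · have h5 := cnt_le S (Nat.zero_le i)
        rw [cnt_zero] at h5
        unfold ee
        omega
  have h2 : ee S i ≤ (62 * m + 20) + 19 * ((i + 1) / 12) := by omega
  calc 2 ^ ee S i ≤ 2 ^ ((62 * m + 20) + 19 * ((i + 1) / 12)) := Nat.pow_le_pow_right (by norm_num) h2
    _ = 2 ^ (62 * m + 20) * (2 ^ 19) ^ ((i + 1) / 12) := by rw [pow_add, pow_mul 2 19]
    _ ≤ 2 ^ (62 * m + 20) * (3 ^ 12) ^ ((i + 1) / 12) :=
        Nat.mul_le_mul_left _ (Nat.pow_le_pow_left (by norm_num) _)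
    _ = 2 ^ (62 * m + 20) * 3 ^ (12 * ((i + 1) / 12)) := by rw [← pow_mul]
    _ ≤ 2 ^ (62 * m + 20) * 3 ^ (i + 1) :=
        Nat.mul_le_mul_left _ (Nat.pow_le_pow_right (by norm_num) (by omega))

theorem sum_ge (k : ℕ) (n : ℤ) (f : ℕ → ℤ) (hf : ∀ i, 0 ≤ f i) :
    -∑ i ∈ range k, f i ≤ ∑ i ∈ (od k n).filter (fun i => i < k), (if i ∈ up k n then (-1 : ℤ) else 1) * f i := by
  have h1 : (od k n).filter (fun i => i < k) ⊆ range k := by
    intro i hi
    rw [mem_filter] at hi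
    exact mem_range.2 hi.2
  calc -∑ i ∈ range k, f i ≤ -∑ i ∈ (od k n).filter (fun i => i < k), f i :=
        neg_le_neg (sum_le_sum_of_subset_of_nonneg h1 fun i _ _ => hf i)
    _ = ∑ i ∈ (od k n).filter (fun i => i < k), -f i := by rw [sum_neg_distrib]
    _ ≤ _ := by
        refine sum_le_sum fun i _ => ?_
        have := hf i
        split_ifs <;> linarith

/-- The first `k` steps. -/
theorem growth_first (m k : ℕ) (n : ℤ) (hm : 1 ≤ m) (hC : C1 (od k n) m k)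
    (hn : 2 * (k * 2 ^ (62 * m + 20)) ≤ n) : 3 ^ k * n ≤ 2 ^ (ee (od k n) k + 1) * T^[k] n := by
  have hf := iter_formula k n k le_rfl
  have h1 := sum_ge k n (fun i => 2 ^ ee (od k n) i * 3 ^ (k - (i + 1))) (fun i => by positivity)
  have h2 : ∑ i ∈ range k, (2 : ℤ) ^ ee (od k n) i * 3 ^ (k - (i + 1)) ≤ k * (2 ^ (62 * m + 20) * 3 ^ k) := by
    have h3 : ∀ i ∈ range k, (2 : ℤ) ^ ee (od k n) i * 3 ^ (k - (i + 1)) ≤ 2 ^ (62 * m + 20) * 3 ^ k := by
      intro i hi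
      rw [mem_range] at hi
      have h4 := weight_le (od k n) m k i hm hC hi
      have h5 : (2 : ℕ) ^ ee (od k n) i * 3 ^ (k - (i + 1)) ≤ 2 ^ (62 * m + 20) * 3 ^ k := by
        calc (2 : ℕ) ^ ee (od k n) i * 3 ^ (k - (i + 1))
            ≤ (2 ^ (62 * m + 20) * 3 ^ (i + 1)) * 3 ^ (k - (i + 1)) := Nat.mul_le_mul_right _ h4
          _ = 2 ^ (62 * m + 20) * 3 ^ k := by
              rw [mul_assoc, ← pow_add]
              congr 2
              omega
      exact_mod_cast h5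
    refine (sum_le_card_nsmul _ _ _ h3).trans ?_
    rw [card_range, nsmul_eq_mul]
  have h5 : (0 : ℤ) < 3 ^ k := by positivity
  have h6 : 3 ^ k * n - k * (2 ^ (62 * m + 20) * 3 ^ k) ≤ 2 ^ ee (od k n) k * T^[k] n := by
    rw [hf]
    linarith
  have h8 : 2 * (k * (2 ^ (62 * m + 20) * 3 ^ k)) ≤ 3 ^ k * n := by
    have := mul_le_mul_of_nonneg_left hn h5.le
    calc 2 * (k * (2 ^ (62 * m + 20) * 3 ^ k)) = (3 : ℤ) ^ k * (2 * (k * 2 ^ (62 * m + 20))) := by ring
      _ ≤ _ := this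
  have h9 : (2 : ℤ) ^ (ee (od k n) k + 1) * T^[k] n = 2 * (2 ^ ee (od k n) k * T^[k] n) := by
    rw [pow_succ]; ring
  rw [h9]
  linarith

theorem geom_le (k : ℕ) : ∑ i ∈ range k, (4 : ℤ) ^ i * 3 ^ (k - (i + 1)) ≤ 4 ^ k := by
  induction k with
  | zero => simp
  | succ k ih =>
    rw [sum_range_succ]
    have h1 : ∑ i ∈ range k, (4 : ℤ) ^ i * 3 ^ (k + 1 - (i + 1)) = 3 * ∑ i ∈ range k, (4 : ℤ) ^ i * 3 ^ (k - (i + 1)) := by
      rw [mul_sum]
      refine sum_congr rfl fun i hi => ?_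
      rw [mem_range] at hi
      have h2 : k + 1 - (i + 1) = (k - (i + 1)) + 1 := by omega
      rw [h2, pow_succ]
      ring
    rw [h1, Nat.sub_self, pow_zero, mul_one, pow_succ]
    linarith

/-- The window. -/
theorem growth_window (k : ℕ) (x : ℤ) (hx : 2 * 4 ^ k ≤ x) :
    3 ^ k * x ≤ 2 ^ (ee (od k x) k + 1) * T^[k] x := by
  have hf := iter_formula k x k le_rfl
  have h1 := sum_ge k x (fun i => 2 ^ ee (od k x) i * 3 ^ (k - (i + 1))) (fun i => by positivity)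
  have h2 : ∑ i ∈ range k, (2 : ℤ) ^ ee (od k x) i * 3 ^ (k - (i + 1)) ≤ 4 ^ k := by
    refine le_trans (sum_le_sum fun i _ => ?_) (geom_le k)
    apply mul_le_mul_of_nonneg_right _ (by positivity)
    have h3 : ee (od k x) i ≤ 2 * i := by
      have h5 := cnt_le (od k x) (Nat.zero_le i)
      rw [cnt_zero] at h5
      unfold ee
      omega
    calc (2 : ℤ) ^ ee (od k x) i ≤ 2 ^ (2 * i) := pow_le_pow_right₀ (by norm_num) h3
      _ = 4 ^ i := by rw [pow_mul]; norm_num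
  have h5 : (1 : ℤ) ≤ 3 ^ k := one_le_pow₀ (by norm_num)
  have h6 : 3 ^ k * x - 4 ^ k ≤ 2 ^ ee (od k x) k * T^[k] x := by
    rw [hf]
    linarith
  have hx0 : (0 : ℤ) ≤ x := le_trans (by positivity) hx
  have h8 : 2 * 4 ^ k ≤ 3 ^ k * x := by
    calc (2 : ℤ) * 4 ^ k ≤ x := hx
      _ ≤ 3 ^ k * x := le_mul_of_one_le_left hx0 h5
  have h9 : (2 : ℤ) ^ (ee (od k x) k + 1) * T^[k] x = 2 * (2 ^ ee (od k x) k * T^[k] x) := by
    rw [pow_succ]; ring
  rw [h9]
  linarith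

/-- Together. -/
theorem growth (m k w L : ℕ) (n : ℤ) (hm : 1 ≤ m) (hk : ee (od k n) k = L) (hC : C1 (od k n) m k)
    (hn : 2 * (k * 2 ^ (62 * m + 20)) ≤ n) (hn1 : 2 ^ L ≤ n) (hkw : 40 * w + 2 ≤ k)
    (hw : (od (20 * w) (T^[k] n)).card ≤ 11 * w) :
    3 ^ (k + 20 * w) * n ≤ 2 ^ (L + 2 + 31 * w) * T^[20 * w + k] n := by
  have h1 := growth_first m k n hm hC hn
  rw [hk] at h1
  have hn0 : 0 < n := lt_of_lt_of_le (by positivity) hn1
  have h2 : (2 : ℤ) * 4 ^ (20 * w) ≤ T^[k] n := by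
    have h3 : (2 : ℤ) ^ (L + 1) * (2 * 4 ^ (20 * w)) ≤ 2 ^ (L + 1) * T^[k] n := by
      calc (2 : ℤ) ^ (L + 1) * (2 * 4 ^ (20 * w)) = 2 ^ (40 * w + 2) * 2 ^ L := by
            have e1 : (4 : ℤ) ^ (20 * w) = 2 ^ (40 * w) := by
              have e2 : (4 : ℤ) = 2 ^ 2 := by norm_num
              rw [e2, ← pow_mul]
              congr 1
              ring
            rw [e1, pow_succ, pow_add 2 (40 * w) 2]
            ring
        _ ≤ 3 ^ k * n := by
            apply mul_le_mul _ hn1 (by positivity) (by positivity)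
            calc (2 : ℤ) ^ (40 * w + 2) ≤ 2 ^ k := pow_le_pow_right₀ (by norm_num) hkw
              _ ≤ 3 ^ k := pow_le_pow_left₀ (by norm_num) (by norm_num) _
        _ ≤ _ := h1
    exact le_of_mul_le_mul_left h3 (by positivity)
  have h3 := growth_window (20 * w) (T^[k] n) h2
  have h4 : T^[20 * w + k] n = T^[20 * w] (T^[k] n) := Function.iterate_add_apply _ _ _ _
  have h5 : ee (od (20 * w) (T^[k] n)) (20 * w) ≤ 31 * w := by
    unfold ee
    rw [cnt_od]
    omega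
  rw [h4]
  have hT0 : 0 ≤ T^[20 * w] (T^[k] n) := by
    have h6 : (0 : ℤ) < 3 ^ (20 * w) * T^[k] n := by
      have : (0 : ℤ) < T^[k] n := lt_of_lt_of_le (by positivity) h2
      positivity
    have h7 := lt_of_lt_of_le h6 h3
    exact (pos_of_mul_pos_right h7 (by positivity)).le
  calc (3 : ℤ) ^ (k + 20 * w) * n = 3 ^ (20 * w) * (3 ^ k * n) := by
        rw [pow_add]
        ring
    _ ≤ 3 ^ (20 * w) * (2 ^ (L + 1) * T^[k] n) := mul_le_mul_of_nonneg_left h1 (by positivity)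
    _ = 2 ^ (L + 1) * (3 ^ (20 * w) * T^[k] n) := by ring
    _ ≤ 2 ^ (L + 1) * (2 ^ (ee (od (20 * w) (T^[k] n)) (20 * w) + 1) * T^[20 * w] (T^[k] n)) :=
        mul_le_mul_of_nonneg_left h3 (by positivity)
    _ ≤ 2 ^ (L + 1) * (2 ^ (31 * w + 1) * T^[20 * w] (T^[k] n)) := by
        apply mul_le_mul_of_nonneg_left _ (by positivity)
        apply mul_le_mul_of_nonneg_right _ hT0
        exact pow_le_pow_right₀ (by norm_num) (by omega)
    _ = 2 ^ (L + 2 + 31 * w) * T^[20 * w] (T^[k] n) := by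
        rw [← mul_assoc, ← pow_add]
        congr 2
        omega

end Pool.Agent.MP9e8697.CW
end
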