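import Pool.Agent.Lib.MP_9e8697_nt.Mg.G009

section

/-!
# The irrationality measure, one step
-/

namespace Pool.Agent.MP_9e8697_nt

/-- One step, for `n` odd and `p ≤ (20 / 41)^...`: if `u, v ≥ 1`, `u + v ≤ p` and
`p * (41 / 100) ^ n ≤ 1`, then `|u log (9/8) - v log (4/3)| ≥ (1 / 51) * (1 / 10^12)^n * ...`.
Proof. Put `D = dl (6 n)`, `c = (P n).coeff (6 n)`, `I₁ = ∫ f n` over `[8, 9]`, `I₂` over `[9, 12]`,
`Λ = u (log 9 - log 8) - v (log 12 - log 9)`. By `exists_int`, `D c Λ = z + D (u I₁ - v I₂)` with an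
integer `z`, and `- (u I₁ - v I₂) = u |I₁| + v I₂` lies between `v I₂ ≥ (25/10^5)^n / 51` and
`(u + v) (265/10^6)^n / 3 ≤ p (265/10^6)^n / 3`. As `D ≤ (17/5)^(6n)` (`dl_le`) and
`(17/5)^6 * 265/10^6 ≤ 41/100`, the number `D (u |I₁| + v I₂)` is `≤ 1/3`.
If `z = 0` then `|c| |Λ| = u |I₁| + v I₂ ≥ (25/10^5)^n / 51`, and `|c| ≤ 237081600^n`
(`coeff_abs_le`). If `z ≠ 0` then `D |c| |Λ| ≥ 2/3` and `D |c| ≤ ((17/5)^6 * 237081600)^n`.
In both cases `|Λ| ≥ (1/51) ((41/100)^31)^n`, as `(41/100)^31 ≤ 25/10^5/237081600` and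
`(41/100)^31 * (17/5)^6 * 237081600 ≤ 1`. -/
theorem lower_step {n p u v : ℕ} (hn : Odd n) (hu : 1 ≤ u) (hv : 1 ≤ v) (huv : u + v ≤ p)
    (hp : (p : ℝ) * (41 / 100) ^ n ≤ 1) :
    1 / 51 * ((41 / 100 : ℝ) ^ n) ^ 31 ≤
      |(u : ℝ) * (Real.log 9 - Real.log 8) - v * (Real.log 12 - Real.log 9)| := by
  obtain ⟨z1, hz1⟩ := exists_int n (a := 8) (b := 9) (Or.inl rfl) (Or.inr (Or.inl rfl)) (by norm_num)
  obtain ⟨z2, hz2⟩ := exists_int n (a := 9) (b := 12) (Or.inr (Or.inl rfl)) (Or.inr (Or.inr rfl))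
    (by norm_num)
  obtain ⟨hI1, hI1'⟩ := integral_left hn
  obtain ⟨hI2, hI2'⟩ := integral_right n
  have hcast : ((8 : ℤ) : ℝ) = 8 ∧ ((9 : ℤ) : ℝ) = 9 ∧ ((12 : ℤ) : ℝ) = 12 := by norm_num
  rw [hcast.1, hcast.2.1] at hz1
  rw [hcast.2.1, hcast.2.2] at hz2
  have hC := coeff_abs_le n
  have hD0 : (0 : ℝ) < (dl (6 * n) : ℝ) := by exact_mod_cast dl_pos (6 * n)
  have hD : (dl (6 * n) : ℝ) ≤ ((17 / 5 : ℝ) ^ 6) ^ n := by
    have h1 := dl_le (6 * n)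
    have h2 : (dl (6 * n) : ℝ) * 5 ^ (6 * n) ≤ 17 ^ (6 * n) := by exact_mod_cast h1
    rw [← pow_mul, div_pow, le_div_iff₀ (by positivity)]
    exact h2
  set D : ℝ := (dl (6 * n) : ℝ) with hDdef
  set c : ℝ := ((P n).coeff (6 * n) : ℝ) with hcdef
  set I1 : ℝ := ∫ x in (8 : ℝ)..9, f n x with hI1def
  set I2 : ℝ := ∫ x in (9 : ℝ)..12, f n x with hI2def
  set A : ℝ := Real.log 9 - Real.log 8 with hA
  set B : ℝ := Real.log 12 - Real.log 9 with hB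
  clear_value D c I1 I2 A B
  have hu' : (1 : ℝ) ≤ u := by exact_mod_cast hu
  have hv' : (1 : ℝ) ≤ v := by exact_mod_cast hv
  have huv' : (u : ℝ) + v ≤ p := by exact_mod_cast huv
  obtain ⟨Z, hZ⟩ : ∃ Z : ℤ, Z = u * z1 - v * z2 := ⟨_, rfl⟩
  have hkey : D * c * (u * A - v * B) = -(D * (v * I2 - u * I1)) - Z := by
    rw [hZ]
    push_cast
    linear_combination (-(u : ℝ)) * hz1 + (v : ℝ) * hz2
  set W : ℝ := v * I2 - u * I1 with hW
  have hI2pos : 0 ≤ I2 := le_trans (by positivity) hI2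
  have hW1 : (25 / 10 ^ 5 : ℝ) ^ n / 51 ≤ W := by
    have h1 : 0 ≤ -(u * I1) := by nlinarith
    have h2 : I2 ≤ v * I2 := by nlinarith
    rw [hW]
    linarith
  have hG0 : (0 : ℝ) ≤ (265 / 10 ^ 6 : ℝ) ^ n := by positivity
  have hW2 : W ≤ p * (265 / 10 ^ 6 : ℝ) ^ n / 3 := by
    have h1 : -(u * I1) ≤ u * ((265 / 10 ^ 6 : ℝ) ^ n / 3) := by nlinarith
    have h2 : v * I2 ≤ v * ((265 / 10 ^ 6 : ℝ) ^ n / 3) := by nlinarith
    have h3 : (u + v) * ((265 / 10 ^ 6 : ℝ) ^ n / 3) ≤ p * ((265 / 10 ^ 6 : ℝ) ^ n / 3) :=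
      mul_le_mul_of_nonneg_right huv' (by positivity)
    rw [hW]
    linarith
  have hW0 : 0 ≤ W := le_trans (by positivity) hW1
  have hDW : D * W ≤ 1 / 3 := by
    have h1 : D * W ≤ ((17 / 5 : ℝ) ^ 6) ^ n * (p * (265 / 10 ^ 6 : ℝ) ^ n / 3) :=
      mul_le_mul hD hW2 hW0 (by positivity)
    have h2 : ((17 / 5 : ℝ) ^ 6) ^ n * (p * (265 / 10 ^ 6 : ℝ) ^ n / 3) =
        p * ((17 / 5 : ℝ) ^ 6 * (265 / 10 ^ 6)) ^ n / 3 := by
      rw [mul_pow]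
      ring
    have h3 : ((17 / 5 : ℝ) ^ 6 * (265 / 10 ^ 6)) ^ n ≤ (41 / 100 : ℝ) ^ n :=
      pow_le_pow_left₀ (by positivity) (by norm_num) n
    have hp0 : (0 : ℝ) ≤ p := Nat.cast_nonneg p
    have h4 : p * ((17 / 5 : ℝ) ^ 6 * (265 / 10 ^ 6)) ^ n ≤ p * (41 / 100 : ℝ) ^ n :=
      mul_le_mul_of_nonneg_left h3 hp0
    linarith
  have hr : ((41 / 100 : ℝ) ^ n) ^ 31 = ((41 / 100 : ℝ) ^ 31) ^ n := by
    rw [← pow_mul, ← pow_mul, mul_comm]
  rw [hr]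
  have hDc : D * |c| ≤ ((17 / 5 : ℝ) ^ 6 * 237081600) ^ n := by
    rw [mul_pow]
    exact mul_le_mul hD hC (abs_nonneg _) (by positivity)
  have hΛ0 : 0 ≤ |(u : ℝ) * A - v * B| := abs_nonneg _
  by_cases hZ0 : Z = 0
  · rw [hZ0] at hkey
    have h1 : D * (|c| * |(u : ℝ) * A - v * B|) = D * W := by
      have h2 : |D * c * (u * A - v * B)| = D * W := by
        rw [hkey, Int.cast_zero, sub_zero, abs_neg, abs_of_nonneg (by positivity)]
      rw [abs_mul, abs_mul, abs_of_pos hD0] at h2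
      linarith
    have h2 : |c| * |(u : ℝ) * A - v * B| = W := mul_left_cancel₀ hD0.ne' h1
    have h3 : W ≤ 237081600 ^ n * |(u : ℝ) * A - v * B| := by
      rw [← h2]
      exact mul_le_mul_of_nonneg_right hC hΛ0
    have h4 : (25 / 10 ^ 5 : ℝ) ^ n / 51 ≤ 237081600 ^ n * |(u : ℝ) * A - v * B| := hW1.trans h3
    have h5 : ((41 / 100 : ℝ) ^ 31) ^ n * 237081600 ^ n ≤ (25 / 10 ^ 5 : ℝ) ^ n := by
      rw [← mul_pow]
      exact pow_le_pow_left₀ (by positivity) (by norm_num) n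
    have h6 : (0 : ℝ) < 237081600 ^ n := by positivity
    have h7 : 237081600 ^ n * (1 / 51 * ((41 / 100 : ℝ) ^ 31) ^ n) ≤
        237081600 ^ n * |(u : ℝ) * A - v * B| := by linarith
    exact le_of_mul_le_mul_left h7 h6
  · have h1 : (1 : ℝ) ≤ |(Z : ℝ)| := by
      have : (1 : ℤ) ≤ |Z| := Int.one_le_abs hZ0
      exact_mod_cast this
    have h2 : 2 / 3 ≤ |D * c * (u * A - v * B)| := by
      rw [hkey]
      have h3 : |(Z : ℝ)| ≤ |-(D * W) - Z| + |D * W| := by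
        have h4 := abs_add_le (-(-(D * W) - (Z : ℝ))) (-(D * W))
        rw [abs_neg, abs_neg] at h4
        have h5 : -(-(D * W) - (Z : ℝ)) + -(D * W) = Z := by ring
        rw [h5] at h4
        exact h4
      rw [abs_of_nonneg (show 0 ≤ D * W by positivity)] at h3
      linarith
    rw [abs_mul, abs_mul, abs_of_pos hD0] at h2
    have h3 : 2 / 3 ≤ ((17 / 5 : ℝ) ^ 6 * 237081600) ^ n * |(u : ℝ) * A - v * B| :=
      h2.trans (mul_le_mul_of_nonneg_right hDc hΛ0)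
    have h5 : ((41 / 100 : ℝ) ^ 31) ^ n * ((17 / 5 : ℝ) ^ 6 * 237081600) ^ n ≤ 1 := by
      rw [← mul_pow]
      exact pow_le_one₀ (by positivity) (by norm_num)
    have h6 : (0 : ℝ) < ((17 / 5 : ℝ) ^ 6 * 237081600) ^ n := by positivity
    have h7 : ((17 / 5 : ℝ) ^ 6 * 237081600) ^ n * (1 / 51 * ((41 / 100 : ℝ) ^ 31) ^ n) ≤
        ((17 / 5 : ℝ) ^ 6 * 237081600) ^ n * |(u : ℝ) * A - v * B| := by linarith
    exact le_of_mul_le_mul_left h7 h6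

end Pool.Agent.MP_9e8697_nt
end

section

/-!
# The irrationality measure
-/

namespace Pool.Agent.MP_9e8697_nt

/-- Proof: let `n` be the least odd number with `p (41/100)^n ≤ 1`. Then
`(41/100)^n ≥ (41/100)^2 / p` (for `n ≥ 3` by minimality; `n = 1`: `(41/100)^1 ≥ (41/100)^2 / p`), and
`lower_step` gives `≥ (1/51) ((41/100)^2 / p)^31 ≥ 1 / 10^27 / p^31`
(`(41/100)^62 ≥ 51 / 10^27`). -/
theorem lower_uv {p u v : ℕ} (hu : 1 ≤ u) (hv : 1 ≤ v) (huv : u + v ≤ p) :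
    1 / 10 ^ 27 / (p : ℝ) ^ 31 ≤
      |(u : ℝ) * (Real.log 9 - Real.log 8) - v * (Real.log 12 - Real.log 9)| := by
  classical
  have hp1 : (1 : ℝ) ≤ p := by
    have : 1 ≤ p := by omega
    exact_mod_cast this
  have hp0 : (0 : ℝ) < p := by linarith
  have hex : ∃ k : ℕ, (p : ℝ) * (41 / 100) ^ (2 * k + 1) ≤ 1 := by
    obtain ⟨m, hm⟩ := exists_pow_lt_of_lt_one (show (0 : ℝ) < 1 / p by positivity)
      (show (41 / 100 : ℝ) < 1 by norm_num)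
    refine ⟨m, ?_⟩
    have h1 : (41 / 100 : ℝ) ^ (2 * m + 1) ≤ (41 / 100) ^ m :=
      pow_le_pow_of_le_one (by norm_num) (by norm_num) (by omega)
    have h2 : (41 / 100 : ℝ) ^ (2 * m + 1) ≤ 1 / p := le_trans h1 hm.le
    calc (p : ℝ) * (41 / 100) ^ (2 * m + 1) ≤ p * (1 / p) := mul_le_mul_of_nonneg_left h2 hp0.le
      _ = 1 := by field_simp
  obtain ⟨k, hk, hmin⟩ : ∃ k : ℕ, (p : ℝ) * (41 / 100) ^ (2 * k + 1) ≤ 1 ∧
      ∀ j < k, ¬ (p : ℝ) * (41 / 100) ^ (2 * j + 1) ≤ 1 :=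
    ⟨Nat.find hex, Nat.find_spec hex, fun j hj => Nat.find_min hex hj⟩
  have hlow : (41 / 100 : ℝ) ^ 2 / p ≤ (41 / 100) ^ (2 * k + 1) := by
    rw [div_le_iff₀ hp0]
    rcases k with _ | k
    · norm_num
      nlinarith
    · have h1 := hmin k (Nat.lt_succ_self k)
      push Not at h1
      have e : 2 * (k + 1) + 1 = (2 * k + 1) + 2 := by ring
      rw [e, pow_add]
      have h2 : (0 : ℝ) < (41 / 100) ^ 2 := by norm_num
      nlinarith
  have hstep := lower_step (n := 2 * k + 1) ⟨k, rfl⟩ hu hv huv hk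
  refine le_trans ?_ hstep
  have h3 : ((41 / 100 : ℝ) ^ 2 / p) ^ 31 ≤ ((41 / 100 : ℝ) ^ (2 * k + 1)) ^ 31 :=
    pow_le_pow_left₀ (by positivity) hlow 31
  have h4 : (1 : ℝ) / 10 ^ 27 ≤ 1 / 51 * ((41 / 100 : ℝ) ^ 2) ^ 31 := by norm_num
  calc 1 / 10 ^ 27 / (p : ℝ) ^ 31 ≤ (1 / 51 * ((41 / 100 : ℝ) ^ 2) ^ 31) / (p : ℝ) ^ 31 :=
        div_le_div_of_nonneg_right h4 (by positivity)
    _ = 1 / 51 * ((41 / 100 : ℝ) ^ 2 / p) ^ 31 := by rw [div_pow _ (p : ℝ) 31, mul_div_assoc]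
    _ ≤ 1 / 51 * ((41 / 100 : ℝ) ^ (2 * k + 1)) ^ 31 :=
        mul_le_mul_of_nonneg_left h3 (by norm_num)

/-- The irrationality measure of `log 3 / log 2`.
Proof: with `u = 2 p - b`, `v = 2 b - 3 p` (as integers)
`p log 3 - b log 2 = u (log 9 - log 8) - v (log 12 - log 9)`, `u + v = b - p`.
If `u ≥ 1` and `v ≥ 1` then `b < 2 p`, `u + v ≤ p`, and `lower_uv` applies. If `u ≤ 0` then `b ≥ 2 p`
and `b log 2 - p log 3 ≥ p log (4/3) ≥ log (4/3)`. If `v ≤ 0` then `2 b ≤ 3 p` and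
`p log 3 - b log 2 ≥ (p / 2) log (9/8) ≥ log (9/8) / 2`. Both are `≥ 1 / 10^27`. -/
theorem measure (p b : ℕ) (hp : 1 ≤ p) :
    1 / 10 ^ 27 / (p : ℝ) ^ 31 ≤ |(p : ℝ) * Real.log 3 - b * Real.log 2| := by
  have hp1 : (1 : ℝ) ≤ p := by exact_mod_cast hp
  have hsmall : 1 / 10 ^ 27 / (p : ℝ) ^ 31 ≤ 1 / 10 ^ 27 := by
    apply div_le_self (by norm_num)
    exact one_le_pow₀ hp1
  have h9 : Real.log 9 = 2 * Real.log 3 := by
    rw [show (9 : ℝ) = 3 ^ 2 by norm_num, Real.log_pow]; norm_num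
  have h8 : Real.log 8 = 3 * Real.log 2 := by
    rw [show (8 : ℝ) = 2 ^ 3 by norm_num, Real.log_pow]; norm_num
  have h12 : Real.log 12 = 2 * Real.log 2 + Real.log 3 := by
    rw [show (12 : ℝ) = 2 ^ 2 * 3 by norm_num, Real.log_mul (by norm_num) (by norm_num),
      Real.log_pow]; norm_num
  have h43 : 1 / 4 ≤ 2 * Real.log 2 - Real.log 3 := by
    have h1 := Real.one_sub_inv_le_log_of_pos (show (0 : ℝ) < 4 / 3 by norm_num)
    rw [show (4 : ℝ) / 3 = 2 ^ 2 / 3 by norm_num, Real.log_div (by norm_num) (by norm_num),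
      Real.log_pow] at h1
    norm_num at h1
    linarith
  have h98 : 1 / 9 ≤ 2 * Real.log 3 - 3 * Real.log 2 := by
    have h1 := Real.one_sub_inv_le_log_of_pos (show (0 : ℝ) < 9 / 8 by norm_num)
    rw [show (9 : ℝ) / 8 = 3 ^ 2 / 2 ^ 3 by norm_num, Real.log_div (by norm_num) (by norm_num),
      Real.log_pow, Real.log_pow] at h1
    norm_num at h1
    linarith
  have hl2 : 0 < Real.log 2 := Real.log_pos (by norm_num)
  by_cases hb1 : 2 * p ≤ b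
  · have hb : (2 : ℝ) * p ≤ b := by exact_mod_cast hb1
    have h1 : (p : ℝ) * Real.log 3 - b * Real.log 2 ≤ -(1 / 4) := by
      nlinarith
    rw [abs_of_neg (by linarith)]
    refine hsmall.trans ?_
    have : (1 : ℝ) / 10 ^ 27 ≤ 1 / 4 := by norm_num
    linarith
  by_cases hb2 : 2 * b ≤ 3 * p
  · have hb : (2 : ℝ) * b ≤ 3 * p := by exact_mod_cast hb2
    have h1 : 1 / 18 ≤ (p : ℝ) * Real.log 3 - b * Real.log 2 := by
      nlinarith
    rw [abs_of_pos (by linarith)]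
    refine hsmall.trans ?_
    have : (1 : ℝ) / 10 ^ 27 ≤ 1 / 18 := by norm_num
    linarith
  · push Not at hb1 hb2
    obtain ⟨u, hu⟩ : ∃ u, 2 * p = b + u := ⟨2 * p - b, by omega⟩
    obtain ⟨v, hv⟩ : ∃ v, 2 * b = 3 * p + v := ⟨2 * b - 3 * p, by omega⟩
    have h1 := lower_uv (p := p) (u := u) (v := v) (by omega) (by omega) (by omega)
    have hu' : (2 : ℝ) * p = b + u := by exact_mod_cast hu
    have hv' : (2 : ℝ) * b = 3 * p + v := by exact_mod_cast hv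
    have e : (p : ℝ) * Real.log 3 - b * Real.log 2 =
        (u : ℝ) * (Real.log 9 - Real.log 8) - v * (Real.log 12 - Real.log 9) := by
      rw [h9, h8, h12]
      have e1 : (u : ℝ) = 2 * p - b := by linarith
      have e2 : (v : ℝ) = 2 * b - 3 * p := by linarith
      rw [e1, e2]
      ring
    rw [e]
    exact h1

end Pool.Agent.MP_9e8697_nt
end
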