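import Mathlib

section

/-!
# Packed lanes of 80 bits
-/

namespace Pool.Agent.MP_9e8697_nt

/-- `pk f n = ∑ i < n, f i * 2 ^ (80 i)` -/
def pk (f : ℕ → ℕ) : ℕ → ℕ
  | 0 => 0
  | n + 1 => pk f n + f n * 2 ^ (80 * n)

theorem pk_succ (f : ℕ → ℕ) (n : ℕ) : pk f (n + 1) = pk f n + f n * 2 ^ (80 * n) := rfl

theorem pk_congr {f g : ℕ → ℕ} {n : ℕ} (h : ∀ i < n, f i = g i) : pk f n = pk g n := by
  induction n with
  | zero => rfl
  | succ n ih =>
    rw [pk_succ, pk_succ, ih (fun i hi => h i (by omega)), h n (by omega)]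

theorem pk_add (f g : ℕ → ℕ) (n : ℕ) : pk f n + pk g n = pk (fun i => f i + g i) n := by
  induction n with
  | zero => rfl
  | succ n ih => rw [pk_succ, pk_succ, pk_succ, ← ih]; ring

theorem pk_mul (c : ℕ) (f : ℕ → ℕ) (n : ℕ) : c * pk f n = pk (fun i => c * f i) n := by
  induction n with
  | zero => rfl
  | succ n ih => rw [pk_succ, pk_succ, ← ih]; ring

theorem pk_sub {f g : ℕ → ℕ} {n : ℕ} (h : ∀ i < n, g i ≤ f i) :
    pk f n - pk g n = pk (fun i => f i - g i) n := by
  have h1 : pk (fun i => f i - g i) n + pk g n = pk f n := by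
    rw [pk_add]
    exact pk_congr fun i hi => Nat.sub_add_cancel (h i hi)
  omega

theorem pk_lt {f : ℕ → ℕ} {n : ℕ} (h : ∀ i < n, f i < 2 ^ 80) : pk f n < 2 ^ (80 * n) := by
  induction n with
  | zero => exact Nat.one_pos
  | succ n ih =>
    have h1 := ih (fun i hi => h i (by omega))
    have h2 : f n + 1 ≤ 2 ^ 80 := h n (by omega)
    have h3 : (f n + 1) * 2 ^ (80 * n) ≤ 2 ^ 80 * 2 ^ (80 * n) := Nat.mul_le_mul_right _ h2
    have h4 : 2 ^ (80 * (n + 1)) = 2 ^ 80 * 2 ^ (80 * n) := by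
      rw [← pow_add]
      congr 1
      ring
    rw [pk_succ, h4]
    rw [Nat.add_mul, one_mul] at h3
    omega

theorem land_add_mul {k a b x y : ℕ} (hx : x < 2 ^ k) (hy : y < 2 ^ k) :
    (x + a * 2 ^ k) &&& (y + b * 2 ^ k) = (x &&& y) + (a &&& b) * 2 ^ k := by
  have hxy : (x &&& y) < 2 ^ k := Nat.and_lt_two_pow _ hy
  have e1 : x + a * 2 ^ k = 2 ^ k * a + x := by ring
  have e2 : y + b * 2 ^ k = 2 ^ k * b + y := by ring
  have e3 : (x &&& y) + (a &&& b) * 2 ^ k = 2 ^ k * (a &&& b) + (x &&& y) := by ring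
  rw [e1, e2, e3]
  apply Nat.eq_of_testBit_eq
  intro j
  rw [Nat.testBit_and, Nat.testBit_two_pow_mul_add _ hx, Nat.testBit_two_pow_mul_add _ hy,
    Nat.testBit_two_pow_mul_add _ hxy]
  by_cases hj : j < k
  · rw [if_pos hj, if_pos hj, if_pos hj, Nat.testBit_and]
  · rw [if_neg hj, if_neg hj, if_neg hj, Nat.testBit_and]

theorem pk_land {f g : ℕ → ℕ} {n : ℕ} (hf : ∀ i < n, f i < 2 ^ 80) (hg : ∀ i < n, g i < 2 ^ 80) :
    pk f n &&& pk g n = pk (fun i => f i &&& g i) n := by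
  induction n with
  | zero => exact Nat.and_self 0
  | succ n ih =>
    rw [pk_succ, pk_succ, pk_succ,
      land_add_mul (pk_lt fun i hi => hf i (by omega)) (pk_lt fun i hi => hg i (by omega)),
      ih (fun i hi => hf i (by omega)) (fun i hi => hg i (by omega))]

theorem pk_inj {f g : ℕ → ℕ} {n : ℕ} (hf : ∀ i < n, f i < 2 ^ 80) (hg : ∀ i < n, g i < 2 ^ 80)
    (h : pk f n = pk g n) : ∀ i < n, f i = g i := by
  induction n with
  | zero => intro i hi; omega
  | succ n ih =>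
    rw [pk_succ, pk_succ] at h
    have h1 := pk_lt (n := n) fun i hi => hf i (by omega)
    have h2 := pk_lt (n := n) fun i hi => hg i (by omega)
    have h3 : pk f n = pk g n := by
      have := congrArg (fun t => t % 2 ^ (80 * n)) h
      simp only [Nat.add_mul_mod_self_right, Nat.mod_eq_of_lt h1, Nat.mod_eq_of_lt h2] at this
      exact this
    have h4 : f n = g n := by
      rw [h3] at h
      have h5 : f n * 2 ^ (80 * n) = g n * 2 ^ (80 * n) := by omega
      exact Nat.eq_of_mul_eq_mul_right (by positivity) h5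
    intro i hi
    rcases Nat.lt_or_ge i n with h5 | h5
    · exact ih (fun i hi => hf i (by omega)) (fun i hi => hg i (by omega)) h3 i h5
    · have h6 : i = n := by omega
      rw [h6, h4]

theorem pk_div_four {f : ℕ → ℕ} {n : ℕ} (h : ∀ i < n, 4 * (f i / 4) = f i) :
    pk f n / 4 = pk (fun i => f i / 4) n := by
  have h1 : pk f n = 4 * pk (fun i => f i / 4) n := by
    rw [pk_mul]
    exact pk_congr fun i hi => (h i hi).symm
  omega

theorem pk_one (n : ℕ) :
    (2 ^ 80 - 1) * pk (fun _ => 1) n = 2 ^ (80 * n) - 1 := by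
  have h : (2 ^ 80 - 1) * pk (fun _ => 1) n + 1 = 2 ^ (80 * n) := by
    induction n with
    | zero => rfl
    | succ n ih =>
      have h4 : 2 ^ (80 * (n + 1)) = 2 ^ 80 * 2 ^ (80 * n) := by
        rw [← pow_add]
        congr 1
        ring
      rw [pk_succ, h4, ← ih]
      have h5 : (2 : ℕ) ^ 80 = (2 ^ 80 - 1) + 1 := by norm_num
      generalize (2 : ℕ) ^ 80 - 1 = A at *
      rw [h5]
      ring
  omega

theorem pk_id (n : ℕ) :
    (2 ^ 80 - 1) * pk (fun i => i) n = n * 2 ^ (80 * n) - 2 ^ 80 * pk (fun _ => 1) n := by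
  have h : (2 ^ 80 - 1) * pk (fun i => i) n + 2 ^ 80 * pk (fun _ => 1) n = n * 2 ^ (80 * n) := by
    induction n with
    | zero => rfl
    | succ n ih =>
      have h4 : 2 ^ (80 * (n + 1)) = 2 ^ 80 * 2 ^ (80 * n) := by
        rw [← pow_add]
        congr 1
        ring
      rw [pk_succ, pk_succ, h4]
      have h6 : (n + 1) * (2 ^ 80 * 2 ^ (80 * n)) =
          n * 2 ^ (80 * n) * 2 ^ 80 + 2 ^ 80 * 2 ^ (80 * n) := by ring
      have h5 : (2 : ℕ) ^ 80 = (2 ^ 80 - 1) + 1 := by norm_num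
      have h7 : (2 ^ 80 - 1) * (pk (fun i => i) n + n * 2 ^ (80 * n)) +
          2 ^ 80 * (pk (fun _ => 1) n + 1 * 2 ^ (80 * n)) =
          ((2 ^ 80 - 1) * pk (fun i => i) n + 2 ^ 80 * pk (fun _ => 1) n) +
            (2 ^ 80 - 1) * (n * 2 ^ (80 * n)) + 2 ^ 80 * 2 ^ (80 * n) := by ring
      rw [h7, ih]
      generalize (2 : ℕ) ^ 80 - 1 = A at *
      rw [h5]
      ring
  omega

/-- clearing the two low bits -/
theorem land_mask {y : ℕ} (hy : y < 2 ^ 80) : y &&& (2 ^ 80 - 4) = 4 * (y / 4) := by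
  have h1 : y = 2 ^ 2 * (y / 4) + y % 4 := by omega
  have h2 : (2 ^ 80 - 4 : ℕ) = 2 ^ 2 * (2 ^ 78 - 1) + 0 := by norm_num
  have h3 : 4 * (y / 4) = 2 ^ 2 * (y / 4) + 0 := by omega
  have h4 : y / 4 < 2 ^ 78 := by omega
  rw [h3, h2]
  conv_lhs => rw [h1]
  apply Nat.eq_of_testBit_eq
  intro j
  rw [Nat.testBit_and, Nat.testBit_two_pow_mul_add _ (by omega : y % 4 < 2 ^ 2),
    Nat.testBit_two_pow_mul_add _ (by norm_num : 0 < 2 ^ 2),
    Nat.testBit_two_pow_mul_add _ (by norm_num : 0 < 2 ^ 2)]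
  by_cases hj : j < 2
  · rw [if_pos hj, if_pos hj, if_pos hj, Nat.zero_testBit, Bool.and_false]
  · rw [if_neg hj, if_neg hj, if_neg hj, Nat.testBit_two_pow_sub_one]
    by_cases hj2 : j - 2 < 78
    · simp [hj2]
    · have h5 : (y / 4).testBit (j - 2) = false := by
        apply Nat.testBit_lt_two_pow
        exact lt_of_lt_of_le h4 (Nat.pow_le_pow_right (by norm_num) (by omega))
      rw [h5]
      rfl

theorem land_one_eq (x : ℕ) : x &&& 1 = x % 2 := Nat.and_one_is_mod x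

theorem land_full {x : ℕ} (hx : x < 2 ^ 80) : x &&& (2 ^ 80 - 1) = x := by
  rw [Nat.and_two_pow_sub_one_eq_mod, Nat.mod_eq_of_lt hx]

/-- `x + 2 ^ 79 - m` with bit 79 -/
theorem land_high {z : ℕ} (h1 : 2 ^ 79 ≤ z) (h2 : z < 2 ^ 80) : z &&& 2 ^ 79 = 2 ^ 79 := by
  rw [Nat.and_two_pow]
  have h3 : z.testBit 79 = true := by
    have e : z = 2 ^ 79 * 1 + (z - 2 ^ 79) := by omega
    rw [e, Nat.testBit_two_pow_mul_add _ (by omega)]
    simp
  rw [h3]
  simp

theorem land_low {z : ℕ} (h1 : z < 2 ^ 79) : z &&& 2 ^ 79 = 0 := by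
  rw [Nat.and_two_pow, Nat.testBit_lt_two_pow h1]
  simp

end Pool.Agent.MP_9e8697_nt
end

section

/-!
# Best approximations
-/

namespace Pool.Agent.MP_9e8697_nt

/-- Proof: `(p, B) = u (q, b) + v (q', b')` with integers `u, v` (the determinant is `±1`). If
`v = 0` then `u ≠ 0` and `|p α - B β| = |u| |q α - b β|`. If `v ≠ 0`: `u = 0` would give
`p = v q' ≥ q'`; `u, v` of the same sign would give `p ≥ q + q'` or `p < 0`; so they have opposite
signs and `|p α - B β| = |u| |q α - b β| + |v| |q' α - b' β| ≥ |q α - b β|`. -/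
theorem best_approx {α β : ℝ} {q b q' b' : ℤ} (hq : 0 < q) (hq' : 0 < q')
    (hdet : q * b' - q' * b = 1 ∨ q * b' - q' * b = -1)
    (hs : (q * α - b * β) * (q' * α - b' * β) < 0) {p B : ℤ} (hp : 0 < p) (hpq : p < q') :
    |q * α - b * β| ≤ |p * α - B * β| := by
  obtain ⟨u, v, hpu, hBu⟩ : ∃ u v : ℤ, p = u * q + v * q' ∧ B = u * b + v * b' := by
    rcases hdet with h | h
    · refine ⟨p * b' - B * q', q * B - b * p, ?_, ?_⟩
      · linear_combination (-p) * h
      · linear_combination (-B) * h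
    · refine ⟨-(p * b' - B * q'), -(q * B - b * p), ?_, ?_⟩
      · linear_combination p * h
      · linear_combination B * h
  have e : (p : ℝ) * α - B * β = u * (q * α - b * β) + v * (q' * α - b' * β) := by
    rw [hpu, hBu]
    push_cast
    ring
  rw [e]
  generalize (q : ℝ) * α - b * β = X at *
  generalize (q' : ℝ) * α - b' * β = Y at *
  have hXY : (0 < X ∧ Y < 0) ∨ (X < 0 ∧ 0 < Y) := mul_neg_iff.1 hs
  rcases lt_trichotomy v 0 with hv | hv | hv
  · have hu : 1 ≤ u := by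
      by_contra hu
      push Not at hu
      have h1 : u ≤ 0 := by omega
      have h2 : u * q ≤ 0 := mul_nonpos_of_nonpos_of_nonneg h1 hq.le
      have h3 : v * q' < 0 := mul_neg_of_neg_of_pos hv hq'
      omega
    have hu' : (1 : ℝ) ≤ u := by exact_mod_cast hu
    have hv' : (v : ℝ) ≤ -1 := by exact_mod_cast (by omega : v ≤ -1)
    rcases hXY with ⟨hX, hY⟩ | ⟨hX, hY⟩
    · rw [abs_of_pos hX]
      refine le_trans ?_ (le_abs_self _)
      nlinarith
    · rw [abs_of_neg hX]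
      refine le_trans ?_ (neg_le_abs _)
      nlinarith
  · subst hv
    have hu : u ≠ 0 := by
      rintro rfl
      simp at hpu
      omega
    have hu' : (1 : ℝ) ≤ |(u : ℝ)| := by
      exact_mod_cast Int.one_le_abs hu
    rw [Int.cast_zero, zero_mul, add_zero, abs_mul]
    nlinarith [abs_nonneg X]
  · have hu : u ≤ -1 := by
      by_contra hu
      push Not at hu
      have h1 : 0 ≤ u := by omega
      have h2 : 0 ≤ u * q := mul_nonneg h1 hq.le
      have h3 : q' ≤ v * q' := by nlinarith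
      omega
    have hu' : (u : ℝ) ≤ -1 := by exact_mod_cast hu
    have hv' : (1 : ℝ) ≤ v := by exact_mod_cast hv
    rcases hXY with ⟨hX, hY⟩ | ⟨hX, hY⟩
    · rw [abs_of_pos hX]
      refine le_trans ?_ (neg_le_abs _)
      nlinarith
    · rw [abs_of_neg hX]
      refine le_trans ?_ (le_abs_self _)
      nlinarith

end Pool.Agent.MP_9e8697_nt
end

section

/-!
# Numerics
-/

namespace Pool.Agent.MP_9e8697_nt

private theorem SA_theta : Real.log 3 / Real.log 2 ≤ 485 / 306 := by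
  have h2 : 0 < Real.log 2 := Real.log_pos (by norm_num)
  have h : ((3 : ℝ) ^ 153) ^ 2 ≤ (2 ^ 97) ^ 5 := by norm_num
  have h1 := Real.log_le_log (by positivity) h
  rw [Real.log_pow, Real.log_pow, Real.log_pow, Real.log_pow] at h1
  push_cast at h1
  rw [div_le_div_iff₀ h2 (by norm_num)]
  linarith

private theorem SA_theta0 : 0 ≤ Real.log 3 / Real.log 2 :=
  div_nonneg (Real.log_nonneg (by norm_num)) (Real.log_nonneg (by norm_num))

private theorem SA_sum {M N : ℕ} (hM : M ≤ N) :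
    ∑ j ∈ Finset.range M, (Real.log 3 / Real.log 2) ^ j ≤
      ∑ j ∈ Finset.range N, ((485 : ℝ) / 306) ^ j := by
  refine (Finset.sum_le_sum_of_subset_of_nonneg (Finset.range_mono hM)
    fun j _ _ => pow_nonneg SA_theta0 j).trans ?_
  exact Finset.sum_le_sum fun j _ => pow_le_pow_left₀ SA_theta0 SA_theta j

private theorem SA_log_le {x : ℝ} {n d : ℕ} (hx : 0 < x) (hd : 0 < d)
    (h : x ^ d ≤ (2.7182818283 : ℝ) ^ n) : Real.log x ≤ (n : ℝ) / d := by
  have hd' : (0 : ℝ) < d := by exact_mod_cast hd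
  have h1 : x ^ d ≤ Real.exp 1 ^ n :=
    h.trans (pow_le_pow_left₀ (by norm_num) Real.exp_one_gt_d9.le n)
  have h2 := Real.log_le_log (by positivity) h1
  rw [Real.log_pow, Real.log_pow, Real.log_exp, mul_one] at h2
  rw [le_div_iff₀ hd']
  linarith

private theorem SA_43 : 2 / 7 ≤ Real.log (4 / 3) := by
  have h1 : Real.exp 1 ^ 2 ≤ ((4 : ℝ) / 3) ^ 7 := by
    refine (pow_le_pow_left₀ (Real.exp_pos 1).le Real.exp_one_lt_d9.le 2).trans ?_
    norm_num
  have h2 := Real.log_le_log (by positivity) h1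
  rw [Real.log_pow, Real.log_pow, Real.log_exp, mul_one] at h2
  push_cast at h2
  linarith

/-- Numerics: `θ = log 3 / log 2 ≤ 1.584963` (from `3 ^ 306 ≤ 2 ^ 485`: `θ ≤ 485 / 306 = 1.5849674`),
`∑_{j<12} θ^j ≤ 428`. -/
theorem sum_theta_le {M : ℕ} (hM : M ≤ 12) :
    ∑ j ∈ Finset.range M, (Real.log 3 / Real.log 2) ^ j ≤ 428 := by
  refine (SA_sum hM).trans ?_
  norm_num [Finset.sum_range_succ]

theorem sum_theta_le' {M : ℕ} (hM : M ≤ 11) :
    ∑ j ∈ Finset.range M, (Real.log 3 / Real.log 2) ^ j ≤ 270 := by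
  refine (SA_sum hM).trans ?_
  norm_num [Finset.sum_range_succ]

/-- Pure numerics: a number `p` with `p log (4/3) ≤ 428 log x + 12`, `x - 1 ≤ 12 * 10^27 * p^31` is
`< 873350`. Proof: `log x ≤ log (13 * 10^27) + 31 log p ≤ 65 + 31 log p`, `log (4/3) ≥ 0.2876`,
`log p ≤ log 873350 + (p - 873350) / 873350`, `log 873350 ≤ 13.681`. -/
theorem num_one {p x : ℕ} (hp : 1 ≤ p) (hx : 2 ≤ x)
    (h : (p : ℝ) * Real.log (4 / 3) ≤ 428 * Real.log x + 12)
    (h' : (x : ℝ) - 1 ≤ 12 * 10 ^ 27 * (p : ℝ) ^ 31) : p < 873350 := by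
  by_contra hcon
  have hp0 : (873350 : ℝ) ≤ p := by
    have : 873350 ≤ p := not_lt.1 hcon
    exact_mod_cast this
  have hp1 : (1 : ℝ) ≤ p := by exact_mod_cast hp
  have hp31 : (1 : ℝ) ≤ (p : ℝ) ^ 31 := one_le_pow₀ hp1
  have hx1 : (x : ℝ) ≤ 13 * 10 ^ 27 * (p : ℝ) ^ 31 := by
    have h1 : (10 : ℝ) ^ 27 = 1000000000000000000000000000 := by norm_num
    rw [h1] at h' ⊢
    linarith
  have hx0 : (0 : ℝ) < x := by
    have : 0 < x := by omega
    exact_mod_cast this
  have hlx : Real.log x ≤ 65 + 31 * Real.log p := by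
    have h1 := Real.log_le_log hx0 hx1
    have h2 : Real.log (13 * 10 ^ 27) ≤ ((65 : ℕ) : ℝ) / ((1 : ℕ) : ℝ) :=
      SA_log_le (by positivity) (by norm_num) (by norm_num)
    rw [Real.log_mul (by positivity) (by positivity), Real.log_pow] at h1
    generalize Real.log (13 * 10 ^ 27) = c at h1 h2
    push_cast at h1 h2
    linarith
  have hlp : Real.log p ≤ 14 + (p - 873350) / 873350 := by
    have h1 : Real.log p = Real.log 873350 + Real.log (p / 873350) := by
      rw [← Real.log_mul (by norm_num) (by positivity)]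
      congr 1
      field_simp
    have h2 : Real.log 873350 ≤ ((14 : ℕ) : ℝ) / ((1 : ℕ) : ℝ) :=
      SA_log_le (by positivity) (by norm_num) (by norm_num)
    have h3 : Real.log (p / 873350) ≤ p / 873350 - 1 :=
      Real.log_le_sub_one_of_pos (by positivity)
    push_cast at h2
    rw [h1]
    linarith
  have h43 := mul_le_mul_of_nonneg_left SA_43 (by linarith : (0 : ℝ) ≤ p)
  linarith

/-- Pure numerics. -/
theorem num_two {p x : ℕ} (hx : 2 ≤ x)
    (h : (p : ℝ) * Real.log (4 / 3) ≤ 428 * Real.log x + 12)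
    (h' : (x : ℝ) - 1 ≤ 12 / (63 / 10 ^ 9)) : p < 31867 := by
  by_contra hcon
  have hp0 : (31867 : ℝ) ≤ p := by
    have : 31867 ≤ p := not_lt.1 hcon
    exact_mod_cast this
  have hx0 : (0 : ℝ) < x := by
    have : 0 < x := by omega
    exact_mod_cast this
  have hx1 : (x : ℝ) ≤ 200000000 := by
    have h1 : (12 : ℝ) / (63 / 10 ^ 9) ≤ 190476191 := by norm_num
    linarith
  have hlx : Real.log x ≤ 20 := by
    have h1 := Real.log_le_log hx0 hx1
    have h2 : Real.log 200000000 ≤ ((20 : ℕ) : ℝ) / ((1 : ℕ) : ℝ) :=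
      SA_log_le (by positivity) (by norm_num) (by norm_num)
    push_cast at h2
    linarith
  have h43 := mul_le_mul_of_nonneg_left SA_43 (by linarith : (0 : ℝ) ≤ p)
  linarith

/-- Pure numerics: `k log 2 + 270 (log 660067 + k log (3/2)) + 1 < 15601 log (4/3)` for `k ≤ 7`. -/
theorem num_four {p x k : ℕ} (hx : 2 ≤ x) (hx' : x ≤ 660067) (hk : k ≤ 7)
    (h : (p : ℝ) * Real.log (4 / 3) ≤
      k * Real.log 2 + 270 * (Real.log x + k * Real.log (3 / 2)) + 12) : p < 15601 := by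
  by_contra hcon
  have hp0 : (15601 : ℝ) ≤ p := by
    have : 15601 ≤ p := not_lt.1 hcon
    exact_mod_cast this
  have hx0 : (0 : ℝ) < x := by
    have : 0 < x := by omega
    exact_mod_cast this
  have hx1 : (x : ℝ) ≤ 660067 := by exact_mod_cast hx'
  have hlx : Real.log x ≤ 27 / 2 := by
    have h1 := Real.log_le_log hx0 hx1
    have h2 : Real.log 660067 ≤ ((27 : ℕ) : ℝ) / ((2 : ℕ) : ℝ) :=
      SA_log_le (by positivity) (by norm_num) (by norm_num)
    push_cast at h2
    linarith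
  have hk1 : (k : ℝ) ≤ 7 := by exact_mod_cast hk
  have hk0 : (0 : ℝ) ≤ k := by positivity
  have h2 := Real.log_two_lt_d9
  have h2' : 0 ≤ Real.log 2 := Real.log_nonneg (by norm_num)
  have h3 : Real.log (3 / 2) ≤ 9 / 22 := by
    have h2 : Real.log (3 / 2) ≤ ((9 : ℕ) : ℝ) / ((22 : ℕ) : ℝ) :=
      SA_log_le (by positivity) (by norm_num) (by norm_num)
    push_cast at h2
    exact h2
  have h3' : 0 ≤ Real.log (3 / 2) := Real.log_nonneg (by norm_num)
  have h4 : (k : ℝ) * Real.log 2 ≤ 7 * 0.6931471808 := mul_le_mul hk1 h2.le h2' (by norm_num)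
  have h5 : (k : ℝ) * Real.log (3 / 2) ≤ 7 * (9 / 22) := mul_le_mul hk1 h3 h3' (by norm_num)
  have h43 := mul_le_mul_of_nonneg_left SA_43 (by linarith : (0 : ℝ) ≤ p)
  linarith

end Pool.Agent.MP_9e8697_nt
end

section

/-!
# Best approximations: numerics
-/

namespace Pool.Agent.MP_9e8697_nt

theorem pow_a1 : 3 ^ 190537 * (10 ^ 9 + 64) ≤ 2 ^ 301994 * 10 ^ 9 := by
  decide +kernel

theorem pow_a2 : 2 ^ 1384227 < 3 ^ 873350 := by
  decide +kernel

theorem pow_b1 : 3 ^ 15601 * (10 ^ 8 + 1819) ≤ 2 ^ 24727 * 10 ^ 8 := by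
  decide +kernel

theorem pow_b2 : 2 ^ 50508 < 3 ^ 31867 := by
  decide +kernel

theorem pow_c1 : 2 ^ 1054 * (10 ^ 9 + 43654) ≤ 3 ^ 665 * 10 ^ 9 := by
  decide +kernel

private theorem log_lt {a b : ℕ} (h : 2 ^ b < 3 ^ a) :
    (b : ℝ) * Real.log 2 < a * Real.log 3 := by
  have h1 : ((2 : ℝ) ^ b) < 3 ^ a := by exact_mod_cast h
  have h2 := Real.log_lt_log (by positivity) h1
  rwa [Real.log_pow, Real.log_pow] at h2

/-- `A R ≤ B Q` gives `log B - log A ≥ 1 - Q / R`. -/
private theorem log_gap {A B Q R : ℕ} (hA : 0 < A) (hB : 0 < B) (hQ : 0 < Q) (hR : 0 < R)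
    (h : A * R ≤ B * Q) : 1 - (Q : ℝ) / R ≤ Real.log B - Real.log A := by
  have hA' : (0 : ℝ) < A := by exact_mod_cast hA
  have hB' : (0 : ℝ) < B := by exact_mod_cast hB
  have hQ' : (0 : ℝ) < Q := by exact_mod_cast hQ
  have hR' : (0 : ℝ) < R := by exact_mod_cast hR
  have h' : (A : ℝ) * R ≤ B * Q := by exact_mod_cast h
  have h1 : Real.log A + Real.log (R : ℝ) ≤ Real.log B + Real.log Q := by
    rw [← Real.log_mul hA'.ne' hR'.ne', ← Real.log_mul hB'.ne' hQ'.ne']
    exact Real.log_le_log (by positivity) h'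
  have h2 : Real.log ((Q : ℝ) / R) ≤ (Q : ℝ) / R - 1 :=
    Real.log_le_sub_one_of_pos (by positivity)
  rw [Real.log_div hQ'.ne' hR'.ne'] at h2
  linarith

private theorem cast_int (p B : ℕ) : |(((p : ℤ) : ℝ)) * Real.log 3 - ((B : ℤ) : ℝ) * Real.log 2| =
    |(p : ℝ) * Real.log 3 - B * Real.log 2| := by
  rw [Int.cast_natCast, Int.cast_natCast]

private theorem log_gap32 {a b Q R : ℕ} (h : 3 ^ a * R ≤ 2 ^ b * Q) (hQ : 0 < Q) (hR : 0 < R) :
    1 - (Q : ℝ) / R ≤ b * Real.log 2 - a * Real.log 3 := by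
  have h1 := log_gap (pow_pos (by norm_num) _) (pow_pos (by norm_num) _) hQ hR h
  rw [Nat.cast_pow, Nat.cast_pow, Real.log_pow, Real.log_pow] at h1
  exact_mod_cast h1

private theorem log_gap23 {a b Q R : ℕ} (h : 2 ^ b * R ≤ 3 ^ a * Q) (hQ : 0 < Q) (hR : 0 < R) :
    1 - (Q : ℝ) / R ≤ a * Real.log 3 - b * Real.log 2 := by
  have h1 := log_gap (pow_pos (by norm_num) _) (pow_pos (by norm_num) _) hQ hR h
  rw [Nat.cast_pow, Nat.cast_pow, Real.log_pow, Real.log_pow] at h1
  exact_mod_cast h1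

private theorem gap_a : (63 / 10 ^ 9 : ℝ) ≤ 301994 * Real.log 2 - 190537 * Real.log 3 := by
  have h := log_gap32 pow_a1 (by norm_num) (by norm_num)
  push_cast at h
  refine le_trans ?_ h
  norm_num

private theorem gap_b : (1818 / 10 ^ 8 : ℝ) ≤ 24727 * Real.log 2 - 15601 * Real.log 3 := by
  have h := log_gap32 pow_b1 (by norm_num) (by norm_num)
  push_cast at h
  refine le_trans ?_ h
  norm_num

private theorem gap_c : (4365 / 10 ^ 8 : ℝ) ≤ 665 * Real.log 3 - 1054 * Real.log 2 := by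
  have h := log_gap23 pow_c1 (by norm_num) (by norm_num)
  push_cast at h
  refine le_trans ?_ h
  norm_num

/-- Proof: `best_approx` with `(190537, 301994)`, `(873350, 1384227)`; the logarithms of `pow_a1`,
`pow_a2`; `log (1 + y) ≥ y / (1 + y)`. -/
theorem low_a {p B : ℕ} (hp : 0 < p) (h : p < 873350) :
    63 / 10 ^ 9 ≤ |(p : ℝ) * Real.log 3 - B * Real.log 2| := by
  have h1 := gap_a
  have h2 := log_lt pow_a2
  have h3 : (0 : ℝ) < 63 / 10 ^ 9 := by norm_num
  push_cast at h2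
  have h4 := best_approx (α := Real.log 3) (β := Real.log 2) (q := 190537) (b := 301994)
    (q' := 873350) (b' := 1384227) (by norm_num) (by norm_num) (Or.inr (by norm_num)) (by
      push_cast
      exact mul_neg_of_neg_of_pos (by linarith) (by linarith)) (p := (p : ℤ)) (B := (B : ℤ))
    (by exact_mod_cast hp) (by exact_mod_cast h)
  rw [cast_int] at h4
  refine le_trans ?_ h4
  push_cast
  rw [abs_sub_comm]
  exact h1.trans (le_abs_self _)

/-- Proof: `best_approx` with `(15601, 24727)`, `(31867, 50508)`. -/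
theorem low_b {p B : ℕ} (hp : 0 < p) (h : p < 31867) :
    1818 / 10 ^ 8 ≤ |(p : ℝ) * Real.log 3 - B * Real.log 2| := by
  have h1 := gap_b
  have h2 := log_lt pow_b2
  have h3 : (0 : ℝ) < 1818 / 10 ^ 8 := by norm_num
  push_cast at h2
  have h4 := best_approx (α := Real.log 3) (β := Real.log 2) (q := 15601) (b := 24727)
    (q' := 31867) (b' := 50508) (by norm_num) (by norm_num) (Or.inr (by norm_num)) (by
      push_cast
      exact mul_neg_of_neg_of_pos (by linarith) (by linarith)) (p := (p : ℤ)) (B := (B : ℤ))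
    (by exact_mod_cast hp) (by exact_mod_cast h)
  rw [cast_int] at h4
  refine le_trans ?_ h4
  push_cast
  rw [abs_sub_comm]
  exact h1.trans (le_abs_self _)

/-- Proof: `best_approx` with `(665, 1054)`, `(15601, 24727)`. -/
theorem low_c {p B : ℕ} (hp : 0 < p) (h : p < 15601) :
    4365 / 10 ^ 8 ≤ |(p : ℝ) * Real.log 3 - B * Real.log 2| := by
  have h1 := gap_c
  have h2 := gap_b
  have h3 : (0 : ℝ) < 1818 / 10 ^ 8 := by norm_num
  have h3' : (0 : ℝ) < 4365 / 10 ^ 8 := by norm_num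
  have h4 := best_approx (α := Real.log 3) (β := Real.log 2) (q := 665) (b := 1054)
    (q' := 15601) (b' := 24727) (by norm_num) (by norm_num) (by norm_num) (by
      push_cast
      exact mul_neg_of_pos_of_neg (by linarith) (by linarith)) (p := (p : ℤ)) (B := (B : ℤ))
    (by exact_mod_cast hp) (by exact_mod_cast h)
  rw [cast_int] at h4
  refine le_trans ?_ h4
  push_cast
  exact h1.trans (le_abs_self _)

end Pool.Agent.MP_9e8697_nt
end

section

/-!
# Analysis
-/

namespace Pool.Agent.MP_9e8697_nt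

/-- Pure analysis: if `p log (4/3) ≤ (∑_{j<M} θ^j) log x + M`, `x - 1 ≤ M 10^27 p^31`, `M, p ≥ 1`,
`x ≥ 2` then `p ≤ K (M + 1) θ^M` with an absolute constant `K`.
Proof: `∑_{j<M} θ^j ≤ θ^M / (θ - 1)` and `log x ≤ log (2 (x - 1)) ≤ C (1 + log M + log p)`, so
`p ≤ C θ^M (1 + log M + log p)`. Put `q = p / ((M + 1) θ^M)`. Then
`log p = log q + log (M + 1) + M log θ` and `1 + log M + log p ≤ C' (M + 1) (1 + max (log q) 0)`, so
`q ≤ C'' (1 + max (log q) 0)` and `q` is bounded (`log q ≤ 2 sqrt q`). -/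
theorem exists_const_M : ∃ K : ℝ, ∀ p M x : ℕ, 1 ≤ p → 1 ≤ M → 2 ≤ x →
    (p : ℝ) * Real.log (4 / 3) ≤
      (∑ j ∈ Finset.range M, (Real.log 3 / Real.log 2) ^ j) * Real.log x + M →
    (x : ℝ) - 1 ≤ M * 10 ^ 27 * (p : ℝ) ^ 31 →
    (p : ℝ) ≤ K * (M + 1) * (Real.log 3 / Real.log 2) ^ M := by
  have hl2 : 0 < Real.log 2 := Real.log_pos (by norm_num)
  have hl10 : 0 < Real.log 10 := Real.log_pos (by norm_num)
  have hc0 : 0 < Real.log (4 / 3) := Real.log_pos (by norm_num)
  have hc1 : Real.log (4 / 3) ≤ 1 := by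
    have := Real.log_le_sub_one_of_pos (show (0 : ℝ) < 4 / 3 by norm_num)
    linarith
  have hth : 3 / 2 ≤ Real.log 3 / Real.log 2 := by
    rw [le_div_iff₀ hl2]
    have h1 : Real.log ((2 : ℝ) ^ 3) ≤ Real.log ((3 : ℝ) ^ 2) :=
      Real.log_le_log (by norm_num) (by norm_num)
    rw [Real.log_pow, Real.log_pow] at h1
    push_cast at h1
    linarith
  set θ : ℝ := Real.log 3 / Real.log 2 with hθ
  set c : ℝ := Real.log (4 / 3) with hc
  set A : ℝ := 124 / c with hA
  have hA1 : 1 ≤ A := by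
    rw [hA, le_div_iff₀ hc0]
    linarith
  have hA0 : 0 < A := by linarith
  have hlA : 0 ≤ Real.log A := Real.log_nonneg hA1
  have hlθ : 0 ≤ Real.log θ := Real.log_nonneg (by linarith)
  set D : ℝ := 2 * (Real.log 2 + 1 + 27 * Real.log 10 + 31 * Real.log A + 31 + 31 * Real.log θ) + 1
    with hD
  refine ⟨2 * D / c, ?_⟩
  intro p M x hp hM hx h1 h2
  have hp' : (1 : ℝ) ≤ p := by exact_mod_cast hp
  have hM' : (1 : ℝ) ≤ M := by exact_mod_cast hM
  have hx' : (2 : ℝ) ≤ x := by exact_mod_cast hx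
  have ht1 : 1 ≤ θ ^ M := one_le_pow₀ (by linarith)
  have ht0 : 0 < θ ^ M := by linarith
  -- the geometric sum
  have hS : (∑ j ∈ Finset.range M, θ ^ j) ≤ 2 * θ ^ M := by
    have hg := mul_geom_sum θ M
    have hnn : 0 ≤ ∑ j ∈ Finset.range M, θ ^ j :=
      Finset.sum_nonneg (fun j _ => by positivity)
    nlinarith
  have hS0 : 0 ≤ ∑ j ∈ Finset.range M, θ ^ j :=
    Finset.sum_nonneg (fun j _ => by positivity)
  -- log x
  have hlx0 : 0 ≤ Real.log x := Real.log_nonneg (by linarith)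
  have hM0 : (0 : ℝ) < M := by linarith
  have hp0 : (0 : ℝ) < p := by linarith
  have hlx : Real.log x ≤ Real.log 2 + Real.log M + 27 * Real.log 10 + 31 * Real.log p := by
    have h3 : (x : ℝ) ≤ 2 * (M * 10 ^ 27 * (p : ℝ) ^ 31) := by linarith
    have h4 := Real.log_le_log (by linarith) h3
    rw [Real.log_mul (by norm_num) (by positivity), Real.log_mul (by positivity) (by positivity),
      Real.log_mul (by positivity) (by positivity), Real.log_pow, Real.log_pow] at h4
    push_cast at h4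
    linarith
  -- log p
  set w : ℝ := (M + 1) * θ ^ M with hw
  have hw0 : 0 < w := by positivity
  have hlM1 : Real.log (M + 1) ≤ M := by
    have := Real.log_le_sub_one_of_pos (show (0 : ℝ) < M + 1 by positivity)
    linarith
  have hlM : Real.log M ≤ M := by
    have := Real.log_le_sub_one_of_pos hM0
    linarith
  have hlw : Real.log w = Real.log (M + 1) + M * Real.log θ := by
    rw [hw, Real.log_mul (by positivity) (by positivity), Real.log_pow]
  have hlp : Real.log p ≤ p / (A * w) + Real.log A + M + M * Real.log θ := by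
    have h3 : Real.log p = Real.log (p / (A * w)) + Real.log (A * w) := by
      rw [Real.log_div (by positivity) (by positivity)]
      ring
    have h4 := Real.log_le_sub_one_of_pos (show (0 : ℝ) < p / (A * w) by positivity)
    have h5 : Real.log (A * w) = Real.log A + Real.log w :=
      Real.log_mul (by positivity) (by positivity)
    rw [h3, h5, hlw]
    linarith
  have key : (p : ℝ) * c ≤ 2 * θ ^ M * (Real.log 2 + M + 27 * Real.log 10 +
      31 * (p / (A * w) + Real.log A + M + M * Real.log θ)) + M := by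
    have e1 : (∑ j ∈ Finset.range M, θ ^ j) * Real.log x ≤ 2 * θ ^ M * Real.log x :=
      mul_le_mul_of_nonneg_right hS hlx0
    have e2 : 2 * θ ^ M * Real.log x ≤ 2 * θ ^ M * (Real.log 2 + M + 27 * Real.log 10 +
      31 * (p / (A * w) + Real.log A + M + M * Real.log θ)) :=
      mul_le_mul_of_nonneg_left (by linarith) (by positivity)
    linarith
  have e3 : 2 * θ ^ M * (31 * (p / (A * w))) ≤ p * c / 2 := by
    have e4 : 2 * θ ^ M * (31 * (p / (A * w))) = p * c / 2 * (1 / (M + 1)) := by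
      rw [hA, hw]
      field_simp
      ring
    rw [e4]
    have e5 : (1 : ℝ) / (M + 1) ≤ 1 := by
      rw [div_le_one (by positivity)]
      linarith
    have e6 : 0 ≤ (p : ℝ) * c / 2 := by positivity
    nlinarith
  have e7 : 2 * θ ^ M * (Real.log 2 + M + 27 * Real.log 10 +
      31 * (Real.log A + M + M * Real.log θ)) + M ≤ D * ((M + 1) * θ ^ M) := by
    have g1 : Real.log 2 + M + 27 * Real.log 10 +
      31 * (Real.log A + M + M * Real.log θ) ≤ (Real.log 2 + 1 + 27 * Real.log 10 +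
      31 * Real.log A + 31 + 31 * Real.log θ) * (M + 1) := by
      nlinarith [mul_nonneg hl2.le hM0.le, mul_nonneg hl10.le hM0.le, mul_nonneg hlA hM0.le,
        mul_nonneg hlθ hM0.le]
    have g2 : (M : ℝ) ≤ (M + 1) * θ ^ M := by nlinarith
    have g3 := mul_le_mul_of_nonneg_left g1 (show 0 ≤ 2 * θ ^ M by positivity)
    rw [hD]
    nlinarith
  have e8 : (p : ℝ) * c / 2 ≤ D * ((M + 1) * θ ^ M) := by
    have : 2 * θ ^ M * (Real.log 2 + M + 27 * Real.log 10 +
      31 * (p / (A * w) + Real.log A + M + M * Real.log θ)) + M =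
      2 * θ ^ M * (31 * (p / (A * w))) + (2 * θ ^ M * (Real.log 2 + M + 27 * Real.log 10 +
      31 * (Real.log A + M + M * Real.log θ)) + M) := by ring
    linarith
  have e9 : (p : ℝ) ≤ (D * ((M + 1) * θ ^ M)) * 2 / c := by
    rw [le_div_iff₀ hc0]
    linarith
  calc (p : ℝ) ≤ (D * ((M + 1) * θ ^ M)) * 2 / c := e9
    _ = 2 * D / c * (M + 1) * θ ^ M := by ring

end Pool.Agent.MP_9e8697_nt
end
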