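import Mathlib
import Pool.Agent.Lib.MP_9e8697_nt.Sum

section

/-!
# The kernel check: the program
-/

namespace Pool.Agent.MP_9e8697_nt

/-- Follow the orbit from `x`; `true` if an element `< m` is reached, or more than `c` further local
minima; `false` if `m` is reached again (or the fuel `f` is exhausted). -/
def run (f : ℕ) : ℕ → ℕ → ℕ → Bool :=
  Nat.rec (motive := fun _ => ℕ → ℕ → ℕ → Bool) (fun _ _ _ => false)
    (fun _ ih m x c =>
      cond (Nat.beq (Nat.mod x (nat_lit 2)) (nat_lit 0))
        (ih m (Nat.mul (nat_lit 3) (Nat.div x (nat_lit 2))) c)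
        ((fun y => cond (Nat.ble m y)
          (cond (Nat.beq (Nat.mod y (nat_lit 2)) (nat_lit 0))
            (cond (Nat.beq c (nat_lit 0)) true (cond (Nat.beq y m) false (ih m y (Nat.pred c))))
            (ih m y c)) true)
        (Nat.div (Nat.add (Nat.mul (nat_lit 3) x) (nat_lit 1)) (nat_lit 4)))) f

/-- Check all `a + s i`, `i < 2 ^ k`. -/
def chk (s k : ℕ) : ℕ → Bool :=
  Nat.rec (motive := fun _ => ℕ → Bool)
    (fun a => cond (Nat.beq (Nat.mod a (nat_lit 2)) (nat_lit 1)) true
      (cond (Nat.beq (Nat.mod a (nat_lit 3)) (nat_lit 0)) true (run 600 a a 12)))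
    (fun k ih a => cond (ih a) (ih (Nat.add a (Nat.mul s (Nat.pow (nat_lit 2) k)))) false) k

/-- Proof: induction on `k`. -/
theorem chk_sound {s k a : ℕ} (h : chk s k a = true) {i : ℕ} (hi : i < 2 ^ k) :
    (a + s * i) % 2 = 1 ∨ (a + s * i) % 3 = 0 ∨ run 600 (a + s * i) (a + s * i) 12 = true := by
  induction k generalizing a i with
  | zero =>
    have hi0 : i = 0 := by
      rw [pow_zero] at hi
      omega
    subst hi0
    rw [mul_zero, add_zero]
    have h' : cond (Nat.beq (a % 2) 1) true
      (cond (Nat.beq (a % 3) 0) true (run 600 a a 12)) = true := h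
    by_cases h1 : a % 2 = 1
    · exact Or.inl h1
    · right
      have h2 : Nat.beq (a % 2) 1 = false := by
        cases hb : Nat.beq (a % 2) 1
        · rfl
        · exact absurd (Nat.eq_of_beq_eq_true hb) h1
      rw [h2] at h'
      by_cases h3 : a % 3 = 0
      · exact Or.inl h3
      · right
        have h4 : Nat.beq (a % 3) 0 = false := by
          cases hb : Nat.beq (a % 3) 0
          · rfl
          · exact absurd (Nat.eq_of_beq_eq_true hb) h3
        rw [h4] at h'
        exact h'
  | succ k ih =>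
    have h' : cond (chk s k a) (chk s k (a + s * 2 ^ k)) false = true := h
    have h1 : chk s k a = true := by
      cases hc : chk s k a
      · rw [hc] at h'
        exact absurd h' Bool.false_ne_true
      · rfl
    rw [h1] at h'
    have h2 : chk s k (a + s * 2 ^ k) = true := h'
    by_cases hk : i < 2 ^ k
    · exact ih h1 hk
    · obtain ⟨j, hj⟩ := Nat.exists_eq_add_of_le (not_lt.1 hk)
      have hj' : j < 2 ^ k := by
        rw [pow_succ] at hi
        omega
      have h3 := ih h2 hj'
      have h4 : a + s * 2 ^ k + s * j = a + s * i := by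
        rw [hj]
        ring
      rw [h4] at h3
      exact h3

end Pool.Agent.MP_9e8697_nt
end

section

/-!
# The kernel checks of the small numbers
-/

namespace Pool.Agent.MP_9e8697_nt

theorem chk_0 : chk 1 9 46 = true := by decide +kernel
theorem chk_1 : chk 1 9 558 = true := by decide +kernel
theorem chk_2 : chk 1 9 1070 = true := by decide +kernel
theorem chk_3 : chk 1 9 1582 = true := by decide +kernel
theorem chk_4 : chk 1 9 2094 = true := by decide +kernel
theorem chk_5 : chk 1 9 2606 = true := by decide +kernel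
theorem chk_6 : chk 1 9 3118 = true := by decide +kernel
theorem chk_7 : chk 1 9 3630 = true := by decide +kernel
theorem chk_8 : chk 1 9 4142 = true := by decide +kernel
theorem chk_9 : chk 1 9 4654 = true := by decide +kernel
theorem chk_10 : chk 1 9 5166 = true := by decide +kernel
theorem chk_11 : chk 1 9 5678 = true := by decide +kernel

end Pool.Agent.MP_9e8697_nt
end

section

/-!
# Local minima: counting
-/

open Function

namespace Pool.Agent.MP_9e8697_nt

/-- The number of `i < t` such that `T^[i] x` is odd and `T^[i + 1] x` is even. -/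
def cnt (x t : ℕ) : ℕ :=
  ((Finset.range t).filter (fun i => T^[i] x % 2 = 1 ∧ T^[i + 1] x % 2 = 0)).card

/-- Proof: `T^[i+1] x < T^[i] x` iff `T^[i] x` is odd, `T^[i+1] x < T^[i+2] x` iff `T^[i+1] x` is
even (`T_lt_of_odd`, `lt_T_of_even`, all iterates are `≥ 2`). -/
theorem minima_eq {x : ℕ} (hx : 2 ≤ x) : minima x = cnt x (minimalPeriod T x) := by
  unfold minima cnt
  congr 1
  apply Finset.filter_congr
  intro i _
  have h0 := two_le_iterate hx i
  have h1 := two_le_iterate hx (i + 1)
  have e1 : T^[i + 1] x = T (T^[i] x) := Function.iterate_succ_apply' _ _ _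
  have e2 : T^[i + 2] x = T (T^[i + 1] x) := Function.iterate_succ_apply' _ _ _
  have a1 : T^[i + 1] x < T^[i] x ↔ T^[i] x % 2 = 1 := by
    constructor
    · intro h
      by_contra hc
      have h3 : T^[i] x % 2 = 0 := by omega
      have := lt_T_of_even h3 (by omega)
      rw [← e1] at this
      omega
    · intro h
      have := T_lt_of_odd h h0
      rw [← e1] at this
      exact this
  have a2 : T^[i + 1] x < T^[i + 2] x ↔ T^[i + 1] x % 2 = 0 := by
    constructor
    · intro h
      by_contra hc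
      have h3 : T^[i + 1] x % 2 = 1 := by omega
      have := T_lt_of_odd h3 h1
      rw [← e2] at this
      omega
    · intro h
      have := lt_T_of_even h (by omega)
      rw [← e2] at this
      exact this
  rw [a1, a2]

private theorem card_shift (Q : ℕ → Prop) [DecidablePred Q] (p : ℕ) (h : Q p ↔ Q 0) :
    ((Finset.range p).filter (fun i => Q (i + 1))).card =
      ((Finset.range p).filter (fun i => Q i)).card := by
  rw [Finset.card_filter, Finset.card_filter]
  have h1 := Finset.sum_range_succ (fun i => if Q i then 1 else 0) p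
  have h2 := Finset.sum_range_succ' (fun i => if Q i then 1 else 0) p
  rw [h1] at h2
  simp only [h] at h2
  omega

private theorem minima_T {y : ℕ} (hp : 0 < minimalPeriod T y) : minima (T y) = minima y := by
  have hmem : y ∈ periodicPts T := minimalPeriod_pos_iff_mem_periodicPts.1 hp
  have e : minimalPeriod T (T y) = minimalPeriod T y := minimalPeriod_apply hmem
  unfold minima
  rw [e]
  have key := card_shift (fun i => T^[i + 1] y < T^[i] y ∧ T^[i + 1] y < T^[i + 2] y)
    (minimalPeriod T y) (by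
      have hper : ∀ k, T^[minimalPeriod T y + k] y = T^[k] y := by
        intro k
        rw [add_comm, Function.iterate_add_apply, iterate_minimalPeriod]
      have h0 := hper 0
      have h1 := hper 1
      have h2 := hper 2
      simp only [add_zero, zero_add] at h0 h1 h2 ⊢
      rw [h0, h1, h2])
  rw [← key]
  rfl

/-- Proof: `minimalPeriod T (T^[k] x) = minimalPeriod T x` and the predicate is periodic in `i`
(`Function.iterate_mod_minimalPeriod_eq` or a shift by one at a time: the sum over `i < p` of a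
`p`-periodic function is invariant under `i ↦ i + 1`). -/
theorem minima_iterate {x : ℕ} (hp : 0 < minimalPeriod T x) (k : ℕ) :
    minima (T^[k] x) = minima x := by
  have key : ∀ k, 0 < minimalPeriod T (T^[k] x) ∧ minima (T^[k] x) = minima x := by
    intro k
    induction k with
    | zero => exact ⟨hp, rfl⟩
    | succ k ih =>
      rw [Function.iterate_succ_apply']
      have hmem : T^[k] x ∈ periodicPts T := minimalPeriod_pos_iff_mem_periodicPts.1 ih.1
      refine ⟨?_, ?_⟩
      · rw [minimalPeriod_apply hmem]; exact ih.1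
      · rw [minima_T ih.1]; exact ih.2
  exact (key k).2

end Pool.Agent.MP_9e8697_nt
end

section

/-!
# Local minima: valuations
-/

open Function

namespace Pool.Agent.MP_9e8697_nt

/-- Proof: `T v = 3 (v / 2)` (`Nat.factorization` or `padicValNat`: `v_2 (3 w) = v_2 w`,
`v_2 (v / 2) = v_2 v - 1`). -/
theorem val_T {v : ℕ} (h : v % 2 = 0) (hv : 0 < v) :
    padicValNat 2 (T v) + 1 = padicValNat 2 v := by
  have : Fact (Nat.Prime 2) := ⟨Nat.prime_two⟩
  obtain ⟨w, rfl⟩ : ∃ w, v = 2 * w := ⟨v / 2, by omega⟩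
  have hw : w ≠ 0 := by omega
  have hT : T (2 * w) = 3 * w := by
    have := two_mul_T h
    omega
  rw [hT, padicValNat.mul (by norm_num) hw, padicValNat.mul (by norm_num) hw,
    padicValNat.self (by norm_num)]
  have h3 : padicValNat 2 3 = 0 := padicValNat.eq_zero_of_not_dvd (by norm_num)
  omega

private theorem MinB1_odd {v : ℕ} (h : v % 2 = 1) : padicValNat 2 v = 0 :=
  padicValNat.eq_zero_of_not_dvd (by omega)

/-- The number of even elements of a cycle is the sum of the 2-adic valuations of its local minima.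
Proof: with `w i = padicValNat 2 (T^[i] x)` (`0` for odd elements),
`#{i < p : x_i even} = ∑_{x_i even} (w i - w (i+1))` (`val_T`), and
`∑_{i<p} [x_i even] w i = ∑_{i<p} w i = ∑_{i<p} w (i+1)` by periodicity, so this is
`∑_{i<p} [x_i odd] w (i + 1)`, and `w (i + 1) = 0` unless `x_{i+1}` is even. -/
theorem evens_eq {x p : ℕ} (hx : 0 < x) (hp : T^[p] x = x) :
    p = odds x p + ∑ i ∈ (Finset.range p).filter
      (fun i => T^[i] x % 2 = 1 ∧ T^[i + 1] x % 2 = 0), padicValNat 2 (T^[i + 1] x) := by
  have h1 : ∀ i, (1 + padicValNat 2 (T^[i + 1] x) = (if T^[i] x % 2 = 1 then 1 else 0) +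
      (padicValNat 2 (T^[i] x) +
      (if T^[i] x % 2 = 1 ∧ T^[i + 1] x % 2 = 0 then padicValNat 2 (T^[i + 1] x) else 0))) := by
    intro i
    rcases Nat.mod_two_eq_zero_or_one (T^[i] x) with h | h
    · have h2 := val_T h (iterate_pos hx i)
      rw [iterate_succ_apply', if_neg (by omega), if_neg (by omega)]
      omega
    · have h2 := MinB1_odd h
      rw [if_pos h, h2]
      rcases Nat.mod_two_eq_zero_or_one (T^[i + 1] x) with h3 | h3
      · rw [if_pos ⟨h, h3⟩]
        omega
      · rw [if_neg (by omega), MinB1_odd h3]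
  have h2 : ∑ i ∈ Finset.range p, (1 + padicValNat 2 (T^[i + 1] x)) =
      ∑ i ∈ Finset.range p, ((if T^[i] x % 2 = 1 then 1 else 0) +
      (padicValNat 2 (T^[i] x) +
      (if T^[i] x % 2 = 1 ∧ T^[i + 1] x % 2 = 0 then padicValNat 2 (T^[i + 1] x) else 0))) :=
    Finset.sum_congr rfl fun i _ => h1 i
  rw [Finset.sum_add_distrib, Finset.sum_add_distrib, Finset.sum_add_distrib,
    ← Finset.sum_filter, ← Finset.sum_filter] at h2
  have h3 : ∑ i ∈ Finset.range p, padicValNat 2 (T^[i + 1] x) =
      ∑ i ∈ Finset.range p, padicValNat 2 (T^[i] x) := by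
    have h4 := Finset.sum_range_succ (fun i => padicValNat 2 (T^[i] x)) p
    have h5 := Finset.sum_range_succ' (fun i => padicValNat 2 (T^[i] x)) p
    simp only [hp, iterate_zero, id_eq] at h4 h5
    omega
  have h4 : ∑ i ∈ Finset.range p, 1 = p := by simp
  have h5 : ∑ i ∈ (Finset.range p).filter (fun i => T^[i] x % 2 = 1), 1 = odds x p := by
    unfold odds
    simp
  rw [h3, h4, h5] at h2
  omega

/-- Proof: `2 ^ v_2 m ≤ m`. -/
theorem val_mul_log_le {m : ℕ} (hm : 0 < m) :
    (padicValNat 2 m : ℝ) * Real.log 2 ≤ Real.log m := by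
  have h1 : 2 ^ padicValNat 2 m ≤ m := Nat.le_of_dvd hm pow_padicValNat_dvd
  have h2 : ((2 : ℝ) ^ padicValNat 2 m) ≤ m := by exact_mod_cast h1
  rw [← Real.log_pow]
  exact Real.log_le_log (by positivity) h2

/-- `h v = log v + v_2 v * log (3/2)` is invariant under `T` at even `v`. -/
theorem h_even {v : ℕ} (h : v % 2 = 0) (hv : 0 < v) :
    Real.log (T v) + padicValNat 2 (T v) * Real.log (3 / 2) =
      Real.log v + padicValNat 2 v * Real.log (3 / 2) := by
  have h1 := val_T h hv
  have h2 : (T v : ℝ) = 3 / 2 * v := by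
    have h3 : ((2 * T v : ℕ) : ℝ) = ((3 * v : ℕ) : ℝ) := by rw [two_mul_T h]
    push_cast at h3
    linarith
  have hv0 : (v : ℝ) ≠ 0 := by exact_mod_cast hv.ne'
  rw [← h1, h2, Real.log_mul (by norm_num) hv0]
  push_cast
  ring

/-- Proof: `v_2 v * log (3/2) ≤ log v / log 2 * log (3/2) = (θ - 1) log v`, `θ = log 3 / log 2`. -/
theorem h_le {v : ℕ} (hv : 0 < v) :
    Real.log v + padicValNat 2 v * Real.log (3 / 2) ≤ (Real.log 3 / Real.log 2) * Real.log v := by
  have h1 := val_mul_log_le hv
  have h2 : 0 < Real.log 2 := Real.log_pos (by norm_num)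
  have h3 : 0 < Real.log (3 / 2) := Real.log_pos (by norm_num)
  have h4 : Real.log (3 / 2) = Real.log 3 - Real.log 2 := Real.log_div (by norm_num) (by norm_num)
  have h5 : (padicValNat 2 v : ℝ) ≤ Real.log v / Real.log 2 := by
    rw [le_div_iff₀ h2]
    exact h1
  have h6 : (padicValNat 2 v : ℝ) * Real.log (3 / 2) ≤
      Real.log v / Real.log 2 * Real.log (3 / 2) := mul_le_mul_of_nonneg_right h5 h3.le
  have h7 : Real.log v / Real.log 2 * Real.log (3 / 2) =
      (Real.log 3 / Real.log 2) * Real.log v - Real.log v := by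
    rw [h4]
    field_simp
  linarith

end Pool.Agent.MP_9e8697_nt
end

section

/-!
# Local minima: growth
-/

open Function

namespace Pool.Agent.MP_9e8697_nt

/-- `h0 x = log x + v_2 x * log (3/2)`, the logarithm of the local maximum after `x`. -/
noncomputable def h0 (x : ℕ) : ℝ := Real.log x + padicValNat 2 x * Real.log (3 / 2)

private theorem MinB2_h0_odd {v : ℕ} (h : v % 2 = 1) : h0 v = Real.log v := by
  unfold h0
  rw [padicValNat.eq_zero_of_not_dvd (by omega)]
  simp

private theorem MinB2_cnt_pos {x t : ℕ} (h : T^[t] x % 2 = 1 ∧ T^[t + 1] x % 2 = 0) :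
    cnt x (t + 1) = cnt x t + 1 := by
  unfold cnt
  rw [Finset.range_add_one, Finset.filter_insert, if_pos h, Finset.card_insert_of_notMem (by simp)]

private theorem MinB2_cnt_neg {x t : ℕ} (h : ¬ (T^[t] x % 2 = 1 ∧ T^[t + 1] x % 2 = 0)) :
    cnt x (t + 1) = cnt x t := by
  unfold cnt
  rw [Finset.range_add_one, Finset.filter_insert, if_neg h]

private theorem MinB2_theta : 0 < Real.log 3 / Real.log 2 :=
  div_pos (Real.log_pos (by norm_num)) (Real.log_pos (by norm_num))

/-- Growth. Proof by induction on `t` with `h_even`, `h_le`: for odd `x_t` one has `h (x_t) = log x_t`,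
`x_{t+1} < x_t`, and `h (x_{t+1}) ≤ h (x_t)` if `x_{t+1}` is odd, `h (x_{t+1}) ≤ θ log x_{t+1} ≤ θ h (x_t)` if
`x_{t+1}` is even, in which case `cnt` increases by one. -/
theorem h_growth {x : ℕ} (hx : 2 ≤ x) (t : ℕ) :
    h0 (T^[t] x) ≤ (Real.log 3 / Real.log 2) ^ cnt x t * h0 x := by
  induction t with
  | zero =>
    have h1 : cnt x 0 = 0 := rfl
    rw [h1, pow_zero, one_mul]
    exact le_refl _
  | succ t ih =>
    have hv := two_le_iterate hx t
    rcases Nat.mod_two_eq_zero_or_one (T^[t] x) with h | h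
    · rw [MinB2_cnt_neg (by omega), iterate_succ_apply']
      have h1 : h0 (T (T^[t] x)) = h0 (T^[t] x) := h_even h (by omega)
      rw [h1]
      exact ih
    · have hlt := T_lt_of_odd h hv
      have hpos : 0 < T (T^[t] x) := T_pos (by omega)
      have hlog : Real.log (T (T^[t] x)) ≤ Real.log (T^[t] x) := by
        apply Real.log_le_log
        · exact_mod_cast hpos
        · exact_mod_cast hlt.le
      rcases Nat.mod_two_eq_zero_or_one (T^[t + 1] x) with h3 | h3
      · rw [MinB2_cnt_pos ⟨h, h3⟩]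
        rw [iterate_succ_apply'] at h3 ⊢
        have h4 : h0 (T (T^[t] x)) ≤ (Real.log 3 / Real.log 2) * Real.log (T (T^[t] x)) := h_le hpos
        rw [MinB2_h0_odd h] at ih
        calc h0 (T (T^[t] x)) ≤ (Real.log 3 / Real.log 2) * Real.log (T (T^[t] x)) := h4
          _ ≤ (Real.log 3 / Real.log 2) * ((Real.log 3 / Real.log 2) ^ cnt x t * h0 x) :=
            mul_le_mul_of_nonneg_left (hlog.trans ih) MinB2_theta.le
          _ = (Real.log 3 / Real.log 2) ^ (cnt x t + 1) * h0 x := by ring
      · rw [MinB2_cnt_neg (by omega)]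
        rw [iterate_succ_apply'] at h3 ⊢
        rw [MinB2_h0_odd h3]
        rw [MinB2_h0_odd h] at ih
        exact hlog.trans ih

/-- Proof: induction on `t` with `h_growth` (`log x_{i+1} ≤ log x_i = h (x_i)` for odd `x_i`). -/
theorem sum_log_growth {x : ℕ} (hx : 2 ≤ x) (t : ℕ) :
    ∑ i ∈ (Finset.range t).filter (fun i => T^[i] x % 2 = 1 ∧ T^[i + 1] x % 2 = 0),
      Real.log (T^[i + 1] x) ≤
      (∑ j ∈ Finset.range (cnt x t), (Real.log 3 / Real.log 2) ^ j) * h0 x := by
  induction t with
  | zero =>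
    have h1 : cnt x 0 = 0 := rfl
    rw [h1]
    simp
  | succ t ih =>
    by_cases h : T^[t] x % 2 = 1 ∧ T^[t + 1] x % 2 = 0
    · rw [MinB2_cnt_pos h, Finset.range_add_one, Finset.filter_insert, if_pos h,
        Finset.sum_insert (by simp), Finset.sum_range_succ, add_mul, add_comm]
      refine add_le_add ih ?_
      have hv := two_le_iterate hx t
      have h2 := h_growth hx t
      rw [MinB2_h0_odd h.1] at h2
      refine le_trans ?_ h2
      rw [iterate_succ_apply']
      apply Real.log_le_log
      · exact_mod_cast T_pos (by omega)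
      · exact_mod_cast (T_lt_of_odd h.1 hv).le
    · rw [MinB2_cnt_neg h, Finset.range_add_one, Finset.filter_insert, if_neg h]
      exact ih

/-- The last step of the cycle ends in the minimum. Proof: `x_{p-1}` is odd, otherwise
`x_{p-1} < T (x_{p-1}) = x`; and `x` is even, otherwise `T x < x`. -/
theorem last_step {x : ℕ} (hx : 2 ≤ x) (hp : 0 < minimalPeriod T x) (hmin : ∀ k, x ≤ T^[k] x) :
    T^[minimalPeriod T x - 1] x % 2 = 1 ∧ x % 2 = 0 ∧
      cnt x (minimalPeriod T x) = cnt x (minimalPeriod T x - 1) + 1 := by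
  obtain ⟨q, hq⟩ : ∃ q, minimalPeriod T x = q + 1 := ⟨minimalPeriod T x - 1, by omega⟩
  have hper : T^[q + 1] x = x := by
    rw [← hq]
    exact iterate_minimalPeriod
  have hq2 := two_le_iterate hx q
  have h1 : T^[q] x % 2 = 1 := by
    rcases Nat.mod_two_eq_zero_or_one (T^[q] x) with h | h
    · exfalso
      have h2 := lt_T_of_even h (by omega)
      rw [← iterate_succ_apply' T q x, hper] at h2
      have h3 := hmin q
      omega
    · exact h
  have h2 : x % 2 = 0 := by
    rcases Nat.mod_two_eq_zero_or_one x with h | h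
    · exact h
    · exfalso
      have h3 := T_lt_of_odd h hx
      have h4 := hmin 1
      rw [iterate_one] at h4
      omega
  rw [hq, Nat.add_sub_cancel]
  exact ⟨h1, h2, MinB2_cnt_pos ⟨h1, by rw [hper]; exact h2⟩⟩

/-- Proof: by `val_mul_log_le` for all local minima except the last one, which is `x` itself
(`last_step`), and `sum_log_growth` for `t = p - 1`; `cnt x (p - 1) = M - 1` (`minima_eq`). -/
theorem sum_val_le {x : ℕ} (hx : 2 ≤ x) (hp : 0 < minimalPeriod T x) (hmin : ∀ k, x ≤ T^[k] x) :
    (∑ i ∈ (Finset.range (minimalPeriod T x)).filter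
      (fun i => T^[i] x % 2 = 1 ∧ T^[i + 1] x % 2 = 0),
        (padicValNat 2 (T^[i + 1] x) : ℝ)) * Real.log 2 ≤
      padicValNat 2 x * Real.log 2 +
        (∑ j ∈ Finset.range (minima x - 1), (Real.log 3 / Real.log 2) ^ j) * h0 x := by
  obtain ⟨h1, h2, h3⟩ := last_step hx hp hmin
  have hM : minima x - 1 = cnt x (minimalPeriod T x - 1) := by
    rw [minima_eq hx, h3]
    omega
  rw [hM]
  obtain ⟨q, hq⟩ : ∃ q, minimalPeriod T x = q + 1 := ⟨minimalPeriod T x - 1, by omega⟩
  have hper : T^[q + 1] x = x := by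
    rw [← hq]
    exact iterate_minimalPeriod
  rw [hq, Nat.add_sub_cancel] at h1 ⊢
  rw [Finset.range_add_one, Finset.filter_insert, if_pos ⟨h1, by rw [hper]; exact h2⟩,
    Finset.sum_insert (by simp), hper, add_mul]
  refine add_le_add le_rfl ?_
  rw [Finset.sum_mul]
  refine le_trans (Finset.sum_le_sum fun i _ => ?_) (sum_log_growth hx q)
  exact val_mul_log_le (iterate_pos (by omega) _)

end Pool.Agent.MP_9e8697_nt
end

section

/-!
# The kernel check: soundness of the orbit check
-/

open Function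

namespace Pool.Agent.MP_9e8697_nt

private theorem T_odd_eq {y : ℕ} (h : y % 2 = 1) : T y = (3 * y + 1) / 4 := by
  have h0 : y % 4 = 1 ∨ y % 4 = 3 := by omega
  rcases h0 with h0 | h0
  · have := four_mul_T_of_one h0; omega
  · have := four_mul_T_of_three h0; omega

private theorem T_even_eq {y : ℕ} (h : y % 2 = 0) : T y = 3 * (y / 2) := by
  have := two_mul_T h; omega

private theorem run_succ (f m x c : ℕ) : run (f + 1) m x c =
    cond (Nat.beq (x % 2) 0) (run f m (3 * (x / 2)) c)
      (cond (Nat.ble m ((3 * x + 1) / 4))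
        (cond (Nat.beq ((3 * x + 1) / 4 % 2) 0)
          (cond (Nat.beq c 0) true (cond (Nat.beq ((3 * x + 1) / 4) m) false
            (run f m ((3 * x + 1) / 4) (Nat.pred c))))
          (run f m ((3 * x + 1) / 4) c)) true) := rfl

private theorem beq_true {a b : ℕ} (h : a = b) : Nat.beq a b = true := by
  rw [Nat.beq_eq]; exact h

private theorem beq_false {a b : ℕ} (h : a ≠ b) : Nat.beq a b = false := by
  cases hb : Nat.beq a b with
  | false => rfl
  | true => exact absurd (Nat.beq_eq ▸ hb : a = b) h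

private theorem run_even {f m x c : ℕ} (h : x % 2 = 0) :
    run (f + 1) m x c = run f m (T x) c := by
  rw [run_succ, beq_true h, cond_true, T_even_eq h]

private theorem run_odd_odd {f m x c : ℕ} (h : x % 2 = 1) (h1 : m ≤ T x) (h2 : T x % 2 = 1) :
    run (f + 1) m x c = run f m (T x) c := by
  rw [T_odd_eq h] at h1 h2 ⊢
  rw [run_succ, beq_false (by omega), cond_false, Nat.ble_eq_true_of_le h1, cond_true,
    beq_false (by omega), cond_false]

private theorem run_odd_even {f m x c : ℕ} (h : x % 2 = 1) (h1 : m ≤ T x) (h2 : T x % 2 = 0)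
    (hc : c ≠ 0) (h3 : T x ≠ m) :
    run (f + 1) m x c = run f m (T x) (c - 1) := by
  rw [T_odd_eq h] at h1 h2 h3 ⊢
  rw [run_succ, beq_false (by omega), cond_false, Nat.ble_eq_true_of_le h1, cond_true,
    beq_true h2, cond_true, beq_false hc, cond_false, beq_false h3, cond_false, Nat.pred_eq_sub_one]

private theorem run_odd_even' {f m x c : ℕ} (h : x % 2 = 1) (h2 : T x % 2 = 0)
    (hc : c ≠ 0) (h3 : T x = m) :
    run (f + 1) m x c = false := by
  rw [T_odd_eq h] at h2 h3
  rw [run_succ, beq_false (by omega), cond_false, Nat.ble_eq_true_of_le h3.ge, cond_true,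
    beq_true h2, cond_true, beq_false hc, cond_false, beq_true h3, cond_true]

private theorem cnt_succ (x t : ℕ) : cnt x (t + 1) =
    cnt x t + if T^[t] x % 2 = 1 ∧ T^[t + 1] x % 2 = 0 then 1 else 0 := by
  unfold cnt
  rw [Finset.range_add_one, Finset.filter_insert]
  split_ifs with h
  · rw [Finset.card_insert_of_notMem (by simp)]
  · rfl

private theorem cnt_mono (x : ℕ) {s t : ℕ} (h : s ≤ t) : cnt x s ≤ cnt x t := by
  unfold cnt
  exact Finset.card_le_card (Finset.filter_subset_filter _ (Finset.range_mono h))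

/-- The check disproves that `x` is the smallest element of a cycle with at most `12` local minima.
Proof: show by induction on the fuel: if `t < p` (`p` the period of `x`), and
`c + cnt x t = 12` then `run f x (T^[t] x) c = false`: for even `T^[t] x` go to `t + 1`, which is `< p`
since `T^[p-1] x` is odd; for odd `T^[t] x`, `y = T^[t+1] x ≥ x`; if `y` is even then
`cnt x (t + 1) = cnt x t + 1 ≤ minima x ≤ 12` so `c ≠ 0`; if `t + 1 < p` then `y ≠ x` and continue with
`c - 1`, if `t + 1 = p` then `y = x` and the result is `false`; if `y` is odd then `t + 1 < p` as `x` is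
even. -/
theorem run_eq_false {x : ℕ} (hx : 2 ≤ x) (hp : 0 < minimalPeriod T x) (hmin : ∀ k, x ≤ T^[k] x)
    (hM : minima x ≤ 12) (f : ℕ) : run f x x 12 = false := by
  obtain ⟨hlast, hxe, _⟩ := last_step hx hp hmin
  have hper : T^[minimalPeriod T x] x = x := iterate_minimalPeriod
  rw [minima_eq hx] at hM
  have key : ∀ f t c, t < minimalPeriod T x → c + cnt x t = 12 →
      run f x (T^[t] x) c = false := by
    intro f
    induction f with
    | zero => intro t c _ _; rfl
    | succ f ih =>
      intro t c ht hc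
      have hstep : T (T^[t] x) = T^[t + 1] x := (iterate_succ_apply' T t x).symm
      have hcs := cnt_succ x t
      rcases Nat.mod_two_eq_zero_or_one (T^[t] x) with hy | hy
      · rw [run_even hy, hstep]
        rw [if_neg (by omega), add_zero] at hcs
        refine ih (t + 1) c ?_ (by rw [hcs]; exact hc)
        rcases Nat.lt_or_ge (t + 1) (minimalPeriod T x) with h | h
        · exact h
        · have h1 : minimalPeriod T x - 1 = t := by omega
          rw [h1] at hlast
          omega
      · have hz : x ≤ T (T^[t] x) := by rw [hstep]; exact hmin _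
        rcases Nat.mod_two_eq_zero_or_one (T^[t + 1] x) with hy2 | hy2
        · rw [if_pos ⟨hy, hy2⟩] at hcs
          have h2 : cnt x (t + 1) ≤ cnt x (minimalPeriod T x) := cnt_mono x ht
          have hc0 : c ≠ 0 := by omega
          by_cases h3 : T (T^[t] x) = x
          · exact run_odd_even' hy (by rw [hstep]; exact hy2) hc0 h3
          · rw [run_odd_even hy hz (by rw [hstep]; exact hy2) hc0 h3, hstep]
            refine ih (t + 1) (c - 1) ?_ (by omega)
            rcases Nat.lt_or_ge (t + 1) (minimalPeriod T x) with h | h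
            · exact h
            · have h1 : t + 1 = minimalPeriod T x := by omega
              rw [hstep, h1] at h3
              exact absurd hper h3
        · rw [run_odd_odd hy hz (by rw [hstep]; exact hy2), hstep]
          rw [if_neg (by omega), add_zero] at hcs
          refine ih (t + 1) c ?_ (by rw [hcs]; exact hc)
          rcases Nat.lt_or_ge (t + 1) (minimalPeriod T x) with h | h
          · exact h
          · have h1 : t + 1 = minimalPeriod T x := by omega
            rw [h1, hper] at hy2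
            omega
  have h0 := key f 0 12 hp (by simp [cnt])
  rwa [iterate_zero, id] at h0

/-- Proof: `x` is even (otherwise `T x < x`), and `x = T y` with `y = T^[p-1] x` odd, so `3` does not
divide `x`. -/
theorem min_mod {x : ℕ} (hx : 2 ≤ x) (hp : 0 < minimalPeriod T x) (hmin : ∀ k, x ≤ T^[k] x) :
    x % 2 = 0 ∧ x % 3 ≠ 0 := by
  obtain ⟨hlast, hxe, _⟩ := last_step hx hp hmin
  have hper : T^[minimalPeriod T x] x = x := iterate_minimalPeriod
  refine ⟨hxe, ?_⟩
  have h1 : T (T^[minimalPeriod T x - 1] x) = x := by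
    have h2 : (minimalPeriod T x - 1).succ = minimalPeriod T x := by omega
    rw [← iterate_succ_apply' T, h2]
    exact hper
  set y := T^[minimalPeriod T x - 1] x
  have h0 : y % 4 = 1 ∨ y % 4 = 3 := by omega
  rcases h0 with h0 | h0
  · have := four_mul_T_of_one h0; omega
  · have := four_mul_T_of_three h0; omega

end Pool.Agent.MP_9e8697_nt
end

section

/-!
# Local minima: odd steps and summation
-/

open Function

namespace Pool.Agent.MP_9e8697_nt

/-- Proof for odd `v ≥ 3`: `4 (T v - 1) ≤ 3 (v - 1)`, so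
`log (T v) - log v - (log 3 - 2 log 2) ≤ ψ (T v) - ψ v` with `ψ v = log v - log (v - 1)`. -/
theorem odd_step_le {v : ℕ} (h : v % 2 = 1) (hv : 2 ≤ v) :
    Real.log (T v) - Real.log v - (Real.log 3 - 2 * Real.log 2) ≤
      (Real.log (T v) - Real.log ((T v : ℝ) - 1)) - (Real.log v - Real.log ((v : ℝ) - 1)) := by
  have hT : 2 ≤ T v := two_le_T hv
  have hT' : (2 : ℝ) ≤ (T v : ℝ) := by exact_mod_cast hT
  have hv' : (2 : ℝ) ≤ (v : ℝ) := by exact_mod_cast hv
  have h4 : 4 * T v ≤ 3 * v + 1 := by
    have h0 : v % 4 = 1 ∨ v % 4 = 3 := by omega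
    rcases h0 with h0 | h0
    · have := four_mul_T_of_one h0; omega
    · have := four_mul_T_of_three h0; omega
  have h4' : 4 * ((T v : ℝ) - 1) ≤ 3 * ((v : ℝ) - 1) := by
    have : (4 : ℝ) * (T v : ℝ) ≤ 3 * (v : ℝ) + 1 := by exact_mod_cast h4
    linarith
  have h5 : Real.log (4 * ((T v : ℝ) - 1)) ≤ Real.log (3 * ((v : ℝ) - 1)) :=
    Real.log_le_log (by linarith) h4'
  rw [Real.log_mul (by norm_num) (by linarith), Real.log_mul (by norm_num) (by linarith)] at h5
  have h6 : Real.log 4 = 2 * Real.log 2 := by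
    rw [show (4 : ℝ) = 2 ^ 2 by norm_num, Real.log_pow]; norm_num
  rw [h6] at h5
  linarith

/-- Proof for odd `v ≥ 3`: `4 (T v + 1) ≥ 3 (v + 1)`, so
`log (T v) - log v - (log 3 - 2 log 2) ≥ - (φ (T v) - φ v)` with `φ v = log (v + 1) - log v`. -/
theorem odd_step_ge {v : ℕ} (h : v % 2 = 1) (hv : 2 ≤ v) :
    -((Real.log ((T v : ℝ) + 1) - Real.log (T v)) - (Real.log ((v : ℝ) + 1) - Real.log v)) ≤
      Real.log (T v) - Real.log v - (Real.log 3 - 2 * Real.log 2) := by
  have hT : 2 ≤ T v := two_le_T hv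
  have hT' : (2 : ℝ) ≤ (T v : ℝ) := by exact_mod_cast hT
  have hv' : (2 : ℝ) ≤ (v : ℝ) := by exact_mod_cast hv
  have h4 : 3 * v ≤ 4 * T v + 1 := by
    have h0 : v % 4 = 1 ∨ v % 4 = 3 := by omega
    rcases h0 with h0 | h0
    · have := four_mul_T_of_one h0; omega
    · have := four_mul_T_of_three h0; omega
  have h4' : 3 * ((v : ℝ) + 1) ≤ 4 * ((T v : ℝ) + 1) := by
    have : (3 : ℝ) * (v : ℝ) ≤ 4 * (T v : ℝ) + 1 := by exact_mod_cast h4
    linarith
  have h5 : Real.log (3 * ((v : ℝ) + 1)) ≤ Real.log (4 * ((T v : ℝ) + 1)) :=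
    Real.log_le_log (by linarith) h4'
  rw [Real.log_mul (by norm_num) (by linarith), Real.log_mul (by norm_num) (by linarith)] at h5
  have h6 : Real.log 4 = 2 * Real.log 2 := by
    rw [show (4 : ℝ) = 2 ^ 2 by norm_num, Real.log_pow]; norm_num
  rw [h6] at h5
  linarith

/-- Abel summation on a cycle. Proof: `∑_{i<p} [x_i odd] χ(x_i) = ∑_{i<p} [x_{i+1} odd] χ(x_{i+1})`
by periodicity, so the left side is `∑_{i<p} χ(x_{i+1}) ([x_i odd] - [x_{i+1} odd])`, and
`[x_i odd] - [x_{i+1} odd] ≤ [x_i odd and x_{i+1} even]`. -/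
theorem sum_odd_le {x p : ℕ} (hp : T^[p] x = x) (χ : ℕ → ℝ) (B : ℝ)
    (h0 : ∀ i, 0 ≤ χ (T^[i] x)) (hB : ∀ i, χ (T^[i] x) ≤ B) :
    ∑ i ∈ (Finset.range p).filter (fun i => T^[i] x % 2 = 1), (χ (T^[i + 1] x) - χ (T^[i] x)) ≤
      cnt x p * B := by
  set F : ℕ → ℝ := fun i => if T^[i] x % 2 = 1 then χ (T^[i] x) else 0 with hF
  have hshift : ∑ i ∈ Finset.range p, F (i + 1) = ∑ i ∈ Finset.range p, F i := by
    have h1 := Finset.sum_range_succ F p
    have h2 := Finset.sum_range_succ' F p
    have h3 : F p = F 0 := by simp only [hF, hp, Function.iterate_zero, id]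
    rw [h1, h3] at h2
    linarith
  have hl : ∑ i ∈ (Finset.range p).filter (fun i => T^[i] x % 2 = 1),
      (χ (T^[i + 1] x) - χ (T^[i] x)) =
      ∑ i ∈ Finset.range p, ((if T^[i] x % 2 = 1 then χ (T^[i + 1] x) else 0) - F i) := by
    rw [Finset.sum_filter]
    apply Finset.sum_congr rfl
    intro i _
    simp only [hF]
    split_ifs <;> ring
  rw [hl, Finset.sum_sub_distrib, ← hshift, ← Finset.sum_sub_distrib]
  unfold cnt
  rw [Finset.card_filter]
  push_cast
  rw [Finset.sum_mul]
  apply Finset.sum_le_sum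
  intro i _
  simp only [hF]
  have a0 := h0 (i + 1)
  have aB := hB (i + 1)
  by_cases c1 : T^[i] x % 2 = 1
  · by_cases c2 : T^[i + 1] x % 2 = 1
    · rw [if_pos c1, if_pos c2, if_neg (by omega)]
      simp
    · rw [if_pos c1, if_neg c2, if_pos ⟨c1, by omega⟩]
      simp only [sub_zero, one_mul]
      exact aB
  · have c3 : ¬ (T^[i] x % 2 = 1 ∧ T^[i + 1] x % 2 = 0) := fun hc => c1 hc.1
    rw [if_neg c1, if_neg c3]
    split_ifs
    · linarith
    · simp

end Pool.Agent.MP_9e8697_nt
end

section

/-!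
# Local minima: the bound for Lam
-/

open Function

namespace Pool.Agent.MP_9e8697_nt

private theorem Lam_eq {x p : ℕ} (hx : 2 ≤ x) (hp : T^[p] x = x) :
    Lam p (odds x p) = - ∑ i ∈ (Finset.range p).filter (fun i => T^[i] x % 2 = 1),
      (Real.log (T^[i + 1] x : ℕ) - Real.log (T^[i] x : ℕ) - (Real.log 3 - 2 * Real.log 2)) := by
  have h1 : ∑ i ∈ Finset.range p, (Real.log (T^[i + 1] x : ℕ) - Real.log (T^[i] x : ℕ)) = 0 := by
    rw [Finset.sum_range_sub (fun i => Real.log (T^[i] x : ℕ)) p, hp]
    simp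
  have h2 : ∀ i ∈ Finset.range p, (Real.log (T^[i + 1] x : ℕ) - Real.log (T^[i] x : ℕ)) =
      (Real.log 3 - Real.log 2) + (if T^[i] x % 2 = 1 then
        (Real.log (T^[i + 1] x : ℕ) - Real.log (T^[i] x : ℕ) - (Real.log 3 - 2 * Real.log 2))
        - Real.log 2 else 0) := by
    intro i _
    split_ifs with h
    · ring
    · have h3 : T^[i] x % 2 = 0 := by omega
      have h4 : 0 < T^[i] x := by have := two_le_iterate hx i; omega
      have h5 := log_even h3 h4
      rw [Function.iterate_succ_apply', h5]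
      ring
  rw [Finset.sum_congr rfl h2, Finset.sum_add_distrib, ← Finset.sum_filter,
    Finset.sum_sub_distrib] at h1
  simp only [Finset.sum_const, Finset.card_range, nsmul_eq_mul] at h1
  unfold Lam odds
  simp only [Finset.sum_sub_distrib, Finset.sum_const, nsmul_eq_mul] at h1 ⊢
  linarith

/-- Proof: as in `abs_Lam_le`, `Lam p (odds x p) = - ∑_{x_i odd} e_i`,
`e_i = log x_{i+1} - log x_i - (log 3 - 2 log 2)`. By `odd_step_le`, `odd_step_ge` and `sum_odd_le` for
`ψ v = log v - log (v - 1)` and `φ v = log (v + 1) - log v`, both `≥ 0` and `≤ 1 / (x - 1)` for all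
`v ≥ x` (`Real.add_one_le_exp` / `Real.log_le_sub_one_of_pos`). -/
theorem abs_Lam_le_minima {x : ℕ} (hx : 2 ≤ x) (hp : 0 < minimalPeriod T x)
    (hmin : ∀ k, x ≤ T^[k] x) :
    |Lam (minimalPeriod T x) (odds x (minimalPeriod T x))| ≤ minima x / ((x : ℝ) - 1) := by
  have hper : T^[minimalPeriod T x] x = x := iterate_minimalPeriod
  have hx' : (2 : ℝ) ≤ (x : ℝ) := by exact_mod_cast hx
  rw [minima_eq hx, Lam_eq hx hper]
  set p := minimalPeriod T x with hpdef
  have hv : ∀ i, (x : ℝ) ≤ ((T^[i] x : ℕ) : ℝ) := fun i => by exact_mod_cast hmin i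
  -- the two functions
  have hψ0 : ∀ i, 0 ≤ Real.log ((T^[i] x : ℕ) : ℝ) - Real.log (((T^[i] x : ℕ) : ℝ) - 1) := by
    intro i
    have := Real.log_le_log (x := ((T^[i] x : ℕ) : ℝ) - 1) (y := ((T^[i] x : ℕ) : ℝ))
      (by linarith [hv i]) (by linarith)
    linarith
  have hφ0 : ∀ i, 0 ≤ Real.log (((T^[i] x : ℕ) : ℝ) + 1) - Real.log ((T^[i] x : ℕ) : ℝ) := by
    intro i
    have := Real.log_le_log (x := ((T^[i] x : ℕ) : ℝ)) (y := ((T^[i] x : ℕ) : ℝ) + 1)
      (by linarith [hv i]) (by linarith)
    linarith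
  have hψB : ∀ i, Real.log ((T^[i] x : ℕ) : ℝ) - Real.log (((T^[i] x : ℕ) : ℝ) - 1) ≤
      1 / ((x : ℝ) - 1) := by
    intro i
    have hvi := hv i
    rw [← Real.log_div (by linarith) (by linarith)]
    have h1 := Real.log_le_sub_one_of_pos (x := ((T^[i] x : ℕ) : ℝ) / (((T^[i] x : ℕ) : ℝ) - 1))
      (div_pos (by linarith) (by linarith))
    refine h1.trans ?_
    have h2 : ((T^[i] x : ℕ) : ℝ) / (((T^[i] x : ℕ) : ℝ) - 1) - 1 =
        1 / (((T^[i] x : ℕ) : ℝ) - 1) := by
      have : ((T^[i] x : ℕ) : ℝ) - 1 ≠ 0 := by linarith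
      field_simp
      ring
    rw [h2]
    exact one_div_le_one_div_of_le (by linarith) (by linarith)
  have hφB : ∀ i, Real.log (((T^[i] x : ℕ) : ℝ) + 1) - Real.log ((T^[i] x : ℕ) : ℝ) ≤
      1 / ((x : ℝ) - 1) := by
    intro i
    have hvi := hv i
    rw [← Real.log_div (by linarith) (by linarith)]
    have h1 := Real.log_le_sub_one_of_pos (x := (((T^[i] x : ℕ) : ℝ) + 1) / ((T^[i] x : ℕ) : ℝ))
      (div_pos (by linarith) (by linarith))
    refine h1.trans ?_
    have h2 : (((T^[i] x : ℕ) : ℝ) + 1) / ((T^[i] x : ℕ) : ℝ) - 1 =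
        1 / ((T^[i] x : ℕ) : ℝ) := by
      have : ((T^[i] x : ℕ) : ℝ) ≠ 0 := by linarith
      field_simp
      ring
    rw [h2]
    exact one_div_le_one_div_of_le (by linarith) (by linarith)
  have hU := sum_odd_le hper (fun v => Real.log (v : ℝ) - Real.log ((v : ℝ) - 1))
    (1 / ((x : ℝ) - 1)) hψ0 hψB
  have hL := sum_odd_le hper (fun v => Real.log ((v : ℝ) + 1) - Real.log (v : ℝ))
    (1 / ((x : ℝ) - 1)) hφ0 hφB
  have hstep : ∀ i ∈ (Finset.range p).filter (fun i => T^[i] x % 2 = 1),
      (Real.log (T^[i + 1] x : ℕ) - Real.log (T^[i] x : ℕ) - (Real.log 3 - 2 * Real.log 2)) ≤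
      (Real.log ((T^[i + 1] x : ℕ) : ℝ) - Real.log (((T^[i + 1] x : ℕ) : ℝ) - 1)) -
        (Real.log ((T^[i] x : ℕ) : ℝ) - Real.log (((T^[i] x : ℕ) : ℝ) - 1)) := by
    intro i hi
    rw [Finset.mem_filter] at hi
    have := odd_step_le hi.2 (two_le_iterate hx i)
    rw [Function.iterate_succ_apply']
    exact this
  have hstep' : ∀ i ∈ (Finset.range p).filter (fun i => T^[i] x % 2 = 1),
      -((Real.log (((T^[i + 1] x : ℕ) : ℝ) + 1) - Real.log ((T^[i + 1] x : ℕ) : ℝ)) -
        (Real.log (((T^[i] x : ℕ) : ℝ) + 1) - Real.log ((T^[i] x : ℕ) : ℝ))) ≤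
      (Real.log (T^[i + 1] x : ℕ) - Real.log (T^[i] x : ℕ) - (Real.log 3 - 2 * Real.log 2)) := by
    intro i hi
    rw [Finset.mem_filter] at hi
    have := odd_step_ge hi.2 (two_le_iterate hx i)
    rw [Function.iterate_succ_apply']
    exact this
  have hU' := (Finset.sum_le_sum hstep).trans hU
  have hL' := Finset.sum_le_sum hstep'
  rw [Finset.sum_neg_distrib] at hL'
  have e : (cnt x p : ℝ) / ((x : ℝ) - 1) = cnt x p * (1 / ((x : ℝ) - 1)) := by ring
  rw [e, abs_neg, abs_le]
  constructor
  · exact (neg_le_neg hL).trans hL'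
  · exact hU'

end Pool.Agent.MP_9e8697_nt
end
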