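import Pool.Agent.Lib.MP_9e8697_nt.Mg.G002
import Pool.Agent.Lib.MP_9e8697_nt.Mg.G001
import Pool.Agent.Lib.MP_9e8697_nt.Mg.G010

section

/-!
# The kernel check on packed lanes
-/

open Function

namespace Pool.Agent.MP_9e8697_nt

/-- `J` steps of `T` on all lanes: `X` the values, `P` their parities, `F` the flags (bit 79: never
below the start), `C` the numbers of local minima. -/
def go (one mask b1 hm kf J : ℕ) : ℕ → ℕ → ℕ → ℕ → Bool :=
  Nat.rec (motive := fun _ => ℕ → ℕ → ℕ → ℕ → Bool)
    (fun _ _ F C => Nat.beq (Nat.land F (Nat.add C kf)) F)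
    (fun _ ih X P F C =>
      (fun X' => (fun P' => ih X' P' (Nat.land (Nat.add X' hm) F)
          (Nat.add C (Nat.sub P (Nat.land P P')))) (Nat.land X' one))
        (Nat.div (Nat.land (Nat.add (Nat.mul (nat_lit 3) (Nat.sub (Nat.mul (nat_lit 2) X)
          (Nat.land X (Nat.mul P b1)))) P) mask) (nat_lit 4))) J

/-- Check all `a + s i`, `i < n`. -/
def simd (n J a s : ℕ) : Bool :=
  (fun b1 => (fun one => (fun X =>
    go one (Nat.mul (Nat.sub (Nat.pow (nat_lit 2) (nat_lit 80)) (nat_lit 4)) one) b1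
      (Nat.sub (Nat.mul (Nat.pow (nat_lit 2) (nat_lit 79)) one) X)
      (Nat.mul (Nat.sub (Nat.pow (nat_lit 2) (nat_lit 79)) (nat_lit 13)) one) J X (Nat.land X one)
      (Nat.mul (Nat.pow (nat_lit 2) (nat_lit 79)) one) (nat_lit 0))
    (Nat.add (Nat.mul a one) (Nat.mul s (Nat.div (Nat.sub
      (Nat.mul n (Nat.pow (nat_lit 2) (Nat.mul (nat_lit 80) n)))
      (Nat.mul (Nat.pow (nat_lit 2) (nat_lit 80)) one)) b1))))
    (Nat.div (Nat.sub (Nat.pow (nat_lit 2) (Nat.mul (nat_lit 80) n)) (nat_lit 1)) b1))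
    (Nat.sub (Nat.pow (nat_lit 2) (nat_lit 80)) (nat_lit 1))

theorem cnt_front (x J : ℕ) : cnt x (J + 1) =
    (if x % 2 = 1 ∧ T x % 2 = 0 then 1 else 0) + cnt (T x) J := by
  induction J with
  | zero =>
    unfold cnt
    rw [Finset.range_one, Finset.range_zero, Finset.filter_empty, Finset.card_empty,
      Finset.filter_singleton, add_zero]
    simp only [zero_add, iterate_zero, id, iterate_one]
    split_ifs <;> rfl
  | succ J ih =>
    have h : ∀ y t, cnt y (t + 1) =
        cnt y t + if T^[t] y % 2 = 1 ∧ T^[t + 1] y % 2 = 0 then 1 else 0 := by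
      intro y t
      unfold cnt
      rw [Finset.range_add_one, Finset.filter_insert]
      split_ifs with h
      · rw [Finset.card_insert_of_notMem (by simp)]
      · rfl
    rw [h x (J + 1), ih, h (T x) J, add_assoc]
    rfl

theorem two_T_le (x : ℕ) : 2 * T x ≤ 3 * x := by
  have h0 : x % 4 = 0 ∨ x % 4 = 1 ∨ x % 4 = 2 ∨ x % 4 = 3 := by omega
  rcases h0 with h0 | h0 | h0 | h0
  · have := two_mul_T (x := x) (by omega); omega
  · have := four_mul_T_of_one h0; omega
  · have := two_mul_T (x := x) (by omega); omega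
  · have := four_mul_T_of_three h0; omega

/-- one lane of the step -/
theorem lane_step {x : ℕ} (hx : x ≤ 2 ^ 73) :
    ((3 * (2 * x - (x &&& (x % 2 * (2 ^ 80 - 1)))) + x % 2) &&& (2 ^ 80 - 4)) / 4 = T x ∧
    3 * (2 * x - (x &&& (x % 2 * (2 ^ 80 - 1)))) + x % 2 < 2 ^ 80 ∧
    (x &&& (x % 2 * (2 ^ 80 - 1))) ≤ x := by
  have h0 : x % 4 = 0 ∨ x % 4 = 1 ∨ x % 4 = 2 ∨ x % 4 = 3 := by omega
  rcases h0 with h0 | h0 | h0 | h0
  · have h1 : x % 2 = 0 := by omega
    have h2 := two_mul_T h1
    rw [h1, zero_mul, Nat.and_zero, land_mask (by omega)]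
    omega
  · have h1 : x % 2 = 1 := by omega
    have h2 := four_mul_T_of_one h0
    rw [h1, one_mul, land_full (by omega), land_mask (by omega)]
    omega
  · have h1 : x % 2 = 0 := by omega
    have h2 := two_mul_T h1
    rw [h1, zero_mul, Nat.and_zero, land_mask (by omega)]
    omega
  · have h1 : x % 2 = 1 := by omega
    have h2 := four_mul_T_of_three h0
    rw [h1, one_mul, land_full (by omega), land_mask (by omega)]
    omega

theorem pk_step {n : ℕ} {x : ℕ → ℕ} (hx : ∀ i < n, x i ≤ 2 ^ 73) :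
    ((3 * (2 * pk x n - (pk x n &&& (pk (fun i => x i % 2) n * (2 ^ 80 - 1)))) +
      pk (fun i => x i % 2) n) &&& pk (fun _ => 2 ^ 80 - 4) n) / 4 = pk (fun i => T (x i)) n := by
  have h1 : pk (fun i => x i % 2) n * (2 ^ 80 - 1) = pk (fun i => x i % 2 * (2 ^ 80 - 1)) n := by
    rw [mul_comm, pk_mul]
    exact pk_congr fun i _ => mul_comm _ _
  have hm : ∀ i, x i % 2 * (2 ^ 80 - 1) < 2 ^ 80 := by
    intro i
    have h0 : x i % 2 = 0 ∨ x i % 2 = 1 := by omega
    rcases h0 with h0 | h0 <;> rw [h0] <;> norm_num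
  rw [h1, pk_land (fun i hi => by have := hx i hi; omega) (fun i _ => hm i), pk_mul,
    pk_sub (fun i hi => by have := (lane_step (hx i hi)).2.2; omega), pk_mul, pk_add,
    pk_land (fun i hi => (lane_step (hx i hi)).2.1) (fun i _ => by norm_num), pk_div_four]
  · exact pk_congr fun i hi => (lane_step (hx i hi)).1
  · intro i hi
    rw [land_mask (lane_step (hx i hi)).2.1]
    omega

theorem go_sound {n : ℕ} {m : ℕ → ℕ} (hm : ∀ i < n, m i ≤ 2 ^ 73) (J : ℕ) :
    ∀ x F C : ℕ → ℕ, (∀ i < n, x i * 3 ^ J ≤ 2 ^ J * 2 ^ 73) →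
    (∀ i < n, F i = 0 ∨ F i = 2 ^ 79) → (∀ i < n, C i + J ≤ 2 ^ 73) →
    go (pk (fun _ => 1) n) (pk (fun _ => 2 ^ 80 - 4) n) (2 ^ 80 - 1)
      (pk (fun i => 2 ^ 79 - m i) n) (pk (fun _ => 2 ^ 79 - 13) n) J
      (pk x n) (pk (fun i => x i % 2) n) (pk F n) (pk C n) = true →
    ∀ i < n, F i = 2 ^ 79 → (∀ t, t ≤ J → m i ≤ T^[t] (x i)) → 13 ≤ C i + cnt (x i) J := by
  induction J with
  | zero =>
    intro x F C hx hF hC h i hi hFi _
    have h1 : Nat.beq (pk F n &&& (pk C n + pk (fun _ => 2 ^ 79 - 13) n)) (pk F n) = true := h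
    have h2 := Nat.eq_of_beq_eq_true h1
    rw [pk_add, pk_land (fun i hi => by rcases hF i hi with h | h <;> rw [h] <;> norm_num)
      (fun i hi => by have := hC i hi; omega)] at h2
    have h3 := pk_inj (fun i hi => by
      refine lt_of_le_of_lt Nat.and_le_left ?_
      rcases hF i hi with h | h <;> rw [h] <;> norm_num)
      (fun i hi => by rcases hF i hi with h | h <;> rw [h] <;> norm_num) h2 i hi
    rw [hFi] at h3
    by_contra hcon
    have h4 : cnt (x i) 0 = 0 := rfl
    rw [Nat.and_comm, land_low (by omega)] at h3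
    omega
  | succ J ih =>
    intro x F C hx hF hC h i hi hFi hmin
    have hx' : ∀ i < n, x i ≤ 2 ^ 73 := by
      intro i hi
      have h1 := hx i hi
      have h2 : 2 ^ (J + 1) * 2 ^ 73 ≤ 3 ^ (J + 1) * 2 ^ 73 :=
        Nat.mul_le_mul_right _ (Nat.pow_le_pow_left (by norm_num) _)
      have h3 : x i * 3 ^ (J + 1) ≤ 2 ^ 73 * 3 ^ (J + 1) := by linarith
      exact Nat.le_of_mul_le_mul_right h3 (by positivity)
    have hTx : ∀ i < n, T (x i) * 3 ^ J ≤ 2 ^ J * 2 ^ 73 := by
      intro i hi
      have h1 := hx i hi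
      have h2 := Nat.mul_le_mul_right (3 ^ J) (two_T_le (x i))
      rw [pow_succ, pow_succ] at h1
      nlinarith
    have hTx' : ∀ i < n, T (x i) ≤ 2 ^ 74 := by
      intro i hi
      have h1 := hx' i hi
      have h2 := two_T_le (x i)
      omega
    have h1 : go (pk (fun _ => 1) n) (pk (fun _ => 2 ^ 80 - 4) n) (2 ^ 80 - 1)
      (pk (fun i => 2 ^ 79 - m i) n) (pk (fun _ => 2 ^ 79 - 13) n) J
      (((3 * (2 * pk x n - (pk x n &&& (pk (fun i => x i % 2) n * (2 ^ 80 - 1)))) +
      pk (fun i => x i % 2) n) &&& pk (fun _ => 2 ^ 80 - 4) n) / 4)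
      ((((3 * (2 * pk x n - (pk x n &&& (pk (fun i => x i % 2) n * (2 ^ 80 - 1)))) +
      pk (fun i => x i % 2) n) &&& pk (fun _ => 2 ^ 80 - 4) n) / 4) &&& pk (fun _ => 1) n)
      ((((3 * (2 * pk x n - (pk x n &&& (pk (fun i => x i % 2) n * (2 ^ 80 - 1)))) +
      pk (fun i => x i % 2) n) &&& pk (fun _ => 2 ^ 80 - 4) n) / 4 +
        pk (fun i => 2 ^ 79 - m i) n) &&& pk F n)
      (pk C n + (pk (fun i => x i % 2) n - (pk (fun i => x i % 2) n &&&
      ((((3 * (2 * pk x n - (pk x n &&& (pk (fun i => x i % 2) n * (2 ^ 80 - 1)))) +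
      pk (fun i => x i % 2) n) &&& pk (fun _ => 2 ^ 80 - 4) n) / 4) &&& pk (fun _ => 1) n)))) =
        true := h
    rw [pk_step hx'] at h1
    have hP : pk (fun i => T (x i)) n &&& pk (fun _ => 1) n = pk (fun i => T (x i) % 2) n := by
      rw [pk_land (fun i hi => by have := hTx' i hi; omega) (fun i _ => by norm_num)]
      exact pk_congr fun i _ => land_one_eq _
    rw [hP] at h1
    have hmod : ∀ z : ℕ, z % 2 < 2 ^ 80 := fun z => by omega
    have hC1 : ∀ i, (x i % 2) &&& (T (x i) % 2) ≤ x i % 2 := fun i => Nat.and_le_left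
    rw [pk_land (fun i _ => hmod _) (fun i _ => hmod _), pk_sub (fun i _ => hC1 i), pk_add,
      pk_add] at h1
    have hFlt : ∀ i < n, F i < 2 ^ 80 := fun i hi => by
      rcases hF i hi with h | h <;> rw [h] <;> norm_num
    rw [pk_land (fun i hi => by have := hTx' i hi; have := hm i hi; omega) hFlt] at h1
    have hc : ∀ i, C i + (x i % 2 - ((x i % 2) &&& (T (x i) % 2))) =
        C i + (if x i % 2 = 1 ∧ T (x i) % 2 = 0 then 1 else 0) := by
      intro i
      have ha : x i % 2 = 0 ∨ x i % 2 = 1 := by omega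
      have hb : T (x i) % 2 = 0 ∨ T (x i) % 2 = 1 := by omega
      rcases ha with ha | ha <;> rcases hb with hb | hb <;> rw [ha, hb] <;> rfl
    have h2 := ih (fun i => T (x i)) (fun i => (T (x i) + (2 ^ 79 - m i)) &&& F i)
      (fun i => C i + (x i % 2 - ((x i % 2) &&& (T (x i) % 2)))) hTx
      (fun i hi => by
        rcases hF i hi with h | h
        · left
          rw [h, Nat.and_zero]
        · rw [h]
          have h5 := hTx' i hi
          have h6 := hm i hi
          rcases Nat.lt_or_ge (T (x i) + (2 ^ 79 - m i)) (2 ^ 79) with h7 | h7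
          · left
            exact land_low h7
          · right
            exact land_high h7 (by omega))
      (fun i hi => by
        have h5 := hC i hi
        rw [hc i]
        split_ifs <;> omega)
      h1 i hi
      (by
        have h5 := hTx' i hi
        have h6 := hm i hi
        have h7 := hmin 1 (by omega)
        rw [iterate_one] at h7
        rw [hFi]
        exact land_high (by omega) (by omega))
      (fun t ht => by
        have h7 := hmin (t + 1) (by omega)
        rw [iterate_succ_apply] at h7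
        exact h7)
    rw [hc i] at h2
    rw [cnt_front]
    omega

/-- Soundness of the packed check. -/
theorem simd_sound {n J a s : ℕ} (h : simd n J a s = true)
    (hb : (a + s * n) * 3 ^ J ≤ 2 ^ J * 2 ^ 73) (hJ : J ≤ 2 ^ 73) {i : ℕ} (hi : i < n)
    (hmin : ∀ t, a + s * i ≤ T^[t] (a + s * i)) : 13 ≤ cnt (a + s * i) J := by
  have hb1 : 0 < 2 ^ 80 - 1 := by norm_num
  have h1 : (2 ^ (80 * n) - 1) / (2 ^ 80 - 1) = pk (fun _ => 1) n := by
    rw [← pk_one, Nat.mul_div_cancel_left _ hb1]
  have h2 : (n * 2 ^ (80 * n) - 2 ^ 80 * pk (fun _ => 1) n) / (2 ^ 80 - 1) = pk (fun i => i) n := by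
    rw [← pk_id, Nat.mul_div_cancel_left _ hb1]
  have hX : a * pk (fun _ => 1) n + s * pk (fun i => i) n = pk (fun i => a + s * i) n := by
    rw [pk_mul, pk_mul, pk_add]
    exact pk_congr fun i _ => by ring
  have hle : ∀ i < n, a + s * i ≤ 2 ^ 73 := by
    intro i hi
    have h3 : a + s * i ≤ a + s * n := Nat.add_le_add_left (Nat.mul_le_mul_left _ hi.le) _
    have h4 : (2 : ℕ) ^ J * 2 ^ 73 ≤ 3 ^ J * 2 ^ 73 :=
      Nat.mul_le_mul_right _ (Nat.pow_le_pow_left (by norm_num) _)
    have h5 : (a + s * i) * 3 ^ J ≤ (a + s * n) * 3 ^ J := Nat.mul_le_mul_right _ h3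
    have h6 : (a + s * i) * 3 ^ J ≤ 2 ^ 73 * 3 ^ J := by linarith
    exact Nat.le_of_mul_le_mul_right h6 (by positivity)
  have h3 : go ((2 ^ (80 * n) - 1) / (2 ^ 80 - 1)) ((2 ^ 80 - 4) * ((2 ^ (80 * n) - 1) / (2 ^ 80 - 1)))
      (2 ^ 80 - 1) (2 ^ 79 * ((2 ^ (80 * n) - 1) / (2 ^ 80 - 1)) -
        (a * ((2 ^ (80 * n) - 1) / (2 ^ 80 - 1)) + s * ((n * 2 ^ (80 * n) - 2 ^ 80 *
          ((2 ^ (80 * n) - 1) / (2 ^ 80 - 1))) / (2 ^ 80 - 1))))
      ((2 ^ 79 - 13) * ((2 ^ (80 * n) - 1) / (2 ^ 80 - 1))) J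
      (a * ((2 ^ (80 * n) - 1) / (2 ^ 80 - 1)) + s * ((n * 2 ^ (80 * n) - 2 ^ 80 *
          ((2 ^ (80 * n) - 1) / (2 ^ 80 - 1))) / (2 ^ 80 - 1)))
      ((a * ((2 ^ (80 * n) - 1) / (2 ^ 80 - 1)) + s * ((n * 2 ^ (80 * n) - 2 ^ 80 *
          ((2 ^ (80 * n) - 1) / (2 ^ 80 - 1))) / (2 ^ 80 - 1))) &&&
            ((2 ^ (80 * n) - 1) / (2 ^ 80 - 1)))
      (2 ^ 79 * ((2 ^ (80 * n) - 1) / (2 ^ 80 - 1))) 0 = true := h
  rw [h1, h2, hX] at h3
  have h4 : (2 ^ 80 - 4) * pk (fun _ => 1) n = pk (fun _ => 2 ^ 80 - 4) n := by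
    rw [pk_mul]
    exact pk_congr fun _ _ => mul_one _
  have h5 : (2 ^ 79 - 13) * pk (fun _ => 1) n = pk (fun _ => 2 ^ 79 - 13) n := by
    rw [pk_mul]
    exact pk_congr fun _ _ => mul_one _
  have h6 : 2 ^ 79 * pk (fun _ => 1) n = pk (fun _ => 2 ^ 79) n := by
    rw [pk_mul]
    exact pk_congr fun _ _ => mul_one _
  have h7 : pk (fun i => a + s * i) n &&& pk (fun _ => 1) n = pk (fun i => (a + s * i) % 2) n := by
    rw [pk_land (fun i hi => by have := hle i hi; omega) (fun i _ => by norm_num)]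
    exact pk_congr fun i _ => land_one_eq _
  have h8 : 0 = pk (fun _ => 0) n := by
    have := pk_mul 0 (fun _ => 0) n
    rw [zero_mul] at this
    exact this
  rw [h4, h5, h6, h7, pk_sub (fun i hi => by have := hle i hi; omega)] at h3
  have h9 : go (pk (fun _ => 1) n) (pk (fun _ => 2 ^ 80 - 4) n) (2 ^ 80 - 1)
      (pk (fun i => 2 ^ 79 - (a + s * i)) n) (pk (fun _ => 2 ^ 79 - 13) n) J
      (pk (fun i => a + s * i) n) (pk (fun i => (a + s * i) % 2) n) (pk (fun _ => 2 ^ 79) n)
      (pk (fun _ => 0) n) = true := by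
    rw [← h8]
    exact h3
  have h10 := go_sound hle J (fun i => a + s * i) (fun _ => 2 ^ 79) (fun _ => 0)
    (fun i hi => by
      have h3 : a + s * i ≤ a + s * n := Nat.add_le_add_left (Nat.mul_le_mul_left _ hi.le) _
      exact (Nat.mul_le_mul_right _ h3).trans hb)
    (fun i _ => Or.inr rfl) (fun i _ => by simpa using hJ) h9 i hi rfl (fun t _ => hmin t)
  simpa using h10

end Pool.Agent.MP_9e8697_nt
end

section

/-!
# The kernel checks on packed lanes
-/

namespace Pool.Agent.MP_9e8697_nt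

theorem sm_0 : simd 2048 86 6002 2 = true := by decide +kernel
theorem sm_1 : simd 2048 86 10098 2 = true := by decide +kernel
theorem sm_2 : simd 2048 86 14194 2 = true := by decide +kernel
theorem sm_3 : simd 2048 86 18290 2 = true := by decide +kernel
theorem sm_4 : simd 2048 86 22386 2 = true := by decide +kernel
theorem sm_5 : simd 2048 86 26482 2 = true := by decide +kernel
theorem sm_6 : simd 2048 86 30578 2 = true := by decide +kernel
theorem sm_7 : simd 2048 86 34674 2 = true := by decide +kernel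
theorem sm_8 : simd 2048 86 38770 2 = true := by decide +kernel
theorem sm_9 : simd 2048 86 42866 2 = true := by decide +kernel
theorem sm_10 : simd 2048 86 46962 2 = true := by decide +kernel
theorem sm_11 : simd 2048 86 51058 2 = true := by decide +kernel
theorem sm_12 : simd 2048 86 55154 2 = true := by decide +kernel
theorem sm_13 : simd 2048 86 59250 2 = true := by decide +kernel
theorem sm_14 : simd 2048 86 63346 2 = true := by decide +kernel
theorem sm_15 : simd 2048 86 67442 2 = true := by decide +kernel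
theorem sm_16 : simd 2048 86 71538 2 = true := by decide +kernel
theorem sm_17 : simd 2048 86 75634 2 = true := by decide +kernel
theorem sm_18 : simd 2048 86 79730 2 = true := by decide +kernel
theorem sm_19 : simd 2048 86 83826 2 = true := by decide +kernel
theorem sm_20 : simd 2048 86 87922 2 = true := by decide +kernel
theorem sm_21 : simd 2048 86 92018 2 = true := by decide +kernel
theorem sm_22 : simd 2048 86 96114 2 = true := by decide +kernel
theorem sm_23 : simd 2048 86 100210 2 = true := by decide +kernel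
theorem sm_24 : simd 2048 86 104306 2 = true := by decide +kernel
theorem sm_25 : simd 2048 86 108402 2 = true := by decide +kernel
theorem sm_26 : simd 2048 86 112498 2 = true := by decide +kernel
theorem sm_27 : simd 2048 86 116594 2 = true := by decide +kernel
theorem sm_28 : simd 2048 86 120690 2 = true := by decide +kernel
theorem sm_29 : simd 2048 86 124786 2 = true := by decide +kernel
theorem sm_30 : simd 2048 86 128882 2 = true := by decide +kernel
theorem sm_31 : simd 2048 86 132978 2 = true := by decide +kernel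
theorem sm_32 : simd 2048 86 137074 2 = true := by decide +kernel
theorem sm_33 : simd 2048 86 141170 2 = true := by decide +kernel
theorem sm_34 : simd 2048 86 145266 2 = true := by decide +kernel
theorem sm_35 : simd 2048 86 149362 2 = true := by decide +kernel
theorem sm_36 : simd 2048 86 153458 2 = true := by decide +kernel
theorem sm_37 : simd 2048 86 157554 2 = true := by decide +kernel
theorem sm_38 : simd 2048 86 161650 2 = true := by decide +kernel
theorem sm_39 : simd 2048 86 165746 2 = true := by decide +kernel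
theorem sm_40 : simd 2048 86 169842 2 = true := by decide +kernel
theorem sm_41 : simd 2048 86 173938 2 = true := by decide +kernel
theorem sm_42 : simd 2048 86 178034 2 = true := by decide +kernel
theorem sm_43 : simd 2048 86 182130 2 = true := by decide +kernel
theorem sm_44 : simd 2048 86 186226 2 = true := by decide +kernel
theorem sm_45 : simd 2048 86 190322 2 = true := by decide +kernel
theorem sm_46 : simd 2048 86 194418 2 = true := by decide +kernel
theorem sm_47 : simd 2048 86 198514 2 = true := by decide +kernel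
theorem sm_48 : simd 2048 86 202610 2 = true := by decide +kernel
theorem sm_49 : simd 2048 86 206706 2 = true := by decide +kernel
theorem sm_50 : simd 2048 86 210802 2 = true := by decide +kernel
theorem sm_51 : simd 2048 86 214898 2 = true := by decide +kernel
theorem sm_52 : simd 2048 86 218994 2 = true := by decide +kernel
theorem sm_53 : simd 2048 86 223090 2 = true := by decide +kernel
theorem sm_54 : simd 2048 86 227186 2 = true := by decide +kernel
theorem sm_55 : simd 2048 86 231282 2 = true := by decide +kernel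
theorem sm_56 : simd 2048 86 235378 2 = true := by decide +kernel
theorem sm_57 : simd 2048 86 239474 2 = true := by decide +kernel
theorem sm_58 : simd 2048 86 243570 2 = true := by decide +kernel
theorem sm_59 : simd 2048 86 247666 2 = true := by decide +kernel
theorem sm_60 : simd 2048 86 251762 2 = true := by decide +kernel
theorem sm_61 : simd 2048 86 255858 2 = true := by decide +kernel
theorem sm_62 : simd 2048 86 259954 2 = true := by decide +kernel
theorem sm_63 : simd 2048 86 264050 2 = true := by decide +kernel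
theorem sm_64 : simd 2048 86 268146 2 = true := by decide +kernel
theorem sm_65 : simd 2048 86 272242 2 = true := by decide +kernel
theorem sm_66 : simd 2048 86 276338 2 = true := by decide +kernel
theorem sm_mul0 : simd 1024 86 274944 256 = true := by decide +kernel
theorem sm_mul1 : simd 1024 86 537088 256 = true := by decide +kernel

end Pool.Agent.MP_9e8697_nt
end

section

/-!
# Local minima: the length
-/

open Function

namespace Pool.Agent.MP_9e8697_nt

/-- Proof: let `p` be the period, `K = p - odds x p` the number of even elements. By `evens_eq`,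
`sum_val_le`: `K log 2 ≤ v_2 x log 2 + (∑ θ^j) h0 x`. And
`Lam p (odds x p) = K log (3/2) - o log (4/3)`, so
`p log (4/3) = K log (4/3) + o log (4/3) = K log 2 - Lam ≤ K log 2 + |Lam|`; now
`abs_Lam_le_minima`. -/
theorem length_le_first {x : ℕ} (hx : 2 ≤ x) (hp : 0 < minimalPeriod T x)
    (hmin : ∀ k, x ≤ T^[k] x) :
    (minimalPeriod T x : ℝ) * Real.log (4 / 3) ≤
      padicValNat 2 x * Real.log 2 +
        (∑ j ∈ Finset.range (minima x - 1), (Real.log 3 / Real.log 2) ^ j) * h0 x +
        minima x / ((x : ℝ) - 1) := by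
  have h1 := evens_eq (x := x) (p := minimalPeriod T x) (by omega) (iterate_minimalPeriod)
  have h2 := sum_val_le hx hp hmin
  have h3 := abs_Lam_le_minima hx hp hmin
  have h4 := neg_abs_le (Lam (minimalPeriod T x) (odds x (minimalPeriod T x)))
  have h5 : ((minimalPeriod T x : ℕ) : ℝ) = (odds x (minimalPeriod T x) : ℝ) +
      ∑ i ∈ (Finset.range (minimalPeriod T x)).filter
      (fun i => T^[i] x % 2 = 1 ∧ T^[i + 1] x % 2 = 0), (padicValNat 2 (T^[i + 1] x) : ℝ) := by
    exact_mod_cast h1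
  have h6 : Real.log (4 / 3) = 2 * Real.log 2 - Real.log 3 := by
    rw [show (4 : ℝ) / 3 = 2 ^ 2 / 3 by norm_num, Real.log_div (by norm_num) (by norm_num),
      Real.log_pow]
    norm_num
  have h7 : (minimalPeriod T x : ℝ) * Real.log (4 / 3) =
      (∑ i ∈ (Finset.range (minimalPeriod T x)).filter
      (fun i => T^[i] x % 2 = 1 ∧ T^[i + 1] x % 2 = 0), (padicValNat 2 (T^[i + 1] x) : ℝ)) *
        Real.log 2 - Lam (minimalPeriod T x) (odds x (minimalPeriod T x)) := by
    rw [h6]
    unfold Lam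
    generalize (∑ i ∈ (Finset.range (minimalPeriod T x)).filter
      (fun i => T^[i] x % 2 = 1 ∧ T^[i + 1] x % 2 = 0), (padicValNat 2 (T^[i + 1] x) : ℝ)) = K at *
    have : K = (minimalPeriod T x : ℝ) - (odds x (minimalPeriod T x) : ℝ) := by linarith
    rw [this]
    ring
  rw [h7]
  linarith

/-- Proof: `length_le_first` with `v_2 x log 2 ≤ log x` (`val_mul_log_le`), `h0 x ≤ θ log x` (`h_le`), and
`1 ≤ minima x` (`last_step`, `minima_eq`): `1 + ∑_{j < M-1} θ^(j+1) = ∑_{j < M} θ^j`. -/
theorem length_le {x : ℕ} (hx : 2 ≤ x) (hp : 0 < minimalPeriod T x) (hmin : ∀ k, x ≤ T^[k] x) :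
    (minimalPeriod T x : ℝ) * Real.log (4 / 3) ≤
      (∑ j ∈ Finset.range (minima x), (Real.log 3 / Real.log 2) ^ j) * Real.log x +
        minima x / ((x : ℝ) - 1) := by
  have h1 := length_le_first hx hp hmin
  have h2 := val_mul_log_le (m := x) (by omega)
  have h3 : h0 x ≤ (Real.log 3 / Real.log 2) * Real.log x := h_le (v := x) (by omega)
  have hM : 1 ≤ minima x := by
    rw [minima_eq hx, (last_step hx hp hmin).2.2]
    omega
  obtain ⟨M, hM'⟩ : ∃ M, minima x = M + 1 := ⟨minima x - 1, by omega⟩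
  rw [hM'] at h1 ⊢
  rw [Nat.add_sub_cancel] at h1
  rw [Finset.sum_range_succ']
  have hθ : 0 ≤ Real.log 3 / Real.log 2 :=
    div_nonneg (Real.log_nonneg (by norm_num)) (Real.log_nonneg (by norm_num))
  have hS : 0 ≤ ∑ j ∈ Finset.range M, (Real.log 3 / Real.log 2) ^ j :=
    Finset.sum_nonneg fun j _ => pow_nonneg hθ j
  have h4 := mul_le_mul_of_nonneg_left h3 hS
  have h5 : ∑ j ∈ Finset.range M, (Real.log 3 / Real.log 2) ^ (j + 1) =
      (∑ j ∈ Finset.range M, (Real.log 3 / Real.log 2) ^ j) * (Real.log 3 / Real.log 2) := by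
    rw [Finset.sum_mul]
    exact Finset.sum_congr rfl fun j _ => pow_succ _ _
  rw [h5, pow_zero]
  nlinarith

end Pool.Agent.MP_9e8697_nt
end

section

/-!
# The smallest element
-/

open Function

namespace Pool.Agent.MP_9e8697_nt

/-- Every cycle has a smallest element. Proof: the finite set of the `T^[i] x`, `i < p`. -/
theorem exists_min {x : ℕ} (hx : 0 < x) (hp : 0 < minimalPeriod T x) :
    ∃ k, ∀ j, T^[k] x ≤ T^[j] (T^[k] x) := by
  classical
  have hex : ∃ m, ∃ k, T^[k] x = m := ⟨_, 0, rfl⟩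
  obtain ⟨k, hk⟩ := Nat.find_spec hex
  refine ⟨k, fun j => ?_⟩
  rw [← Function.iterate_add_apply, hk]
  exact Nat.find_min' hex ⟨j + k, rfl⟩

/-- The smallest element is bounded. Proof: `|Lam| ≥ 1 / 10^27 / p^31` by `measure` with `b = p + o`,
and `|Lam| ≤ M / (x - 1)` (`abs_Lam_le_minima`). -/
theorem min_le {x : ℕ} (hx : 2 ≤ x) (hp : 0 < minimalPeriod T x) (hmin : ∀ k, x ≤ T^[k] x) :
    (x : ℝ) - 1 ≤ minima x * 10 ^ 27 * (minimalPeriod T x : ℝ) ^ 31 := by
  obtain ⟨p, hpp⟩ : ∃ p, p = minimalPeriod T x := ⟨_, rfl⟩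
  obtain ⟨o, ho⟩ : ∃ o, o = odds x (minimalPeriod T x) := ⟨_, rfl⟩
  have h1 := abs_Lam_le_minima hx hp hmin
  rw [← ho, ← hpp] at h1
  rw [← hpp] at hp ⊢
  have h2 := measure p (p + o) hp
  have h3 : |(p : ℝ) * Real.log 3 - ((p + o : ℕ) : ℝ) * Real.log 2| = |Lam p o| := by
    unfold Lam
    push_cast
    rfl
  rw [h3] at h2
  have h4 := h2.trans h1
  have hp1 : (1 : ℝ) ≤ p := by exact_mod_cast hp
  have hx1 : (0 : ℝ) < (x : ℝ) - 1 := by
    have : (2 : ℝ) ≤ x := by exact_mod_cast hx
    linarith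
  have hP : (0 : ℝ) < (p : ℝ) ^ 31 := by positivity
  rw [div_div, div_le_div_iff₀ (by positivity) hx1] at h4
  linarith

end Pool.Agent.MP_9e8697_nt
end

section

/-!
# At most 12 local minima: the smallest element is small
-/

open Function

namespace Pool.Agent.MP_9e8697_nt

private theorem ST_x1 {x : ℕ} (hx : 2 ≤ x) : (1 : ℝ) ≤ (x : ℝ) - 1 := by
  have : (2 : ℝ) ≤ x := by exact_mod_cast hx
  linarith

private theorem ST_last {x : ℕ} (hx : 2 ≤ x) (hM : minima x ≤ 12) :
    (minima x : ℝ) / ((x : ℝ) - 1) ≤ 12 := by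
  have h1 := ST_x1 hx
  have h2 : (minima x : ℝ) ≤ 12 := by exact_mod_cast hM
  rw [div_le_iff₀ (by linarith)]
  nlinarith

private theorem ST_len {x : ℕ} (hx : 2 ≤ x) (hp : 0 < minimalPeriod T x) (hmin : ∀ k, x ≤ T^[k] x)
    (hM : minima x ≤ 12) :
    (minimalPeriod T x : ℝ) * Real.log (4 / 3) ≤ 428 * Real.log x + 12 := by
  have h1 := length_le hx hp hmin
  have h2 := sum_theta_le hM
  have h3 : 0 ≤ Real.log x := Real.log_nonneg (by linarith [ST_x1 hx])
  have h4 := mul_le_mul_of_nonneg_right h2 h3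
  have h5 := ST_last hx hM
  linarith

private theorem ST_low {x : ℕ} (hx : 2 ≤ x) (hp : 0 < minimalPeriod T x) (hmin : ∀ k, x ≤ T^[k] x)
    (hM : minima x ≤ 12) {c : ℝ} (hc : 0 < c)
    (hlow : c ≤ |(minimalPeriod T x : ℝ) * Real.log 3 -
      ((minimalPeriod T x + odds x (minimalPeriod T x) : ℕ) : ℝ) * Real.log 2|) :
    (x : ℝ) - 1 ≤ 12 / c := by
  have h1 := abs_Lam_le_minima hx hp hmin
  have h3 : |(minimalPeriod T x : ℝ) * Real.log 3 -
      ((minimalPeriod T x + odds x (minimalPeriod T x) : ℕ) : ℝ) * Real.log 2| =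
      |Lam (minimalPeriod T x) (odds x (minimalPeriod T x))| := by
    unfold Lam
    push_cast
    rfl
  rw [h3] at hlow
  have h4 := hlow.trans h1
  have h5 := ST_x1 hx
  have h6 : (minima x : ℝ) ≤ 12 := by exact_mod_cast hM
  rw [le_div_iff₀ (by linarith)] at h4
  rw [le_div_iff₀ hc]
  linarith

/-- Proof: `length_le`, `sum_theta_le`, `min_le`, `num_one`. -/
theorem stage_one {x : ℕ} (hx : 2 ≤ x) (hp : 0 < minimalPeriod T x) (hmin : ∀ k, x ≤ T^[k] x)
    (hM : minima x ≤ 12) : minimalPeriod T x < 873350 := by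
  refine num_one hp hx (ST_len hx hp hmin hM) ?_
  have h1 := min_le hx hp hmin
  have h2 : (minima x : ℝ) ≤ 12 := by exact_mod_cast hM
  refine h1.trans ?_
  have h3 : (0 : ℝ) ≤ 10 ^ 27 * (minimalPeriod T x : ℝ) ^ 31 := by positivity
  have h4 := mul_le_mul_of_nonneg_right h2 h3
  rw [mul_assoc, mul_assoc]
  exact h4

/-- Proof: `low_a` and `abs_Lam_le_minima`: `x - 1 ≤ 12 / (63 / 10^9)`; `length_le`, `num_two`. -/
theorem stage_two {x : ℕ} (hx : 2 ≤ x) (hp : 0 < minimalPeriod T x) (hmin : ∀ k, x ≤ T^[k] x)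
    (hM : minima x ≤ 12) : minimalPeriod T x < 31867 := by
  exact num_two hx (ST_len hx hp hmin hM)
    (ST_low hx hp hmin hM (by norm_num) (low_a hp (stage_one hx hp hmin hM)))

/-- Proof: `low_b` and `abs_Lam_le_minima`: `x - 1 ≤ 12 / (1818 / 10^8) < 660067`. -/
theorem stage_three {x : ℕ} (hx : 2 ≤ x) (hp : 0 < minimalPeriod T x) (hmin : ∀ k, x ≤ T^[k] x)
    (hM : minima x ≤ 12) : x ≤ 660067 := by
  have h1 := ST_low hx hp hmin hM (by norm_num) (low_b hp (stage_two hx hp hmin hM)
    (B := minimalPeriod T x + odds x (minimalPeriod T x)))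
  have h2 : (12 : ℝ) / (1818 / 10 ^ 8) ≤ 660066 + 1 / 2 := by norm_num
  have h3 : (x : ℝ) < ((660068 : ℕ) : ℝ) := by
    push_cast
    linarith
  have h4 : x < 660068 := by exact_mod_cast h3
  omega

/-- Proof: if the period is `< 15601` then `low_c` and `abs_Lam_le_minima` give
`x - 1 ≤ 12 / (4365 / 10^8) < 278573`. Otherwise `length_le_first`, `sum_theta_le'` and `num_four` show
that `v_2 x ≥ 8` (`padicValNat_dvd_iff_le`), so `256 ∣ x`. -/
theorem stage_four {x : ℕ} (hx : 2 ≤ x) (hp : 0 < minimalPeriod T x) (hmin : ∀ k, x ≤ T^[k] x)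
    (hM : minima x ≤ 12) : x < 278574 ∨ x % 256 = 0 := by
  by_cases hper : minimalPeriod T x < 15601
  · left
    have h1 := ST_low hx hp hmin hM (by norm_num) (low_c hp hper
      (B := minimalPeriod T x + odds x (minimalPeriod T x)))
    have h2 : (12 : ℝ) / (4365 / 10 ^ 8) ≤ 274915 := by norm_num
    have h3 : (x : ℝ) < ((278574 : ℕ) : ℝ) := by
      push_cast
      linarith
    exact_mod_cast h3
  · right
    have hv : 8 ≤ padicValNat 2 x := by
      by_contra hcon
      apply hper
      refine num_four hx (stage_three hx hp hmin hM) (k := padicValNat 2 x) (by omega) ?_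
      have h1 := length_le_first hx hp hmin
      have h2 := sum_theta_le' (M := minima x - 1) (by omega)
      have h3 : 0 ≤ Real.log x + padicValNat 2 x * Real.log (3 / 2) :=
        add_nonneg (Real.log_nonneg (by linarith [ST_x1 hx]))
          (mul_nonneg (by positivity) (Real.log_nonneg (by norm_num)))
      have h4 := mul_le_mul_of_nonneg_right h2 h3
      have h5 := ST_last hx hM
      unfold h0 at h1
      linarith
    have h1 : 2 ^ 8 ∣ x := by
      rw [padicValNat_dvd_iff_le (by omega)]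
      exact hv
    exact Nat.mod_eq_zero_of_dvd h1

end Pool.Agent.MP_9e8697_nt
end
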