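import Pool.Agent.Lib.MP_81cdd9_nt.HZ.F3c
import Pool.Agent.Lib.MP_9e8697_nt.Mg.G004
import Pool.Agent.Lib.MP_9e8697_nt.Mg.G005

section

/-! The core theorem for one set of odd times. -/

set_option autoImplicit false

namespace Pool.Agent.MP9e8697.CW

open Finset

/-- the number of cells of a block -/
def N0 : ℕ := 19600

/-- the length of the windows -/
def rh : ℕ := 10 * (N0 + 2)

/-- the length of the window after the horizon -/
def JJ (b : ℕ) : ℕ := N0 * (20 * (rh ^ 2 * b))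

/-- Typical sets of odd times: almost no choice of signs is bad. -/
theorem typ_bad (b g L k : ℕ) (hb : 1 ≤ b) (z : ℤ)
    (hz : (2 : ℤ) ^ (L + JJ b) ∣ 3 * z - 1) (hg1 : 1 ≤ g)
    (hg : (1 - 4 / (4 * 3 ^ (2 * rh)) ^ 2 : ℝ) ^ g * 3 ^ (2 * rh) ≤ 1 / (N0 : ℝ))
    (hL : 60 ^ g * (6000 * (JJ b + rh ^ 2 * b + 1)) ≤ L + JJ b)
    (S : Finset ℕ) (hk : ee S k = L) (h1 : C1 S (rh ^ 2 * b) k) (h2 : C2 S rh (20 * (rh ^ 2 * b)) (40 * b) k)
    (W : Finset ℤ) (hW : W.card ≤ 2 ^ (JJ b - 70 * (20 * (rh ^ 2 * b)))) :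
    (((range k).powerset.filter
      (fun U => (NN z S U % 2 ^ (L + JJ b)) / 2 ^ L ∈ W)).card : ℝ) ^ 2 ≤
      4 ^ k * (256 * g * 3 ^ (2 * rh) / 2 ^ (11 * (20 * (rh ^ 2 * b)))) := by
  classical
  have hN1 : 120 ≤ N0 := by unfold N0; norm_num
  have hρdef : rh = 10 * (N0 + 2) := rfl
  have hρ1 : 1220 ≤ rh := by rw [hρdef]; omega
  have hmb : 1 ≤ rh ^ 2 * b := by
    have : 1 ≤ rh ^ 2 := Nat.one_le_pow _ _ (by omega)
    exact Nat.one_le_iff_ne_zero.2 (by positivity)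
  unfold JJ at *
  -- the number of void pairs
  have hV5 : 2 * ((N0 + 1) * (rh * (40 * b))) ≤ 20 * (rh ^ 2 * b) := by
    have h1 : 2 * ((N0 + 1) * (rh * (40 * b))) = 20 * (rh * b) * (4 * (N0 + 1)) := by ring
    have h2 : 20 * (rh ^ 2 * b) = 20 * (rh * b) * rh := by ring
    rw [h1, h2]
    exact Nat.mul_le_mul_left _ (by rw [hρdef]; omega)
  have hρm : 3 * rh + 15 ≤ rh ^ 2 * b := by
    have h1 : rh ^ 2 ≤ rh ^ 2 * b := Nat.le_mul_of_pos_right _ (by omega)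
    have h2 : 1220 * rh ≤ rh ^ 2 := by
      rw [pow_two]
      exact Nat.mul_le_mul_right _ hρ1
    omega
  have h2mp : ∀ s, s + N0 * (20 * (rh ^ 2 * b)) + 20 * (rh ^ 2 * b) ≤ k →
      vc (oo S s) rh (N0 * (20 * (rh ^ 2 * b))) ≤ (N0 + 1) * (rh * (40 * b)) :=
    fun s hs => block_vc S rh (rh ^ 2 * b) k (40 * b) N0 s (by omega) hmb h2 hs
  clear h2
  generalize hmg : rh ^ 2 * b = m at *
  generalize hVg : (N0 + 1) * (rh * (40 * b)) = V at *
  generalize hρg : rh = ρ at *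
  generalize hNg : N0 = N at *
  -- parameters
  have hl1 : 20 ≤ 20 * m := by omega
  have hBl : 120 * (20 * m) ≤ N * (20 * m) := Nat.mul_le_mul_right _ hN1
  have hJ3 : 3 ≤ N * (20 * m) := by omega
  have hj1 : 4 ≤ N * (20 * m) := by omega
  have hD : 2 ^ (N * (20 * m)) ≤ 3 ^ (N * (20 * m)) := Nat.pow_le_pow_left (by norm_num) _
  obtain ⟨s, hs1, hs2⟩ := good_blocks (L + N * (20 * m)) L (N * (20 * m)) 4
    (N * (20 * m)) m k S rfl rfl hk le_rfl hj1 hmb h1 g hL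
  -- the constants
  have hT0 : (2 : ℝ) ≤ 4 * 3 ^ (2 * ρ) := by
    have : (1 : ℝ) ≤ 3 ^ (2 * ρ) := one_le_pow₀ (by norm_num)
    linarith
  have h4 : (4 : ℝ) / (4 * 3 ^ (2 * ρ)) ^ 2 ≤ 1 := by
    rw [div_le_one (by positivity)]
    nlinarith
  have hlam0 : (0 : ℝ) ≤ (1 - 4 / (4 * 3 ^ (2 * ρ)) ^ 2) ^ g := by
    apply pow_nonneg
    linarith
  have hlam1 : ((1 : ℝ) - 4 / (4 * 3 ^ (2 * ρ)) ^ 2) ^ g ≤ 1 := by
    apply pow_le_one₀
    · linarith
    · have h4 : (0 : ℝ) ≤ 4 / (4 * 3 ^ (2 * ρ)) ^ 2 := by positivity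
      linarith
  -- the blocks
  have hblocks := blocks_sum (L + N * (20 * m)) k g (N * (20 * m)) (gam z S)
    (4 * 3 ^ (2 * ρ)) hT0 hg1 s hs2 (fun t ht => by have := (hs1 t ht).2; omega)
    (etas (N * (20 * m)))
  generalize hlamg : ((1 : ℝ) - 4 / (4 * 3 ^ (2 * ρ)) ^ 2) ^ g = lam at *
  have hone : ∀ t ∈ range g,
      ∑ η ∈ etas (N * (20 * m)),
        lam ^ wcnt (L + N * (20 * m)) (gam z S) (4 * 3 ^ (2 * ρ)) η (s t) (N * (20 * m)) ≤
      2 ^ 4 * ((1 + lam * 3 ^ (2 * ρ)) ^ (N * (20 * m)) *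
        3 ^ (35 * (20 * m) + 2 * V + 2 * ρ)) := by
    intro t ht
    rw [mem_range] at ht
    obtain ⟨hg2, hH2⟩ := hs1 t ht
    have hee : N * (20 * m) + ee S (s t) ≤ L + N * (20 * m) := by
      have := ee_mono S (show s t ≤ k by omega)
      omega
    have hsum := block_sum (L + N * (20 * m)) (N * (20 * m)) 4
      (N * (20 * m)) ρ (35 * (20 * m)) z hz S (s t) hee hJ3 hj1 (by omega)
      hD hg2 (block_act S m k (N * (20 * m)) ρ (s t) hρm h1 hH2) lam hlam0 hlam1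
    refine le_trans hsum ?_
    apply mul_le_mul_of_nonneg_left _ (by positivity)
    apply mul_le_mul_of_nonneg_left _ (by positivity)
    apply pow_le_pow_right₀ (by norm_num)
    have := h2mp (s t) hH2
    omega
  have hall : ∑ η ∈ etas (N * (20 * m)), ∏ j ∈ range k,
      Real.cos (Real.pi * (((η * gam z S j : ℤ) : ℝ) / 2 ^ (L + N * (20 * m)))) ^ 2 ≤
      g * (2 ^ 4 * ((1 + lam * 3 ^ (2 * ρ)) ^ (N * (20 * m)) *
        3 ^ (35 * (20 * m) + 2 * V + 2 * ρ))) := by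
    refine le_trans hblocks ?_
    refine le_trans (Finset.sum_le_card_nsmul _ _ _ hone) ?_
    rw [card_range, nsmul_eq_mul]
  have hWr : (W.card : ℝ) ≤ 2 ^ (N * (20 * m) - 70 * (20 * m)) := by exact_mod_cast hW
  have hnum := numeric N ρ m g V (by omega) hmb lam hlam0 hg hV5 (W.card : ℝ) (Nat.cast_nonneg _) hWr
  have hcol := Pool.Agent.MP81cdd9.HZ.collision L (N * (20 * m)) k hJ3 (x0 z S) (gam z S) W
  refine le_trans hcol ?_
  have heta : Pool.Agent.MP81cdd9.HZ.etas (N * (20 * m)) = etas (N * (20 * m)) := rfl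
  rw [heta]
  calc (W.card : ℝ) * (2 / 2 ^ (N * (20 * m) - 3)) * (4 ^ k *
        ∑ η ∈ etas (N * (20 * m)), ∏ j ∈ range k,
          Real.cos (Real.pi * (((η * gam z S j : ℤ) : ℝ) / 2 ^ (L + N * (20 * m)))) ^ 2)
      ≤ (W.card : ℝ) * (2 / 2 ^ (N * (20 * m) - 3)) * (4 ^ k *
        (g * (2 ^ 4 * ((1 + lam * 3 ^ (2 * ρ)) ^ (N * (20 * m)) *
        3 ^ (35 * (20 * m) + 2 * V + 2 * ρ))))) := by
        apply mul_le_mul_of_nonneg_left _ (by positivity)
        exact mul_le_mul_of_nonneg_left hall (by positivity)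
    _ = 4 ^ k * ((W.card : ℝ) * (2 / 2 ^ (N * (20 * m) - 3)) *
        (g * (2 ^ 4 * ((1 + lam * 3 ^ (2 * ρ)) ^ (N * (20 * m)) *
        3 ^ (35 * (20 * m) + 2 * V + 2 * ρ))))) := by ring
    _ ≤ 4 ^ k * (256 * g * 3 ^ (2 * ρ) / 2 ^ (11 * (20 * m))) :=
        mul_le_mul_of_nonneg_left hnum (by positivity)

end Pool.Agent.MP9e8697.CW
end

section

/-! The core theorem. -/

set_option autoImplicit false

namespace Pool.Agent.MP9e8697.CW

open Finset

theorem exists_g : ∃ g : ℕ, 1 ≤ g ∧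
    (1 - 4 / (4 * 3 ^ (2 * rh)) ^ 2 : ℝ) ^ g * 3 ^ (2 * rh) ≤ 1 / (N0 : ℝ) := by
  have h5 : (1 : ℝ) ≤ 3 ^ (2 * rh) := one_le_pow₀ (by norm_num)
  generalize (3 : ℝ) ^ (2 * rh) = P at h5 ⊢
  have hT0 : (16 : ℝ) ≤ (4 * P) ^ 2 := by nlinarith
  have hl0 : (0 : ℝ) ≤ 1 - 4 / (4 * P) ^ 2 := by
    have : (4 : ℝ) / (4 * P) ^ 2 ≤ 1 := by
      rw [div_le_one (by linarith)]
      linarith
    linarith
  have hl1 : (1 - 4 / (4 * P) ^ 2 : ℝ) < 1 := by
    have : (0 : ℝ) < 4 / (4 * P) ^ 2 := by positivity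
    linarith
  have hN0 : (0 : ℝ) < N0 := by
    have : 0 < N0 := by unfold N0; omega
    exact_mod_cast this
  obtain ⟨n, hn⟩ := exists_pow_lt_of_lt_one (show (0 : ℝ) < 1 / (N0 : ℝ) / P by positivity) hl1
  refine ⟨n + 1, by omega, ?_⟩
  have h1 : (1 - 4 / (4 * P) ^ 2 : ℝ) ^ (n + 1) ≤ (1 - 4 / (4 * P) ^ 2 : ℝ) ^ n :=
    pow_le_pow_of_le_one hl0 hl1.le (by omega)
  have h2 := h1.trans hn.le
  rw [le_div_iff₀ (by linarith)] at h2
  exact h2

theorem quot (L J : ℕ) (N n k0 u : ℤ) (h : (2 : ℤ) ^ (L + J) ∣ N - (n - 2 ^ L * u))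
    (h1 : k0 * 2 ^ L ≤ n) (h2 : n < (k0 + 1) * 2 ^ L) :
    (N % 2 ^ (L + J)) / 2 ^ L = (k0 - u) % 2 ^ J := by
  have hL : (0 : ℤ) < 2 ^ L := by positivity
  have hJ : (0 : ℤ) < 2 ^ J := by positivity
  obtain ⟨c, hc⟩ := h
  have hy0 := Int.emod_nonneg (k0 - u) hJ.ne'
  have hy1 := Int.emod_lt_of_pos (k0 - u) hJ
  have hy2 := Int.emod_add_mul_ediv (k0 - u) (2 ^ J)
  set y := (k0 - u) % 2 ^ J with hy
  set w := (k0 - u) / 2 ^ J with hw
  have hN : N = ((n - k0 * 2 ^ L) + 2 ^ L * y) + 2 ^ (L + J) * (w + c) := by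
    have e1 : k0 - u = y + 2 ^ J * w := by linarith
    have e2 : N = n - 2 ^ L * u + 2 ^ (L + J) * c := by linarith
    rw [e2, pow_add]
    have e3 : u = k0 - (y + 2 ^ J * w) := by linarith
    rw [e3]
    ring
  have hlt : (n - k0 * 2 ^ L) + 2 ^ L * y < 2 ^ (L + J) := by
    rw [pow_add]
    have : (2 : ℤ) ^ L * (y + 1) ≤ 2 ^ L * 2 ^ J := by
      apply mul_le_mul_of_nonneg_left _ hL.le
      linarith
    nlinarith
  have hge : 0 ≤ (n - k0 * 2 ^ L) + 2 ^ L * y := by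
    have : 0 ≤ (2 : ℤ) ^ L * y := mul_nonneg hL.le hy0
    linarith
  rw [hN, Int.add_mul_emod_self_left, Int.emod_eq_of_lt hge hlt, Int.add_mul_ediv_left _ _ hL.ne',
    Int.ediv_eq_zero_of_lt (by linarith) (by linarith), zero_add]

private theorem F9c_mod (J : ℕ) (k0 v t : ℤ) : (k0 - v * t) % 2 ^ J = (k0 - v * (t % 2 ^ J)) % 2 ^ J := by
  apply Int.ModEq.sub_left
  exact (Int.ModEq.mul_left v (Int.mod_modEq t (2 ^ J)).symm)

/-- One number of steps. -/
theorem per_k (b g L k : ℕ) (hb : 1 ≤ b) (hg1 : 1 ≤ g)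
    (hg : (1 - 4 / (4 * 3 ^ (2 * rh)) ^ 2 : ℝ) ^ g * 3 ^ (2 * rh) ≤ 1 / (N0 : ℝ))
    (hL : 60 ^ g * (6000 * (JJ b + rh ^ 2 * b + 1)) ≤ L + JJ b)
    (k0 : ℤ) (R : Finset ℤ) (hR : R.card ≤ 2 ^ (JJ b - 70 * (20 * (rh ^ 2 * b)))) :
    (((Ico (k0 * 2 ^ L) ((k0 + 1) * 2 ^ L)).filter
      (fun n => ee (od k n) k = L ∧ (T^[k] n) % 2 ^ JJ b ∈ R)).card : ℝ) * 2 ^ (b / 7) ≤
      2 ^ L * (2 * rh * k + 16 * g * 3 ^ rh) := by
  classical
  obtain ⟨z, hz⟩ := exists_inv (L + JJ b)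
  set W : Finset ℤ := R.image (fun r => (k0 - z ^ k * r) % 2 ^ JJ b) with hWdef
  have hW : W.card ≤ 2 ^ (JJ b - 70 * (20 * (rh ^ 2 * b))) := Finset.card_image_le.trans hR
  have hρ : 1 ≤ rh := by unfold rh; omega
  -- transfer to codes
  have h1 : ((Ico (k0 * 2 ^ L) ((k0 + 1) * 2 ^ L)).filter
      (fun n => ee (od k n) k = L ∧ (T^[k] n) % 2 ^ JJ b ∈ R)).card ≤
      ((Ico (k0 * 2 ^ L) ((k0 + 1) * 2 ^ L)).filter
      (fun n => ee (od k n) k = L ∧ (fun S U => (NN z S U % 2 ^ (L + JJ b)) / 2 ^ L ∈ W) (od k n) (up k n))).card := by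
    refine card_le_card ?_
    intro n hn
    rw [mem_filter, mem_Ico] at hn ⊢
    refine ⟨hn.1, hn.2.1, ?_⟩
    show (NN z (od k n) (up k n) % 2 ^ (L + JJ b)) / 2 ^ L ∈ W
    have h3 := NN_eq (L + JJ b) k z n hz
    rw [hn.2.1] at h3
    have h4 := quot L (JJ b) (NN z (od k n) (up k n)) n k0 _ h3 hn.1.1 hn.1.2
    rw [h4, hWdef, mem_image]
    exact ⟨(T^[k] n) % 2 ^ JJ b, hn.2.2, (F9c_mod _ _ _ _).symm⟩
  have h2 := h1.trans (transfer L k k0 (fun S U => (NN z S U % 2 ^ (L + JJ b)) / 2 ^ L ∈ W))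
  clear h1
  -- the bound for a typical set
  set D : ℝ := 16 * g * 3 ^ rh / 2 ^ b with hD
  have hD0 : 0 ≤ D := by positivity
  have hE : (256 * g * 3 ^ (2 * rh) / 2 ^ (11 * (20 * (rh ^ 2 * b))) : ℝ) ≤ D ^ 2 := by
    have e1 : D ^ 2 = 256 * (g : ℝ) ^ 2 * 3 ^ (2 * rh) / 2 ^ (2 * b) := by
      rw [hD, div_pow, mul_pow, mul_pow, ← pow_mul, ← pow_mul, mul_comm rh 2, mul_comm b 2]
      norm_num
    rw [e1]
    have hg' : (1 : ℝ) ≤ g := by exact_mod_cast hg1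
    apply div_le_div₀ (by positivity) _ (by positivity)
    · apply pow_le_pow_right₀ (by norm_num)
      have e4 : 1 * b ≤ rh ^ 2 * b := Nat.mul_le_mul_right _ (Nat.one_le_pow _ _ hρ)
      omega
    · apply mul_le_mul_of_nonneg_right _ (by positivity)
      nlinarith
  have htyp : ∀ S ∈ (range k).powerset.filter (fun S => k + S.card = L),
      (C1 S (rh ^ 2 * b) k ∧ C2 S rh (20 * (rh ^ 2 * b)) (40 * b) k) →
      ((S.powerset.filter (fun U => (NN z S U % 2 ^ (L + JJ b)) / 2 ^ L ∈ W)).card : ℝ) ≤ 2 ^ (L - k) * D := by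
    intro S hS hC
    rw [mem_filter, mem_powerset] at hS
    have hSk : S.card ≤ k := by
      have := card_le_card hS.1
      rwa [card_range] at this
    have hcS : cnt S k = S.card := by
      unfold cnt
      congr 1
      rw [Finset.filter_eq_self]
      intro i hi
      exact mem_range.1 (hS.1 hi)
    have hk : ee S k = L := by
      unfold ee
      rw [hcS]
      exact hS.2
    have t1 := typ_bad b g L k hb z hz hg1 hg hL S hk hC.1 hC.2 W hW
    have t2 := restrict k S hS.1 (fun U => (NN z S U % 2 ^ (L + JJ b)) / 2 ^ L ∈ W)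
    have t3 : ((range k).powerset.filter (fun U => (NN z S (U ∩ S) % 2 ^ (L + JJ b)) / 2 ^ L ∈ W)) =
        ((range k).powerset.filter (fun U => (NN z S U % 2 ^ (L + JJ b)) / 2 ^ L ∈ W)) := by
      apply Finset.filter_congr
      intro U _
      rw [NN_inter]
    rw [t3] at t2
    set X := ((range k).powerset.filter (fun U => (NN z S U % 2 ^ (L + JJ b)) / 2 ^ L ∈ W)).card with hX
    set Y := (S.powerset.filter (fun U => (NN z S U % 2 ^ (L + JJ b)) / 2 ^ L ∈ W)).card with hY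
    have t4 : (X : ℝ) ≤ 2 ^ k * D := by
      have t5 : (X : ℝ) ^ 2 ≤ (2 ^ k * D) ^ 2 := by
        refine t1.trans ?_
        have e4 : ((2 : ℝ) ^ k) ^ 2 = 4 ^ k := by
          rw [← pow_mul, mul_comm k 2, pow_mul]
          norm_num
        rw [mul_pow, e4]
        exact mul_le_mul_of_nonneg_left hE (by positivity)
      exact le_of_sq_le_sq t5 (by positivity)
    have t6 : (Y : ℝ) * 2 ^ (k - S.card) ≤ X := by exact_mod_cast t2
    have t7 : (2 : ℝ) ^ k = 2 ^ (L - k) * 2 ^ (k - S.card) := by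
      rw [← pow_add]
      congr 1
      omega
    have t8 : (Y : ℝ) * 2 ^ (k - S.card) ≤ (2 ^ (L - k) * D) * 2 ^ (k - S.card) := by
      calc (Y : ℝ) * 2 ^ (k - S.card) ≤ X := t6
        _ ≤ 2 ^ k * D := t4
        _ = (2 ^ (L - k) * D) * 2 ^ (k - S.card) := by rw [t7]; ring
    exact le_of_mul_le_mul_right t8 (by positivity)
  -- the trivial bound
  have htriv : ∀ S ∈ (range k).powerset.filter (fun S => k + S.card = L),
      ((S.powerset.filter (fun U => (NN z S U % 2 ^ (L + JJ b)) / 2 ^ L ∈ W)).card : ℝ) ≤ 2 ^ (L - k) := by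
    intro S hS
    rw [mem_filter] at hS
    have t1 : (S.powerset.filter (fun U => (NN z S U % 2 ^ (L + JJ b)) / 2 ^ L ∈ W)).card ≤ 2 ^ (L - k) := by
      refine (card_filter_le _ _).trans ?_
      rw [card_powerset]
      exact Nat.pow_le_pow_right (by norm_num) (by omega)
    exact_mod_cast t1
  -- the sum
  by_cases hkL : k ≤ L
  swap
  · have h3 : (range k).powerset.filter (fun S => k + S.card = L) = ∅ := by
      rw [filter_eq_empty_iff]
      intro S _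
      omega
    rw [h3, sum_empty, Nat.le_zero] at h2
    rw [h2]
    simp only [Nat.cast_zero, zero_mul]
    positivity
  have hty := typical rh b k hρ hb
  set At := (range k).powerset.filter (fun S =>
      ¬ (C1 S (rh ^ 2 * b) k ∧ C2 S rh (20 * (rh ^ 2 * b)) (40 * b) k)) with hAt
  have h4 : (∑ S ∈ (range k).powerset.filter (fun S => k + S.card = L),
      ((S.powerset.filter (fun U => (NN z S U % 2 ^ (L + JJ b)) / 2 ^ L ∈ W)).card : ℝ)) ≤
      2 ^ k * (2 ^ (L - k) * D) + At.card * 2 ^ (L - k) := by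
    have h5 : ∀ S ∈ (range k).powerset.filter (fun S => k + S.card = L),
        ((S.powerset.filter (fun U => (NN z S U % 2 ^ (L + JJ b)) / 2 ^ L ∈ W)).card : ℝ) ≤
        2 ^ (L - k) * D + (if S ∈ At then 2 ^ (L - k) else 0) := by
      intro S hS
      by_cases hC : (C1 S (rh ^ 2 * b) k ∧ C2 S rh (20 * (rh ^ 2 * b)) (40 * b) k)
      · have := htyp S hS hC
        split_ifs <;> nlinarith [show (0 : ℝ) ≤ 2 ^ (L - k) by positivity]
      · have hSA : S ∈ At := by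
          rw [hAt, mem_filter]
          exact ⟨(mem_filter.1 hS).1, hC⟩
        rw [if_pos hSA]
        have h6 := htriv S hS
        have h7 : 0 ≤ 2 ^ (L - k) * D := by positivity
        linarith
    refine (sum_le_sum h5).trans ?_
    rw [sum_add_distrib, sum_const, nsmul_eq_mul, ← sum_filter, sum_const, nsmul_eq_mul]
    have h6 : (((range k).powerset.filter (fun S => k + S.card = L)).card : ℝ) ≤ 2 ^ k := by
      have : ((range k).powerset.filter (fun S => k + S.card = L)).card ≤ 2 ^ k := by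
        refine (card_filter_le _ _).trans ?_
        rw [card_powerset, card_range]
      exact_mod_cast this
    have h7 : ((((range k).powerset.filter (fun S => k + S.card = L)).filter (fun S => S ∈ At)).card : ℝ) ≤ At.card := by
      have : (((range k).powerset.filter (fun S => k + S.card = L)).filter (fun S => S ∈ At)).card ≤ At.card := by
        refine card_le_card ?_
        intro S hS
        exact (mem_filter.1 hS).2
      exact_mod_cast this
    apply add_le_add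
    · exact mul_le_mul_of_nonneg_right h6 (by positivity)
    · exact mul_le_mul_of_nonneg_right h7 (by positivity)
  have h8 : (((Ico (k0 * 2 ^ L) ((k0 + 1) * 2 ^ L)).filter
      (fun n => ee (od k n) k = L ∧ (T^[k] n) % 2 ^ JJ b ∈ R)).card : ℝ) ≤
      2 ^ k * (2 ^ (L - k) * D) + At.card * 2 ^ (L - k) := by
    refine le_trans ?_ h4
    exact_mod_cast h2
  have h9 : (2 : ℝ) ^ L = 2 ^ k * 2 ^ (L - k) := by
    rw [← pow_add]
    congr 1
    omega
  have h10 : D * 2 ^ (b / 7) ≤ 16 * g * 3 ^ rh := by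
    rw [hD, div_mul_eq_mul_div, div_le_iff₀ (by positivity)]
    apply mul_le_mul_of_nonneg_left _ (by positivity)
    exact pow_le_pow_right₀ (by norm_num) (by omega)
  calc (((Ico (k0 * 2 ^ L) ((k0 + 1) * 2 ^ L)).filter
      (fun n => ee (od k n) k = L ∧ (T^[k] n) % 2 ^ JJ b ∈ R)).card : ℝ) * 2 ^ (b / 7)
      ≤ (2 ^ k * (2 ^ (L - k) * D) + At.card * 2 ^ (L - k)) * 2 ^ (b / 7) :=
        mul_le_mul_of_nonneg_right h8 (by positivity)
    _ = 2 ^ L * (D * 2 ^ (b / 7)) + (At.card * 2 ^ (b / 7)) * 2 ^ (L - k) := by rw [h9]; ring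
    _ ≤ 2 ^ L * (16 * g * 3 ^ rh) + (2 * rh * k * 2 ^ k) * 2 ^ (L - k) := by
        apply add_le_add
        · exact mul_le_mul_of_nonneg_left h10 (by positivity)
        · exact mul_le_mul_of_nonneg_right hty (by positivity)
    _ = 2 ^ L * (2 * rh * k + 16 * g * 3 ^ rh) := by rw [h9]; ring

open Classical in
/-- THE CORE THEOREM. -/
theorem core : ∃ C D : ℕ, 1 ≤ C ∧ 100 * (JJ 1) ≤ C ∧ ∀ b L : ℕ, 1 ≤ b → C * b ≤ L → ∀ (k0 : ℤ) (R : Finset ℤ),
    R.card ≤ 2 ^ (JJ b - 70 * (20 * (rh ^ 2 * b))) →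
    (((Ico (k0 * 2 ^ L) ((k0 + 1) * 2 ^ L)).filter
      (fun n => ∃ k, ee (od k n) k = L ∧ (T^[k] n) % 2 ^ JJ b ∈ R)).card : ℝ) * 2 ^ (b / 7) ≤
      D * (L + 1) ^ 2 * 2 ^ L := by
  obtain ⟨g, hg1, hg⟩ := exists_g
  refine ⟨60 ^ g * (6000 * (JJ 1 + rh ^ 2 + 1)), 2 * rh + 16 * g * 3 ^ rh, ?_, ?_, ?_⟩
  · exact Nat.mul_pos (Nat.one_le_pow _ _ (by norm_num)) (by omega)
  · have h1 : 1 ≤ 60 ^ g := Nat.one_le_pow _ _ (by norm_num)
    calc 100 * JJ 1 ≤ 1 * (6000 * (JJ 1 + rh ^ 2 + 1)) := by omega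
      _ ≤ _ := Nat.mul_le_mul_right _ h1
  intro b L hb hL k0 R hR
  have hJb : JJ b = JJ 1 * b := by unfold JJ; ring
  have hLg : 60 ^ g * (6000 * (JJ b + rh ^ 2 * b + 1)) ≤ L + JJ b := by
    have h1 : 60 ^ g * (6000 * (JJ b + rh ^ 2 * b + 1)) ≤ 60 ^ g * (6000 * (JJ 1 + rh ^ 2 + 1)) * b := by
      rw [Nat.mul_assoc]
      refine Nat.mul_le_mul_left _ ?_
      rw [Nat.mul_assoc]
      refine Nat.mul_le_mul_left _ ?_
      rw [hJb, add_mul, add_mul]
      omega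
    exact le_trans h1 (le_trans hL (Nat.le_add_right _ _))
  have hsub : (Ico (k0 * 2 ^ L) ((k0 + 1) * 2 ^ L)).filter
      (fun n => ∃ k, ee (od k n) k = L ∧ (T^[k] n) % 2 ^ JJ b ∈ R) ⊆
      (range (L + 1)).biUnion (fun k => (Ico (k0 * 2 ^ L) ((k0 + 1) * 2 ^ L)).filter
      (fun n => ee (od k n) k = L ∧ (T^[k] n) % 2 ^ JJ b ∈ R)) := by
    intro n hn
    rw [mem_filter] at hn
    obtain ⟨hn1, k, hk1, hk2⟩ := hn
    rw [mem_biUnion]
    refine ⟨k, ?_, ?_⟩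
    · rw [mem_range]
      unfold ee at hk1
      omega
    · rw [mem_filter]
      exact ⟨hn1, hk1, hk2⟩
  have h1 : (((Ico (k0 * 2 ^ L) ((k0 + 1) * 2 ^ L)).filter
      (fun n => ∃ k, ee (od k n) k = L ∧ (T^[k] n) % 2 ^ JJ b ∈ R)).card : ℝ) ≤
      ∑ k ∈ range (L + 1), (((Ico (k0 * 2 ^ L) ((k0 + 1) * 2 ^ L)).filter
      (fun n => ee (od k n) k = L ∧ (T^[k] n) % 2 ^ JJ b ∈ R)).card : ℝ) := by
    have := (card_le_card hsub).trans card_biUnion_le
    exact_mod_cast this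
  have h2 := mul_le_mul_of_nonneg_right h1 (show (0 : ℝ) ≤ 2 ^ (b / 7) by positivity)
  refine h2.trans ?_
  rw [sum_mul]
  have h3 : ∀ k ∈ range (L + 1), (((Ico (k0 * 2 ^ L) ((k0 + 1) * 2 ^ L)).filter
      (fun n => ee (od k n) k = L ∧ (T^[k] n) % 2 ^ JJ b ∈ R)).card : ℝ) * 2 ^ (b / 7) ≤
      2 ^ L * ((2 * rh + 16 * g * 3 ^ rh) * (L + 1)) := by
    intro k hk
    rw [mem_range] at hk
    refine (per_k b g L k hb hg1 hg hLg k0 R hR).trans ?_
    apply mul_le_mul_of_nonneg_left _ (by positivity)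
    have hkL : (k : ℝ) ≤ L := by exact_mod_cast Nat.lt_succ_iff.1 hk
    have h4 : (0 : ℝ) ≤ 2 * rh := by positivity
    have h5 : (0 : ℝ) ≤ 16 * g * 3 ^ rh := by positivity
    have hL0 : (0 : ℝ) ≤ L := Nat.cast_nonneg L
    nlinarith
  refine (sum_le_card_nsmul _ _ _ h3).trans ?_
  rw [card_range, nsmul_eq_mul]
  push_cast
  apply le_of_eq
  ring

end Pool.Agent.MP9e8697.CW
end

section

/-! The window after the horizon: residues with many odd times. -/

set_option autoImplicit false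

namespace Pool.Agent.MP9e8697.CW

open Finset

/-- the residues whose window has many odd times -/
noncomputable def manyR (n : ℕ) : Finset ℤ := (Ico (0 : ℤ) (2 ^ (40 * n))).filter (fun r => 11 * n ≤ (od (20 * n) r).card)

theorem card_manyR (n : ℕ) : ((manyR n).card : ℝ) ≤ 2 ^ (40 * n) * q1 ^ n := by
  classical
  have hmaps : ∀ r ∈ manyR n, od (20 * n) r ∈ (range (20 * n)).powerset.filter (fun S => 11 * n ≤ (S ∩ range (20 * n)).card) := by
    intro r hr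
    unfold manyR at hr
    rw [mem_filter] at hr
    have h1 : od (20 * n) r ⊆ range (20 * n) := Finset.filter_subset _ _
    rw [mem_filter, mem_powerset, inter_eq_left.2 h1]
    exact ⟨h1, hr.2⟩
  have h1 : (manyR n).card ≤
      ((range (20 * n)).powerset.filter (fun S => 11 * n ≤ (S ∩ range (20 * n)).card)).card * 2 ^ (20 * n) := by
    rw [card_eq_sum_card_fiberwise hmaps]
    have hone : ∀ S ∈ (range (20 * n)).powerset.filter (fun S => 11 * n ≤ (S ∩ range (20 * n)).card),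
        ((manyR n).filter (fun r => od (20 * n) r = S)).card ≤ 2 ^ (20 * n) := by
      intro S hS
      rw [mem_filter, mem_powerset] at hS
      have h2 := card_od (40 * n) (20 * n) (by omega) S hS.1
      have h3 : 40 * n - 20 * n = 20 * n := by omega
      rw [h3] at h2
      refine le_trans (card_le_card ?_) h2
      intro r hr
      unfold manyR at hr
      rw [mem_filter, mem_filter] at hr
      rw [mem_filter]
      exact ⟨hr.1.1, hr.2⟩
    refine (sum_le_card_nsmul _ _ _ hone).trans ?_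
    rw [smul_eq_mul]
  have h2 := many_ones (20 * n) (range (20 * n)) (Subset.refl _) (11 * n) (9 * n) (by rw [card_range]; omega)
    (9 / 11) (by norm_num) (by norm_num)
  rw [card_range, Nat.sub_self, pow_zero, mul_one] at h2
  have h3 : (0 : ℝ) < (9 / 11) ^ (9 * n) := by positivity
  rw [← le_div_iff₀ h3] at h2
  have h4 : (1 + 9 / 11 : ℝ) ^ (20 * n) / (9 / 11) ^ (9 * n) = 2 ^ (20 * n) * q1 ^ n := by
    have h5 : (1 + (9 : ℝ) / 11) = 20 / 11 := by norm_num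
    have h7 : q1 ^ n = ((20 / 11 : ℝ) ^ 20) ^ n / (((2 : ℝ) ^ 20) ^ n * ((9 / 11 : ℝ) ^ 9) ^ n) := by
      rw [q1, div_pow, mul_pow]
    rw [h5, h7, pow_mul, pow_mul, pow_mul]
    have e1 : (0 : ℝ) < ((2 : ℝ) ^ 20) ^ n := by positivity
    have e2 : (0 : ℝ) < ((9 / 11 : ℝ) ^ 9) ^ n := by positivity
    generalize ((20 / 11 : ℝ) ^ 20) ^ n = a
    generalize ((2 : ℝ) ^ 20) ^ n = b at e1 ⊢
    generalize ((9 / 11 : ℝ) ^ 9) ^ n = c' at e2 ⊢
    field_simp
  rw [h4] at h2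
  calc ((manyR n).card : ℝ) ≤
      ((((range (20 * n)).powerset.filter (fun S => 11 * n ≤ (S ∩ range (20 * n)).card)).card * 2 ^ (20 * n) : ℕ) : ℝ) := by
        exact_mod_cast h1
    _ = (((range (20 * n)).powerset.filter (fun S => 11 * n ≤ (S ∩ range (20 * n)).card)).card : ℝ) * 2 ^ (20 * n) := by
        push_cast
        ring
    _ ≤ (2 ^ (20 * n) * q1 ^ n) * 2 ^ (20 * n) := mul_le_mul_of_nonneg_right h2 (by positivity)
    _ = 2 ^ (40 * n) * q1 ^ n := by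
        have h5 : (2 : ℝ) ^ (40 * n) = 2 ^ (20 * n) * 2 ^ (20 * n) := by
          rw [← pow_add]
          congr 1
          ring
        rw [h5]
        ring

/-- the number of blocks of 20 steps of the window -/
def mw (b : ℕ) : ℕ := 490 * (20 * (rh ^ 2 * b))

theorem JJ_mw (b : ℕ) : JJ b = 40 * mw b := by
  unfold JJ mw N0
  ring

theorem card_manyR_le (b : ℕ) : (manyR (mw b)).card ≤ 2 ^ (JJ b - 70 * (20 * (rh ^ 2 * b))) := by
  have h1 := card_manyR (mw b)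
  rw [← JJ_mw] at h1
  obtain ⟨l, hl⟩ : ∃ l, l = 20 * (rh ^ 2 * b) := ⟨_, rfl⟩
  have h2 : mw b = 7 * (70 * l) := by
    unfold mw
    rw [← hl]
    ring
  rw [← hl]
  have h3 : 70 * l ≤ JJ b := by
    rw [JJ_mw, h2]
    omega
  have h4 : q1 ^ mw b * 2 ^ (70 * l) ≤ 1 := by
    rw [h2, pow_mul, ← mul_pow]
    apply pow_le_one₀
    · have := q1_lt.1
      positivity
    · have := q1_seven
      linarith
  have h5 : ((manyR (mw b)).card : ℝ) * 2 ^ (70 * l) ≤ 2 ^ (JJ b - 70 * l) * 2 ^ (70 * l) := by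
    calc ((manyR (mw b)).card : ℝ) * 2 ^ (70 * l) ≤ (2 ^ JJ b * q1 ^ mw b) * 2 ^ (70 * l) :=
          mul_le_mul_of_nonneg_right h1 (by positivity)
      _ = 2 ^ JJ b * (q1 ^ mw b * 2 ^ (70 * l)) := by ring
      _ ≤ 2 ^ JJ b * 1 := mul_le_mul_of_nonneg_left h4 (by positivity)
      _ = 2 ^ (JJ b - 70 * l) * 2 ^ (70 * l) := by
          rw [mul_one, ← pow_add, Nat.sub_add_cancel h3]
  have h6 := le_of_mul_le_mul_right h5 (by positivity)
  exact_mod_cast h6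

end Pool.Agent.MP9e8697.CW
end
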