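import Mathlib
import Pool.Agent.Lib.MP_9e8697_nt.Defs

section

/-!
# MP_9e8697, campaign SL: definitions (complete, NOT a task)

`T` is Conway's permutation (`Lib/MP_9e8697_nt/Defs.lean`; there: `two_mul_T`, `four_mul_T_of_one`, `four_mul_T_of_three`, `T_injective`).
-/

set_option autoImplicit false

namespace Pool.Agent.MP_9e8697_nt.SL

/-- the number of even terms among `m, T m, ..., T^(j-1) m` -/
def ev : ℕ → ℕ → ℕ
  | 0, _ => 0
  | j + 1, m => (if m % 2 = 0 then 1 else 0) + ev j (T m)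

/-- the constant `(1 + 1/√2)/√3 = 0.98559...` -/
noncomputable def g : ℝ := (1 + 1 / Real.sqrt 2) / Real.sqrt 3

end Pool.Agent.MP_9e8697_nt.SL
end

section

/-!
# TASK SL A: `T` on the residue classes modulo 4, periodicity

PROOF. `T_four`: `two_mul_T`, `four_mul_T_of_one`, `four_mul_T_of_three` and `omega`.
`ev_add`: induction on `j` (for all `m`, `t`): `m + 4^(j+1) t` and `m` have the same residue modulo 4; write `m = 4 i + c`: then
`m + 4^(j+1) t = 4 (i + 4^j t) + c` and by `T_four` its image is the image of `m` plus `4^j (6 t)` (`c = 0, 2`) or `4^j (3 t)`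
(`c = 1, 3`): the claim for `j` and `T m`.
`sum_perm`: for `F` with period `N` we have `F (3 i + c) = F ((3 i + c) % N)` (`Function.Periodic.map_mod_nat`), and
`i ↦ (3 i + c) % N` is injective on `range N` (`Nat.ModEq.cancel_left_of_coprime`) so a permutation of `range N`
(`Finset.sum_nbij`, `Finset.surjOn_of_injOn_of_card_le`).
-/

set_option autoImplicit false

namespace Pool.Agent.MP_9e8697_nt.SL

theorem T_four (i : ℕ) : T (4 * i) = 6 * i ∧ T (4 * i + 1) = 3 * i + 1 ∧ T (4 * i + 2) = 6 * i + 3 ∧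
    T (4 * i + 3) = 3 * i + 2 := by
  have h0 := two_mul_T (x := 4 * i) (by omega)
  have h1 := four_mul_T_of_one (x := 4 * i + 1) (by omega)
  have h2 := two_mul_T (x := 4 * i + 2) (by omega)
  have h3 := four_mul_T_of_three (x := 4 * i + 3) (by omega)
  refine ⟨?_, ?_, ?_, ?_⟩ <;> omega

theorem ev_add (j m t : ℕ) : ev j (m + 4 ^ j * t) = ev j m := by
  induction j generalizing m t with
  | zero => rfl
  | succ j ih =>
    obtain ⟨i, c, hc, rfl⟩ : ∃ i c, c < 4 ∧ m = 4 * i + c := ⟨m / 4, m % 4, by omega, by omega⟩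
    have hs : 4 * i + c + 4 ^ (j + 1) * t = 4 * (i + 4 ^ j * t) + c := by ring
    rw [hs]
    have ha := T_four (i + 4 ^ j * t)
    have hb := T_four i
    show (if (4 * (i + 4 ^ j * t) + c) % 2 = 0 then 1 else 0) + ev j (T (4 * (i + 4 ^ j * t) + c))
      = (if (4 * i + c) % 2 = 0 then 1 else 0) + ev j (T (4 * i + c))
    have hp : (4 * (i + 4 ^ j * t) + c) % 2 = (4 * i + c) % 2 := by omega
    rw [hp]
    congr 1
    have h4 : c = 0 ∨ c = 1 ∨ c = 2 ∨ c = 3 := by omega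
    rcases h4 with rfl | rfl | rfl | rfl
    · rw [Nat.add_zero, Nat.add_zero, ha.1, hb.1, show 6 * (i + 4 ^ j * t) = 6 * i + 4 ^ j * (6 * t) by ring, ih]
    · rw [ha.2.1, hb.2.1, show 3 * (i + 4 ^ j * t) + 1 = 3 * i + 1 + 4 ^ j * (3 * t) by ring, ih]
    · rw [ha.2.2.1, hb.2.2.1, show 6 * (i + 4 ^ j * t) + 3 = 6 * i + 3 + 4 ^ j * (6 * t) by ring, ih]
    · rw [ha.2.2.2, hb.2.2.2, show 3 * (i + 4 ^ j * t) + 2 = 3 * i + 2 + 4 ^ j * (3 * t) by ring, ih]

theorem sum_perm {N : ℕ} (hN : Nat.Coprime N 3) (F : ℕ → ℝ) (hF : ∀ i, F (i + N) = F i) (c : ℕ) :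
    ∑ i ∈ Finset.range N, F (3 * i + c) = ∑ i ∈ Finset.range N, F i := by
  rcases Nat.eq_zero_or_pos N with h0 | h0
  · subst h0; simp
  have hper : Function.Periodic F N := hF
  have hmaps : ∀ i ∈ Finset.range N, (3 * i + c) % N ∈ Finset.range N := fun i _ =>
    Finset.mem_range.2 (Nat.mod_lt _ h0)
  have hinj : Set.InjOn (fun i => (3 * i + c) % N) (Finset.range N : Set ℕ) := by
    intro a ha b hb hab
    have ha' : a < N := Finset.mem_range.1 ha
    have hb' : b < N := Finset.mem_range.1 hb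
    have h1 : 3 * a + c ≡ 3 * b + c [MOD N] := hab
    have h2 : 3 * a ≡ 3 * b [MOD N] := Nat.ModEq.add_right_cancel' c h1
    have h3 : a ≡ b [MOD N] := Nat.ModEq.cancel_left_of_coprime hN h2
    have h4 : a % N = b % N := h3
    rwa [Nat.mod_eq_of_lt ha', Nat.mod_eq_of_lt hb'] at h4
  have hsurj : Set.SurjOn (fun i => (3 * i + c) % N) (Finset.range N : Set ℕ) (Finset.range N : Set ℕ) :=
    Finset.surjOn_of_injOn_of_card_le _ (fun i hi => hmaps i hi) hinj le_rfl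
  refine Finset.sum_nbij (fun i => (3 * i + c) % N) hmaps hinj hsurj ?_
  intro i _
  exact (hper.map_mod_nat (3 * i + c)).symm

theorem ev_le (j m : ℕ) : ev j m ≤ j := by
  induction j generalizing m with
  | zero => exact le_rfl
  | succ j ih =>
    have h := ih (T m)
    show (if m % 2 = 0 then 1 else 0) + ev j (T m) ≤ j + 1
    split_ifs <;> omega

end Pool.Agent.MP_9e8697_nt.SL
end

section

/-!
# TASK SL A2: the distribution of the parities

PROOF. `sum_range`: induction on `j`. `F r = z ^ ev j r` has the period `4^j` (`ev_add` with `t = 1`). `range (4^(j+1))` is the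
union of the `4 i + c`, `i < 4^j`, `c < 4` (`Finset.sum_range` over `4^j * 4`: for example
`∑ r ∈ range (n * 4), f r = ∑ i ∈ range n, (f (4 i) + f (4 i + 1) + f (4 i + 2) + f (4 i + 3))` by induction on `n`). By `T_four`:
`ev (j+1) (4 i) = 1 + ev j (6 i)`, `ev (j+1) (4 i + 1) = ev j (3 i + 1)`, `ev (j+1) (4 i + 2) = 1 + ev j (6 i + 3)`,
`ev (j+1) (4 i + 3) = ev j (3 i + 2)`. `∑_{i < n} (F (6 i) + F (6 i + 3)) = ∑_{i < 2 n} F (3 i)` (induction on `n`) is, for
`n = 4^j`, two times `∑_{i < n} F (3 i)` (`Finset.sum_range_add`-type split `range (n + n)`, `F (3 (i + n)) = F (3 i)` by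
three times the periodicity), so `2 ∑ F` by `sum_perm`, and `∑ F (3 i + 1) = ∑ F (3 i + 2) = ∑ F` by `sum_perm` (`4^j` is coprime to 3).
In all: `z * (2 ∑ F) + 2 ∑ F = (2 + 2 z) (2 + 2 z)^j`.
`sum_block`: `ev_add`: `ev j (4^j i + r) = ev j r`.
-/

set_option autoImplicit false

namespace Pool.Agent.MP_9e8697_nt.SL

private theorem A2_split (f : ℕ → ℝ) (n : ℕ) : ∑ r ∈ Finset.range (4 * n), f r =
    ∑ i ∈ Finset.range n, (f (4 * i) + f (4 * i + 1) + f (4 * i + 2) + f (4 * i + 3)) := by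
  induction n with
  | zero => simp
  | succ n ih =>
    rw [show 4 * (n + 1) = 4 * n + 1 + 1 + 1 + 1 by ring, Finset.sum_range_succ, Finset.sum_range_succ,
      Finset.sum_range_succ, Finset.sum_range_succ, ih, Finset.sum_range_succ]
    ring

private theorem A2_two (f : ℕ → ℝ) (n : ℕ) : ∑ i ∈ Finset.range n, (f (6 * i) + f (6 * i + 3)) =
    ∑ i ∈ Finset.range (n + n), f (3 * i) := by
  induction n with
  | zero => simp
  | succ n ih =>
    rw [Finset.sum_range_succ, ih, show n + 1 + (n + 1) = n + n + 1 + 1 by ring, Finset.sum_range_succ,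
      Finset.sum_range_succ, show 3 * (n + n) = 6 * n by ring, show 3 * (n + n + 1) = 6 * n + 3 by ring]
    ring

theorem sum_range (z : ℝ) (j : ℕ) : ∑ r ∈ Finset.range (4 ^ j), z ^ ev j r = (2 + 2 * z) ^ j := by
  induction j with
  | zero => simp [ev]
  | succ j ih =>
    have hcop : Nat.Coprime (4 ^ j) 3 := Nat.Coprime.pow_left j (by norm_num)
    have hper : ∀ i, z ^ ev j (i + 4 ^ j) = z ^ ev j i := by
      intro i
      have h := ev_add j i 1
      rw [Nat.mul_one] at h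
      rw [h]
    have h0 := sum_perm hcop (fun r => z ^ ev j r) hper 0
    have h1 := sum_perm hcop (fun r => z ^ ev j r) hper 1
    have h2 := sum_perm hcop (fun r => z ^ ev j r) hper 2
    simp only [Nat.add_zero] at h0
    have h3 := A2_two (fun r => z ^ ev j r) (4 ^ j)
    have h4 : ∑ i ∈ Finset.range (4 ^ j + 4 ^ j), z ^ ev j (3 * i) =
        2 * ∑ i ∈ Finset.range (4 ^ j), z ^ ev j i := by
      rw [Finset.sum_range_add, ← h0, two_mul]
      congr 1
      refine Finset.sum_congr rfl fun i _ => ?_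
      have h := ev_add j (3 * i) 3
      rw [show 3 * (4 ^ j + i) = 3 * i + 4 ^ j * 3 by ring, h]
    have h5 : ∀ i : ℕ, z ^ ev (j + 1) (4 * i) + z ^ ev (j + 1) (4 * i + 1) + z ^ ev (j + 1) (4 * i + 2)
        + z ^ ev (j + 1) (4 * i + 3)
        = z * (z ^ ev j (6 * i) + z ^ ev j (6 * i + 3)) + (z ^ ev j (3 * i + 1) + z ^ ev j (3 * i + 2)) := by
      intro i
      obtain ⟨e0, e1, e2, e3⟩ := T_four i
      have f0 : ev (j + 1) (4 * i) = 1 + ev j (6 * i) := by
        show (if (4 * i) % 2 = 0 then 1 else 0) + ev j (T (4 * i)) = _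
        rw [if_pos (by omega), e0]
      have f1 : ev (j + 1) (4 * i + 1) = ev j (3 * i + 1) := by
        show (if (4 * i + 1) % 2 = 0 then 1 else 0) + ev j (T (4 * i + 1)) = _
        rw [if_neg (by omega), e1, Nat.zero_add]
      have f2 : ev (j + 1) (4 * i + 2) = 1 + ev j (6 * i + 3) := by
        show (if (4 * i + 2) % 2 = 0 then 1 else 0) + ev j (T (4 * i + 2)) = _
        rw [if_pos (by omega), e2]
      have f3 : ev (j + 1) (4 * i + 3) = ev j (3 * i + 2) := by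
        show (if (4 * i + 3) % 2 = 0 then 1 else 0) + ev j (T (4 * i + 3)) = _
        rw [if_neg (by omega), e3, Nat.zero_add]
      rw [f0, f1, f2, f3, pow_add, pow_add, pow_one]
      ring
    rw [show 4 ^ (j + 1) = 4 * 4 ^ j by ring, A2_split]
    rw [Finset.sum_congr rfl fun i _ => h5 i, Finset.sum_add_distrib, ← Finset.mul_sum, h3, h4,
      Finset.sum_add_distrib, h1, h2, ih]
    ring

theorem sum_block (z : ℝ) (j i : ℕ) : ∑ r ∈ Finset.range (4 ^ j), z ^ ev j (4 ^ j * i + r) = (2 + 2 * z) ^ j := by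
  rw [← sum_range z j]
  refine Finset.sum_congr rfl fun r _ => ?_
  rw [Nat.add_comm, ev_add]

end Pool.Agent.MP_9e8697_nt.SL
end

section

/-!
# TASK SL B: lower bound for the iterates

PROOF. Induction on `j` (for all `m`), `T^[j+1] m = T^[j] (T m)` (`Function.iterate_succ_apply`). Put
`W = (3/4)^j 2^(ev j (T m))`; induction hypothesis: `W * T m ≤ T^[j+1] m + (3/2)^j`; `0 ≤ W ≤ (3/2)^j` by `ev_le`.
`m` even: `T m = (3/2) m` (`two_mul_T`), so `(3/4)^(j+1) 2^(1 + ev j (T m)) m = W * (3/2) m = W * T m ≤ T^[j+1] m + (3/2)^j`.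
`m` odd: `(3/4) m ≤ T m + 1/4` (`four_mul_T_of_one`, `four_mul_T_of_three`), so
`(3/4)^(j+1) 2^(ev j (T m)) m ≤ W * (T m + 1/4) ≤ T^[j+1] m + (3/2)^j + (1/4) (3/2)^j ≤ T^[j+1] m + (3/2)^(j+1)`.
-/

set_option autoImplicit false

namespace Pool.Agent.MP_9e8697_nt.SL

theorem lower (j m : ℕ) : (3 / 4 : ℝ) ^ j * 2 ^ ev j m * m ≤ ((T^[j] m : ℕ) : ℝ) + (3 / 2) ^ j := by
  induction j generalizing m with
  | zero =>
    simp [ev]
  | succ j ih =>
    rw [Function.iterate_succ_apply]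
    have hih := ih (T m)
    have hW0 : (0 : ℝ) ≤ (3 / 4 : ℝ) ^ j * 2 ^ ev j (T m) := by positivity
    have hW1 : (3 / 4 : ℝ) ^ j * 2 ^ ev j (T m) ≤ (3 / 2) ^ j := by
      have h1 : (2 : ℝ) ^ ev j (T m) ≤ 2 ^ j := pow_le_pow_right₀ (by norm_num) (ev_le j (T m))
      calc (3 / 4 : ℝ) ^ j * 2 ^ ev j (T m) ≤ (3 / 4 : ℝ) ^ j * 2 ^ j :=
            mul_le_mul_of_nonneg_left h1 (by positivity)
        _ = (3 / 2) ^ j := by rw [← mul_pow]; norm_num
    have h32 : (0 : ℝ) ≤ (3 / 2 : ℝ) ^ j := by positivity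
    set W : ℝ := (3 / 4 : ℝ) ^ j * 2 ^ ev j (T m) with hW
    by_cases hm : m % 2 = 0
    · have hT : (2 : ℝ) * (T m : ℝ) = 3 * m := by exact_mod_cast two_mul_T hm
      have he : ev (j + 1) m = 1 + ev j (T m) := by simp [ev, hm]
      have hl : (3 / 4 : ℝ) ^ (j + 1) * 2 ^ ev (j + 1) m * m = W * (T m : ℝ) := by
        rw [he, pow_succ, pow_add, hW]
        have : (m : ℝ) = 2 / 3 * (T m : ℝ) := by linarith
        rw [this]; ring
      rw [hl]
      have : (3 / 2 : ℝ) ^ j ≤ (3 / 2 : ℝ) ^ (j + 1) := by rw [pow_succ]; linarith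
      linarith
    · have he : ev (j + 1) m = ev j (T m) := by simp [ev, hm]
      have hT : (3 / 4 : ℝ) * m ≤ (T m : ℝ) + 1 / 4 := by
        rcases (by omega : m % 4 = 1 ∨ m % 4 = 3) with h | h
        · have h1 : (4 : ℝ) * (T m : ℝ) = 3 * m + 1 := by exact_mod_cast four_mul_T_of_one h
          linarith
        · have h1 : (4 : ℝ) * (T m : ℝ) + 1 = 3 * m := by exact_mod_cast four_mul_T_of_three h
          linarith
      have hl : (3 / 4 : ℝ) ^ (j + 1) * 2 ^ ev (j + 1) m * m = W * (3 / 4 * m) := by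
        rw [he, pow_succ, hW]; ring
      rw [hl]
      have h2 : W * (3 / 4 * m) ≤ W * ((T m : ℝ) + 1 / 4) := mul_le_mul_of_nonneg_left hT hW0
      have h3 : (3 / 2 : ℝ) ^ (j + 1) = (3 / 2) ^ j + 1 / 2 * (3 / 2) ^ j := by rw [pow_succ]; ring
      rw [h3]
      nlinarith

end Pool.Agent.MP_9e8697_nt.SL
end

section

/-!
# TASK SL C: few integers do not climb

PROOF. `sum_inv_sqrt`: induction on `N`, `1/√(N+1) ≤ 2 √(N+1) - 2 √N` since `(√(N+1) - √N)(√(N+1) + √N) = 1` and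
`√(N+1) + √N ≤ 2 √(N+1)`.
`weight`: by `lower` and `(3/2)^j ≤ 4^j ≤ X`: `(3/4)^j 2^(ev j m) m ≤ 2 X`. So `1 ≤ 2X / ((3/4)^j 2^(ev j m) m)` and
`1 ≤ √(2X/((3/4)^j 2^e m)) = √(2X) / √m * (2/√3)^j * (1/√2)^e` (`e = ev j m`; take squares: both sides are nonnegative and
`((2/√3)^j)^2 = (4/3)^j`, `((1/√2)^e)^2 = (1/2)^e`; `Real.le_sqrt`, `Real.sqrt_mul_self`, or `abs_le_abs`/`pow_le_pow_left`).
`count`: the number is `≤ ∑_{m in [4^j, X]} (if T^[j] m ≤ X then 1 else 0) ≤ ∑_{m} w m` with the nonnegative right side `w m` of `weight`.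
`[4^j, X]` is contained in the union of the blocks `4^j i + r`, `1 ≤ i ≤ N = X / 4^j`, `r < 4^j` (`i = m / 4^j`, `r = m % 4^j`;
`Finset.sum_le_sum_of_subset_of_nonneg` for the image, or bound the sum over `m` by the double sum with `Finset.sum_fiberwise`,
`Finset.sum_nbij` / `Finset.sum_sigma'`). In the block `i`: `1/√m ≤ 1/(√(4^j) √i) = (1/2)^j / √i`, so with `sum_block` for `z = 1/√2` the block has a sum
`≤ √(2X) (1/2)^j (1/√i) (2/√3)^j (2 + 2/√2)^j`. The sum over `i` is `≤ √(2X) (1/2)^j (2/√3)^j (2 + 2/√2)^j 2 √N`, and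
`√N ≤ √(X/4^j) = √X (1/2)^j`. Total: `2 √2 X ((1/4) (2/√3) (2 + 2/√2))^j = 2 √2 X g^j ≤ 3 X g^j`.
-/

set_option autoImplicit false

namespace Pool.Agent.MP_9e8697_nt.SL

theorem sum_inv_sqrt (N : ℕ) : ∑ i ∈ Finset.Icc 1 N, 1 / Real.sqrt (i : ℝ) ≤ 2 * Real.sqrt (N : ℝ) := by
  induction N with
  | zero => simp
  | succ N ih =>
    rw [Finset.sum_Icc_succ_top (by omega)]
    have h1 : 0 < Real.sqrt ((N + 1 : ℕ) : ℝ) := Real.sqrt_pos.2 (by positivity)
    have h4 : Real.sqrt ((N + 1 : ℕ) : ℝ) ^ 2 = N + 1 := by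
      rw [Real.sq_sqrt (by positivity)]
      push_cast
      ring
    have h5 : Real.sqrt (N : ℝ) ^ 2 = N := Real.sq_sqrt (by positivity)
    have h6 : 1 / Real.sqrt ((N + 1 : ℕ) : ℝ) ≤
        2 * Real.sqrt ((N + 1 : ℕ) : ℝ) - 2 * Real.sqrt (N : ℝ) := by
      rw [div_le_iff₀ h1]
      nlinarith [sq_nonneg (Real.sqrt ((N + 1 : ℕ) : ℝ) - Real.sqrt (N : ℝ))]
    linarith

theorem weight {j X m : ℕ} (h : 4 ^ j ≤ X) (hm : 0 < m) (hT : T^[j] m ≤ X) :
    1 ≤ Real.sqrt (2 * X) / Real.sqrt m * (2 / Real.sqrt 3) ^ j * (1 / Real.sqrt 2) ^ ev j m := by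
  have hm' : (0 : ℝ) < m := by exact_mod_cast hm
  have h1 := lower j m
  have h2 : ((T^[j] m : ℕ) : ℝ) ≤ X := by exact_mod_cast hT
  have h3 : ((3 / 2 : ℝ)) ^ j ≤ X := by
    have h4 : ((4 : ℝ)) ^ j ≤ X := by exact_mod_cast h
    exact le_trans (pow_le_pow_left₀ (by norm_num) (by norm_num) j) h4
  have hA : (0 : ℝ) < (3 / 4 : ℝ) ^ j * 2 ^ ev j m * m := by positivity
  have h0 : 0 ≤ Real.sqrt (2 * X) / Real.sqrt m * (2 / Real.sqrt 3) ^ j * (1 / Real.sqrt 2) ^ ev j m := by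
    positivity
  have hsq : (Real.sqrt (2 * X) / Real.sqrt m * (2 / Real.sqrt 3) ^ j * (1 / Real.sqrt 2) ^ ev j m) ^ 2 =
      2 * X / ((3 / 4 : ℝ) ^ j * 2 ^ ev j m * m) := by
    have e1 : ((2 / Real.sqrt 3) ^ j) ^ 2 = 1 / (3 / 4) ^ j := by
      rw [← pow_mul, mul_comm j 2, pow_mul, div_pow, Real.sq_sqrt (by norm_num), one_div, ← inv_pow]
      norm_num
    have e2 : ((1 / Real.sqrt 2) ^ ev j m) ^ 2 = 1 / 2 ^ ev j m := by
      rw [← pow_mul, mul_comm (ev j m) 2, pow_mul, div_pow, Real.sq_sqrt (by norm_num), one_div, ← inv_pow]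
      norm_num
    rw [mul_pow, mul_pow, div_pow, Real.sq_sqrt (by positivity), Real.sq_sqrt (by positivity), e1, e2]
    field_simp
  have hge : 1 ≤ 2 * X / ((3 / 4 : ℝ) ^ j * 2 ^ ev j m * m) := by
    rw [le_div_iff₀ hA]
    linarith
  by_contra hlt
  rw [not_le] at hlt
  rw [← hsq] at hge
  nlinarith

private theorem C_final (X : ℝ) (hX : 0 ≤ X) (j : ℕ) :
    Real.sqrt (2 * X) * (1 / 2) ^ j * (2 / Real.sqrt 3) ^ j * (2 + 2 * (1 / Real.sqrt 2)) ^ j *
      (2 * (Real.sqrt X * (1 / 2) ^ j)) ≤ 3 * X * g ^ j := by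
  have h2 : Real.sqrt 2 ^ 2 = 2 := Real.sq_sqrt (by norm_num)
  have h2' : 0 ≤ Real.sqrt 2 := Real.sqrt_nonneg _
  have hs2 : Real.sqrt 2 ≤ 3 / 2 := by nlinarith
  have hX2 : Real.sqrt X ^ 2 = X := Real.sq_sqrt hX
  have hg : (1 / 2 : ℝ) * (2 / Real.sqrt 3) * (2 + 2 * (1 / Real.sqrt 2)) * (1 / 2) = g := by
    unfold g
    ring
  have hg0 : 0 ≤ g := by
    unfold g
    positivity
  rw [Real.sqrt_mul (by norm_num)]
  calc Real.sqrt 2 * Real.sqrt X * (1 / 2) ^ j * (2 / Real.sqrt 3) ^ j * (2 + 2 * (1 / Real.sqrt 2)) ^ j *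
      (2 * (Real.sqrt X * (1 / 2) ^ j))
      = 2 * Real.sqrt 2 * Real.sqrt X ^ 2 *
        ((1 / 2 : ℝ) * (2 / Real.sqrt 3) * (2 + 2 * (1 / Real.sqrt 2)) * (1 / 2)) ^ j := by
        rw [mul_pow, mul_pow, mul_pow]
        ring
    _ = 2 * Real.sqrt 2 * X * g ^ j := by rw [hg, hX2]
    _ ≤ 3 * X * g ^ j := by
        have : 0 ≤ g ^ j := pow_nonneg hg0 j
        have h3 : 2 * Real.sqrt 2 * X ≤ 3 * X := by nlinarith
        exact mul_le_mul_of_nonneg_right h3 this

theorem count {j X : ℕ} (h : 4 ^ j ≤ X) :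
    (((Finset.Icc (4 ^ j) X).filter (fun m => T^[j] m ≤ X)).card : ℝ) ≤ 3 * X * g ^ j := by
  classical
  have h4pos : 0 < 4 ^ j := by positivity
  set N := X / 4 ^ j with hN
  let c : ℝ := Real.sqrt (2 * X) * (1 / 2) ^ j * (2 / Real.sqrt 3) ^ j
  have hc : 0 ≤ c := by positivity
  let w : ℕ × ℕ → ℝ := fun p => c * (1 / Real.sqrt (p.1 : ℝ)) * (1 / Real.sqrt 2) ^ ev j (4 ^ j * p.1 + p.2)
  have hw : ∀ p, 0 ≤ w p := fun p => by
    show 0 ≤ c * (1 / Real.sqrt (p.1 : ℝ)) * (1 / Real.sqrt 2) ^ ev j (4 ^ j * p.1 + p.2)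
    positivity
  let φ : ℕ → ℕ × ℕ := fun m => (m / 4 ^ j, m % 4 ^ j)
  have hinj : Function.Injective φ := by
    intro a b hab
    have h1 : a / 4 ^ j = b / 4 ^ j := congrArg Prod.fst hab
    have h2 : a % 4 ^ j = b % 4 ^ j := congrArg Prod.snd hab
    rw [← Nat.div_add_mod a (4 ^ j), ← Nat.div_add_mod b (4 ^ j), h1, h2]
  have hmain : ∀ m ∈ (Finset.Icc (4 ^ j) X).filter (fun m => T^[j] m ≤ X), (1 : ℝ) ≤ w (φ m) := by
    intro m hm
    rw [Finset.mem_filter, Finset.mem_Icc] at hm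
    obtain ⟨⟨h1, h2⟩, h3⟩ := hm
    have hmpos : 0 < m := lt_of_lt_of_le h4pos h1
    refine (weight h hmpos h3).trans ?_
    show _ ≤ c * (1 / Real.sqrt ((m / 4 ^ j : ℕ) : ℝ)) *
      (1 / Real.sqrt 2) ^ ev j (4 ^ j * (m / 4 ^ j) + m % 4 ^ j)
    rw [Nat.div_add_mod]
    refine mul_le_mul_of_nonneg_right ?_ (by positivity)
    have hi : 0 < m / 4 ^ j := Nat.div_pos h1 h4pos
    have hi' : (0 : ℝ) < ((m / 4 ^ j : ℕ) : ℝ) := by exact_mod_cast hi
    have hle : (4 : ℝ) ^ j * ((m / 4 ^ j : ℕ) : ℝ) ≤ m := by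
      have := Nat.mul_div_le m (4 ^ j)
      exact_mod_cast this
    have hs : Real.sqrt ((4 : ℝ) ^ j * ((m / 4 ^ j : ℕ) : ℝ)) = 2 ^ j * Real.sqrt ((m / 4 ^ j : ℕ) : ℝ) := by
      rw [Real.sqrt_mul (by positivity)]
      congr 1
      rw [Real.sqrt_eq_iff_mul_self_eq (by positivity) (by positivity), ← mul_pow]
      norm_num
    have hsi : 0 < Real.sqrt ((m / 4 ^ j : ℕ) : ℝ) := Real.sqrt_pos.2 hi'
    have hsm : 2 ^ j * Real.sqrt ((m / 4 ^ j : ℕ) : ℝ) ≤ Real.sqrt (m : ℝ) := by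
      rw [← hs]
      exact Real.sqrt_le_sqrt hle
    have h5 : Real.sqrt (2 * X) / Real.sqrt m ≤
        Real.sqrt (2 * X) * (1 / 2) ^ j * (1 / Real.sqrt ((m / 4 ^ j : ℕ) : ℝ)) := by
      have h6 : Real.sqrt (2 * X) * (1 / 2) ^ j * (1 / Real.sqrt ((m / 4 ^ j : ℕ) : ℝ)) =
          Real.sqrt (2 * X) / (2 ^ j * Real.sqrt ((m / 4 ^ j : ℕ) : ℝ)) := by
        rw [one_div_pow]
        field_simp
      rw [h6]
      exact div_le_div_of_nonneg_left (Real.sqrt_nonneg _) (by positivity) hsm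
    calc Real.sqrt (2 * X) / Real.sqrt m * (2 / Real.sqrt 3) ^ j
        ≤ Real.sqrt (2 * X) * (1 / 2) ^ j * (1 / Real.sqrt ((m / 4 ^ j : ℕ) : ℝ)) * (2 / Real.sqrt 3) ^ j :=
          mul_le_mul_of_nonneg_right h5 (by positivity)
      _ = c * (1 / Real.sqrt ((m / 4 ^ j : ℕ) : ℝ)) := by
          show _ = Real.sqrt (2 * X) * (1 / 2) ^ j * (2 / Real.sqrt 3) ^ j * _
          ring
  have hsub : ((Finset.Icc (4 ^ j) X).filter (fun m => T^[j] m ≤ X)).image φ ⊆
      Finset.Icc 1 N ×ˢ Finset.range (4 ^ j) := by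
    intro p hp
    rw [Finset.mem_image] at hp
    obtain ⟨m, hm, rfl⟩ := hp
    rw [Finset.mem_filter, Finset.mem_Icc] at hm
    rw [Finset.mem_product, Finset.mem_Icc, Finset.mem_range]
    exact ⟨⟨Nat.div_pos hm.1.1 h4pos, Nat.div_le_div_right hm.1.2⟩, Nat.mod_lt _ h4pos⟩
  have h1 : (((Finset.Icc (4 ^ j) X).filter (fun m => T^[j] m ≤ X)).card : ℝ) ≤
      ∑ p ∈ Finset.Icc 1 N ×ˢ Finset.range (4 ^ j), w p := by
    calc (((Finset.Icc (4 ^ j) X).filter (fun m => T^[j] m ≤ X)).card : ℝ)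
        = ∑ m ∈ (Finset.Icc (4 ^ j) X).filter (fun m => T^[j] m ≤ X), (1 : ℝ) := by simp
      _ ≤ ∑ m ∈ (Finset.Icc (4 ^ j) X).filter (fun m => T^[j] m ≤ X), w (φ m) := Finset.sum_le_sum hmain
      _ = ∑ p ∈ ((Finset.Icc (4 ^ j) X).filter (fun m => T^[j] m ≤ X)).image φ, w p := by
          rw [Finset.sum_image (hinj.injOn)]
      _ ≤ _ := Finset.sum_le_sum_of_subset_of_nonneg hsub fun p _ _ => hw p
  have h2 : ∑ p ∈ Finset.Icc 1 N ×ˢ Finset.range (4 ^ j), w p =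
      c * (2 + 2 * (1 / Real.sqrt 2)) ^ j * ∑ i ∈ Finset.Icc 1 N, 1 / Real.sqrt (i : ℝ) := by
    rw [Finset.sum_product, Finset.mul_sum]
    refine Finset.sum_congr rfl fun i _ => ?_
    show ∑ r ∈ Finset.range (4 ^ j), c * (1 / Real.sqrt (i : ℝ)) * (1 / Real.sqrt 2) ^ ev j (4 ^ j * i + r) = _
    rw [← Finset.mul_sum, sum_block]
    ring
  have hNX : Real.sqrt (N : ℝ) ≤ Real.sqrt (X : ℝ) * (1 / 2) ^ j := by
    have h3 : (4 : ℝ) ^ j * (N : ℝ) ≤ X := by
      have := Nat.mul_div_le X (4 ^ j)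
      exact_mod_cast this
    have hs : Real.sqrt ((4 : ℝ) ^ j * (N : ℝ)) = 2 ^ j * Real.sqrt (N : ℝ) := by
      rw [Real.sqrt_mul (by positivity)]
      congr 1
      rw [Real.sqrt_eq_iff_mul_self_eq (by positivity) (by positivity), ← mul_pow]
      norm_num
    have h4 : 2 ^ j * Real.sqrt (N : ℝ) ≤ Real.sqrt (X : ℝ) := by
      rw [← hs]
      exact Real.sqrt_le_sqrt h3
    rw [one_div_pow, mul_one_div, le_div_iff₀ (by positivity)]
    linarith
  calc (((Finset.Icc (4 ^ j) X).filter (fun m => T^[j] m ≤ X)).card : ℝ)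
      ≤ c * (2 + 2 * (1 / Real.sqrt 2)) ^ j * ∑ i ∈ Finset.Icc 1 N, 1 / Real.sqrt (i : ℝ) := by
        rw [← h2]
        exact h1
    _ ≤ c * (2 + 2 * (1 / Real.sqrt 2)) ^ j * (2 * (Real.sqrt (X : ℝ) * (1 / 2) ^ j)) := by
        refine mul_le_mul_of_nonneg_left ?_ (by positivity)
        exact (sum_inv_sqrt N).trans (mul_le_mul_of_nonneg_left hNX (by norm_num))
    _ ≤ 3 * X * g ^ j := C_final X (Nat.cast_nonneg X) j

end Pool.Agent.MP_9e8697_nt.SL
end

section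

/-!
# TASK SL D: windows

PROOF of `window`. For `0 ≤ j ≤ J` let `A j = G.image (f^[j])`: `(A j).card = G.card` (`hf.iterate j`, `Finset.card_image_of_injective`).
`U = (range (J+1)).biUnion A`.
(1) `∑_{j ≤ J} (A j).card = ∑_{y ∈ U} #{j ≤ J : y ∈ A j}` (`Finset.sum_card_bipartiteAbove_eq_sum_card_bipartiteBelow`, or
`Finset.sum_comm` of indicator functions).
(2) For every `y`: `#{j ≤ J : y ∈ A j} ≤ a`. If the set is empty: clear. Otherwise let `j₀` be its minimum, `y = f^[j₀] g₀`, `g₀ ∈ G`. For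
`j` in the set, `y = f^[j] g = f^[j₀] (f^[j - j₀] g)`, `g ∈ G`, so `g₀ = f^[j - j₀] g ∈ G` by injectivity; if `a ≤ j - j₀` this contradicts `h`
(`j - j₀ ≤ J`). So the set is contained in `Ico j₀ (j₀ + a)`.
(3) `U.card ≤ S.card + J * (S.image f \ S).card`: `U ⊆ S ∪ (range J).biUnion (fun i => (S.image f \ S).image (f^[i]))`: let `y = f^[j] g`, `g ∈ G ⊆ S`,
`j ≤ J`, `y ∉ S`; let `i` be the largest `i < j` (or the first exit: the least `i` with `f^[i+1] g ∉ S`, `Nat.find`) such that `f^[i] g ∈ S` and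
`f^[i+1] g ∉ S`; then `f^[i+1] g ∈ S.image f \ S` and `y = f^[j-i-1] (f^[i+1] g)`, `j - i - 1 < J`.
So `(J + 1) G.card = ∑_j (A j).card ≤ a U.card ≤ a (S.card + J (S.image f \ S).card)`.
-/

set_option autoImplicit false

namespace Pool.Agent.MP_9e8697_nt.SL

theorem window {f : ℕ → ℕ} (hf : Function.Injective f) {S G : Finset ℕ} (hG : G ⊆ S) {a J : ℕ}
    (h : ∀ x ∈ G, ∀ j, a ≤ j → j ≤ J → f^[j] x ∉ G) :
    (J + 1) * G.card ≤ a * (S.card + J * (S.image f \ S).card) := by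
  classical
  set A : ℕ → Finset ℕ := fun j => G.image (f^[j]) with hA
  set U : Finset ℕ := (Finset.range (J+1)).biUnion A with hU
  have hcard : ∀ j, (A j).card = G.card := fun j =>
    Finset.card_image_of_injective _ (hf.iterate j)
  have h2 : ∀ y ∈ U, ((Finset.range (J+1)).filter (fun j => y ∈ A j)).card ≤ a := by
    intro y _
    set F := (Finset.range (J+1)).filter (fun j => y ∈ A j) with hF
    by_cases hne : F.Nonempty
    · obtain ⟨j0, hj0, hmin⟩ : ∃ j0 ∈ F, ∀ j ∈ F, j0 ≤ j :=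
        ⟨F.min' hne, F.min'_mem hne, fun j hj => F.min'_le j hj⟩
      have hsub : F ⊆ Finset.Ico j0 (j0 + a) := by
        intro j hj
        rw [Finset.mem_Ico]
        refine ⟨hmin j hj, ?_⟩
        by_contra hcon
        push Not at hcon
        have hj0j := hmin j hj
        obtain ⟨hjr, hjA⟩ := Finset.mem_filter.1 hj
        obtain ⟨h0r, h0A⟩ := Finset.mem_filter.1 hj0
        obtain ⟨g, hg, hgy⟩ := Finset.mem_image.1 hjA
        obtain ⟨g0, hg0, hg0y⟩ := Finset.mem_image.1 h0A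
        have e0 : j0 + (j - j0) = j := by omega
        have e : f^[j0] (f^[j - j0] g) = f^[j0] g0 := by
          rw [← Function.iterate_add_apply, e0, hg0y, hgy]
        have e' := hf.iterate j0 e
        have hr := Finset.mem_range.1 hjr
        refine h g hg (j - j0) (by omega) (by omega) ?_
        rw [e']
        exact hg0
      calc F.card ≤ _ := Finset.card_le_card hsub
        _ = a := by simp
    · rw [Finset.not_nonempty_iff_eq_empty.1 hne]
      simp
  have h1 : (J+1) * G.card ≤ a * U.card := by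
    have e1 : ∑ j ∈ Finset.range (J+1), (A j).card =
        ∑ y ∈ U, ((Finset.range (J+1)).filter (fun j => y ∈ A j)).card := by
      have e2 := Finset.sum_card_bipartiteAbove_eq_sum_card_bipartiteBelow
        (s := Finset.range (J+1)) (t := U) (fun j y => y ∈ A j)
      have e3 : ∀ j ∈ Finset.range (J+1), (A j).card =
          (Finset.bipartiteAbove (fun j y => y ∈ A j) U j).card := by
        intro j hj
        congr 1
        ext y
        rw [Finset.mem_bipartiteAbove]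
        exact ⟨fun hy => ⟨Finset.mem_biUnion.2 ⟨j, hj, hy⟩, hy⟩, fun hy => hy.2⟩
      rw [Finset.sum_congr rfl e3, e2]
      rfl
    calc (J+1) * G.card = ∑ j ∈ Finset.range (J+1), (A j).card := by simp [hcard]
      _ = _ := e1
      _ ≤ ∑ y ∈ U, a := Finset.sum_le_sum h2
      _ = a * U.card := by simp [mul_comm]
  have hstep : ∀ (j g : ℕ), g ∈ S → (f^[j] g ∈ S ∨
      ∃ i < j, f^[j] g ∈ (S.image f \ S).image (f^[i])) := by
    intro j
    induction j with
    | zero => intro g hg; exact Or.inl hg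
    | succ j ih =>
      intro g hg
      rw [Function.iterate_succ_apply']
      rcases ih g hg with h' | ⟨i, hi, h'⟩
      · by_cases hs : f (f^[j] g) ∈ S
        · exact Or.inl hs
        · refine Or.inr ⟨0, Nat.succ_pos _, Finset.mem_image.2 ⟨f (f^[j] g), ?_, rfl⟩⟩
          exact Finset.mem_sdiff.2 ⟨Finset.mem_image_of_mem f h', hs⟩
      · obtain ⟨s, hs, hs'⟩ := Finset.mem_image.1 h'
        refine Or.inr ⟨i + 1, Nat.succ_lt_succ hi, Finset.mem_image.2 ⟨s, hs, ?_⟩⟩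
        rw [Function.iterate_succ_apply', hs']
  have h3 : U.card ≤ S.card + J * (S.image f \ S).card := by
    have hsub : U ⊆ S ∪ (Finset.range J).biUnion (fun i => (S.image f \ S).image (f^[i])) := by
      intro y hy
      obtain ⟨j, hj, hy'⟩ := Finset.mem_biUnion.1 hy
      obtain ⟨g, hg, rfl⟩ := Finset.mem_image.1 hy'
      have hj' := Finset.mem_range.1 hj
      rcases hstep j g (hG hg) with h' | ⟨i, hi, h'⟩
      · exact Finset.mem_union_left _ h'
      · exact Finset.mem_union_right _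
          (Finset.mem_biUnion.2 ⟨i, Finset.mem_range.2 (by omega), h'⟩)
    refine (Finset.card_le_card hsub).trans ((Finset.card_union_le _ _).trans ?_)
    refine Nat.add_le_add_left ?_ _
    refine Finset.card_biUnion_le.trans ?_
    refine (Finset.sum_le_sum (fun i _ => Finset.card_image_le)).trans ?_
    simp
  exact h1.trans (Nat.mul_le_mul_left _ h3)

end Pool.Agent.MP_9e8697_nt.SL
end

section

/-!
# TASK SL E: the constant `g`

PROOF. `(√3 g)^2 = (1 + 1/√2)^2 = 3/2 + √2` (`1/√2 = √2/2`), so `g^2 = (3/2 + √2)/3` and `√2 ≤ 1.41422` gives `g^2 ≤ 0.971407 ≤ 0.9856^2`, so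
`g ≤ 0.9856`. `g_pow`: `g^96 ≤ 0.9856^96 ≤ 1/4` (`norm_num`; or `0.9856^3 ≤ 0.95742`, `0.9856^6 ≤ ...` with rounding up in steps; logarithms:
`96 log 0.9856 = -1.39245`, `log (1/4) = -1.38629`). `g_geom`: `(1 - g) ∑_{j=a}^{J} g^j ≤ g^a` and `1 - g ≥ 0.0144`, `1/0.0144 < 69.5`;
(for `J < a` the sum is `0`; induction on `J`, or `geom_sum_Ico`).
-/

set_option autoImplicit false

namespace Pool.Agent.MP_9e8697_nt.SL

theorem g_pos : 0 < g := by
  unfold g
  positivity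

theorem g_le : g ≤ 0.9856 := by
  unfold g
  have hs : Real.sqrt 2 * Real.sqrt 2 = 2 := Real.mul_self_sqrt (by norm_num)
  have hs0 : 0 < Real.sqrt 2 := Real.sqrt_pos.2 (by norm_num)
  have hs1 : Real.sqrt 2 ≤ 1.41422 := Real.sqrt_le_iff.2 ⟨by norm_num, by norm_num⟩
  have ht0 : 0 < Real.sqrt 3 := Real.sqrt_pos.2 (by norm_num)
  have h1 : 1 / Real.sqrt 2 = Real.sqrt 2 / 2 := by
    rw [div_eq_div_iff hs0.ne' two_ne_zero]
    linarith
  rw [h1, div_le_iff₀ ht0]
  have h2 : (1 + Real.sqrt 2 / 2) / 0.9856 ≤ Real.sqrt 3 := by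
    apply Real.le_sqrt_of_sq_le
    rw [div_pow, div_le_iff₀ (by norm_num)]
    nlinarith
  rw [div_le_iff₀ (by norm_num)] at h2
  linarith

theorem g_pow : g ^ 96 ≤ 1 / 4 := by
  calc g ^ 96 ≤ (0.9856 : ℝ) ^ 96 := pow_le_pow_left₀ g_pos.le g_le 96
    _ ≤ 1 / 4 := by norm_num

theorem g_geom (a J : ℕ) : ∑ j ∈ Finset.Icc a J, g ^ j ≤ 69.5 * g ^ a := by
  have hg := g_pos
  have hg1 := g_le
  have key : ∀ n : ℕ, g ^ n ≤ 69.5 * (g ^ n - g ^ (n + 1)) := by
    intro n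
    have h1 : 0 < g ^ n := pow_pos hg n
    rw [pow_succ]
    nlinarith
  rcases lt_or_ge J a with h | h
  · rw [Finset.Icc_eq_empty (by omega), Finset.sum_empty]
    positivity
  · obtain ⟨n, rfl⟩ := Nat.exists_eq_add_of_le h
    have h2 : ∀ n : ℕ, ∑ j ∈ Finset.Icc a (a + n), g ^ j ≤ 69.5 * (g ^ a - g ^ (a + n + 1)) := by
      intro n
      induction n with
      | zero =>
        rw [add_zero, Finset.Icc_self, Finset.sum_singleton]
        exact key a
      | succ n ih =>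
        rw [← add_assoc, Finset.sum_Icc_succ_top (by omega)]
        have h3 := key (a + n + 1)
        linarith
    have h4 := h2 n
    have h5 : 0 < g ^ (a + n + 1) := pow_pos hg _
    linarith

/-- `(1/4) (2/√3) (2 + 2/√2) = g` -/
theorem g_eq : (1 / 4 : ℝ) * (2 / Real.sqrt 3) * (2 + 2 * (1 / Real.sqrt 2)) = g := by
  unfold g
  ring

end Pool.Agent.MP_9e8697_nt.SL
end

section

/-!
# TASK SL F: the inequality for a finite set

PROOF of `main_ineq`. Let `G` be the set of the `m ∈ S` with `4^J ≤ m ≤ X` and `X < T^[j] m` for all `j` with `a ≤ j ≤ J` (a filter of `S`).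
For `m ∈ G` and `a ≤ j ≤ J`: `T^[j] m > X`, so `T^[j] m ∉ G`: `window` (`T_injective`) gives
`(J+1) G.card ≤ a (S.card + J (S.image T \ S).card)`, and after division by `J + 1`, with `J/(J+1) ≤ 1`:
`G.card ≤ (a/(J+1)) S.card + a (S.image T \ S).card` in `ℝ`.
`S.filter (· ≤ X) ⊆ G ∪ range (4^J) ∪ (Icc a J).biUnion (fun j => (Icc (4^j) X).filter (fun m => T^[j] m ≤ X))` (for `m ≥ 4^J`, `m ∉ G` there is
`j ∈ [a, J]` with `T^[j] m ≤ X`, and `4^j ≤ 4^J ≤ m`). Cardinalities: `4^J`, and `count` with `4^j ≤ 4^J ≤ X` and `g_geom`: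
`∑_{j=a}^{J} 3 X g^j ≤ 3 X 69.5 g^a ≤ 209 X g^a` (`g_pos`).
-/

set_option autoImplicit false

namespace Pool.Agent.MP_9e8697_nt.SL

theorem main_ineq (S : Finset ℕ) {X J : ℕ} (a : ℕ) (hJ : 4 ^ J ≤ X) :
    ((S.filter (fun m => m ≤ X)).card : ℝ) ≤ (4 : ℝ) ^ J + 209 * X * g ^ a + (a : ℝ) / (J + 1) * S.card +
      a * ((S.image T \ S).card : ℝ) := by
  classical
  set G : Finset ℕ := S.filter (fun m => 4 ^ J ≤ m ∧ m ≤ X ∧ ∀ j ∈ Finset.Icc a J, X < T^[j] m) with hG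
  set R : ℕ := (S.image T \ S).card with hR
  have h1 : (J + 1) * G.card ≤ a * (S.card + J * R) := by
    refine window T_injective (Finset.filter_subset _ _) ?_
    intro x hx j hj1 hj2 hmem
    have h2 := (Finset.mem_filter.1 hx).2.2.2 j (Finset.mem_Icc.2 ⟨hj1, hj2⟩)
    have h3 := (Finset.mem_filter.1 hmem).2.2.1
    omega
  have h1' : ((J : ℝ) + 1) * G.card ≤ a * (S.card + J * R) := by exact_mod_cast h1
  have hJ1 : (0 : ℝ) < (J : ℝ) + 1 := by positivity
  have h2 : (G.card : ℝ) ≤ (a : ℝ) / (J + 1) * S.card + a * R := by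
    have e1 : (G.card : ℝ) ≤ a * (S.card + J * R) / ((J : ℝ) + 1) := by
      rw [le_div_iff₀ hJ1]
      linarith
    refine e1.trans ?_
    rw [div_le_iff₀ hJ1]
    have e2 : ((a : ℝ) / (J + 1) * S.card + a * R) * (J + 1) = a * S.card + a * R * (J + 1) := by
      field_simp
    rw [e2]
    have e3 : (0 : ℝ) ≤ (a : ℝ) * R := by positivity
    nlinarith
  have h3 : S.filter (fun m => m ≤ X) ⊆ (G ∪ Finset.range (4 ^ J)) ∪
      (Finset.Icc a J).biUnion (fun j => (Finset.Icc (4 ^ j) X).filter (fun m => T^[j] m ≤ X)) := by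
    intro m hm
    obtain ⟨hmS, hmX⟩ := Finset.mem_filter.1 hm
    by_cases h4 : m < 4 ^ J
    · exact Finset.mem_union_left _ (Finset.mem_union_right _ (Finset.mem_range.2 h4))
    · rw [not_lt] at h4
      by_cases h5 : ∀ j ∈ Finset.Icc a J, X < T^[j] m
      · exact Finset.mem_union_left _ (Finset.mem_union_left _
          (Finset.mem_filter.2 ⟨hmS, h4, hmX, h5⟩))
      · push Not at h5
        obtain ⟨j, hj, hjX⟩ := h5
        refine Finset.mem_union_right _ (Finset.mem_biUnion.2 ⟨j, hj,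
          Finset.mem_filter.2 ⟨Finset.mem_Icc.2 ⟨?_, hmX⟩, hjX⟩⟩)
        exact (Nat.pow_le_pow_right (by norm_num) (Finset.mem_Icc.1 hj).2).trans h4
  have h4 : ((S.filter (fun m => m ≤ X)).card : ℝ) ≤ (G.card + (4 : ℝ) ^ J) +
      ∑ j ∈ Finset.Icc a J,
        (((Finset.Icc (4 ^ j) X).filter (fun m => T^[j] m ≤ X)).card : ℝ) := by
    have e1 := (Finset.card_le_card h3).trans ((Finset.card_union_le _ _).trans
      (Nat.add_le_add (Finset.card_union_le _ _) Finset.card_biUnion_le))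
    rw [Finset.card_range] at e1
    exact_mod_cast e1
  have h5 : ∑ j ∈ Finset.Icc a J,
      (((Finset.Icc (4 ^ j) X).filter (fun m => T^[j] m ≤ X)).card : ℝ) ≤ 209 * X * g ^ a := by
    calc _ ≤ ∑ j ∈ Finset.Icc a J, 3 * (X : ℝ) * g ^ j := by
          refine Finset.sum_le_sum fun j hj => count ?_
          exact (Nat.pow_le_pow_right (by norm_num) (Finset.mem_Icc.1 hj).2).trans hJ
      _ = 3 * (X : ℝ) * ∑ j ∈ Finset.Icc a J, g ^ j := by rw [Finset.mul_sum]
      _ ≤ 3 * (X : ℝ) * (69.5 * g ^ a) :=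
          mul_le_mul_of_nonneg_left (g_geom a J) (by positivity)
      _ ≤ _ := by
          have e1 : (0 : ℝ) ≤ (X : ℝ) * g ^ a := mul_nonneg (by positivity) (pow_nonneg g_pos.le a)
          nlinarith
  linarith

end Pool.Agent.MP_9e8697_nt.SL
end
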