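import Mathlib
import Pool.Agent.Lib.MP_9e8697_nt.Mg.G007

section

/-!
# TASK SL G: the choice of the parameters

PROOF of `params`. Let `c = ε/100 ∈ (0, 1/100]` and `J₀ = ⌈100/ε⌉`.
LARGE `X`: `X^(1-c) ≥ 4^J₀`. Let `J = ⌊log_4 (X^(1-c))⌋ = ⌊(1-c) log X/log 4⌋` (`Nat.floor`), so `4^J ≤ X^(1-c) < 4^(J+1)` (`4^J ≤ X` follows) and
`J ≥ J₀ ≥ 100/ε`. Let `a = ⌈(97/100) ε J⌉` (`Nat.ceil`). `a ≤ 0.97 ε J + 1 ≤ 0.97 ε J + 0.01 ε J ≤ 0.98 ε (J + 1)`. `a ≤ J + 1 ≤ 2 J ≤ 2 log X/log 4 ≤ 2 log (X+1)`.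
`g^a`: `a ≥ 0.97 ε J` and `g^96 ≤ 1/4` give `log g ≤ - (log 4)/96` (`g_pow`, `Real.log_le_log`), so
`a log g ≤ - 0.97 ε J (log 4)/96 = - (0.97 ε/96) (J+1) log 4 + (0.97 ε/96) log 4 ≤ - (0.97 ε/96) (1-c) log X + 1` and
`(0.97/96)(1-c) ≥ (0.97/96)(0.99) ≥ 1/100`: `g^a ≤ e X^(-ε/100) = e X^(-c)`. So `4^J + 209 X g^a ≤ (1 + 209 e) X^(1-c)` and `1 + 209 e ≤ 600`.
SMALL `X`: `X^(1-c) < 4^J₀`: `J = 0`, `a = 0`: `1 + 209 X ≤ 210 X = 210 X^(1-c) X^c`, and `X^c ≤ X^(1-c) ≤ 4^J₀` (`c ≤ 1/2`, `1 ≤ X`).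
`K = 600 + 210 * 4^J₀`. (`X^c ≤ X^(1-c)`: `Real.rpow_le_rpow_of_exponent_le`.)
-/

set_option autoImplicit false

namespace Pool.Agent.MP_9e8697_nt.SL

theorem params (ε : ℝ) (h0 : 0 < ε) (h1 : ε ≤ 1) : ∃ K : ℝ, 0 < K ∧ ∀ X : ℕ, 1 ≤ X → ∃ J a : ℕ, 4 ^ J ≤ X ∧
    (4 : ℝ) ^ J + 209 * X * g ^ a ≤ K * (X : ℝ) ^ (1 - ε / 100) ∧ (a : ℝ) / (J + 1) ≤ 98 / 100 * ε ∧
      (a : ℝ) ≤ K * Real.log (X + 1) := by
  set c : ℝ := ε / 100 with hc
  have hc0 : 0 < c := by positivity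
  have hc1 : c ≤ 1 / 100 := by rw [hc]; linarith
  set J₀ : ℕ := ⌈100 / ε⌉₊ with hJ₀
  have hJ₀1 : 100 / ε ≤ (J₀ : ℝ) := Nat.le_ceil _
  have h4J : (1 : ℝ) ≤ 4 ^ J₀ := one_le_pow₀ (by norm_num)
  refine ⟨600 + 210 * 4 ^ J₀, by positivity, fun X hX => ?_⟩
  have hX1 : (1 : ℝ) ≤ X := by exact_mod_cast hX
  have hX0 : (0 : ℝ) < X := by linarith
  have hL0 : 0 ≤ Real.log X := Real.log_nonneg hX1
  have hL1 : Real.log X ≤ Real.log (X + 1) := Real.log_le_log hX0 (by linarith)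
  have hP0 : 0 < (X : ℝ) ^ (1 - c) := Real.rpow_pos_of_pos hX0 _
  have hsplit : (X : ℝ) = (X : ℝ) ^ (1 - c) * (X : ℝ) ^ c := by
    rw [← Real.rpow_add hX0]
    norm_num
  have hlog4 : Real.log 4 = 2 * Real.log 2 := by
    rw [show (4 : ℝ) = 2 ^ 2 by norm_num, Real.log_pow]
    norm_num
  have hl1 := Real.log_two_gt_d9
  have hl2 := Real.log_two_lt_d9
  have h4pos : 1 < Real.log 4 := by rw [hlog4]; linarith
  by_cases hcase : (4 : ℝ) ^ J₀ ≤ (X : ℝ) ^ (1 - c)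
  · -- large X
    set y : ℝ := (1 - c) * Real.log X / Real.log 4 with hy
    have hy0 : 0 ≤ y := by
      have : 0 ≤ 1 - c := by linarith
      positivity
    have hy4 : y * Real.log 4 = (1 - c) * Real.log X := by
      rw [hy, div_mul_cancel₀]
      linarith
    set J : ℕ := ⌊y⌋₊ with hJ
    have hJ1 : (J : ℝ) ≤ y := Nat.floor_le hy0
    have hJ2 : y < J + 1 := Nat.lt_floor_add_one y
    have hJJ₀ : J₀ ≤ J := by
      apply Nat.le_floor
      have e1 : Real.log ((4 : ℝ) ^ J₀) ≤ Real.log ((X : ℝ) ^ (1 - c)) :=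
        Real.log_le_log (by positivity) hcase
      rw [Real.log_pow, Real.log_rpow hX0, ← hy4] at e1
      exact le_of_mul_le_mul_right e1 (by linarith)
    have hJJ₀' : (J₀ : ℝ) ≤ J := by exact_mod_cast hJJ₀
    have hεJ : 100 ≤ ε * J := by
      have e1 : 100 / ε ≤ (J : ℝ) := hJ₀1.trans hJJ₀'
      rw [div_le_iff₀ h0] at e1
      linarith
    have h4JX : (4 : ℝ) ^ J ≤ (X : ℝ) ^ (1 - c) := by
      have e1 : (4 : ℝ) ^ J = Real.exp (J * Real.log 4) := by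
        rw [Real.exp_nat_mul, Real.exp_log (by norm_num)]
      rw [e1, Real.rpow_def_of_pos hX0]
      apply Real.exp_le_exp.2
      have e2 : (J : ℝ) * Real.log 4 ≤ y * Real.log 4 :=
        mul_le_mul_of_nonneg_right hJ1 (by linarith)
      rw [hy4] at e2
      linarith
    have hXle : (X : ℝ) ^ (1 - c) ≤ X := by
      have e1 : (X : ℝ) ^ (1 - c) ≤ (X : ℝ) ^ (1 : ℝ) :=
        Real.rpow_le_rpow_of_exponent_le hX1 (by linarith)
      rwa [Real.rpow_one] at e1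
    set a : ℕ := ⌈97 / 100 * ε * J⌉₊ with ha
    have ha1 : 97 / 100 * ε * J ≤ (a : ℝ) := Nat.le_ceil _
    have ha2 : (a : ℝ) < 97 / 100 * ε * J + 1 := Nat.ceil_lt_add_one (by positivity)
    have hJnn : (0 : ℝ) ≤ J := Nat.cast_nonneg _
    have ha3 : (a : ℝ) ≤ 98 / 100 * ε * J := by nlinarith
    refine ⟨J, a, ?_, ?_, ?_, ?_⟩
    · exact_mod_cast h4JX.trans hXle
    · have hlg : 96 * Real.log g ≤ - Real.log 4 := by
        have e1 := Real.log_le_log (pow_pos g_pos 96) g_pow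
        rw [Real.log_pow, one_div, Real.log_inv] at e1
        exact_mod_cast e1
      have e1 : (a : ℝ) * Real.log g ≤ 1 + Real.log X * (-c) := by
        have e2 : (a : ℝ) * (96 * Real.log g) ≤ (a : ℝ) * (- Real.log 4) :=
          mul_le_mul_of_nonneg_left hlg (Nat.cast_nonneg _)
        have e3 : (97 / 100 * ε * J) * Real.log 4 ≤ a * Real.log 4 :=
          mul_le_mul_of_nonneg_right ha1 (by linarith)
        have e4 : y * Real.log 4 ≤ (J + 1) * Real.log 4 :=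
          mul_le_mul_of_nonneg_right hJ2.le (by linarith)
        rw [hy4] at e4
        have e5 : 97 / 100 * ε * ((1 - c) * Real.log X) ≤ 97 / 100 * ε * ((J + 1) * Real.log 4) :=
          mul_le_mul_of_nonneg_left e4 (by positivity)
        have e6 : 97 / 100 * ε * Real.log 4 ≤ 2 := by
          have : Real.log 4 ≤ 2 := by rw [hlog4]; linarith
          nlinarith
        have e7 : (99 / 100) * Real.log X ≤ (1 - c) * Real.log X :=
          mul_le_mul_of_nonneg_right (by linarith) hL0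
        have e8 : 97 / 100 * ε * ((99 / 100) * Real.log X) ≤
            97 / 100 * ε * ((1 - c) * Real.log X) := mul_le_mul_of_nonneg_left e7 (by positivity)
        have e9 : 0 ≤ ε * Real.log X := by positivity
        have e10 : Real.log X * (-c) = - (ε * Real.log X) / 100 := by rw [hc]; ring
        rw [e10]
        nlinarith
      have e2 : g ^ a ≤ Real.exp 1 * (X : ℝ) ^ (-c) := by
        have e3 : g ^ a = Real.exp (a * Real.log g) := by
          rw [Real.exp_nat_mul, Real.exp_log g_pos]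
        rw [e3, Real.rpow_def_of_pos hX0, ← Real.exp_add]
        exact Real.exp_le_exp.2 e1
      have e3 : (X : ℝ) * (X : ℝ) ^ (-c) = (X : ℝ) ^ (1 - c) := by
        rw [sub_eq_add_neg, Real.rpow_add hX0, Real.rpow_one]
      have e4 : 209 * (X : ℝ) * g ^ a ≤ 209 * Real.exp 1 * (X : ℝ) ^ (1 - c) := by
        calc 209 * (X : ℝ) * g ^ a ≤ 209 * (X : ℝ) * (Real.exp 1 * (X : ℝ) ^ (-c)) :=
              mul_le_mul_of_nonneg_left e2 (by positivity)
          _ = 209 * Real.exp 1 * ((X : ℝ) * (X : ℝ) ^ (-c)) := by ring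
          _ = _ := by rw [e3]
      have e5 : 209 * Real.exp 1 * (X : ℝ) ^ (1 - c) ≤ 599 * (X : ℝ) ^ (1 - c) :=
        mul_le_mul_of_nonneg_right (by linarith [Real.exp_one_lt_d9]) hP0.le
      have e6 : (0 : ℝ) ≤ 210 * 4 ^ J₀ * (X : ℝ) ^ (1 - c) := by positivity
      calc (4 : ℝ) ^ J + 209 * X * g ^ a ≤ (X : ℝ) ^ (1 - c) + 599 * (X : ℝ) ^ (1 - c) :=
            add_le_add h4JX (e4.trans e5)
        _ ≤ (600 + 210 * 4 ^ J₀) * (X : ℝ) ^ (1 - c) := by linarith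
    · rw [div_le_iff₀ (by positivity)]
      nlinarith
    · have e1 : (a : ℝ) ≤ J := by nlinarith
      have e2 : y ≤ Real.log X := by
        rw [hy, div_le_iff₀ (by linarith)]
        nlinarith
      have e3 : Real.log (X + 1) ≤ (600 + 210 * 4 ^ J₀) * Real.log (X + 1) := by
        have : 0 ≤ Real.log ((X : ℝ) + 1) := hL0.trans hL1
        nlinarith
      linarith
  · -- small X
    have hcase' : (X : ℝ) ^ (1 - c) < 4 ^ J₀ := lt_of_not_ge hcase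
    refine ⟨0, 0, by simpa using hX, ?_, ?_, ?_⟩
    · have e1 : (X : ℝ) ^ c ≤ (X : ℝ) ^ (1 - c) :=
        Real.rpow_le_rpow_of_exponent_le hX1 (by linarith)
      have e2 : (X : ℝ) ≤ (X : ℝ) ^ (1 - c) * 4 ^ J₀ := by
        calc (X : ℝ) = (X : ℝ) ^ (1 - c) * (X : ℝ) ^ c := hsplit
          _ ≤ (X : ℝ) ^ (1 - c) * 4 ^ J₀ :=
            mul_le_mul_of_nonneg_left (e1.trans hcase'.le) hP0.le
      rw [pow_zero, pow_zero, mul_one]
      nlinarith
    · rw [Nat.cast_zero, zero_div]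
      positivity
    · rw [Nat.cast_zero]
      have : 0 ≤ Real.log ((X : ℝ) + 1) := hL0.trans hL1
      positivity

end Pool.Agent.MP_9e8697_nt.SL
end

section

/-!
# TASK SL H: pure real numbers

PROOF of `numbers`. Let `c = ε/100`, `0 < c ≤ 1/100`, `Y = L^(1+c) ≥ 1`. `Y^(1-c) = L^(1-c^2)` (`Real.rpow_mul`), and `log (Y + 1) ≤ log (2 Y) ≤ 1 + 2 log L` and
`log L ≤ 2 L^(1/2)` (`Real.log_le_rpow_div` or `Real.log_le_sub_one_of_pos` for `L^(1/2)`). So it is enough that for every `K` and every exponent `0 ≤ b < 1`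
and every `δ > 0` there is `K'` with `K L^b ≤ δ L + K'` for all `L ≥ 1`: for `L ≥ L₀ := (K/δ)^(1/(1-b))` one has `K L^b ≤ δ L`; for `L ≤ L₀` it is `≤ K L₀^b`
(or: `isLittleO_rpow_rpow_atTop` and boundedness on a finite set of integers). Use it with `δ = ε/100`, `b = 1 - c^2` and `b = 1/2`.
-/

set_option autoImplicit false

namespace Pool.Agent.MP_9e8697_nt.SL

private theorem H_aux (K δ b : ℝ) (hK : 0 < K) (hδ : 0 < δ) (hb0 : 0 ≤ b) (hb1 : b < 1) :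
    ∃ K' : ℝ, 0 < K' ∧ ∀ L : ℝ, 1 ≤ L → K * L ^ b ≤ δ * L + K' := by
  have hM : 0 < (K / δ) ^ (1 / (1 - b)) := Real.rpow_pos_of_pos (div_pos hK hδ) _
  refine ⟨K * ((K / δ) ^ (1 / (1 - b))) ^ b, mul_pos hK (Real.rpow_pos_of_pos hM _), ?_⟩
  intro L hL
  have hL0 : 0 < L := lt_of_lt_of_le one_pos hL
  rcases le_total L ((K / δ) ^ (1 / (1 - b))) with h | h
  · have h1 : L ^ b ≤ ((K / δ) ^ (1 / (1 - b))) ^ b := Real.rpow_le_rpow hL0.le h hb0
    have h2 := mul_le_mul_of_nonneg_left h1 hK.le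
    have h3 : 0 ≤ δ * L := (mul_pos hδ hL0).le
    linarith
  · have h1 : K / δ ≤ L ^ (1 - b) := by
      have h2 := Real.rpow_le_rpow hM.le h (by linarith : (0 : ℝ) ≤ 1 - b)
      rw [← Real.rpow_mul (div_pos hK hδ).le, one_div, inv_mul_cancel₀ (by linarith), Real.rpow_one] at h2
      exact h2
    have h3 : L = L ^ (1 - b) * L ^ b := by
      rw [← Real.rpow_add hL0]
      rw [show 1 - b + b = 1 by ring, Real.rpow_one]
    have h4 : K ≤ δ * L ^ (1 - b) := by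
      rw [div_le_iff₀ hδ] at h1
      linarith
    have h5 : 0 < L ^ b := Real.rpow_pos_of_pos hL0 _
    have h6 := mul_le_mul_of_nonneg_right h4 h5.le
    have h7 : δ * L ^ (1 - b) * L ^ b = δ * L := by
      rw [mul_assoc, ← h3]
    have h8 : 0 < K * ((K / δ) ^ (1 / (1 - b))) ^ b := mul_pos hK (Real.rpow_pos_of_pos hM _)
    linarith

theorem numbers (ε K : ℝ) (h0 : 0 < ε) (h1 : ε ≤ 1) (hK : 0 < K) : ∃ K' : ℝ, 0 < K' ∧ ∀ L : ℕ, 1 ≤ L →
    98 / 100 * ε * L + K * ((L : ℝ) ^ (1 + ε / 100)) ^ (1 - ε / 100) + K * Real.log ((L : ℝ) ^ (1 + ε / 100) + 1) ≤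
      ε * L + K' := by
  have hδ : 0 < ε / 100 := by positivity
  obtain ⟨K1, hK1, H1⟩ := H_aux K (ε / 100) ((1 + ε / 100) * (1 - ε / 100)) hK hδ
    (by nlinarith) (by nlinarith)
  obtain ⟨K2, hK2, H2⟩ := H_aux (4 * K) (ε / 100) (1 / 2) (by linarith) hδ (by norm_num) (by norm_num)
  refine ⟨K1 + K2 + K, by linarith, ?_⟩
  intro L hL
  have hL1 : (1 : ℝ) ≤ (L : ℝ) := by exact_mod_cast hL
  have hL0 : (0 : ℝ) < (L : ℝ) := lt_of_lt_of_le one_pos hL1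
  have e1 : ((L : ℝ) ^ (1 + ε / 100)) ^ (1 - ε / 100) = (L : ℝ) ^ ((1 + ε / 100) * (1 - ε / 100)) :=
    (Real.rpow_mul hL0.le _ _).symm
  rw [e1]
  have hY : 1 ≤ (L : ℝ) ^ (1 + ε / 100) := Real.one_le_rpow hL1 (by linarith)
  have hlog : Real.log ((L : ℝ) ^ (1 + ε / 100) + 1) ≤ 1 + 4 * (L : ℝ) ^ ((1 : ℝ) / 2) := by
    have a1 : Real.log ((L : ℝ) ^ (1 + ε / 100) + 1) ≤ Real.log (2 * (L : ℝ) ^ (1 + ε / 100)) :=
      Real.log_le_log (by linarith) (by linarith)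
    have a2 : Real.log (2 * (L : ℝ) ^ (1 + ε / 100)) = Real.log 2 + (1 + ε / 100) * Real.log L := by
      rw [Real.log_mul (by norm_num) (by linarith), Real.log_rpow hL0]
    have a3 : Real.log 2 ≤ 1 := by
      have := Real.log_two_lt_d9
      linarith
    have a4 : 0 ≤ Real.log L := Real.log_nonneg hL1
    have a5 : Real.log L ≤ (L : ℝ) ^ ((1 : ℝ) / 2) / (1 / 2) :=
      Real.log_le_rpow_div hL0.le (by norm_num)
    have a6 : (1 + ε / 100) * Real.log L ≤ 2 * Real.log L :=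
      mul_le_mul_of_nonneg_right (by linarith) a4
    have a7 : (L : ℝ) ^ ((1 : ℝ) / 2) / (1 / 2) = 2 * (L : ℝ) ^ ((1 : ℝ) / 2) := by ring
    rw [a7] at a5
    linarith
  have h5 := H1 L hL1
  have h6 := H2 L hL1
  have h7 := mul_le_mul_of_nonneg_left hlog hK.le
  have h8 : K * (1 + 4 * (L : ℝ) ^ ((1 : ℝ) / 2)) = K + 4 * K * (L : ℝ) ^ ((1 : ℝ) / 2) := by ring
  rw [h8] at h7
  have h9 : 98 / 100 * ε * (L : ℝ) + ε / 100 * L + ε / 100 * L = ε * L := by ring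
  linarith

end Pool.Agent.MP_9e8697_nt.SL
end
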