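import Mathlib

section

/-!
# Polynomial inequalities
-/

namespace Pool.Agent.MP_9e8697_nt

private theorem chk_right : ∀ i < 1200,
    (401 + i) ^ 2 * (i + 1) ^ 3 * (1200 - i) ^ 6 * 10 ^ 6 ≤ 265 * (3600 + i) ^ 6 * 400 ^ 5 := by
  decide +kernel

private theorem chk_left : ∀ i < 400,
    (i + 1) ^ 2 * (400 - i) ^ 3 * (1600 - i) ^ 6 * 10 ^ 6 ≤ 265 * (3200 + i) ^ 6 * 400 ^ 5 := by
  decide +kernel

private theorem chk_ge : ∀ i < 400,
    25 * (20001 + i) ^ 6 * 2000 ^ 5 ≤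
      10 ^ 5 * ((4000 + i) ^ 2 * (2000 + i) ^ 3 * (3999 - i) ^ 6) := by
  decide +kernel

/-- Proof: the maximum of the left side divided by `x ^ 6` on `[9, 12]` is about `2.601e-4` (at
`x = 10.1`). Cut `[9, 12]` into the intervals `[a, b] = [9 + i / N, 9 + (i + 1) / N]`, `i < 3 N`, with
`N = 400`; on `[a, b]` the left side is `≤ (b - 8)^2 (b - 9)^3 (12 - a)^6` and `x ^ 6 ≥ a ^ 6`; check the
finitely many inequalities between integers with `decide +kernel` (recursive check through `Nat`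
arithmetic). (Or any other proof.) -/
theorem g_le_right {x : ℝ} (h9 : 9 ≤ x) (h12 : x ≤ 12) :
    (x - 8) ^ 2 * (x - 9) ^ 3 * (12 - x) ^ 6 ≤ 265 / 10 ^ 6 * x ^ 6 := by
  rcases eq_or_lt_of_le h12 with rfl | hlt
  · norm_num
  · obtain ⟨i, hi0, hi1⟩ : ∃ i : ℕ, (i : ℝ) ≤ (x - 9) * 400 ∧ (x - 9) * 400 < i + 1 :=
      ⟨⌊(x - 9) * 400⌋₊, Nat.floor_le (by nlinarith), Nat.lt_floor_add_one _⟩
    have hi : i < 1200 := by
      have : (i : ℝ) < 1200 := by linarith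
      exact_mod_cast this
    have hc := (Nat.cast_le (α := ℝ)).2 (chk_right i hi)
    push_cast [Nat.cast_sub hi.le] at hc
    have hiR : (i : ℝ) < 1200 := by exact_mod_cast hi
    have hi00 : (0 : ℝ) ≤ i := Nat.cast_nonneg i
    have e1 : (x - 8) ^ 2 ≤ ((401 + i : ℝ) / 400) ^ 2 :=
      pow_le_pow_left₀ (by linarith) (by linarith) 2
    have e2 : (x - 9) ^ 3 ≤ ((i + 1 : ℝ) / 400) ^ 3 :=
      pow_le_pow_left₀ (by linarith) (by linarith) 3
    have e3 : (12 - x) ^ 6 ≤ ((1200 - i : ℝ) / 400) ^ 6 :=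
      pow_le_pow_left₀ (by linarith) (by linarith) 6
    have e4 : ((3600 + i : ℝ) / 400) ^ 6 ≤ x ^ 6 :=
      pow_le_pow_left₀ (by positivity) (by linarith) 6
    have p2 : 0 ≤ (x - 9) ^ 3 := pow_nonneg (by linarith) 3
    have p3 : 0 ≤ (12 - x) ^ 6 := pow_nonneg (by linarith) 6
    have step1 : (x - 8) ^ 2 * (x - 9) ^ 3 * (12 - x) ^ 6 ≤
        ((401 + i : ℝ) / 400) ^ 2 * ((i + 1 : ℝ) / 400) ^ 3 * ((1200 - i : ℝ) / 400) ^ 6 :=
      mul_le_mul (mul_le_mul e1 e2 p2 (by positivity)) e3 p3 (by positivity)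
    have step2 : ((401 + i : ℝ) / 400) ^ 2 * ((i + 1 : ℝ) / 400) ^ 3 * ((1200 - i : ℝ) / 400) ^ 6 ≤
        265 / 10 ^ 6 * ((3600 + i : ℝ) / 400) ^ 6 := by
      have k1 : ((401 + i : ℝ) / 400) ^ 2 * ((i + 1 : ℝ) / 400) ^ 3 *
          ((1200 - i : ℝ) / 400) ^ 6 =
          ((401 + i : ℝ) ^ 2 * (i + 1) ^ 3 * (1200 - i) ^ 6 * 10 ^ 6) / (10 ^ 6 * 400 ^ 11) := by
        rw [div_pow, div_pow, div_pow]
        field_simp
      have k2 : 265 / 10 ^ 6 * ((3600 + i : ℝ) / 400) ^ 6 =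
          (265 * (3600 + i) ^ 6 * 400 ^ 5) / (10 ^ 6 * 400 ^ 11) := by
        rw [div_pow]
        field_simp
      rw [k1, k2]
      exact div_le_div_of_nonneg_right (by norm_num1; exact hc) (by positivity)
    calc _ ≤ _ := step1
      _ ≤ _ := step2
      _ ≤ _ := mul_le_mul_of_nonneg_left e4 (by positivity)

/-- As before; the maximum is about `2.32e-4` (at `x = 8.36`). -/
theorem g_le_left {x : ℝ} (h8 : 8 ≤ x) (h9 : x ≤ 9) :
    (x - 8) ^ 2 * (9 - x) ^ 3 * (12 - x) ^ 6 ≤ 265 / 10 ^ 6 * x ^ 6 := by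
  rcases eq_or_lt_of_le h9 with rfl | hlt
  · norm_num
  · obtain ⟨i, hi0, hi1⟩ : ∃ i : ℕ, (i : ℝ) ≤ (x - 8) * 400 ∧ (x - 8) * 400 < i + 1 :=
      ⟨⌊(x - 8) * 400⌋₊, Nat.floor_le (by nlinarith), Nat.lt_floor_add_one _⟩
    have hi : i < 400 := by
      have : (i : ℝ) < 400 := by linarith
      exact_mod_cast this
    have hc := (Nat.cast_le (α := ℝ)).2 (chk_left i hi)
    push_cast [Nat.cast_sub hi.le, Nat.cast_sub (show i ≤ 1600 by omega)] at hc
    have hiR : (i : ℝ) < 400 := by exact_mod_cast hi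
    have hi00 : (0 : ℝ) ≤ i := Nat.cast_nonneg i
    have e1 : (x - 8) ^ 2 ≤ ((i + 1 : ℝ) / 400) ^ 2 :=
      pow_le_pow_left₀ (by linarith) (by linarith) 2
    have e2 : (9 - x) ^ 3 ≤ ((400 - i : ℝ) / 400) ^ 3 :=
      pow_le_pow_left₀ (by linarith) (by linarith) 3
    have e3 : (12 - x) ^ 6 ≤ ((1600 - i : ℝ) / 400) ^ 6 :=
      pow_le_pow_left₀ (by linarith) (by linarith) 6
    have e4 : ((3200 + i : ℝ) / 400) ^ 6 ≤ x ^ 6 :=
      pow_le_pow_left₀ (by positivity) (by linarith) 6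
    have p2 : 0 ≤ (9 - x) ^ 3 := pow_nonneg (by linarith) 3
    have p3 : 0 ≤ (12 - x) ^ 6 := pow_nonneg (by linarith) 6
    have q2 : (0 : ℝ) ≤ ((400 - i : ℝ) / 400) ^ 3 := pow_nonneg (by linarith) 3
    have step1 : (x - 8) ^ 2 * (9 - x) ^ 3 * (12 - x) ^ 6 ≤
        ((i + 1 : ℝ) / 400) ^ 2 * ((400 - i : ℝ) / 400) ^ 3 * ((1600 - i : ℝ) / 400) ^ 6 :=
      mul_le_mul (mul_le_mul e1 e2 p2 (by positivity)) e3 p3 (mul_nonneg (by positivity) q2)
    have step2 : ((i + 1 : ℝ) / 400) ^ 2 * ((400 - i : ℝ) / 400) ^ 3 *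
        ((1600 - i : ℝ) / 400) ^ 6 ≤ 265 / 10 ^ 6 * ((3200 + i : ℝ) / 400) ^ 6 := by
      have k1 : ((i + 1 : ℝ) / 400) ^ 2 * ((400 - i : ℝ) / 400) ^ 3 *
          ((1600 - i : ℝ) / 400) ^ 6 =
          ((i + 1 : ℝ) ^ 2 * (400 - i) ^ 3 * (1600 - i) ^ 6 * 10 ^ 6) / (10 ^ 6 * 400 ^ 11) := by
        rw [div_pow, div_pow, div_pow]
        field_simp
      have k2 : 265 / 10 ^ 6 * ((3200 + i : ℝ) / 400) ^ 6 =
          (265 * (3200 + i) ^ 6 * 400 ^ 5) / (10 ^ 6 * 400 ^ 11) := by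
        rw [div_pow]
        field_simp
      rw [k1, k2]
      exact div_le_div_of_nonneg_right (by norm_num1; exact hc) (by positivity)
    calc _ ≤ _ := step1
      _ ≤ _ := step2
      _ ≤ _ := mul_le_mul_of_nonneg_left e4 (by positivity)

/-- As before, or: the quotient is at least `2.52e-4` here. -/
theorem g_ge {x : ℝ} (h10 : 10 ≤ x) (h : x ≤ 51 / 5) :
    25 / 10 ^ 5 * x ^ 6 ≤ (x - 8) ^ 2 * (x - 9) ^ 3 * (12 - x) ^ 6 := by
  rcases eq_or_lt_of_le h with rfl | hlt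
  · norm_num
  · obtain ⟨i, hi0, hi1⟩ : ∃ i : ℕ, (i : ℝ) ≤ (x - 10) * 2000 ∧ (x - 10) * 2000 < i + 1 :=
      ⟨⌊(x - 10) * 2000⌋₊, Nat.floor_le (by nlinarith), Nat.lt_floor_add_one _⟩
    have hi : i < 400 := by
      have : (i : ℝ) < 400 := by linarith
      exact_mod_cast this
    have hc := (Nat.cast_le (α := ℝ)).2 (chk_ge i hi)
    push_cast [Nat.cast_sub (show i ≤ 3999 by omega)] at hc
    have hiR : (i : ℝ) < 400 := by exact_mod_cast hi
    have hi00 : (0 : ℝ) ≤ i := Nat.cast_nonneg i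
    have e1 : ((4000 + i : ℝ) / 2000) ^ 2 ≤ (x - 8) ^ 2 :=
      pow_le_pow_left₀ (by positivity) (by linarith) 2
    have e2 : ((2000 + i : ℝ) / 2000) ^ 3 ≤ (x - 9) ^ 3 :=
      pow_le_pow_left₀ (by positivity) (by linarith) 3
    have e3 : ((3999 - i : ℝ) / 2000) ^ 6 ≤ (12 - x) ^ 6 :=
      pow_le_pow_left₀ (div_nonneg (by linarith) (by norm_num)) (by linarith) 6
    have e4 : x ^ 6 ≤ ((20001 + i : ℝ) / 2000) ^ 6 :=
      pow_le_pow_left₀ (by linarith) (by linarith) 6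
    have q3 : (0 : ℝ) ≤ ((3999 - i : ℝ) / 2000) ^ 6 := pow_nonneg
      (div_nonneg (by linarith) (by norm_num)) 6
    have p1 : 0 ≤ (x - 8) ^ 2 := by positivity
    have p2 : 0 ≤ (x - 9) ^ 3 := pow_nonneg (by linarith) 3
    have step1 : ((4000 + i : ℝ) / 2000) ^ 2 * ((2000 + i : ℝ) / 2000) ^ 3 *
        ((3999 - i : ℝ) / 2000) ^ 6 ≤ (x - 8) ^ 2 * (x - 9) ^ 3 * (12 - x) ^ 6 :=
      mul_le_mul (mul_le_mul e1 e2 (by positivity) p1) e3 q3 (mul_nonneg p1 p2)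
    have step2 : 25 / 10 ^ 5 * ((20001 + i : ℝ) / 2000) ^ 6 ≤
        ((4000 + i : ℝ) / 2000) ^ 2 * ((2000 + i : ℝ) / 2000) ^ 3 *
        ((3999 - i : ℝ) / 2000) ^ 6 := by
      have k1 : ((4000 + i : ℝ) / 2000) ^ 2 * ((2000 + i : ℝ) / 2000) ^ 3 *
          ((3999 - i : ℝ) / 2000) ^ 6 =
          (10 ^ 5 * ((4000 + i) ^ 2 * (2000 + i) ^ 3 * (3999 - i) ^ 6)) / (10 ^ 5 * 2000 ^ 11) := by
        rw [div_pow, div_pow, div_pow]
        field_simp
      have k2 : 25 / 10 ^ 5 * ((20001 + i : ℝ) / 2000) ^ 6 =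
          (25 * (20001 + i) ^ 6 * 2000 ^ 5) / (10 ^ 5 * 2000 ^ 11) := by
        rw [div_pow]
        field_simp
      rw [k1, k2]
      exact div_le_div_of_nonneg_right (by norm_num1; exact hc) (by positivity)
    calc _ ≤ _ := mul_le_mul_of_nonneg_left e4 (by positivity)
      _ ≤ _ := step2
      _ ≤ _ := step1

end Pool.Agent.MP_9e8697_nt
end

section

/-!
# lcm (1, ..., n): divisibility
-/

namespace Pool.Agent.MP_9e8697_nt

/-- `lcm (1, ..., n)` -/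
def dl (n : ℕ) : ℕ := (Finset.Icc 1 n).lcm id

theorem dl_pos (n : ℕ) : 0 < dl n := by
  apply Nat.pos_of_ne_zero
  unfold dl
  rw [Ne, Finset.lcm_eq_zero_iff]
  rintro ⟨x, hx, h0⟩
  have := (Finset.mem_Icc.1 hx).1
  simp only [id] at h0
  omega

theorem dvd_dl {n j : ℕ} (h1 : 1 ≤ j) (h2 : j ≤ n) : j ∣ dl n :=
  Finset.dvd_lcm (f := id) (Finset.mem_Icc.2 ⟨h1, h2⟩)

theorem dl_mono {m n : ℕ} (h : m ≤ n) : dl m ≤ dl n := by
  apply Nat.le_of_dvd (dl_pos n)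
  apply Finset.lcm_dvd
  intro j hj
  rw [Finset.mem_Icc] at hj
  exact dvd_dl hj.1 (hj.2.trans h)

private theorem term_le (n Q : ℕ) (hQ : 0 < Q) (hQ6 : Q ≤ 6 * n) :
    3 * n / Q + 2 * n / Q + n / Q + (if n < Q then 1 else 0) ≤ 6 * n / Q := by
  split_ifs with h
  · have h3 : 3 * n / Q = (6 * n / Q) / 2 := by
      rw [Nat.div_div_eq_div_mul, mul_comm Q 2, show 6 * n = 2 * (3 * n) by ring,
        Nat.mul_div_mul_left _ _ (by norm_num)]
    have h2 : 2 * n / Q = (6 * n / Q) / 3 := by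
      rw [Nat.div_div_eq_div_mul, mul_comm Q 3, show 6 * n = 3 * (2 * n) by ring,
        Nat.mul_div_mul_left _ _ (by norm_num)]
    have h1 : n / Q = 0 := Nat.div_eq_of_lt h
    have hk1 : 1 ≤ 6 * n / Q := (Nat.one_le_div_iff hQ).2 hQ6
    have hk2 : 6 * n / Q < 6 := by
      rw [Nat.div_lt_iff_lt_mul hQ]
      omega
    rw [h3, h2, h1]
    omega
  · have h1 : 3 * n / Q + 2 * n / Q ≤ (3 * n + 2 * n) / Q := Nat.div_add_div_le_add_div
    have h2 : (3 * n + 2 * n) / Q + n / Q ≤ (3 * n + 2 * n + n) / Q :=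
      Nat.div_add_div_le_add_div
    have h3 : 3 * n + 2 * n + n = 6 * n := by ring
    rw [h3] at h2
    omega

private theorem fact_eq (n : ℕ) :
    Nat.choose (6 * n) (3 * n) * Nat.choose (3 * n) n * (n.factorial * ((2 * n).factorial *
      (3 * n).factorial)) = (6 * n).factorial := by
  have h1 := Nat.choose_mul_factorial_mul_factorial (show 3 * n ≤ 6 * n by omega)
  have h2 := Nat.choose_mul_factorial_mul_factorial (show n ≤ 3 * n by omega)
  rw [show 6 * n - 3 * n = 3 * n by omega] at h1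
  rw [show 3 * n - n = 2 * n by omega] at h2
  calc Nat.choose (6 * n) (3 * n) * Nat.choose (3 * n) n * (n.factorial * ((2 * n).factorial *
        (3 * n).factorial)) = Nat.choose (6 * n) (3 * n) *
        (Nat.choose (3 * n) n * n.factorial * (2 * n).factorial) * (3 * n).factorial := by ring
    _ = (6 * n).factorial := by rw [h2, h1]

private theorem log_sub_le (n q : ℕ) (hn : 0 < n) (hq : q.Prime) :
    Nat.log q (6 * n) ≤ Nat.log q n +
      (Nat.choose (6 * n) (3 * n) * Nat.choose (3 * n) n).factorization q := by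
  set b := Nat.log q (6 * n) + 1 with hb
  have hlog : ∀ m, m ≤ 6 * n → Nat.log q m < b := by
    intro m hm
    have := Nat.log_mono_right (b := q) hm
    omega
  have hC : Nat.choose (6 * n) (3 * n) * Nat.choose (3 * n) n ≠ 0 :=
    mul_ne_zero (Nat.choose_pos (by omega)).ne' (Nat.choose_pos (by omega)).ne'
  have h6 := Nat.factorization_factorial hq (hlog (6 * n) le_rfl)
  have h3 := Nat.factorization_factorial hq (hlog (3 * n) (by omega))
  have h2 := Nat.factorization_factorial hq (hlog (2 * n) (by omega))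
  have h1 := Nat.factorization_factorial hq (hlog n (by omega))
  have hf := congrArg (fun m => m.factorization q) (fact_eq n)
  generalize Nat.choose (6 * n) (3 * n) * Nat.choose (3 * n) n = D at hC hf ⊢
  have e1 := Nat.factorial_ne_zero n
  have e2 := Nat.factorial_ne_zero (2 * n)
  have e3 := Nat.factorial_ne_zero (3 * n)
  rw [Nat.factorization_mul hC (mul_ne_zero e1 (mul_ne_zero e2 e3)),
    Nat.factorization_mul e1 (mul_ne_zero e2 e3), Nat.factorization_mul e2 e3] at hf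
  simp only [Finsupp.add_apply] at hf
  rw [h6, h3, h2, h1] at hf
  have hsum : ∑ i ∈ Finset.Ico 1 b, (3 * n / q ^ i + 2 * n / q ^ i + n / q ^ i +
      (if n < q ^ i then 1 else 0)) ≤ ∑ i ∈ Finset.Ico 1 b, 6 * n / q ^ i := by
    apply Finset.sum_le_sum
    intro i hi
    rw [Finset.mem_Ico] at hi
    apply term_le n (q ^ i) (pow_pos hq.pos i)
    exact Nat.pow_le_of_le_log (by omega) (by omega)
  rw [Finset.sum_add_distrib, Finset.sum_add_distrib, Finset.sum_add_distrib] at hsum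
  have hcard : b - (Nat.log q n + 1) ≤ ∑ i ∈ Finset.Ico 1 b, (if n < q ^ i then 1 else 0) := by
    rw [← Finset.card_filter, ← Nat.card_Ico]
    apply Finset.card_le_card
    intro i hi
    rw [Finset.mem_Ico] at hi
    rw [Finset.mem_filter, Finset.mem_Ico]
    refine ⟨⟨by omega, hi.2⟩, ?_⟩
    refine lt_of_lt_of_le (Nat.lt_pow_succ_log_self hq.one_lt n) ?_
    exact Nat.pow_le_pow_right hq.pos hi.1
  omega

/-- Proof: compare the exponents of every prime `q`. Put `L = Nat.log q (6 n)`. The exponent of `q` in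
`dl m` is `Nat.log q m` (the largest `e` with `q ^ e ≤ m`). The product of the binomial coefficients is
`(6 n)! / ((3 n)! (2 n)! n!)`, with exponent
`∑_{i = 1}^{L} (⌊6 n / q^i⌋ - ⌊3 n / q^i⌋ - ⌊2 n / q^i⌋ - ⌊n / q^i⌋)` (`padicValNat_factorial` or
`Nat.factorization_factorial`), all terms are `≥ 0`, and the terms with `n < q ^ i ≤ 6 n` are `≥ 1`:
write `6 n / q^i` with `q^i = Q`, `n < Q ≤ 6 n`: `⌊6n/Q⌋ ≥ ⌊3n/Q⌋ + ⌊2n/Q⌋ + 1` (if `k = ⌊6n/Q⌋`,
`1 ≤ k ≤ 5`, then `⌊3n/Q⌋ = ⌊k/2⌋` and `⌊2n/Q⌋ = ⌊k/3⌋`, and `k ≥ k/2 + k/3 + 1` for `1 ≤ k ≤ 5`). -/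
theorem dl_six_dvd (n : ℕ) :
    dl (6 * n) ∣ dl n * (Nat.choose (6 * n) (3 * n) * Nat.choose (3 * n) n) := by
  rcases Nat.eq_zero_or_pos n with rfl | hn
  · simp
  have hC : Nat.choose (6 * n) (3 * n) * Nat.choose (3 * n) n ≠ 0 :=
    mul_ne_zero (Nat.choose_pos (by omega)).ne' (Nat.choose_pos (by omega)).ne'
  have hR : dl n * (Nat.choose (6 * n) (3 * n) * Nat.choose (3 * n) n) ≠ 0 :=
    mul_ne_zero (dl_pos n).ne' hC
  apply Finset.lcm_dvd
  intro j hj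
  rw [Finset.mem_Icc] at hj
  simp only [id]
  rw [Nat.dvd_iff_prime_pow_dvd_dvd]
  intro q e hq hqe
  have hle : q ^ e ≤ 6 * n := (Nat.le_of_dvd (by omega) hqe).trans hj.2
  have he : e ≤ Nat.log q (6 * n) := Nat.le_log_of_pow_le hq.one_lt hle
  rw [hq.pow_dvd_iff_le_factorization hR, Nat.factorization_mul (dl_pos n).ne' hC]
  simp only [Finsupp.add_apply]
  have h1 := log_sub_le n q hn hq
  have h2 : Nat.log q n ≤ (dl n).factorization q := by
    rw [← hq.pow_dvd_iff_le_factorization (dl_pos n).ne']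
    exact dvd_dl (Nat.pow_pos hq.pos) (Nat.pow_log_le_self q hn.ne')
  omega

end Pool.Agent.MP_9e8697_nt
end

section

/-!
# The auxiliary polynomials
-/

open Polynomial

namespace Pool.Agent.MP_9e8697_nt

/-- `(x - 8)^(2n) (x - 9)^(3n) (x - 12)^(6n)` -/
noncomputable def P (n : ℕ) : ℤ[X] :=
  (X - C 8) ^ (2 * n) * (X - C 9) ^ (3 * n) * (X - C 12) ^ (6 * n)

theorem natDegree_P (n : ℕ) : (P n).natDegree = 11 * n := by
  have h1 : ∀ (c : ℤ) (k : ℕ), ((X - C c) ^ k : ℤ[X]).Monic := fun c k =>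
    (monic_X_sub_C c).pow k
  have h2 : ∀ (c : ℤ) (k : ℕ), ((X - C c) ^ k : ℤ[X]).natDegree = k := fun c k => by
    rw [(monic_X_sub_C c).natDegree_pow, natDegree_X_sub_C, mul_one]
  unfold P
  rw [((h1 8 _).mul (h1 9 _)).natDegree_mul (h1 12 _), (h1 8 _).natDegree_mul (h1 9 _), h2, h2, h2]
  ring

/-- Proof: for `t = 8`: `P (8 X) = 8^(2n) (X - 1)^(2n) (8 X - 9)^(3n) 4^(6n) (2 X - 3)^(6n)` and
`8^(2n) 4^(6n) = 8^(6n)`. For `t = 9`:
`P (9 X) = (9 X - 8)^(2n) 9^(3n) (X - 1)^(3n) 3^(6n) (3 X - 4)^(6n)` and `9^(3n) 3^(6n) = 9^(6n)`. For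
`t = 12` the last factor is `12^(6n) (X - 1)^(6n)`. -/
theorem exists_E {t : ℤ} (ht : t = 8 ∨ t = 9 ∨ t = 12) (n : ℕ) :
    ∃ E : ℤ[X], (P n).comp (C t * X) = C (t ^ (6 * n)) * E := by
  have hcomp : (P n).comp (C t * X) = (C t * X - C 8) ^ (2 * n) * (C t * X - C 9) ^ (3 * n) *
      (C t * X - C 12) ^ (6 * n) := by
    unfold P
    rw [mul_comp, mul_comp, pow_comp, pow_comp, pow_comp, sub_comp, sub_comp, sub_comp, X_comp,
      C_comp, C_comp, C_comp]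
  rw [hcomp]
  rcases ht with rfl | rfl | rfl
  · refine ⟨(X - 1) ^ (2 * n) * (C 8 * X - C 9) ^ (3 * n) * (C 2 * X - C 3) ^ (6 * n), ?_⟩
    have e1 : (C (8 : ℤ) * X - C 8 : ℤ[X]) = C 8 * (X - 1) := by
      rw [mul_sub, mul_one]
    have e2 : (C (8 : ℤ) * X - C 12 : ℤ[X]) = C 4 * (C 2 * X - C 3) := by
      rw [mul_sub, ← mul_assoc, ← C_mul, ← C_mul]
      norm_num
    have e3 : (C ((8 : ℤ) ^ (6 * n)) : ℤ[X]) = C 8 ^ (2 * n) * C 4 ^ (6 * n) := by
      rw [← C_pow, ← C_pow, ← C_mul]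
      congr 1
      rw [pow_mul, pow_mul, pow_mul, ← mul_pow]
      norm_num
    rw [e1, e2, e3, mul_pow, mul_pow]
    ring
  · refine ⟨(C 9 * X - C 8) ^ (2 * n) * (X - 1) ^ (3 * n) * (C 3 * X - C 4) ^ (6 * n), ?_⟩
    have e1 : (C (9 : ℤ) * X - C 9 : ℤ[X]) = C 9 * (X - 1) := by
      rw [mul_sub, mul_one]
    have e2 : (C (9 : ℤ) * X - C 12 : ℤ[X]) = C 3 * (C 3 * X - C 4) := by
      rw [mul_sub, ← mul_assoc, ← C_mul, ← C_mul]
      norm_num
    have e3 : (C ((9 : ℤ) ^ (6 * n)) : ℤ[X]) = C 9 ^ (3 * n) * C 3 ^ (6 * n) := by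
      rw [← C_pow, ← C_pow, ← C_mul]
      congr 1
      rw [pow_mul, pow_mul, pow_mul, ← mul_pow]
      norm_num
    rw [e1, e2, e3, mul_pow, mul_pow]
    ring
  · refine ⟨(C 12 * X - C 8) ^ (2 * n) * (C 12 * X - C 9) ^ (3 * n) * (X - 1) ^ (6 * n), ?_⟩
    have e1 : (C (12 : ℤ) * X - C 12 : ℤ[X]) = C 12 * (X - 1) := by
      rw [mul_sub, mul_one]
    rw [e1, C_pow, mul_pow]
    ring

/-- Proof: compare the coefficients of `X ^ j` in `exists_E` (`coeff_comp` of `C t * X`: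
`Polynomial.comp_C_mul_X_coeff`): `(P n).coeff j * t ^ j = t ^ (6 n) * E.coeff j`. -/
theorem exists_coeff {t : ℤ} (ht : t = 8 ∨ t = 9 ∨ t = 12) (n j : ℕ) :
    ∃ z : ℤ, ((P n).coeff j : ℝ) * (t : ℝ) ^ ((j : ℤ) - (6 * n : ℕ)) = z := by
  obtain ⟨E, hE⟩ := exists_E ht n
  have h := congrArg (fun q : ℤ[X] => q.coeff j) hE
  simp only [comp_C_mul_X_coeff, coeff_C_mul] at h
  have ht0 : (t : ℝ) ≠ 0 := by
    rcases ht with rfl | rfl | rfl <;> norm_num
  refine ⟨E.coeff j, ?_⟩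
  rw [zpow_sub₀ ht0, zpow_natCast, zpow_natCast]
  have h' : ((P n).coeff j : ℝ) * (t : ℝ) ^ j = (t : ℝ) ^ (6 * n) * (E.coeff j : ℝ) := by
    exact_mod_cast h
  rw [← mul_div_assoc, h', mul_div_assoc, mul_comm, div_mul_cancel₀]
  exact pow_ne_zero _ ht0

/-- Proof: `exists_coeff`, and `|j - 6 n| ≤ 6 n` divides `dl (6 n)` (`dvd_dl`). -/
theorem exists_int_term {t : ℤ} (ht : t = 8 ∨ t = 9 ∨ t = 12) {n j : ℕ} (hj : j ≠ 6 * n)
    (hj' : j ≤ 11 * n) :
    ∃ z : ℤ, (dl (6 * n) : ℝ) * (((P n).coeff j : ℝ) * (t : ℝ) ^ ((j : ℤ) - (6 * n : ℕ)) /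
      ((j : ℝ) - (6 * n : ℕ))) = z := by
  obtain ⟨z, hz⟩ := exists_coeff ht n j
  have hdvd : ((j : ℤ) - (6 * n : ℕ)) ∣ (dl (6 * n) : ℤ) := by
    rw [← Int.natAbs_dvd, Int.natCast_dvd_natCast]
    apply dvd_dl
    · omega
    · omega
  obtain ⟨w, hw⟩ := hdvd
  have hw' : (dl (6 * n) : ℝ) = ((j : ℝ) - (6 * n : ℕ)) * (w : ℝ) := by
    exact_mod_cast hw
  have hne : ((j : ℝ) - (6 * n : ℕ)) ≠ 0 := by
    rw [sub_ne_zero]
    exact_mod_cast hj
  refine ⟨w * z, ?_⟩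
  rw [hz, hw']
  push_cast
  push_cast at hne
  field_simp

end Pool.Agent.MP_9e8697_nt
end

section

/-!
# The integrals
-/

open Polynomial

namespace Pool.Agent.MP_9e8697_nt

/-- `(x - 8)^(2n) (x - 9)^(3n) (x - 12)^(6n) / x^(6n+1)` -/
noncomputable def f (n : ℕ) (x : ℝ) : ℝ :=
  (x - 8) ^ (2 * n) * (x - 9) ^ (3 * n) * (x - 12) ^ (6 * n) / x ^ (6 * n + 1)

private theorem f_eq_sum (n : ℕ) {x : ℝ} (hx : x ≠ 0) :
    f n x = ∑ j ∈ Finset.range (11 * n + 1),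
      ((P n).coeff j : ℝ) * x ^ ((j : ℤ) - (6 * n : ℕ) - 1) := by
  have h1 : (P n).eval₂ (Int.castRingHom ℝ) x =
      (x - 8) ^ (2 * n) * (x - 9) ^ (3 * n) * (x - 12) ^ (6 * n) := by
    unfold P
    simp only [eval₂_mul, eval₂_pow, eval₂_sub, eval₂_X, eval₂_C]
    norm_num
  have h2 := Polynomial.eval₂_eq_sum_range (p := P n) (f := Int.castRingHom ℝ) (x := x)
  rw [h1, natDegree_P] at h2
  unfold f
  rw [h2, Finset.sum_div]
  refine Finset.sum_congr rfl (fun j _ => ?_)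
  rw [zpow_sub₀ hx, zpow_sub₀ hx, zpow_natCast, zpow_natCast, zpow_one, pow_succ]
  simp only [eq_intCast]
  field_simp

/-- Proof: `f n x = ∑_j c_j x ^ (j - 6 n - 1)` (`Polynomial.eval_eq_sum_range`), integrate every term
(`integral_zpow` for `j ≠ 6 n`, `integral_inv_of_pos` for `j = 6 n`). -/
theorem integral_f (n : ℕ) {a b : ℝ} (ha : 0 < a) (hab : a ≤ b) :
    ∫ x in a..b, f n x = ((P n).coeff (6 * n) : ℝ) * (Real.log b - Real.log a) +
      ∑ j ∈ (Finset.range (11 * n + 1)).erase (6 * n),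
        (((P n).coeff j : ℝ) * b ^ ((j : ℤ) - (6 * n : ℕ)) / ((j : ℝ) - (6 * n : ℕ)) -
          ((P n).coeff j : ℝ) * a ^ ((j : ℤ) - (6 * n : ℕ)) / ((j : ℝ) - (6 * n : ℕ))) := by
  have hb : 0 < b := lt_of_lt_of_le ha hab
  have h0 : (0 : ℝ) ∉ Set.uIcc a b := by
    rw [Set.uIcc_of_le hab]
    intro h
    exact absurd h.1 (not_le.2 ha)
  have h1 : ∫ x in a..b, f n x = ∫ x in a..b, ∑ j ∈ Finset.range (11 * n + 1),
      ((P n).coeff j : ℝ) * x ^ ((j : ℤ) - (6 * n : ℕ) - 1) := by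
    refine intervalIntegral.integral_congr (fun x hx => ?_)
    refine f_eq_sum n ?_
    rintro rfl
    exact h0 hx
  rw [h1, intervalIntegral.integral_finsetSum]
  · rw [← Finset.add_sum_erase (Finset.range (11 * n + 1)) _
      (show 6 * n ∈ Finset.range (11 * n + 1) by rw [Finset.mem_range]; omega)]
    congr 1
    · rw [intervalIntegral.integral_const_mul]
      congr 1
      have h2 : (((6 * n : ℕ) : ℤ) - (6 * n : ℕ) - 1) = -1 := by ring
      rw [h2]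
      simp only [zpow_neg_one]
      rw [integral_inv_of_pos ha hb, Real.log_div hb.ne' ha.ne']
    · refine Finset.sum_congr rfl (fun j hj => ?_)
      rw [Finset.mem_erase] at hj
      rw [intervalIntegral.integral_const_mul, integral_zpow]
      · have h3 : ((j : ℤ) - (6 * n : ℕ) - 1 + 1) = (j : ℤ) - (6 * n : ℕ) := by ring
        rw [h3]
        push_cast
        ring
      · right
        refine ⟨?_, h0⟩
        intro h
        apply hj.1
        omega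
  · intro j _
    refine ContinuousOn.intervalIntegrable ?_
    refine ContinuousOn.mul continuousOn_const ?_
    intro x hx
    refine (continuousAt_zpow₀ x _ (Or.inl ?_)).continuousWithinAt
    rintro rfl
    exact h0 hx

private theorem sum_int {s : Finset ℕ} {F : ℕ → ℝ} (h : ∀ j ∈ s, ∃ z : ℤ, F j = z) :
    ∃ z : ℤ, ∑ j ∈ s, F j = z := by
  classical
  induction s using Finset.induction_on with
  | empty => exact ⟨0, by simp⟩
  | insert a s ha ih =>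
    obtain ⟨z, hz⟩ := ih (fun j hj => h j (Finset.mem_insert_of_mem hj))
    obtain ⟨w, hw⟩ := h a (Finset.mem_insert_self a s)
    exact ⟨w + z, by rw [Finset.sum_insert ha, hz, hw]; push_cast; ring⟩

/-- Proof: `integral_f` and `exists_int_term` for `a` and `b`. -/
theorem exists_int (n : ℕ) {a b : ℤ} (ha : a = 8 ∨ a = 9 ∨ a = 12) (hb : b = 8 ∨ b = 9 ∨ b = 12)
    (hab : a ≤ b) :
    ∃ z : ℤ, (dl (6 * n) : ℝ) * ∫ x in (a : ℝ)..(b : ℝ), f n x =
      (dl (6 * n) : ℝ) * ((P n).coeff (6 * n) : ℝ) * (Real.log b - Real.log a) + z := by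
  have ha0 : (0 : ℝ) < a := by
    have : (0 : ℤ) < a := by rcases ha with rfl | rfl | rfl <;> norm_num
    exact_mod_cast this
  have hab' : (a : ℝ) ≤ b := by exact_mod_cast hab
  obtain ⟨z, hz⟩ := sum_int (s := (Finset.range (11 * n + 1)).erase (6 * n))
    (F := fun j => (dl (6 * n) : ℝ) *
      (((P n).coeff j : ℝ) * (b : ℝ) ^ ((j : ℤ) - (6 * n : ℕ)) / ((j : ℝ) - (6 * n : ℕ)) -
          ((P n).coeff j : ℝ) * (a : ℝ) ^ ((j : ℤ) - (6 * n : ℕ)) / ((j : ℝ) - (6 * n : ℕ)))) (by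
      intro j hj
      rw [Finset.mem_erase, Finset.mem_range] at hj
      obtain ⟨z1, hz1⟩ := exists_int_term hb hj.1 (show j ≤ 11 * n by omega)
      obtain ⟨z2, hz2⟩ := exists_int_term ha hj.1 (show j ≤ 11 * n by omega)
      exact ⟨z1 - z2, by
        show _ * (_ - _) = _
        rw [mul_sub, hz1, hz2]; push_cast; ring⟩)
  refine ⟨z, ?_⟩
  rw [integral_f n ha0 hab', mul_add, ← hz, Finset.mul_sum]
  ring

end Pool.Agent.MP_9e8697_nt
end

section

/-!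
# Bounds for the integrals
-/

namespace Pool.Agent.MP_9e8697_nt

private theorem f_eq' (n : ℕ) {x : ℝ} (hx : x ≠ 0) :
    f n x = ((x - 8) ^ 2 * (x - 9) ^ 3 * (12 - x) ^ 6 / x ^ 6) ^ n / x := by
  unfold f
  have h : (x - 12) ^ (6 * n) = (12 - x) ^ (6 * n) := by
    rw [pow_mul, pow_mul]
    congr 1
    ring
  rw [h, div_pow, mul_pow, mul_pow, ← pow_mul, ← pow_mul, ← pow_mul, ← pow_mul, pow_succ, div_div]

private theorem f_int (n : ℕ) {a b : ℝ} (ha : 0 < a) (hab : a ≤ b) :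
    IntervalIntegrable (f n) MeasureTheory.volume a b := by
  refine ContinuousOn.intervalIntegrable ?_
  unfold f
  refine ContinuousOn.div (by fun_prop) (by fun_prop) ?_
  intro x hx
  rw [Set.uIcc_of_le hab] at hx
  have : 0 < x := lt_of_lt_of_le ha hx.1
  positivity

/-- For odd `n` the integral over `[8, 9]` is `≤ 0` and small.
Proof: for `8 ≤ x ≤ 9`, `f n x = - ((x - 8)^2 (9 - x)^3 (12 - x)^6 / x^6) ^ n / x`, and `1 / x ≤ 1 / 8`. -/
theorem integral_left {n : ℕ} (hn : Odd n) :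
    (∫ x in (8 : ℝ)..9, f n x) ≤ 0 ∧ -(265 / 10 ^ 6 : ℝ) ^ n / 8 ≤ ∫ x in (8 : ℝ)..9, f n x := by
  have key : ∀ x ∈ Set.Icc (8 : ℝ) 9, f n x ≤ 0 ∧ -(265 / 10 ^ 6 : ℝ) ^ n / 8 ≤ f n x := by
    intro x hx
    have hx0 : 0 < x := by linarith [hx.1]
    have e : (x - 8) ^ 2 * (x - 9) ^ 3 * (12 - x) ^ 6 / x ^ 6 =
        -((x - 8) ^ 2 * (9 - x) ^ 3 * (12 - x) ^ 6 / x ^ 6) := by ring
    rw [f_eq' n hx0.ne', e, hn.neg_pow]
    have g1 : (x - 8) ^ 2 * (9 - x) ^ 3 * (12 - x) ^ 6 / x ^ 6 ≤ 265 / 10 ^ 6 := by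
      rw [div_le_iff₀ (by positivity)]
      exact g_le_left hx.1 hx.2
    have g0 : 0 ≤ (x - 8) ^ 2 * (9 - x) ^ 3 * (12 - x) ^ 6 / x ^ 6 := by
      refine div_nonneg (mul_nonneg (mul_nonneg (by positivity) (pow_nonneg ?_ 3)) (pow_nonneg ?_ 6))
        (by positivity) <;> linarith [hx.2]
    have g2 := pow_le_pow_left₀ g0 g1 n
    have g3 := pow_nonneg g0 n
    generalize ((x - 8) ^ 2 * (9 - x) ^ 3 * (12 - x) ^ 6 / x ^ 6) ^ n = G at g2 g3
    constructor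
    · exact div_nonpos_of_nonpos_of_nonneg (by linarith) hx0.le
    · rw [neg_div, neg_div, neg_le_neg_iff]
      exact div_le_div₀ (by positivity) g2 (by norm_num) hx.1
  have hi := f_int n (show (0 : ℝ) < 8 by norm_num) (show (8 : ℝ) ≤ 9 by norm_num)
  constructor
  · have h := intervalIntegral.integral_mono_on (show (8 : ℝ) ≤ 9 by norm_num) hi
      (g := fun _ => (0 : ℝ)) intervalIntegrable_const (fun x hx => (key x hx).1)
    simpa using h
  · have h := intervalIntegral.integral_mono_on (show (8 : ℝ) ≤ 9 by norm_num)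
      (f := fun _ => (-(265 / 10 ^ 6 : ℝ) ^ n / 8)) intervalIntegrable_const hi
      (fun x hx => (key x hx).2)
    rw [intervalIntegral.integral_const] at h
    have h9 : (9 : ℝ) - 8 = 1 := by norm_num
    rw [h9, one_smul] at h
    exact h

/-- Proof: for `9 ≤ x ≤ 12`, `f n x = ((x - 8)^2 (x - 9)^3 (12 - x)^6 / x^6) ^ n / x`, and
`1 / x ≤ 1 / 9`; the length is `3`. For the lower bound restrict to `[10, 51 / 5]`, where
`1 / x ≥ 5 / 51`: `(25 / 10^5)^n * (1 / 5) * (5 / 51)`. -/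
theorem integral_right (n : ℕ) :
    (25 / 10 ^ 5 : ℝ) ^ n / 51 ≤ (∫ x in (9 : ℝ)..12, f n x) ∧
      (∫ x in (9 : ℝ)..12, f n x) ≤ (265 / 10 ^ 6 : ℝ) ^ n / 3 := by
  have key : ∀ x ∈ Set.Icc (9 : ℝ) 12, 0 ≤ f n x ∧ f n x ≤ (265 / 10 ^ 6 : ℝ) ^ n / 9 := by
    intro x hx
    have hx0 : 0 < x := by linarith [hx.1]
    rw [f_eq' n hx0.ne']
    have g1 : (x - 8) ^ 2 * (x - 9) ^ 3 * (12 - x) ^ 6 / x ^ 6 ≤ 265 / 10 ^ 6 := by
      rw [div_le_iff₀ (by positivity)]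
      exact g_le_right hx.1 hx.2
    have g0 : 0 ≤ (x - 8) ^ 2 * (x - 9) ^ 3 * (12 - x) ^ 6 / x ^ 6 := by
      refine div_nonneg (mul_nonneg (mul_nonneg (by positivity) (pow_nonneg ?_ 3)) (pow_nonneg ?_ 6))
        (by positivity)
      · linarith [hx.1]
      · linarith [hx.2]
    have g2 := pow_le_pow_left₀ g0 g1 n
    have g3 := pow_nonneg g0 n
    generalize ((x - 8) ^ 2 * (x - 9) ^ 3 * (12 - x) ^ 6 / x ^ 6) ^ n = G at g2 g3
    constructor
    · exact div_nonneg g3 hx0.le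
    · exact div_le_div₀ (by positivity) g2 (by norm_num) hx.1
  have key2 : ∀ x ∈ Set.Icc (10 : ℝ) (51 / 5), (25 / 10 ^ 5 : ℝ) ^ n * (5 / 51) ≤ f n x := by
    intro x hx
    have hx0 : 0 < x := by linarith [hx.1]
    rw [f_eq' n hx0.ne']
    have g1 : 25 / 10 ^ 5 ≤ (x - 8) ^ 2 * (x - 9) ^ 3 * (12 - x) ^ 6 / x ^ 6 := by
      rw [le_div_iff₀ (by positivity)]
      exact g_ge hx.1 hx.2
    have g2 := pow_le_pow_left₀ (by norm_num) g1 n
    rw [div_eq_mul_inv]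
    refine mul_le_mul g2 ?_ (by norm_num) (le_trans (by positivity) g2)
    rw [show (5 / 51 : ℝ) = (51 / 5)⁻¹ by norm_num]
    exact inv_anti₀ hx0 hx.2
  have hi := f_int n (show (0 : ℝ) < 9 by norm_num) (show (9 : ℝ) ≤ 12 by norm_num)
  have hi1 := f_int n (show (0 : ℝ) < 9 by norm_num) (show (9 : ℝ) ≤ 10 by norm_num)
  have hi2 := f_int n (show (0 : ℝ) < 10 by norm_num) (show (10 : ℝ) ≤ 51 / 5 by norm_num)
  have hi3 := f_int n (show (0 : ℝ) < 51 / 5 by norm_num) (show (51 / 5 : ℝ) ≤ 12 by norm_num)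
  constructor
  · have s1 := intervalIntegral.integral_add_adjacent_intervals hi1 hi2
    have s2 := intervalIntegral.integral_add_adjacent_intervals (hi1.trans hi2) hi3
    have p1 : 0 ≤ ∫ x in (9 : ℝ)..10, f n x :=
      intervalIntegral.integral_nonneg (by norm_num)
        (fun x hx => (key x ⟨hx.1, by linarith [hx.2]⟩).1)
    have p3 : 0 ≤ ∫ x in (51 / 5 : ℝ)..12, f n x :=
      intervalIntegral.integral_nonneg (by norm_num)
        (fun x hx => (key x ⟨by linarith [hx.1], hx.2⟩).1)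
    have h := intervalIntegral.integral_mono_on (show (10 : ℝ) ≤ 51 / 5 by norm_num)
      (f := fun _ => ((25 / 10 ^ 5 : ℝ) ^ n * (5 / 51))) intervalIntegrable_const hi2 key2
    rw [intervalIntegral.integral_const, smul_eq_mul] at h
    have h5 : (51 / 5 - 10 : ℝ) * ((25 / 10 ^ 5 : ℝ) ^ n * (5 / 51)) =
        (25 / 10 ^ 5 : ℝ) ^ n / 51 := by ring
    rw [h5] at h
    linarith
  · have h := intervalIntegral.integral_mono_on (show (9 : ℝ) ≤ 12 by norm_num) hi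
      (g := fun _ => ((265 / 10 ^ 6 : ℝ) ^ n / 9)) intervalIntegrable_const
      (fun x hx => (key x hx).2)
    rw [intervalIntegral.integral_const, smul_eq_mul] at h
    have h9 : (12 - 9 : ℝ) * ((265 / 10 ^ 6 : ℝ) ^ n / 9) = (265 / 10 ^ 6 : ℝ) ^ n / 3 := by ring
    rw [h9] at h
    exact h

end Pool.Agent.MP_9e8697_nt
end

section

/-!
# An upper bound for lcm (1, ..., n)
-/

namespace Pool.Agent.MP_9e8697_nt

/-- Proof: `choose (6n) (3n) ≤ 2 ^ (6 n)`. -/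
theorem choose_le_one (n : ℕ) : Nat.choose (6 * n) (3 * n) ≤ 64 ^ n := by
  have h := Nat.choose_le_two_pow (6 * n) (3 * n)
  rw [pow_mul] at h
  exact h

/-- Proof: the term `choose (3n) n * 1 ^ n * 2 ^ (2 n)` of `(1 + 2) ^ (3 n)` (`add_pow`). -/
theorem choose_le_two (n : ℕ) : 4 ^ n * Nat.choose (3 * n) n ≤ 27 ^ n := by
  have h := add_pow 1 2 (3 * n)
  have h1 : (1 + 2 : ℕ) ^ (3 * n) = 27 ^ n := by
    rw [pow_mul]
    norm_num
  rw [h1] at h
  rw [h]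
  have h2 : 4 ^ n * Nat.choose (3 * n) n =
      1 ^ n * 2 ^ (3 * n - n) * (Nat.choose (3 * n) n : ℕ) := by
    rw [show 3 * n - n = 2 * n by omega, pow_mul, one_pow, one_mul]
    norm_num
  rw [h2]
  exact Finset.single_le_sum (f := fun m => 1 ^ m * 2 ^ (3 * n - m) * (Nat.choose (3 * n) m : ℕ))
    (fun _ _ => Nat.zero_le _) (Finset.mem_range.2 (by omega))

/-- Proof: the three previous statements. -/
theorem dl_six_le (n : ℕ) : dl (6 * n) ≤ dl n * 432 ^ n := by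
  have h1 := choose_le_one n
  have h2 := choose_le_two n
  have h3 := Nat.le_of_dvd (Nat.mul_pos (dl_pos n) (Nat.mul_pos
    (Nat.choose_pos (show 3 * n ≤ 6 * n by omega))
    (Nat.choose_pos (show n ≤ 3 * n by omega)))) (dl_six_dvd n)
  refine h3.trans (Nat.mul_le_mul_left _ ?_)
  have h4 : 16 ^ n * (4 ^ n * Nat.choose (3 * n) n) ≤ 16 ^ n * 27 ^ n := Nat.mul_le_mul_left _ h2
  have h5 : 64 ^ n = 16 ^ n * 4 ^ n := by
    rw [← mul_pow]
    norm_num
  have h6 : 432 ^ n = 16 ^ n * 27 ^ n := by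
    rw [← mul_pow]
    norm_num
  calc Nat.choose (6 * n) (3 * n) * Nat.choose (3 * n) n
      ≤ 64 ^ n * Nat.choose (3 * n) n := Nat.mul_le_mul_right _ h1
    _ = 16 ^ n * (4 ^ n * Nat.choose (3 * n) n) := by rw [h5]; ring
    _ ≤ 432 ^ n := by rw [h6]; exact h4

private theorem dl_succ (k : ℕ) : dl (k + 1) = Nat.lcm (dl k) (k + 1) := by
  unfold dl
  have : Finset.Icc 1 (k + 1) = insert (k + 1) (Finset.Icc 1 k) := by
    ext j
    rw [Finset.mem_insert, Finset.mem_Icc, Finset.mem_Icc]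
    omega
  rw [this, Finset.lcm_insert]
  simp only [id]
  rw [lcm_comm]
  rfl

/-- carries `lcm (1, ..., k)`, `5 ^ k`, `17 ^ k` and a flag -/
private def stepL : ℕ → ℕ × ℕ × ℕ × Bool
  | 0 => (1, 1, 1, true)
  | k + 1 =>
    let r := stepL k
    let a := Nat.lcm r.1 (k + 1)
    let b := r.2.1 * 5
    let c := r.2.2.1 * 17
    (a, b, c, r.2.2.2 && Nat.ble (a * b) c)

private theorem stepL_spec (k : ℕ) : (stepL k).1 = dl k ∧ (stepL k).2.1 = 5 ^ k ∧
    (stepL k).2.2.1 = 17 ^ k ∧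
    ((stepL k).2.2.2 = true → ∀ j ≤ k, dl j * 5 ^ j ≤ 17 ^ j) := by
  induction k with
  | zero =>
    refine ⟨rfl, rfl, rfl, ?_⟩
    intro _ j hj
    obtain rfl : j = 0 := by omega
    simp [dl]
  | succ k ih =>
    obtain ⟨h1, h2, h3, h4⟩ := ih
    have e1 : (stepL (k + 1)).1 = dl (k + 1) := by
      rw [dl_succ, ← h1]
      rfl
    have e2 : (stepL (k + 1)).2.1 = 5 ^ (k + 1) := by
      rw [pow_succ, ← h2]
      rfl
    have e3 : (stepL (k + 1)).2.2.1 = 17 ^ (k + 1) := by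
      rw [pow_succ, ← h3]
      rfl
    refine ⟨e1, e2, e3, ?_⟩
    intro hf j hj
    have hf' : ((stepL k).2.2.2 && Nat.ble ((stepL (k + 1)).1 * (stepL (k + 1)).2.1)
        (stepL (k + 1)).2.2.1) = true := hf
    rw [Bool.and_eq_true] at hf'
    rcases Nat.lt_or_ge j (k + 1) with hlt | hge
    · exact h4 hf'.1 j (by omega)
    · obtain rfl : j = k + 1 := by omega
      have := Nat.le_of_ble_eq_true hf'.2
      rw [e1, e2, e3] at this
      exact this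

private theorem stepL_chk : (stepL 731).2.2.2 = true := by
  decide +kernel

private theorem num_chk : 7344 ^ 122 * 5 ^ (5 * 122) * 17 ^ 5 ≤ 17 ^ (6 * 122) * 5 ^ 5 := by
  decide +kernel

private theorem num_step (m : ℕ) (hm : 122 ≤ m) :
    7344 ^ m * 5 ^ (5 * m) * 17 ^ 5 ≤ 17 ^ (6 * m) * 5 ^ 5 := by
  induction m, hm using Nat.le_induction with
  | base => exact num_chk
  | succ m _ ih =>
    have h1 : 7344 ^ (m + 1) * 5 ^ (5 * (m + 1)) * 17 ^ 5 =
        (7344 * 5 ^ 5) * (7344 ^ m * 5 ^ (5 * m) * 17 ^ 5) := by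
      rw [mul_add 5 m 1, pow_add 5 (5 * m) (5 * 1), pow_succ 7344 m, mul_one]
      ring
    have h2 : 17 ^ (6 * (m + 1)) * 5 ^ 5 = 17 ^ 6 * (17 ^ (6 * m) * 5 ^ 5) := by
      rw [mul_add 6 m 1, pow_add 17 (6 * m) (6 * 1), mul_one]
      ring
    rw [h1, h2]
    exact Nat.mul_le_mul (by norm_num) ih

/-- Proof: strong induction. For `n < 732` by kernel computation: define
`L 0 = 1`, `L (k + 1) = Nat.lcm (L k) (k + 1)`, so `dl k = L k`, and check `L k * 5 ^ k ≤ 17 ^ k` for all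
`k < 732` with `decide +kernel` (e.g. through a fold which carries the pair
`(L k, flag)`). For `n ≥ 732` put `m = (n + 5) / 6`, so `n ≤ 6 m ≤ n + 5`, `122 ≤ m < n`:
`dl n ≤ dl (6 m) ≤ dl m * 432 ^ m`, and by induction `dl m * 5 ^ m ≤ 17 ^ m`. So it is enough that
`(17 * 432) ^ m * 5 ^ n ≤ 17 ^ n * 5 ^ m`; it is enough to show this for `n = 6 m - 5` (the
quotient `17 / 5` is `> 1`): `7344 ^ m * 5 ^ (5 m) * 17 ^ 5 ≤ 17 ^ (6 m) * 5 ^ 5`, by induction on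
`m ≥ 122` (true for `m = 122`, and `7344 * 5 ^ 5 ≤ 17 ^ 6`). -/
theorem dl_le (n : ℕ) : dl n * 5 ^ n ≤ 17 ^ n := by
  induction n using Nat.strong_induction_on with
  | _ n ih =>
    rcases Nat.lt_or_ge n 732 with hn | hn
    · exact (stepL_spec 731).2.2.2 stepL_chk n (by omega)
    · obtain ⟨m, hm1, hm2, hm3, hm4⟩ : ∃ m, n ≤ 6 * m ∧ 6 * m ≤ n + 5 ∧ 122 ≤ m ∧ m < n :=
        ⟨(n + 5) / 6, by omega, by omega, by omega, by omega⟩
      have h1 : dl n ≤ dl m * 432 ^ m := (dl_mono hm1).trans (dl_six_le m)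
      have h2 := ih m hm4
      have h3 := num_step m hm3
      obtain ⟨r, hr⟩ : ∃ r, n + 5 = 6 * m + r := ⟨n + 5 - 6 * m, by omega⟩
      have h5 : 0 < 5 ^ m * 17 ^ 5 * 5 ^ 5 := by positivity
      apply Nat.le_of_mul_le_mul_right _ h5
      have h6 : (17 * 432) ^ m = 7344 ^ m := by norm_num
      have h7 : 5 ^ n * 5 ^ 5 = 5 ^ (6 * m) * 5 ^ r := by
        rw [← pow_add, ← pow_add, hr]
      have h8 : 17 ^ n * 17 ^ 5 = 17 ^ (6 * m) * 17 ^ r := by
        rw [← pow_add, ← pow_add, hr]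
      have h9 : (5 : ℕ) ^ r ≤ 17 ^ r := Nat.pow_le_pow_left (by norm_num) r
      have h10 : (5 : ℕ) ^ (6 * m) = 5 ^ (5 * m) * 5 ^ m := by
        rw [← pow_add]
        congr 1
        ring
      calc dl n * 5 ^ n * (5 ^ m * 17 ^ 5 * 5 ^ 5)
          = dl n * (5 ^ n * 5 ^ 5) * (5 ^ m * 17 ^ 5) := by ring
        _ ≤ (dl m * 432 ^ m) * (5 ^ n * 5 ^ 5) * (5 ^ m * 17 ^ 5) :=
            Nat.mul_le_mul_right _ (Nat.mul_le_mul_right _ h1)
        _ = (dl m * 5 ^ m) * (432 ^ m * (5 ^ (6 * m) * 5 ^ r) * 17 ^ 5) := by rw [h7]; ring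
        _ ≤ 17 ^ m * (432 ^ m * (5 ^ (6 * m) * 5 ^ r) * 17 ^ 5) := Nat.mul_le_mul_right _ h2
        _ = (17 * 432) ^ m * 5 ^ (6 * m) * 17 ^ 5 * 5 ^ r := by rw [mul_pow]; ring
        _ = (7344 ^ m * 5 ^ (5 * m) * 17 ^ 5) * (5 ^ m * 5 ^ r) := by rw [h6, h10]; ring
        _ ≤ (17 ^ (6 * m) * 5 ^ 5) * (5 ^ m * 17 ^ r) :=
            Nat.mul_le_mul h3 (Nat.mul_le_mul_left _ h9)
        _ = (17 ^ (6 * m) * 17 ^ r) * (5 ^ m * 5 ^ 5) := by ring
        _ = 17 ^ n * (5 ^ m * 17 ^ 5 * 5 ^ 5) := by rw [← h8]; ring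

end Pool.Agent.MP_9e8697_nt
end

section

/-!
# The coefficient
-/

open Polynomial

namespace Pool.Agent.MP_9e8697_nt

private theorem polyB_mul {p q : ℤ[X]} (hp : ∀ i, 0 ≤ p.coeff i) (hq : ∀ i, 0 ≤ q.coeff i) :
    ∀ i, 0 ≤ (p * q).coeff i := by
  intro i
  rw [coeff_mul]
  exact Finset.sum_nonneg fun x _ => mul_nonneg (hp _) (hq _)

private theorem polyB_pow {p : ℤ[X]} (hp : ∀ i, 0 ≤ p.coeff i) (k : ℕ) :
    ∀ i, 0 ≤ (p ^ k).coeff i := by
  induction k with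
  | zero =>
    intro i
    rw [pow_zero, coeff_one]
    split_ifs <;> norm_num
  | succ k ih =>
    rw [pow_succ]
    exact polyB_mul ih hp

private theorem polyB_lin (c : ℕ) : ∀ i, 0 ≤ (X + C (c : ℤ) : ℤ[X]).coeff i := by
  intro i
  rw [coeff_add, coeff_X, coeff_C]
  split_ifs <;> positivity

private theorem polyB_le {p : ℤ[X]} (hp : ∀ i, 0 ≤ p.coeff i) (j : ℕ) :
    p.coeff j * 12 ^ j ≤ p.eval 12 := by
  by_cases hj : j ≤ p.natDegree
  · rw [eval_eq_sum_range]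
    exact Finset.single_le_sum (f := fun i => p.coeff i * 12 ^ i)
      (fun i _ => mul_nonneg (hp i) (by positivity)) (Finset.mem_range.2 (by omega))
  · rw [coeff_eq_zero_of_natDegree_lt (by omega), zero_mul, eval_eq_sum_range]
    exact Finset.sum_nonneg fun i _ => mul_nonneg (hp i) (by positivity)

/-- Proof: `(P n).comp (-X) = ± Q` with `Q = (X + 8)^(2n) (X + 9)^(3n) (X + 12)^(6n)`, so
`|(P n).coeff j| = Q.coeff j` (`Polynomial.comp_neg_X_coeff`; `(-1)^j`), the coefficients of `Q` are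
nonnegative, and `Q.coeff (6 n) * 12 ^ (6 n) ≤ Q.eval 12 = (20^2 * 21^3 * 24^6)^n`. Finally
`20^2 * 21^3 * 24^6 / 12^6 = 237081600`. -/
theorem coeff_abs_le (n : ℕ) : |((P n).coeff (6 * n) : ℝ)| ≤ 237081600 ^ n := by
  set Q : ℤ[X] := (X + C ((8 : ℕ) : ℤ)) ^ (2 * n) * (X + C ((9 : ℕ) : ℤ)) ^ (3 * n) *
    (X + C ((12 : ℕ) : ℤ)) ^ (6 * n) with hQ
  have hQ0 : ∀ i, 0 ≤ Q.coeff i :=
    polyB_mul (polyB_mul (polyB_pow (polyB_lin 8) _) (polyB_pow (polyB_lin 9) _))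
      (polyB_pow (polyB_lin 12) _)
  have h1 : (P n).comp (-X) = C ((-1) ^ (11 * n)) * Q := by
    have h8 : ∀ c : ℤ, ((X : ℤ[X]) - C c).comp (-X) = C (-1) * (X + C c) := by
      intro c
      rw [sub_comp, X_comp, C_comp, C_neg, C_1]
      ring
    rw [P, mul_comp, mul_comp, pow_comp, pow_comp, pow_comp, h8, h8, h8, mul_pow, mul_pow, mul_pow,
      hQ, C_pow, show 11 * n = 2 * n + 3 * n + 6 * n by ring, pow_add, pow_add]
    push_cast
    ring
  have h2 : |(P n).coeff (6 * n)| = Q.coeff (6 * n) := by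
    have h3 := congrArg (fun p => |p.coeff (6 * n)|) h1
    simp only [coeff_C_mul, abs_mul, abs_pow, abs_neg, abs_one, one_pow, one_mul] at h3
    rw [abs_of_nonneg (hQ0 _)] at h3
    have hX : (-X : ℤ[X]) = C (-1) * X := by
      rw [C_neg, C_1]
      ring
    rw [← h3, hX, comp_C_mul_X_coeff, abs_mul, abs_pow, abs_neg, abs_one, one_pow, mul_one]
  have h4 := polyB_le hQ0 (6 * n)
  have h5 : Q.eval 12 = (237081600 : ℤ) ^ n * 12 ^ (6 * n) := by
    rw [hQ]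
    simp only [eval_mul, eval_pow, eval_add, eval_X, eval_C]
    rw [pow_mul, pow_mul, pow_mul, pow_mul, ← mul_pow, ← mul_pow, ← mul_pow]
    norm_num
  rw [h5] at h4
  have h6 : Q.coeff (6 * n) ≤ (237081600 : ℤ) ^ n :=
    le_of_mul_le_mul_right h4 (by positivity)
  have h7 : |(P n).coeff (6 * n)| ≤ (237081600 : ℤ) ^ n := by rw [h2]; exact h6
  exact_mod_cast h7

end Pool.Agent.MP_9e8697_nt
end
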