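import Pool.Agent.Lib.MP_9e8697_nt.Sum

section

/-!
# Sums over disjoint cycles
-/

open Function

namespace Pool.Agent.MP_9e8697_nt

/-- `S` is a set of representatives of different cycles of length at most `N`. -/
structure Reps (N : ℕ) (S : Finset ℕ) : Prop where
  pos : ∀ x ∈ S, 0 < x
  per : ∀ x ∈ S, 0 < minimalPeriod T x
  le : ∀ x ∈ S, minimalPeriod T x ≤ N
  dis : ∀ x ∈ S, ∀ y ∈ S, ∀ k, T^[k] x = y → x = y

/-- Different pairs (element of `S`, index below the period) give different integers.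
Proof: if `T^[i] x = T^[j] y` then
`x = T^[p] x = T^[p - i] (T^[i] x) = T^[p - i + j] y`, so `y = x` by `dis`, and `i = j` by
`Function.iterate_injOn_Iio_minimalPeriod`. -/
theorem Reps.inj {N : ℕ} {S : Finset ℕ} (h : Reps N S) {x y i j : ℕ} (hx : x ∈ S) (hy : y ∈ S)
    (hi : i < minimalPeriod T x) (hj : j < minimalPeriod T y) (he : T^[i] x = T^[j] y) :
    x = y ∧ i = j := by
  have hxy : y = x := by
    refine h.dis y hy x hx (minimalPeriod T x - i + j) ?_
    rw [Function.iterate_add_apply, ← he, ← Function.iterate_add_apply,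
      Nat.sub_add_cancel hi.le, Function.iterate_minimalPeriod]
  subst hxy
  refine ⟨rfl, ?_⟩
  exact Function.iterate_injOn_Iio_minimalPeriod hi hj he

/-- The sum of `|Λ|` over disjoint cycles.
Proof: `abs_Lam_le` with `p = minimalPeriod T x` (`Function.iterate_minimalPeriod`); the sum over the
pairs `(x, i)` with `T^[i] x ≤ Y` is at most `∑_{v = 1}^{Y} 1 / (3 v - 1)` by `Reps.inj`, and this is
`≤ ∑_{v = 1}^{Y} 1 / (2 v) ≤ (1 + log Y) / 2` (`harmonic_le_one_add_log`); the other pairs, at most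
`S.card * N`, contribute at most `1 / (3 Y - 1) ≤ 1 / (2 Y)` each. -/
theorem Reps.sum_abs_Lam_le {N : ℕ} {S : Finset ℕ} (h : Reps N S) {Y : ℕ} (hY : 1 ≤ Y) :
    ∑ x ∈ S, |Lam (minimalPeriod T x) (odds x (minimalPeriod T x))| ≤
      (1 + Real.log Y) / 2 + S.card * N / (2 * Y) := by
  have hYR : (1 : ℝ) ≤ Y := by exact_mod_cast hY
  have hY0 : (0 : ℝ) < Y := by linarith
  -- the set of pairs
  set P : Finset (Σ _ : ℕ, ℕ) := S.sigma (fun x => Finset.range (minimalPeriod T x)) with hP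
  have hterm : ∀ v : ℕ, 0 < v → (1 : ℝ) / (3 * (v : ℝ) - 1) ≤ 1 / (2 * v) := by
    intro v hv
    have hvR : (1 : ℝ) ≤ v := by exact_mod_cast hv
    apply one_div_le_one_div_of_le (by linarith)
    linarith
  have hnn : ∀ v : ℕ, 0 < v → (0 : ℝ) ≤ 1 / (2 * (v : ℝ)) := by
    intro v hv
    positivity
  have hval : ∀ q ∈ P, 0 < T^[q.2] q.1 := by
    intro q hq
    rw [hP, Finset.mem_sigma] at hq
    exact iterate_pos (h.pos _ hq.1) _
  have h1 : ∑ x ∈ S, |Lam (minimalPeriod T x) (odds x (minimalPeriod T x))| ≤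
      ∑ q ∈ P, (1 : ℝ) / (2 * (T^[q.2] q.1 : ℝ)) := by
    rw [hP, Finset.sum_sigma]
    apply Finset.sum_le_sum
    intro x hx
    refine (abs_Lam_le (h.pos x hx) (Function.iterate_minimalPeriod)).trans ?_
    refine (Finset.sum_le_sum_of_subset_of_nonneg (Finset.filter_subset _ _) ?_).trans ?_
    · intro i _ _
      have h2 : (1 : ℝ) ≤ (T^[i] x : ℕ) := by
        exact_mod_cast iterate_pos (h.pos x hx) i
      have h3 : (0 : ℝ) < 3 * ((T^[i] x : ℕ) : ℝ) - 1 := by linarith
      positivity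
    · apply Finset.sum_le_sum
      intro i _
      exact hterm _ (iterate_pos (h.pos x hx) i)
  refine h1.trans ?_
  rw [← Finset.sum_filter_add_sum_filter_not P (fun q => T^[q.2] q.1 ≤ Y)]
  apply add_le_add
  · -- small values
    have h2 : ∑ q ∈ P.filter (fun q => T^[q.2] q.1 ≤ Y), (1 : ℝ) / (2 * (T^[q.2] q.1 : ℝ))
        = ∑ v ∈ (P.filter (fun q => T^[q.2] q.1 ≤ Y)).image (fun q => T^[q.2] q.1),
          (1 : ℝ) / (2 * (v : ℝ)) := by
      rw [Finset.sum_image]
      intro q hq q' hq' he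
      have hq1 := Finset.mem_sigma.mp (Finset.mem_filter.mp (Finset.mem_coe.mp hq)).1
      have hq1' := Finset.mem_sigma.mp (Finset.mem_filter.mp (Finset.mem_coe.mp hq')).1
      obtain ⟨e1, e2⟩ := h.inj hq1.1 hq1'.1 (Finset.mem_range.mp hq1.2)
        (Finset.mem_range.mp hq1'.2) he
      rcases q with ⟨a, b⟩
      rcases q' with ⟨a', b'⟩
      simp only at e1 e2
      subst e1 e2
      rfl
    rw [h2]
    have h3 : (P.filter (fun q => T^[q.2] q.1 ≤ Y)).image (fun q => T^[q.2] q.1)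
        ⊆ Finset.Icc 1 Y := by
      intro v hv
      rw [Finset.mem_image] at hv
      obtain ⟨q, hq, rfl⟩ := hv
      rw [Finset.mem_filter] at hq
      exact Finset.mem_Icc.mpr ⟨hval q hq.1, hq.2⟩
    refine (Finset.sum_le_sum_of_subset_of_nonneg h3 ?_).trans ?_
    · intro v hv _
      exact hnn v (Finset.mem_Icc.mp hv).1
    · have h4 : ∑ v ∈ Finset.Icc 1 Y, (1 : ℝ) / (2 * (v : ℝ)) = ((harmonic Y : ℚ) : ℝ) / 2 := by
        rw [harmonic_eq_sum_Icc]
        push_cast
        rw [Finset.sum_div]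
        apply Finset.sum_congr rfl
        intro v hv
        have hv0 : (v : ℝ) ≠ 0 := by
          have := (Finset.mem_Icc.mp hv).1
          positivity
        field_simp
      rw [h4]
      have h5 := harmonic_le_one_add_log Y
      linarith
  · -- large values
    have h2 : ∀ q ∈ P.filter (fun q => ¬ T^[q.2] q.1 ≤ Y),
        (1 : ℝ) / (2 * (T^[q.2] q.1 : ℝ)) ≤ 1 / (2 * (Y : ℝ)) := by
      intro q hq
      have h3 : Y < T^[q.2] q.1 := not_le.mp (Finset.mem_filter.mp hq).2
      have h4 : (Y : ℝ) ≤ (T^[q.2] q.1 : ℕ) := by exact_mod_cast h3.le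
      apply one_div_le_one_div_of_le (by linarith)
      linarith
    refine (Finset.sum_le_card_nsmul _ _ _ h2).trans ?_
    rw [nsmul_eq_mul]
    have h5 : (P.filter (fun q => ¬ T^[q.2] q.1 ≤ Y)).card ≤ S.card * N := by
      refine (Finset.card_filter_le _ _).trans ?_
      rw [hP, Finset.card_sigma]
      calc ∑ x ∈ S, (Finset.range (minimalPeriod T x)).card ≤ ∑ _x ∈ S, N := by
            apply Finset.sum_le_sum
            intro x hx
            rw [Finset.card_range]
            exact h.le x hx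
        _ = S.card * N := by rw [Finset.sum_const, smul_eq_mul]
    have h6 : ((P.filter (fun q => ¬ T^[q.2] q.1 ≤ Y)).card : ℝ) ≤ (S.card : ℝ) * N := by
      exact_mod_cast h5
    rw [mul_one_div]
    gcongr

end Pool.Agent.MP_9e8697_nt
end

section

/-!
# The number of cycles
-/

open Function

namespace Pool.Agent.MP_9e8697_nt

/-- The number of cycles of length at most `N`.
Proof: for `x ∈ S` let `m x` be the smallest of the `T^[i] x`, `i < p`. By `abs_Lam_le`
`c / N ^ κ ≤ c / p ^ κ ≤ |Lam| ≤ p / (3 m - 1) ≤ N / (2 m)`, so `m ≤ N ^ (κ + 1) / (2 c)`; and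
`m` is injective on `S` (`Reps.inj`), with positive values. -/
theorem Reps.card_le {N : ℕ} {S : Finset ℕ} (h : Reps N S) {c : ℝ} (hc : 0 < c) {κ : ℕ}
    (hm : ∀ p b : ℕ, 1 ≤ p → c / (p : ℝ) ^ κ ≤ |(p : ℝ) * Real.log 3 - b * Real.log 2|) :
    (S.card : ℝ) ≤ (N : ℝ) ^ (κ + 1) / (2 * c) := by
  classical
  have hex : ∀ x : ℕ, ∃ i : ℕ, x ∈ S → (i < minimalPeriod T x ∧
      ∀ j < minimalPeriod T x, T^[i] x ≤ T^[j] x) := by
    intro x
    by_cases hx : x ∈ S
    · obtain ⟨i, hi, hmin⟩ := Finset.exists_min_image (Finset.range (minimalPeriod T x))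
        (fun i => T^[i] x) ⟨0, Finset.mem_range.mpr (h.per x hx)⟩
      exact ⟨i, fun _ => ⟨Finset.mem_range.mp hi,
        fun j hj => hmin j (Finset.mem_range.mpr hj)⟩⟩
    · exact ⟨0, fun h' => absurd h' hx⟩
  choose i₀ hi₀ using hex
  set m : ℕ → ℕ := fun x => T^[i₀ x] x with hmdef
  have hbound : ∀ x ∈ S, ((m x : ℕ) : ℝ) ≤ (N : ℝ) ^ (κ + 1) / (2 * c) := by
    intro x hx
    obtain ⟨hi, hmin⟩ := hi₀ x hx
    have hm0 : 0 < m x := iterate_pos (h.pos x hx) _
    have hmR : (1 : ℝ) ≤ (m x : ℕ) := by exact_mod_cast hm0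
    have hp1 : 1 ≤ minimalPeriod T x := h.per x hx
    have hpR : (1 : ℝ) ≤ (minimalPeriod T x : ℕ) := by exact_mod_cast hp1
    have hpN : ((minimalPeriod T x : ℕ) : ℝ) ≤ N := by exact_mod_cast h.le x hx
    have hNR : (1 : ℝ) ≤ N := le_trans hpR hpN
    have h1 : c / (N : ℝ) ^ κ ≤ c / ((minimalPeriod T x : ℕ) : ℝ) ^ κ := by
      apply div_le_div_of_nonneg_left hc.le (by positivity)
      exact pow_le_pow_left₀ (by linarith) hpN κ
    have h2 := hm (minimalPeriod T x) (minimalPeriod T x + odds x (minimalPeriod T x)) hp1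
    have h3 := abs_Lam_le (h.pos x hx) (Function.iterate_minimalPeriod (f := T) (x := x))
    have h4 : ∑ i ∈ (Finset.range (minimalPeriod T x)).filter (fun i => T^[i] x % 2 = 1),
        1 / (3 * (T^[i] x : ℝ) - 1) ≤ (N : ℝ) * (1 / (2 * ((m x : ℕ) : ℝ))) := by
      refine (Finset.sum_le_card_nsmul _ _ (1 / (2 * ((m x : ℕ) : ℝ))) ?_).trans ?_
      · intro j hj
        have hj' := Finset.mem_range.mp (Finset.mem_filter.mp hj).1
        have h5 : ((m x : ℕ) : ℝ) ≤ (T^[j] x : ℕ) := by exact_mod_cast hmin j hj'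
        apply one_div_le_one_div_of_le (by linarith)
        linarith
      · rw [nsmul_eq_mul]
        apply mul_le_mul_of_nonneg_right _ (by positivity)
        refine le_trans ?_ hpN
        have h6 := Finset.card_filter_le (Finset.range (minimalPeriod T x))
          (fun i => T^[i] x % 2 = 1)
        rw [Finset.card_range] at h6
        exact_mod_cast h6
    have h5 : |Lam (minimalPeriod T x) (odds x (minimalPeriod T x))| =
        |((minimalPeriod T x : ℕ) : ℝ) * Real.log 3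
          - ((minimalPeriod T x + odds x (minimalPeriod T x) : ℕ) : ℝ) * Real.log 2| := by
      unfold Lam
      push_cast
      rfl
    have h6 : c / (N : ℝ) ^ κ ≤ (N : ℝ) * (1 / (2 * ((m x : ℕ) : ℝ))) := by
      refine h1.trans (h2.trans ?_)
      rw [← h5]
      exact h3.trans h4
    rw [le_div_iff₀ (by positivity)]
    rw [mul_one_div, div_le_div_iff₀ (by positivity) (by positivity)] at h6
    calc ((m x : ℕ) : ℝ) * (2 * c) = c * (2 * ((m x : ℕ) : ℝ)) := by ring
      _ ≤ (N : ℝ) * (N : ℝ) ^ κ := h6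
      _ = (N : ℝ) ^ (κ + 1) := by ring
  have hinj : Set.InjOn m (S : Set ℕ) := by
    intro x hx y hy he
    exact (h.inj hx hy (hi₀ x hx).1 (hi₀ y hy).1 he).1
  have hsub : S.image m ⊆ Finset.Icc 1 ⌊(N : ℝ) ^ (κ + 1) / (2 * c)⌋₊ := by
    intro v hv
    obtain ⟨x, hx, rfl⟩ := Finset.mem_image.mp hv
    exact Finset.mem_Icc.mpr ⟨iterate_pos (h.pos x hx) _, Nat.le_floor (hbound x hx)⟩
  have hcard := Finset.card_le_card hsub
  rw [Finset.card_image_of_injOn hinj, Nat.card_Icc, Nat.add_sub_cancel] at hcard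
  calc (S.card : ℝ) ≤ (⌊(N : ℝ) ^ (κ + 1) / (2 * c)⌋₊ : ℝ) := by exact_mod_cast hcard
    _ ≤ (N : ℝ) ^ (κ + 1) / (2 * c) := Nat.floor_le (by positivity)

end Pool.Agent.MP_9e8697_nt
end
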